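import Pool.Agent.Lib.MP_6e7c44_mp.LA.Defs

/-! From the reduced system back to the three-body problem. -/

set_option autoImplicit false

open Set Complex Filter Topology

noncomputable section

namespace Pool.Agent.Lib.MP_6e7c44_mp.LA

/-- The acceleration of body `a`. -/
def bkAcc (m : Fin 3 → ℝ) (Q : Fin 3 → ℂ) (a : Fin 3) : ℂ :=
  ∑ b ∈ Finset.univ.erase a, (m b / ‖Q b - Q a‖ ^ 3) • (Q b - Q a)

lemma bk_hd_glue {f g : ℝ → ℂ} {f' g' : ℂ} {c t : ℝ} (hf : t ≤ c → HasDerivAt f f' t)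
    (hg : c ≤ t → HasDerivAt g g' (t - c)) (h0 : g 0 = f c) (h1 : t = c → g' = f') :
    HasDerivAt (fun s => if s ≤ c then f s else g (s - c)) (if t ≤ c then f' else g') t := by
  have hg' : c ≤ t → HasDerivAt (fun s => g (s - c)) g' t := fun h => (hg h).comp_sub_const t c
  rcases lt_trichotomy t c with h | h | h
  · rw [if_pos h.le]
    refine (hf h.le).congr_of_eventuallyEq ?_
    filter_upwards [Iio_mem_nhds h] with s hs
    exact if_pos (le_of_lt hs)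
  · subst h
    rw [if_pos le_rfl]
    have a1 : HasDerivWithinAt (fun s => if s ≤ t then f s else g (s - t)) f' (Iic t) t :=
      (hf le_rfl).hasDerivWithinAt.congr (fun s hs => if_pos hs) (if_pos le_rfl)
    have a2 : HasDerivWithinAt (fun s => if s ≤ t then f s else g (s - t)) f' (Ici t) t := by
      have e : ∀ s ∈ Ici t, (if s ≤ t then f s else g (s - t)) = g (s - t) := fun s hs => by
        split_ifs with h2
        · have : s = t := le_antisymm h2 hs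
          rw [this, sub_self, h0]
        · rfl
      exact (h1 rfl ▸ (hg' le_rfl).hasDerivWithinAt).congr e (e t self_mem_Ici)
    have a3 := a1.union a2
    rwa [Iic_union_Ici, hasDerivWithinAt_univ] at a3
  · rw [if_neg (not_le.mpr h)]
    refine (hg' h.le).congr_of_eventuallyEq ?_
    filter_upwards [Ioi_mem_nhds h] with s hs
    exact if_neg (not_le.mpr hs)

lemma bk_glue {m : Fin 3 → ℝ} {Q V : ℝ → Fin 3 → ℂ} {c : ℝ} (h0 : 0 ≤ c)
    (hd : ∀ t ∈ Icc 0 c, ∀ a, HasDerivAt (fun s => Q s a) (V t a) t ∧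
      HasDerivAt (fun s => V s a) (bkAcc m (Q t) a) t)
    (hc : ∀ t ∈ Icc 0 c, ∀ a b, a ≠ b → Q t a ≠ Q t b) (he : (Q c, V c) ∈ Esc m) :
    (Q 0, V 0) ∈ Esc m := by
  obtain ⟨Q2, V2, e0, e1, k, kc, a0, b0, kt⟩ := he
  refine ⟨fun s a => if s ≤ c then Q s a else Q2 (s - c) a,
    fun s a => if s ≤ c then V s a else V2 (s - c) a, by simp [h0], by simp [h0],
    fun t ht a => ⟨?_, ?_⟩, fun t ht a b hab => ?_, a0, b0, ?_⟩
  · exact bk_hd_glue (g := fun s => Q2 s a) (fun h => (hd t ⟨ht, h⟩ a).1)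
      (fun h => (k _ (sub_nonneg.mpr h) a).1) (by rw [e0]) (fun h => by rw [h, sub_self, e1])
  · have := bk_hd_glue (g := fun s => V2 s a) (g' := bkAcc m (Q2 (t - c)) a)
      (fun h => (hd t ⟨ht, h⟩ a).2)
      (fun h => (k _ (sub_nonneg.mpr h) a).2) (by rw [e1]) (fun h => by rw [h, sub_self, e0])
    refine hd_congr this (fun _ => rfl) ?_
    by_cases h : t ≤ c <;> simp only [h, if_true, if_false, bkAcc]
  · by_cases h : t ≤ c
    · simp only [h, if_true]; exact hc t ⟨ht, h⟩ a b hab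
    · simp only [h, if_false]; exact kc _ (by linarith [not_le.mp h]) a b hab
  · refine ((kt.comp (tendsto_atTop_add_const_right atTop (-c) tendsto_id))).congr' ?_
    filter_upwards [eventually_gt_atTop c] with s hs
    simp [not_le.mpr hs, sub_eq_add_neg]

lemma bk_clock {G : ℝ → ℝ} (hG : Continuous G) {T : ℝ} (hT : 0 ≤ T) (g0 : ∀ t ∈ Icc 0 T, 0 < G t) :
    ∃ (σ : ℝ → ℝ) (c : ℝ), 0 ≤ c ∧ σ 0 = 0 ∧ σ c = T ∧
      ∀ t ∈ Icc 0 c, σ t ∈ Icc 0 T ∧ HasDerivAt σ (G (σ t))⁻¹ t := by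
  obtain ⟨s0, hs0, hmin⟩ := isCompact_Icc.exists_isMinOn (nonempty_Icc.mpr hT) hG.continuousOn
  have d0 := g0 s0 hs0
  let H : ℝ → ℝ := fun s => G (max 0 (min s T))
  have hH : Continuous H := by fun_prop
  have cl : ∀ s, max 0 (min s T) ∈ Icc 0 T := fun s =>
    ⟨le_max_left _ _, max_le hT (min_le_right _ _)⟩
  have H0 : ∀ s, G s0 ≤ H s := fun s => hmin (cl s)
  have H1 : ∀ s ∈ Icc 0 T, H s = G s := fun s hs => by
    simp only [H, min_eq_left hs.2, max_eq_right hs.1]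
  let F : ℝ → ℝ := fun u => ∫ s in (0 : ℝ)..u, H s
  have hF : ∀ u, HasDerivAt F (H u) u := fun u => (hH.integral_hasStrictDerivAt 0 u).hasDerivAt
  have F0 : F 0 = 0 := by simp [F]
  have m1 : StrictMono F := strictMono_of_deriv_pos fun u => by
    rw [(hF u).deriv]; exact d0.trans_le (H0 u)
  have m2 : Monotone fun u => F u - G s0 * u := by
    have : ∀ u, HasDerivAt (fun u => F u - G s0 * u) (H u - G s0 * 1) u := fun u =>
      (hF u).sub ((hasDerivAt_id u).const_mul _)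
    exact monotone_of_deriv_nonneg (fun u => (this u).differentiableAt) fun u => by
      rw [(this u).deriv]; linarith [H0 u]
  have sj : Function.Surjective F := by
    refine Continuous.surjective (continuous_iff_continuousAt.mpr fun u => (hF u).continuousAt) ?_ ?_
    · refine tendsto_atTop_mono' _ ?_ (Tendsto.const_mul_atTop d0 tendsto_id)
      filter_upwards [eventually_ge_atTop 0] with u hu
      have := m2 hu
      simp only [F0] at this
      simp only [id]; linarith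
    · refine tendsto_atBot_mono' _ ?_ (Tendsto.const_mul_atBot d0 tendsto_id)
      filter_upwards [eventually_le_atBot 0] with u hu
      have := m2 hu
      simp only [F0] at this
      simp only [id]; linarith
  let e := m1.orderIsoOfSurjective F sj
  have e1 : ∀ u, e.symm (F u) = u := fun u => e.symm_apply_apply u
  have e2 : ∀ t, F (e.symm t) = t := fun t => e.apply_symm_apply t
  refine ⟨e.symm, F T, F0 ▸ m1.monotone hT, by rw [← F0, e1, F0], e1 T, fun t ht => ?_⟩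
  have hm : e.symm t ∈ Icc 0 T :=
    ⟨m1.le_iff_le.mp (by rw [e2, F0]; exact ht.1), m1.le_iff_le.mp (by rw [e2]; exact ht.2)⟩
  refine ⟨hm, ?_⟩
  rw [← H1 _ hm]
  exact HasDerivAt.of_local_left_inverse e.symm.continuous.continuousAt (hF _)
    (d0.trans_le (H0 _)).ne' (Eventually.of_forall e2)

lemma bk_time {m : Fin 3 → ℝ} {A B : ℝ → Fin 3 → ℂ} {G : ℝ → ℝ} (hG : Continuous G) {T : ℝ}
    (hT : 0 ≤ T) (g0 : ∀ t ∈ Icc 0 T, 0 < G t)
    (hd : ∀ t a, HasDerivAt (fun s => A s a) (G t • B t a) t ∧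
      HasDerivAt (fun s => B s a) (G t • bkAcc m (A t) a) t)
    (hc : ∀ t a b, a ≠ b → A t a ≠ A t b) (he : (A T, B T) ∈ Esc m) : (A 0, B 0) ∈ Esc m := by
  obtain ⟨σ, c, c0, s0, s1, hs⟩ := bk_clock hG hT g0
  have := bk_glue (Q := fun t => A (σ t)) (V := fun t => B (σ t)) c0 (fun t ht a => ?_)
    (fun t _ => hc _) (by rw [s1]; exact he)
  · simpa only [s0] using this
  · obtain ⟨h1, h2⟩ := hs t ht
    have h3 := (g0 _ h1).ne'
    exact ⟨hd_congr ((hd (σ t) a).1.scomp t h2) (fun _ => rfl)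
        (by rw [smul_smul, inv_mul_cancel₀ h3, one_smul]),
      hd_congr ((hd (σ t) a).2.scomp t h2) (fun _ => rfl)
        (by rw [smul_smul, inv_mul_cancel₀ h3, one_smul])⟩

lemma bk_acc (m : Fin 3 → ℝ) (Q : Fin 3 → ℂ) :
    bkAcc m Q 0 = m 1 * ff (Q 1 - Q 0) + m 2 * ff (Q 2 - Q 0) ∧
    bkAcc m Q 1 = m 0 * ff (Q 0 - Q 1) + m 2 * ff (Q 2 - Q 1) ∧
    bkAcc m Q 2 = m 0 * ff (Q 0 - Q 2) + m 1 * ff (Q 1 - Q 2) := by
  have hf : ∀ (c : ℝ) (x : ℂ), (c / ‖x‖ ^ 3) • x = c * ff x := fun c x => by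
    rw [ff, ← Complex.real_smul, smul_smul, div_eq_mul_inv]
  have e0 : (Finset.univ.erase (0 : Fin 3)) = {1, 2} := by decide
  have e1 : (Finset.univ.erase (1 : Fin 3)) = {0, 2} := by decide
  have e2 : (Finset.univ.erase (2 : Fin 3)) = {0, 1} := by decide
  simp only [bkAcc, hf, e0, e1, e2]
  exact ⟨Finset.sum_pair (by decide), Finset.sum_pair (by decide), Finset.sum_pair (by decide)⟩

lemma bk_ff_mul (c x : ℂ) : ff (c * x) = ff c * (((‖x‖ ^ 3)⁻¹ : ℝ) * x) := by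
  simp only [ff, norm_mul, Complex.real_smul, mul_pow, mul_inv]
  push_cast; ring

/-- Escape is inherited backwards along an orbit of the reduced system. -/
theorem back {μ : Fin 3 → ℝ} (hμ : Mass μ) {γ : ℝ → Z3} {g : ℝ → ℝ} (hg : Continuous g) {T : ℝ}
    (hT : 0 ≤ T) (h : ∀ t, NC (γ t) ∧ HasDerivAt γ (g t • GR μ (γ t)) t)
    (g0 : ∀ t ∈ Icc 0 T, 0 < g t) (he : EscR μ (γ T)) : EscR μ (γ 0) := by
  have hs : (μ 0 : ℂ) = 1 - μ 1 - μ 2 := by
    have : μ 0 = 1 - μ 1 - μ 2 := by linarith [hμ.2.1]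
    exact_mod_cast congrArg (fun x : ℝ => (x : ℂ)) this
  obtain ⟨η, hη⟩ : ∃ η : ℝ → ℂ, η = fun t => (γ t).1 := ⟨_, rfl⟩
  obtain ⟨Y, hY⟩ : ∃ Y : ℝ → ℂ, Y = fun t => (γ t).2.1 := ⟨_, rfl⟩
  obtain ⟨W, hW⟩ : ∃ W : ℝ → ℂ, W = fun t => (γ t).2.2 := ⟨_, rfl⟩
  have dη : ∀ t, HasDerivAt η (g t * (Kp (η t) + μ 2 * Sg (Y t))) t := fun t => by
    rw [hη, hY]
    exact hd_congr (h t).2.fst (fun _ => rfl) rfl
  have dY : ∀ t, HasDerivAt Y (g t * (W t - η t * Y t)) t := fun t => by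
    rw [hη, hY, hW]
    exact hd_congr (h t).2.snd.fst (fun _ => rfl) rfl
  have dW : ∀ t, HasDerivAt W (g t * ((3 / 2 * (η t).re - η t) * W t
      - (ff (Y t + 1 / 2) + ff (Y t - 1 / 2)) / 2 + (μ 0 - μ 1) / 2 * Sg (Y t))) t := fun t => by
    rw [hη, hY, hW]
    exact hd_congr (h t).2.snd.snd (fun _ => rfl) rfl
  have nc : ∀ t, Y t + 1 / 2 ≠ 0 ∧ Y t - 1 / 2 ≠ 0 := fun t => by rw [hY]; exact (h t).1
  have ph : ∀ t, phys (γ t) = (![0, 1, Y t + 1 / 2], ![0, η t, W t + η t / 2]) := fun t => by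
    rw [hη, hY, hW]; rfl
  rw [EscR, ph] at he ⊢
  clear hη hY hW ph h
  have cη : Continuous η := continuous_iff_continuousAt.mpr fun t => (dη t).continuousAt
  obtain ⟨L, L0, dL⟩ : ∃ L : ℝ → ℂ, L 0 = 0 ∧ ∀ t, HasDerivAt L (g t * η t) t :=
    ⟨fun u => ∫ s in (0 : ℝ)..u, (g s * η s : ℂ), by simp, fun t =>
      (Continuous.integral_hasStrictDerivAt (f := fun s => (g s * η s : ℂ)) (by fun_prop)
        0 t).hasDerivAt⟩
  have cL : Continuous L := continuous_iff_continuousAt.mpr fun t => (dL t).continuousAt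
  obtain ⟨x, w, x0, w0, xn, wp, xw, cw, dx, dw⟩ : ∃ (x : ℝ → ℂ) (w : ℝ → ℝ), x 0 = 1 ∧ w 0 = 1 ∧
      (∀ t, x t ≠ 0) ∧ (∀ t, 0 < w t) ∧ (∀ t, (‖x t‖ ^ 3)⁻¹ = w t ^ 2) ∧ Continuous w ∧
      (∀ t, HasDerivAt x (g t * η t * x t) t) ∧
      ∀ t, HasDerivAt (fun s => (w s : ℂ)) (-(3 / 2) * g t * (η t).re * w t) t := by
    refine ⟨fun t => cexp (L t), fun t => Real.exp (-(3 / 2) * (L t).re), by simp [L0],
      by simp [L0], fun t => Complex.exp_ne_zero _, fun t => Real.exp_pos _, fun t => ?_,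
      by fun_prop, fun t => hd_congr (dL t).cexp (fun _ => rfl) (by ring), fun t => ?_⟩
    · rw [Complex.norm_exp, ← Real.exp_nat_mul, ← Real.exp_nat_mul, ← Real.exp_neg]
      congr 1; push_cast; ring
    · refine hd_congr ((hd_re (dL t)).const_mul (-(3 / 2))).exp.ofReal_comp (fun _ => rfl) ?_
      rw [re_ofReal_mul]; push_cast; ring
  clear L0 dL cL
  have wc : ∀ t, (w t : ℂ) ≠ 0 := fun t => by exact_mod_cast (wp t).ne'
  have fm : ∀ (c : ℂ) t, ff (c * x t) = ff c * (w t ^ 2 * x t) := fun c t => by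
    rw [bk_ff_mul, xw]; push_cast; ring
  have f1 : ff 1 = 1 := by simp [ff]
  let A : ℝ → Fin 3 → ℂ := fun t a =>
    x t * ![0, 1, Y t + 1 / 2] a + -(μ 1 + μ 2 * (Y t + 1 / 2)) * x t
  let B : ℝ → Fin 3 → ℂ := fun t a =>
    w t • (x t * ![0, η t, W t + η t / 2] a) + -(μ 1 * η t + μ 2 * (W t + η t / 2)) * w t * x t
  have hT' : (A T, B T) ∈ Esc μ :=
    esc_map (ContinuousLinearMap.mul ℝ ℂ (x T)) (norm_pos_iff.mpr (xn T)) (wp T)
      (fun y => by simp) 1 _ _ (fun b => by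
        have := (pow_pos (norm_pos_iff.mpr (xn T)) 3).ne'
        rw [← xw, inv_mul_cancel₀ this, one_mul]; rfl) he
  have a10 : ∀ t, A t 1 - A t 0 = 1 * x t := fun t => by simp [A]
  have a20 : ∀ t, A t 2 - A t 0 = (Y t + 1 / 2) * x t := fun t => by simp [A]; ring
  have a21 : ∀ t, A t 2 - A t 1 = (Y t - 1 / 2) * x t := fun t => by simp [A]; ring
  have h0 : (A 0, B 0) ∈ Esc μ := by
    refine bk_time (G := fun t => g t * (w t)⁻¹) (hg.mul (cw.inv₀ fun t => (wp t).ne')) hT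
      (fun t ht => mul_pos (g0 t ht) (inv_pos.mpr (wp t))) (fun t a => ?_) (fun t a b hab e => ?_) hT'
    · have k1 := dx t
      have k2 := ((dY t).add_const (1 / 2)).mul (dx t)
      have k3 := ((dη t).mul (dw t)).mul (dx t)
      have k4 := (((dW t).add ((dη t).div_const 2)).mul (dw t)).mul (dx t)
      have k5 := ((k1.const_mul (μ 1 : ℂ)).add (k2.const_mul (μ 2 : ℂ))).neg
      have k6 := ((k3.const_mul (μ 1 : ℂ)).add (k4.const_mul (μ 2 : ℂ))).neg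
      obtain ⟨b0, b1, b2⟩ := bk_acc μ (A t)
      rw [a10, a20, fm, fm, f1] at b0
      rw [← neg_sub (A t 1), ff_neg, a10, a21, fm, fm, f1] at b1
      rw [← neg_sub (A t 2), ← neg_sub (A t 2), ff_neg, ff_neg, a20, a21, fm, fm] at b2
      have := wc t
      fin_cases a
      · refine ⟨hd_congr k5 (fun s => by simp [A]; ring) ?_,
          hd_congr k6 (fun s => by simp [B]; ring) ?_⟩
        · simp [B]; field_simp; ring
        · simp only [Fin.zero_eta, b0, Kp, Sg, hs, Complex.real_smul, Pi.add_apply, Pi.mul_apply]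
          generalize ff (Y t + 1 / 2) = F0, ff (Y t - 1 / 2) = F1
          push_cast; field_simp; ring
      · refine ⟨hd_congr (k1.add k5) (fun s => by simp [A]; ring) ?_,
          hd_congr (k3.add k6) (fun s => by simp [B]; ring) ?_⟩
        · simp [B]; field_simp; ring
        · simp only [Fin.mk_one, b1, Kp, Sg, hs, Complex.real_smul, Pi.add_apply, Pi.mul_apply]
          generalize ff (Y t + 1 / 2) = F0, ff (Y t - 1 / 2) = F1
          push_cast; field_simp; ring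
      · refine ⟨hd_congr (k2.add k5) (fun s => by simp [A]; ring) ?_,
          hd_congr (k4.add k6) (fun s => by simp [B]; ring) ?_⟩
        · simp [B]; field_simp; ring
        · simp only [Fin.reduceFinMk, b2, Kp, Sg, hs, Complex.real_smul, Pi.add_apply, Pi.mul_apply]
          generalize ff (Y t + 1 / 2) = F0, ff (Y t - 1 / 2) = F1
          push_cast; field_simp; ring
    · have n1 : A t 1 - A t 0 ≠ 0 := by rw [a10, one_mul]; exact xn t
      have n2 : A t 2 - A t 0 ≠ 0 := by rw [a20]; exact mul_ne_zero (nc t).1 (xn t)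
      have n3 : A t 2 - A t 1 ≠ 0 := by rw [a21]; exact mul_ne_zero (nc t).2 (xn t)
      rw [sub_ne_zero] at n1 n2 n3
      fin_cases a <;> fin_cases b <;> first | exact hab rfl | tauto
  have := esc_map (ContinuousLinearMap.id ℝ ℂ) one_pos one_pos (fun y => by simp) 1
    (μ 1 + μ 2 * (Y 0 + 1 / 2)) (μ 1 * η 0 + μ 2 * (W 0 + η 0 / 2)) (m' := μ)
    (fun b => by simp) h0
  convert this using 2 <;> funext a <;> simp [A, B, x0, w0] <;> ring

lemma bk_kepler {x p : ℝ → ℂ} {M T : ℝ} (hM : 0 < M) (hx : ∀ t, HasDerivAt x (p t) t)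
    (hp : ∀ t, HasDerivAt p (-(M * ff (x t))) t) (h0 : ∀ t, x t ≠ 0) (hT : 0 < T)
    (pe : ∀ t, ‖x (t + T)‖ = ‖x t‖) : ‖p 0‖ ^ 2 * ‖x 0‖ < 2 * M ∧ cr (x 0) (p 0) ≠ 0 := by
  have n0 : ∀ t, 0 < ‖x t‖ := fun t => norm_pos_iff.mpr (h0 t)
  have cst : ∀ {f : ℝ → ℝ}, (∀ t, HasDerivAt f 0 t) → ∀ t, f t = f 0 := fun hf t =>
    is_const_of_deriv_eq_zero (fun s => (hf s).differentiableAt) (fun s => (hf s).deriv) t 0
  have fr : ∀ t, (-(M * ff (x t))).re = -(M / ‖x t‖ ^ 3) * (x t).re ∧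
      (-(M * ff (x t))).im = -(M / ‖x t‖ ^ 3) * (x t).im := fun t => by
    rw [ff, Complex.real_smul, neg_re, neg_im, re_ofReal_mul, re_ofReal_mul, im_ofReal_mul,
      im_ofReal_mul]
    constructor <;> ring
  have dN : ∀ t, HasDerivAt (fun s => ‖x s‖ ^ 2) (2 * dot (x t) (p t)) t := fun t =>
    hd_congr (hd_dot (hx t) (hx t)) (fun s => (dot_self _).symm) (by unfold dot; ring)
  have dJ : ∀ t, HasDerivAt (fun s => dot (x s) (p s)) (‖p t‖ ^ 2 - M / ‖x t‖) t := fun t =>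
    hd_congr (hd_dot (hx t) (hp t)) (fun _ => rfl) (by
      have h1 := sq_norm' (x t)
      have h2 := (n0 t).ne'
      rw [dot_self, dot, (fr t).1, (fr t).2]
      field_simp
      linear_combination -M * h1)
  have en : ∀ t, ‖p t‖ ^ 2 / 2 - M / ‖x t‖ = ‖p 0‖ ^ 2 / 2 - M / ‖x 0‖ :=
    cst (f := fun t => ‖p t‖ ^ 2 / 2 - M / ‖x t‖) fun t => by
      refine hd_congr (((hd_dot (hp t) (hp t)).div_const 2).sub
        ((hasDerivAt_const t M).div (hd_norm (hx t) (n0 t)) (n0 t).ne'))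
        (fun s => by simp [dot_self]) ?_
      have h2 := (n0 t).ne'
      simp only [dot, (fr t).1, (fr t).2]
      field_simp
      ring
  have cc : ∀ t, cr (x t) (p t) = cr (x 0) (p 0) :=
    cst (f := fun t => cr (x t) (p t)) fun t => hd_congr (hd_cr (hx t) (hp t)) (fun _ => rfl)
      (by simp only [cr, (fr t).1, (fr t).2]; ring)
  constructor
  · by_contra hE
    have hE' : 0 ≤ ‖p 0‖ ^ 2 / 2 - M / ‖x 0‖ := by
      rw [sub_nonneg, div_le_div_iff₀ (n0 0) two_pos]; linarith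
    have h1 := strictMono_of_deriv_pos (f := fun t => dot (x t) (p t)) fun t => by
      rw [(dJ t).deriv]
      linarith [en t, div_pos hM (n0 t)]
    have h2 := (dN 0).unique (by
      simpa only [pe, zero_add] using (dN (0 + T)).comp_add_const 0 T)
    linarith [h1 hT]
  · intro hc
    obtain ⟨t0, -, h1⟩ := isCompact_Icc.exists_isMinOn (nonempty_Icc.2 hT.le)
      (f := fun t => ‖x t‖) fun t _ => (hx t).continuousAt.norm.continuousWithinAt
    have h2 : ∀ t, ‖x t0‖ ≤ ‖x t‖ := fun t => by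
      obtain ⟨y, hy, h3⟩ := Function.Periodic.exists_mem_Ico₀ (f := fun t => ‖x t‖) pe hT t
      exact (h1 (Ico_subset_Icc_self hy)).trans_eq h3.symm
    have h3 := IsLocalMin.hasDerivAt_eq_zero
      (Eventually.of_forall fun t => pow_le_pow_left₀ (norm_nonneg _) (h2 t) 2) (dN t0)
    have h4 := dot_cr (x t0) (p t0)
    rw [cc, hc, show dot (x t0) (p t0) = 0 by linarith] at h4
    have h5 : ‖p t0‖ ^ 2 = 0 :=
      (mul_eq_zero.mp (h4.symm.trans (by ring))).resolve_left (pow_pos (n0 t0) 2).ne'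
    have h6 : ∀ t, ‖x t‖ = ‖x t0‖ := fun t => by
      refine le_antisymm ?_ (h2 t)
      have h7 : M / ‖x t0‖ ≤ M / ‖x t‖ := by linarith [en t, en t0, sq_nonneg ‖p t‖]
      exact (div_le_div_iff_of_pos_left hM (n0 t0) (n0 t)).mp h7
    have h7 : ∀ t, dot (x t) (p t) = 0 := fun t => by
      have := (dN t).unique (hd_congr (hasDerivAt_const t (‖x t0‖ ^ 2)) (fun s => by rw [h6]) rfl)
      linarith
    have h8 := (dJ t0).unique (hd_congr (hasDerivAt_const t0 (0 : ℝ)) h7 rfl)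
    linarith [div_pos hM (n0 t0)]

lemma bk_cL : cL ^ 2 = -(3 / 4) ∧ (starRingEnd ℂ) cL = -cL := by
  have : ((√3 : ℝ) : ℂ) ^ 2 = 3 := by exact_mod_cast Real.sq_sqrt three_pos.le
  refine ⟨?_, by rw [cL, map_mul, conj_I, conj_ofReal, neg_mul]⟩
  rw [cL]; push_cast
  linear_combination I ^ 2 / 4 * this + 3 / 4 * I_sq

lemma bk_apex {x y : ℂ} (h0 : x ≠ 0) (h1 : ‖y‖ = ‖x‖) (h2 : ‖y - x‖ = ‖x‖) :
    y = (1 / 2 + cL) * x ∨ y = (1 / 2 - cL) * x := by
  have a1 := Complex.mul_conj' x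
  have a2 := Complex.mul_conj' y
  have a3 := Complex.mul_conj' (y - x)
  rw [h1] at a2; rw [h2, map_sub] at a3
  have hr : (‖x‖ : ℂ) ^ 2 ≠ 0 := pow_ne_zero _ (by exact_mod_cast norm_ne_zero_iff.mpr h0)
  have a4 : (‖x‖ : ℂ) ^ 2 * ((y - (1 / 2 + cL) * x) * (y - (1 / 2 - cL) * x)) = 0 := by
    linear_combination -(x * y) * a3 + (x * y - y ^ 2) * a1 + (x * y - x ^ 2) * a2
      - (‖x‖ : ℂ) ^ 2 * x ^ 2 * bk_cL.1
  rcases mul_eq_zero.mp ((mul_eq_zero.mp a4).resolve_left hr) with h | h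
  · exact Or.inl (sub_eq_zero.mp h)
  · exact Or.inr (sub_eq_zero.mp h)

lemma bk_orient {x y : ℝ → ℂ} {x' y' a b : ℂ} (hx : HasDerivAt x x' 0) (hy : HasDerivAt y y' 0)
    (h : ∀ t, y t = a * x t ∨ y t = b * x t) (h0 : y 0 = a * x 0) (hab : a ≠ b) (hx0 : x 0 ≠ 0) :
    y' = a * x' := by
  have h1 : y 0 - b * x 0 ≠ 0 := by
    rw [h0, ← sub_mul]; exact mul_ne_zero (sub_ne_zero.mpr hab) hx0
  have h2 := (hy.sub (hx.const_mul b)).continuousAt.eventually_ne h1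
  have h3 : y =ᶠ[𝓝 0] fun t => a * x t := by
    filter_upwards [h2] with t ht
    exact (h t).resolve_right fun h4 => ht (sub_eq_zero.mpr h4)
  exact hy.unique ((hx.const_mul a).congr_of_eventuallyEq h3)

lemma bk_cl (g : ℂ →L[ℝ] ℂ) {ρ ω : ℝ} (hρ : 0 < ρ) (hω : 0 < ω) (hg : ∀ x, ‖g x‖ = ρ * ‖x‖)
    (π : Equiv.Perm (Fin 3)) (c0 c1 : ℂ) {m m' : Fin 3 → ℝ}
    (hm : ∀ b, m' b = ω ^ 2 * ρ ^ 3 * m (π b)) {p : (Fin 3 → ℂ) × (Fin 3 → ℂ)}
    (hp : p ∈ closure (Esc m)) :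
    (fun a => g (p.1 (π a)) + c0, fun a => ω • g (p.2 (π a)) + c1) ∈ closure (Esc m') :=
  map_mem_closure (f := fun p : (Fin 3 → ℂ) × (Fin 3 → ℂ) =>
    ((fun a => g (p.1 (π a)) + c0, fun a => ω • g (p.2 (π a)) + c1) : (Fin 3 → ℂ) × (Fin 3 → ℂ)))
    (by fun_prop) hp fun _ h => esc_map g hρ hω hg π c0 c1 hm h

/-- Reduction of the theorem to the normalised Lagrange states. -/
theorem final (H : ∀ μ, Mass μ → ∀ η : ℂ, ‖η‖ ^ 2 < 2 → 0 < η.im → phys (lag η) ∈ closure (Esc μ))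
    (m : Fin 3 → ℝ) (q v : ℝ → Fin 3 → ℂ) (hm : ∀ a, 0 < m a)
    (h01 : m 0 ≤ (1 + 1 / 2 ^ 51) * m 1) (h10 : m 1 ≤ (1 + 1 / 2 ^ 51) * m 0)
    (h2 : m 2 ≤ 1 / 2 ^ 51 * m 0)
    (hq : ∀ t a, HasDerivAt (fun s => q s a) (v t a) t)
    (hv : ∀ t a, HasDerivAt (fun s => v s a)
      (∑ b ∈ Finset.univ.erase a, (m b / ‖q t b - q t a‖ ^ 3) • (q t b - q t a)) t)
    (hc : ∀ t a b, a ≠ b → q t a ≠ q t b)
    (he : ∀ t, ‖q t 0 - q t 1‖ = ‖q t 1 - q t 2‖ ∧ ‖q t 1 - q t 2‖ = ‖q t 2 - q t 0‖)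
    (hp : ∃ T : ℝ, 0 < T ∧ ∀ t, ‖q (t + T) 0 - q (t + T) 1‖ = ‖q t 0 - q t 1‖) :
    (q 0, v 0) ∈ closure (Esc m) := by
  obtain ⟨T, hT, pe⟩ := hp
  obtain ⟨M, hM⟩ : ∃ M, M = m 0 + m 1 + m 2 := ⟨_, rfl⟩
  have m0 := hm 0
  have m1 := hm 1
  have m2 := hm 2
  have hM0 : 0 < M := by rw [hM]; positivity
  have n0 : ∀ t, q t 1 - q t 0 ≠ 0 := fun t => sub_ne_zero.mpr (hc t 1 0 (by decide))
  have e1 : ∀ t, ‖q t 2 - q t 0‖ = ‖q t 1 - q t 0‖ := fun t => by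
    rw [← (he t).2, ← (he t).1, norm_sub_rev]
  have e2 : ∀ t, ‖q t 2 - q t 1‖ = ‖q t 1 - q t 0‖ := fun t => by
    rw [norm_sub_rev, ← (he t).1, norm_sub_rev]
  have hP : ∀ t, HasDerivAt (fun s => v s 1 - v s 0) (-(M * ff (q t 1 - q t 0))) t := fun t => by
    refine hd_congr ((hv t 1).sub (hv t 0)) (fun _ => rfl) ?_
    obtain ⟨b0, b1, -⟩ := bk_acc m (q t)
    have : _ = bkAcc m (q t) 1 - bkAcc m (q t) 0 := rfl
    rw [← neg_sub (q t 1), ff_neg] at b1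
    refine Eq.trans ?_ this.symm
    rw [b0, b1, hM]
    simp only [ff, e1, e2, Complex.real_smul]
    push_cast; ring
  obtain ⟨k1, k2⟩ := bk_kepler (x := fun s => q s 1 - q s 0) hM0
    (fun t => (hq t 1).sub (hq t 0)) hP n0 hT
    (fun t => (norm_sub_rev _ _).trans ((pe t).trans (norm_sub_rev _ _)))
  have hpos : ∀ t, q t 2 - q t 0 = (1 / 2 + cL) * (q t 1 - q t 0) ∨
      q t 2 - q t 0 = (1 / 2 - cL) * (q t 1 - q t 0) := fun t =>
    bk_apex (n0 t) (e1 t) (by rw [← e2]; congr 1; ring)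
  obtain ⟨c1, c2⟩ := bk_cL
  have hne : 1 / 2 + cL ≠ 1 / 2 - cL := fun h => by
    have : cL = 0 := by linear_combination h / 2
    rw [this] at c1; norm_num at c1
  have hor : (q 0 2 - q 0 0 = (1 / 2 + cL) * (q 0 1 - q 0 0) ∧
      v 0 2 - v 0 0 = (1 / 2 + cL) * (v 0 1 - v 0 0)) ∨
      (q 0 2 - q 0 0 = (1 / 2 - cL) * (q 0 1 - q 0 0) ∧
      v 0 2 - v 0 0 = (1 / 2 - cL) * (v 0 1 - v 0 0)) := by
    rcases hpos 0 with h | h
    · exact Or.inl ⟨h, bk_orient ((hq 0 1).sub (hq 0 0)) ((hq 0 2).sub (hq 0 0)) hpos h hne (n0 0)⟩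
    · exact Or.inr ⟨h, bk_orient ((hq 0 1).sub (hq 0 0)) ((hq 0 2).sub (hq 0 0))
        (fun t => (hpos t).symm) h hne.symm (n0 0)⟩
  have x0 := n0 0
  clear hP hpos e1 e2 n0 pe he hc hv hq
  generalize q 0 = Q at *
  generalize v 0 = V at *
  obtain ⟨x, hx⟩ : ∃ x, x = Q 1 - Q 0 := ⟨_, rfl⟩
  rw [← hx] at k1 k2 hor x0
  have hr : 0 < ‖x‖ := norm_pos_iff.mpr x0
  obtain ⟨ω, hω, hω2⟩ : ∃ ω : ℝ, 0 < ω ∧ ω ^ 2 = M / ‖x‖ ^ 3 :=
    ⟨√(M / ‖x‖ ^ 3), by positivity, Real.sq_sqrt (by positivity)⟩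
  have hωc : (ω : ℂ) ≠ 0 := by exact_mod_cast hω.ne'
  obtain ⟨η, hη⟩ : ∃ η : ℂ, V 1 - V 0 = ω * (x * η) := ⟨(V 1 - V 0) / (ω * x), by field_simp⟩
  have η1 : ‖η‖ ^ 2 < 2 := by
    rw [hη, norm_mul, norm_mul, Complex.norm_real, Real.norm_of_nonneg hω.le, mul_pow, hω2] at k1
    have : M / ‖x‖ ^ 3 * (‖x‖ * ‖η‖) ^ 2 * ‖x‖ = ‖η‖ ^ 2 * M := by field_simp
    rw [this] at k1
    exact lt_of_mul_lt_mul_right k1 hM0.le
  have η2 : η.im ≠ 0 := fun h => k2 (by rw [hη]; simp [cr, h]; ring)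
  obtain ⟨n, hn⟩ : ∃ n : Fin 3 → ℝ, n = fun k => m k / M := ⟨_, rfl⟩
  have hmn : ∀ b, m b = ω ^ 2 * ‖x‖ ^ 3 * n b := fun b => by rw [hω2, hn]; field_simp
  have s2 : Equiv.swap (0 : Fin 3) 1 2 = 2 := by decide
  have M1 : Mass n := by
    rw [hn]
    refine ⟨fun k => div_pos (hm k) hM0, by rw [hM]; field_simp, ?_, ?_⟩
    · show |m 0 / M - m 1 / M| ≤ _
      rw [← sub_div, abs_div, abs_of_pos hM0, div_le_iff₀ hM0, abs_le]
      constructor <;> linarith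
    · show m 2 / M ≤ _
      rw [div_le_iff₀ hM0]; linarith
  have M2 : Mass fun b => n (Equiv.swap 0 1 b) := by
    obtain ⟨a1, a2, a3, a4⟩ := M1
    refine ⟨fun k => a1 _, ?_, ?_, ?_⟩ <;>
      simp only [s2, Equiv.swap_apply_left, Equiv.swap_apply_right]
    · linarith
    · rwa [abs_sub_comm]
    · exact a4
  have g1 : ∀ y : ℂ, ‖y‖ = ‖x‖ → ∀ z, ‖ContinuousLinearMap.mul ℝ ℂ y z‖ = ‖x‖ * ‖z‖ := by
    intro y h z; simp [h]
  have g2 : ∀ y : ℂ, ‖y‖ = ‖x‖ → ∀ z, ‖((ContinuousLinearMap.mul ℝ ℂ y).comp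
      (Complex.conjCLE : ℂ →L[ℝ] ℂ)) z‖ = ‖x‖ * ‖z‖ := by
    intro y h z; simp [h]
  have η3 : ‖(starRingEnd ℂ) η‖ ^ 2 < 2 := by rwa [Complex.norm_conj]
  have η4 : η.im < 0 → 0 < ((starRingEnd ℂ) η).im := fun h => by simpa using h
  have c3 : (starRingEnd ℂ) 2 = 2 := map_ofNat _ 2
  rw [hη, sub_eq_iff_eq_add, sub_eq_iff_eq_add, sub_eq_iff_eq_add, sub_eq_iff_eq_add] at hor
  rw [sub_eq_iff_eq_add] at hη
  replace hx : Q 1 = x + Q 0 := by rw [hx]; ring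
  rcases hor with ⟨h0, h1⟩ | ⟨h0, h1⟩ <;> rcases lt_or_gt_of_ne η2 with hk | hk
  · have := bk_cl _ hr hω (g2 (-x) (norm_neg x)) (Equiv.swap 0 1) (Q 1) (V 1) (m' := m)
      (fun b => by simp [hmn b]) (H _ M2 _ η3 (η4 hk))
    convert this using 2 <;> funext a <;> fin_cases a <;>
      simp [phys, lag, s2, c2, c3, h0, h1, hx, hη] <;> ring
  · have := bk_cl _ hr hω (g1 x rfl) 1 (Q 0) (V 0) (m' := m) hmn (H _ M1 _ η1 hk)
    convert this using 2 <;> funext a <;> fin_cases a <;>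
      simp [phys, lag, h0, h1, hx, hη] <;> ring
  · have := bk_cl _ hr hω (g2 x rfl) 1 (Q 0) (V 0) (m' := m) hmn (H _ M1 _ η3 (η4 hk))
    convert this using 2 <;> funext a <;> fin_cases a <;>
      simp [phys, lag, c2, c3, h0, h1, hx, hη] <;> ring
  · have := bk_cl _ hr hω (g1 (-x) (norm_neg x)) (Equiv.swap 0 1) (Q 1) (V 1) (m' := m)
      (fun b => by simp [hmn b]) (H _ M2 _ η1 hk)
    convert this using 2 <;> funext a <;> fin_cases a <;>
      simp [phys, lag, s2, h0, h1, hx, hη] <;> ring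

end Pool.Agent.Lib.MP_6e7c44_mp.LA
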