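import Pool.Agent.Lib.MP_6e7c44_mp.LA.Cell

/-! The cone data, their enclosures and their certificate. -/

set_option autoImplicit false

namespace Pool.Agent.Lib.MP_6e7c44_mp.LA

/-- The coefficients of the cone data, in units of `1 / 2 ^ 24`. -/
def pcc : PC where
  a := [[13633619, 10126578, 236876, -155778, 53867, -240863, 147279],
    [-11240569, -8300655, -2125343, -485621, 761798, -140853],
    [-3884284, -2414775, 417232, -879309, 587478],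
    [4264861, 5123936, 4707232, -306807],
    [336063, -411969, 2973088],
    [1687306, -3144256],
    [2909669]]
  b1 := [[-3969804, 876836, 181282, 7508, -94221, -80616, 99000],
    [4338142, 1574070, 14604, 138494, 135623, 15685],
    [1560175, 309913, -337362, 471556, 61903],
    [-2849745, -1350646, -840655, 322359],
    [-848895, 852109, -444258],
    [270880, 1678053],
    [-817493]]
  b2 := [[3816481, 631872, -95784, -137148, -121922, 161856, -35746],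
    [3598478, 29175, -326238, 215942, -487859, 230584],
    [-3621543, -2210908, -809337, 1175251, -241648],
    [-1162207, 251192, -163887, 796978],
    [2333000, 3205441, 495803],
    [859911, 1190468],
    [-534182]]
  D := [[728561, 451730, 215512, 38678],
    [-42560, 536618, 166777],
    [-340191, -709113],
    [219465]]
  S := [[163637, -13936, 293, -15440],
    [-80752, 84098, 8537],
    [235294, -106840],
    [19600]]

/-- The cone data. -/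
noncomputable def CC : CD := pcc.cd

/-- The coefficient lists of the five functions. -/
def pcl (k : Fin 5) : List (List ℤ) :=
  cond (Nat.ble k.1 1) (cond (Nat.ble k.1 0) pcc.a pcc.b1)
    (cond (Nat.ble k.1 2) pcc.b2 (cond (Nat.ble k.1 3) pcc.D pcc.S))

/-- The five functions `a`, `b1`, `b2`, `D`, `S`. -/
noncomputable def CC.fld (k : Fin 5) : Fld := pfl (pcl k)

theorem CC.fld0 : CC.fld 0 = CC.a := rfl
theorem CC.fld1 : CC.fld 1 = CC.b1 := rfl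
theorem CC.fld2 : CC.fld 2 = CC.b2 := rfl
theorem CC.fld3 : CC.fld 3 = CC.D := rfl
theorem CC.fld4 : CC.fld 4 = CC.S := rfl

/-- The test of an enclosure of the function `k` on a square. -/
def cqk (cv cw : ℤ) (hw : ℕ) (k : Fin 5) (c : ℤ) (r : ℕ) : Bool := cq (pcl k) cv cw hw c r

theorem cqk_ok {cv cw c : ℤ} {hw r : ℕ} {k : Fin 5} {η : ℂ} (h : cqk cv cw hw k c r = true)
    (h1 : |η.re - (cv : ℝ) / 4096| ≤ (hw : ℝ) / 4096)
    (h2 : |η.im - (cw : ℝ) / 4096| ≤ (hw : ℝ) / 4096) :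
    |(CC.fld k).f η - (c : ℝ) / 2 ^ 24| ≤ (r : ℝ) / 2 ^ 24 := cq_ok h h1 h2

open BT in
/-- The cells. -/
def cells : BT :=
  sv (sv (sw (sv (sw (sv (sw (sv (lf 435 0 0 0) (lf 409 0 0 0)) (sv ou (lf 415 0 0 0))) (sw (lf
  387 0 0 0) (lf 391 0 0 0))) (sv (sw (sv ou (sw (lf 425 0 0 0) (sv ou (lf 428 0 0 0)))) ou) (sw
  (sv (sw (lf 404 0 0 0) (lf 411 0 0 0)) (lf 393 0 0 0)) (sv (sw (sv (lf 426 0 0 0) (lf 415 0 0
  0)) (sv ou (lf 426 0 0 0))) (sw (lf 403 0 0 0) (sv (lf 416 0 0 0) (lf 408 0 0 0))))))) (sw (sv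
  (lf 376 0 0 0) (lf 372 0 0 0)) (sv (sw (lf 382 0 0 0) (sv (sw (lf 392 0 0 0) (lf 399 0 0 0)) (lf
  388 0 0 0))) (sw (lf 376 0 0 0) (sv (lf 384 0 0 0) (lf 381 0 0 0)))))) (sv (sw (sv ou (sw (sv ou
  (sw (sv (sw (lf 425 0 0 0) ou) (lf 419 0 0 0)) (sv ou (sw (lf 429 0 0 0) ou)))) ou)) ou) (sw (sv
  (sw (sv (sw (lf 408 0 0 0) (lf 420 0 0 0)) (lf 402 0 0 0)) (sv (sw (sv ou (lf 430 0 0 0)) ou)
  (sw (lf 419 0 0 0) (sv ou (lf 430 0 0 0))))) (sw (lf 393 0 0 0) (sv (lf 415 0 0 0) (lf 408 0 0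
  0)))) (sv ou (sw (sv (sw (sv ou (lf 432 0 0 0)) ou) (sw (lf 425 0 0 0) ou)) ou))))) (sw (sv (sw
  (sv (lf 373 0 0 0) (lf 375 0 0 0)) (sv (sw (lf 375 0 0 0) (lf 380 0 0 0)) (sw (lf 376 0 0 0) (lf
  381 0 0 0)))) (sw (sv (lf 377 0 0 0) (lf 380 0 0 0)) (sv (sw (lf 378 0 0 0) (lf 383 0 0 0)) (sw
  (lf 380 0 0 0) (lf 385 0 0 0))))) (sv (sw (sv (sw (lf 389 0 0 0) (sv (lf 404 0 0 0) (lf 402 0 0
  0))) (sw (sv (lf 389 0 0 0) (lf 390 0 0 0)) (sv (sw (lf 398 0 0 0) (lf 404 0 0 0)) (sw (lf 398 0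
  0 0) (lf 405 0 0 0))))) (sv (sw (sv (sw (lf 418 0 0 0) (sv (sw (lf 428 0 0 0) ou) (sw (lf 425 0
  0 0) ou))) (sw (lf 414 0 0 0) (lf 424 0 0 0))) ou) (sw (sv (sw (lf 412 0 0 0) (lf 421 0 0 0))
  (sw (lf 412 0 0 0) (lf 420 0 0 0))) (sv (sw (sv (sw (lf 428 0 0 0) ou) (sw (lf 427 0 0 0) ou))
  ou) (sw (sv (lf 428 0 0 0) (lf 427 0 0 0)) ou))))) (sw (sv (sw (sv (lf 390 0 0 0) (lf 392 0 0
  0)) (sv (lf 402 0 0 0) (lf 403 0 0 0))) (sw (lf 393 0 0 0) (lf 405 0 0 0))) (sv (sw (sv (sw (lf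
  412 0 0 0) (lf 420 0 0 0)) (lf 417 0 0 0)) (sv (sw (lf 426 0 0 0) ou) (sw (lf 426 0 0 0) ou)))
  (sw (lf 419 0 0 0) (sv (sw (lf 427 0 0 0) (sv (sw (lf 429 0 0 0) ou) (sw (lf 429 0 0 0) ou)))
  (sw (lf 428 0 0 0) (sv (sw (lf 429 0 0 0) ou) (sw (lf 429 0 0 0) ou)))))))))) (sv (sw (sv (sw
  (sv (lf 384 0 0 0) (lf 388 0 0 0)) (sv (sw (lf 383 0 0 0) (lf 388 0 0 0)) (sw (lf 387 0 0 0) (lf
  391 0 0 0)))) (sw (sv (sw (lf 395 0 0 0) (lf 392 0 0 0)) (sw (lf 401 0 0 0) (lf 397 0 0 0))) (sv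
  (sw (lf 391 0 0 0) (lf 395 0 0 0)) (sw (lf 396 0 0 0) (lf 400 0 0 0))))) (sv (sw (sv (sw (lf 396
  0 0 0) (lf 409 0 0 0)) (sw (lf 400 0 0 0) (lf 413 0 0 0))) (sv (sw (lf 424 0 0 0) (sv (sw (lf
  430 0 0 0) (sv (sw (lf 430 0 0 0) ou) (lf 429 0 0 0))) (sw (lf 431 0 0 0) (sv (sw (lf 430 0 0 0)
  ou) (sw (lf 430 0 0 0) ou))))) (sw (sv (lf 427 0 0 0) (lf 430 0 0 0)) (sv (sw (lf 433 0 0 0) ou)
  (sw (lf 434 0 0 0) ou))))) (sw (sv (sw (lf 404 0 0 0) (lf 419 0 0 0)) (sw (lf 410 0 0 0) (sv (lf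
  424 0 0 0) (lf 428 0 0 0)))) (sv (sw (sv (lf 433 0 0 0) (sw (lf 433 0 0 0) (lf 437 0 0 0))) (sv
  (sw (lf 435 0 0 0) ou) (sw (lf 436 0 0 0) ou))) (sw (sv (sw (lf 436 0 0 0) (lf 440 0 0 0)) (sw
  (lf 439 0 0 0) (sv (lf 441 0 0 0) (sw (lf 442 0 0 0) ou)))) ou))))) (sw (sv (sw (sv (sw (sv (lf
  405 0 0 0) (sw (lf 408 0 0 0) (lf 406 0 0 0))) (lf 402 0 0 0)) (sw (sv (sw (lf 410 0 0 0) (lf
  408 0 0 0)) (sw (lf 412 0 0 0) (lf 410 0 0 0))) (lf 405 0 0 0))) (sv (sw (lf 400 0 0 0) (lf 405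
  0 0 0)) (sw (lf 404 0 0 0) (lf 411 0 0 0)))) (sw (sv (sw (sv (sw (lf 414 0 0 0) (lf 412 0 0 0))
  (sw (lf 416 0 0 0) (lf 414 0 0 0))) (lf 409 0 0 0)) (sw (sv (sw (lf 420 0 0 0) (lf 418 0 0 0))
  (sw (sv (lf 424 0 0 0) ou) (lf 424 0 0 0))) (lf 416 0 0 0))) (sv (sw (lf 409 0 0 0) (lf 418 0 0
  0)) (sw (lf 417 0 0 0) ou)))) (sv (sw (sv (sw (lf 416 0 0 0) (sv (lf 432 0 0 0) (sw (lf 432 0 0
  0) (lf 440 0 0 0)))) (sw (sv (lf 423 0 0 0) (lf 427 0 0 0)) (sv (sw (lf 436 0 0 0) (lf 444 0 0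
  0)) (sw (lf 441 0 0 0) ou)))) (sv (sw (sv (sw (lf 442 0 0 0) ou) (sw (sv (sw (lf 444 0 0 0) ou)
  ou) ou)) ou) ou)) (sw (sv (sw (sv (lf 433 0 1000000 0) ou) ou) ou) ou))))

theorem cells_ok : ck pcc cells 0 49088 98304 49152 = true := by decide +kernel

/-- The cone inequalities hold on the half disc. -/
theorem CC_ok : CC.OK := cd_ok cells_ok

end Pool.Agent.Lib.MP_6e7c44_mp.LA
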