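import Pool.Agent.Lib.MP_6e7c44_mp.LA.Exit
import Pool.Agent.Lib.MP_6e7c44_mp.LA.CellD

/-! The complete check of one box of eccentricities. -/

set_option autoImplicit false

namespace Pool.Agent.Lib.MP_6e7c44_mp.LA

/-- The parameters of a box as rational numbers. -/
def pq (q : List ℤ) (i : ℕ) : ℚ :=
  (q.getD i 0 : ℚ) / cond (Nat.ble 9 i && Nat.ble i 11) 4096 16777216

/-- The values of the cone field on the cell of a box. -/
def cellk (q : List ℤ) : Bool :=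
  decide (0 ≤ q.getD 11 0 ∧ 0 ≤ q.getD 13 0 ∧ 0 ≤ q.getD 15 0 ∧ 0 ≤ q.getD 17 0) &&
  (cqk (q.getD 9 0) (q.getD 10 0) (q.getD 11 0).toNat 0 (q.getD 12 0) (q.getD 13 0).toNat &&
  (cqk (q.getD 9 0) (q.getD 10 0) (q.getD 11 0).toNat 1 (q.getD 14 0) (q.getD 15 0).toNat &&
  (cqk (q.getD 9 0) (q.getD 10 0) (q.getD 11 0).toNat 2 (q.getD 16 0) (q.getD 17 0).toNat &&
  (cqk (q.getD 9 0) (q.getD 10 0) (q.getD 11 0).toNat 3 (q.getD 18 0 - 16777216) 16777216 &&
  cqk (q.getD 9 0) (q.getD 10 0) (q.getD 11 0).toNat 4 (q.getD 19 0 + 16777216) 16777216))))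

lemma cell_ok {q : List ℤ} (h : cellk q = true) {d : ID ℚ} (hd : d.p = pq q) : d.cast.Cell CC := by
  simp only [cellk, Bool.and_eq_true, decide_eq_true_eq] at h
  obtain ⟨⟨a1, a2, a3, a4⟩, b0, b1, b2, b3, b4⟩ := h
  have c : ∀ {x : ℤ}, 0 ≤ x → ((x.toNat : ℕ) : ℝ) = x := fun hx => by
    exact_mod_cast Int.toNat_of_nonneg hx
  have e1 : ∀ i, 12 ≤ i → d.cast.p i = (q.getD i 0 : ℝ) / 2 ^ 24 := fun i hi => by
    have : Nat.ble i 11 = false := by
      rw [Bool.eq_false_iff, ne_eq, Nat.ble_eq]; omega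
    simp only [ID.cast, hd, pq, this, Bool.and_false, cond_false]
    push_cast
    norm_num
  have e2 : ∀ i, 9 ≤ i → i ≤ 11 → d.cast.p i = (q.getD i 0 : ℝ) / 4096 := fun i h1 h2 => by
    simp only [ID.cast, hd, pq, Nat.ble_eq_true_of_le h1, Nat.ble_eq_true_of_le h2, Bool.and_self, cond_true]
    push_cast
    rfl
  intro η h1 h2
  rw [e2 9 (by omega) (by omega), e2 11 (by omega) (by omega), ← c a1] at h1
  rw [e2 10 (by omega) (by omega), e2 11 (by omega) (by omega), ← c a1] at h2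
  have k0 := cqk_ok b0 h1 h2
  have k1 := cqk_ok b1 h1 h2
  have k2 := cqk_ok b2 h1 h2
  have k3 := (abs_le.1 (cqk_ok b3 h1 h2)).2
  have k4 := (abs_le.1 (cqk_ok b4 h1 h2)).1
  rw [c a2] at k0
  rw [c a3] at k1
  rw [c a4] at k2
  rw [e1 12 (by omega), e1 13 (by omega), e1 14 (by omega), e1 15 (by omega), e1 16 (by omega),
    e1 17 (by omega), e1 18 (by omega), e1 19 (by omega)]
  refine ⟨k0, k1, k2, ?_, ?_⟩
  · have : (CC.fld 3).f η = CC.D.f η := rfl
    push_cast at k3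
    linarith
  · have : (CC.fld 4).f η = CC.S.f η := rfl
    push_cast at k4
    linarith

/-- All squared eccentricities of a range are good. -/
def Rng (lo hi : ℤ) : Prop := ∀ e2 : ℝ, lo / 16777216 ≤ e2 → e2 ≤ hi / 16777216 → Good CC e2

lemma Rng.trans {a b c : ℤ} (h1 : Rng a b) (h2 : Rng b c) : Rng a c := fun e2 k1 k2 =>
  (le_total e2 (b / 16777216)).elim (h1 e2 k1) fun k => h2 e2 k k2

/-- The complete check of a box. -/
def allk (lo hi : ℤ) (q : List ℤ) (n D : ℕ) (l : List ℕ) : Bool :=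
  decide (q.getD 21 0 = lo ∧ q.getD 22 0 = hi) && (cellk q && boxk (pq q) n D l)

theorem box_rng (lo hi : ℤ) (q : List ℤ) (n D : ℕ) (l : List ℕ) (h : allk lo hi q n D l = true) :
    Rng lo hi := fun e2 k1 k2 => by
  simp only [allk, Bool.and_eq_true, decide_eq_true_eq] at h
  obtain ⟨⟨rfl, rfl⟩, h1, h2⟩ := h
  refine box_good h2 (cell_ok h1 rfl) ?_ ?_
  · refine le_of_eq_of_le ?_ k1
    simp only [pq]
    push_cast
    rfl
  · refine k2.trans_eq ?_
    simp only [pq]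
    push_cast
    rfl

end Pool.Agent.Lib.MP_6e7c44_mp.LA
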