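import Mathlib

/-!
Polynomial models in one or two variables, stored as their value at a power of two modulo a larger
power of two, with a bound on the coefficients and an error bound.
-/

set_option autoImplicit false

namespace Pool.Agent.Lib.MP_6e7c44_mp.LA

/-- Value, at the Kronecker point, of a list of monomials. -/
def evX (X : ℤ) (L : List (ℤ × ℕ)) : ℤ := (L.map fun t => t.1 * X ^ t.2).sum
/-- Sum of the absolute values of the coefficients. -/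
def nrm (L : List (ℤ × ℕ)) : ℕ := (L.map fun t => t.1.natAbs).sum
/-- Real value, the monomial of index `k` having the value `φ k`. -/
noncomputable def sem (φ : ℕ → ℝ) (L : List (ℤ × ℕ)) : ℝ := (L.map fun t => (t.1 : ℝ) * φ t.2).sum

def lsm (c : ℤ) (j : ℕ) (L : List (ℤ × ℕ)) : List (ℤ × ℕ) := L.map fun t => (c * t.1, j + t.2)
def lml (L M : List (ℤ × ℕ)) : List (ℤ × ℕ) := L.flatMap fun t => lsm t.1 t.2 M

@[simp] lemma evX_nil (X : ℤ) : evX X [] = 0 := rfl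
@[simp] lemma nrm_nil : nrm [] = 0 := rfl
@[simp] lemma sem_nil (φ : ℕ → ℝ) : sem φ [] = 0 := rfl
@[simp] lemma evX_cons (X : ℤ) (t : ℤ × ℕ) (L : List (ℤ × ℕ)) :
    evX X (t :: L) = t.1 * X ^ t.2 + evX X L := by simp [evX]
@[simp] lemma nrm_cons (t : ℤ × ℕ) (L : List (ℤ × ℕ)) : nrm (t :: L) = t.1.natAbs + nrm L := by
  simp [nrm]
@[simp] lemma sem_cons (φ : ℕ → ℝ) (t : ℤ × ℕ) (L : List (ℤ × ℕ)) :
    sem φ (t :: L) = t.1 * φ t.2 + sem φ L := by simp [sem]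
@[simp] lemma evX_app (X : ℤ) (L M : List (ℤ × ℕ)) : evX X (L ++ M) = evX X L + evX X M := by
  simp [evX]
@[simp] lemma nrm_app (L M : List (ℤ × ℕ)) : nrm (L ++ M) = nrm L + nrm M := by simp [nrm]
@[simp] lemma sem_app (φ : ℕ → ℝ) (L M : List (ℤ × ℕ)) : sem φ (L ++ M) = sem φ L + sem φ M := by
  simp [sem]

lemma evX_lsm (X c : ℤ) (j : ℕ) (L : List (ℤ × ℕ)) : evX X (lsm c j L) = c * X ^ j * evX X L := by
  induction L with
  | nil => simp [lsm]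
  | cons t L ih => rw [lsm, List.map_cons, ← lsm, evX_cons, ih, evX_cons]; ring

lemma nrm_lsm (c : ℤ) (j : ℕ) (L : List (ℤ × ℕ)) : nrm (lsm c j L) = c.natAbs * nrm L := by
  induction L with
  | nil => simp [lsm]
  | cons t L ih => rw [lsm, List.map_cons, ← lsm, nrm_cons, ih, nrm_cons, Int.natAbs_mul]; ring

lemma sem_lsm (φ : ℕ → ℝ) (c : ℤ) (j : ℕ) (L : List (ℤ × ℕ))
    (h : ∀ t ∈ L, φ (j + t.2) = φ j * φ t.2) : sem φ (lsm c j L) = c * φ j * sem φ L := by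
  induction L with
  | nil => simp [lsm]
  | cons t L ih =>
    rw [lsm, List.map_cons, ← lsm, sem_cons, ih fun u hu => h u (List.mem_cons_of_mem _ hu),
      sem_cons, h t List.mem_cons_self]
    push_cast; ring

lemma evX_lml (X : ℤ) (L M : List (ℤ × ℕ)) : evX X (lml L M) = evX X L * evX X M := by
  induction L with
  | nil => simp [lml]
  | cons t L ih => rw [lml, List.flatMap_cons, ← lml, evX_app, ih, evX_lsm, evX_cons]; ring

lemma nrm_lml (L M : List (ℤ × ℕ)) : nrm (lml L M) = nrm L * nrm M := by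
  induction L with
  | nil => simp [lml]
  | cons t L ih => rw [lml, List.flatMap_cons, ← lml, nrm_app, ih, nrm_lsm, nrm_cons]; ring

lemma sem_lml (φ : ℕ → ℝ) (L M : List (ℤ × ℕ))
    (h : ∀ t ∈ L, ∀ u ∈ M, φ (t.2 + u.2) = φ t.2 * φ u.2) :
    sem φ (lml L M) = sem φ L * sem φ M := by
  induction L with
  | nil => simp [lml]
  | cons t L ih =>
    rw [lml, List.flatMap_cons, ← lml, sem_app, ih fun u hu => h u (List.mem_cons_of_mem _ hu),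
      sem_lsm _ _ _ _ (h t List.mem_cons_self), sem_cons]
    ring

lemma abs_sem_le {φ : ℕ → ℝ} (h : ∀ k, |φ k| ≤ 1) (L : List (ℤ × ℕ)) : |sem φ L| ≤ nrm L := by
  induction L with
  | nil => simp
  | cons t L ih =>
    rw [sem_cons, nrm_cons]
    refine (abs_add_le _ _).trans ?_
    rw [abs_mul, Nat.cast_add, Nat.cast_natAbs, Int.cast_abs]
    linarith [mul_le_of_le_one_right (abs_nonneg (t.1 : ℝ)) (h t.2)]

/-- The total coefficient of index `j`. -/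
def cf (L : List (ℤ × ℕ)) (j : ℕ) : ℤ := (L.map fun t => if t.2 = j then t.1 else 0).sum

lemma sum_cf {R : Type*} [CommRing R] (ψ : ℕ → R) (n : ℕ) (L : List (ℤ × ℕ))
    (h : ∀ t ∈ L, t.2 < n) :
    (L.map fun t => (t.1 : R) * ψ t.2).sum = ∑ j ∈ Finset.range n, (cf L j : R) * ψ j := by
  induction L with
  | nil => simp [cf]
  | cons t L ih =>
    rw [List.map_cons, List.sum_cons, ih fun u hu => h u (List.mem_cons_of_mem _ hu)]
    have : ∀ j, (cf (t :: L) j : R) * ψ j = (if t.2 = j then t.1 * ψ j else 0) + cf L j * ψ j := by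
      intro j
      simp only [cf, List.map_cons, List.sum_cons]
      split_ifs <;> simp [add_mul]
    simp only [this, Finset.sum_add_distrib, Finset.sum_ite_eq, Finset.mem_range,
      h t List.mem_cons_self, if_true]

lemma cf_le (L : List (ℤ × ℕ)) (j : ℕ) : (cf L j).natAbs ≤ nrm L := by
  induction L with
  | nil => simp [cf]
  | cons t L ih =>
    rw [cf, List.map_cons, List.sum_cons, ← cf, nrm_cons]
    refine (Int.natAbs_add_le _ _).trans (add_le_add ?_ ih)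
    split_ifs <;> simp

lemma digits_zero (X n : ℕ) (c : ℕ → ℤ) (hc : ∀ j, (c j).natAbs < X)
    (h : (X : ℤ) ^ n ∣ ∑ j ∈ Finset.range n, c j * (X : ℤ) ^ j) : ∀ j < n, c j = 0 := by
  induction n generalizing c with
  | zero => simp
  | succ n ih =>
    have hX : (X : ℤ) ≠ 0 := by have := hc 0; omega
    rw [Finset.sum_range_succ'] at h
    have e : ∑ j ∈ Finset.range n, c (j + 1) * (X : ℤ) ^ (j + 1)
        = X * ∑ j ∈ Finset.range n, c (j + 1) * (X : ℤ) ^ j := by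
      rw [Finset.mul_sum]; exact Finset.sum_congr rfl fun j _ => by ring
    rw [e, pow_zero, mul_one] at h
    have h0 : c 0 = 0 := Int.eq_zero_of_dvd_of_natAbs_lt_natAbs
      ((dvd_add_right (dvd_mul_right _ _)).1 ((dvd_pow_self _ n.succ_ne_zero).trans h))
      (by simpa using hc 0)
    rw [h0, add_zero, pow_succ', mul_dvd_mul_iff_left hX] at h
    intro j hj
    cases j with
    | zero => exact h0
    | succ j => exact ih (fun j => c (j + 1)) (fun j => hc _) h j (by omega)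

lemma sem_zero (φ : ℕ → ℝ) {X n : ℕ} {L : List (ℤ × ℕ)} (h1 : nrm L < X) (h2 : ∀ t ∈ L, t.2 < n)
    (h3 : (X : ℤ) ^ n ∣ evX X L) : sem φ L = 0 := by
  have e := sum_cf (fun j => (X : ℤ) ^ j) n L h2
  simp only [Int.cast_id] at e
  rw [evX, e] at h3
  rw [sem, sum_cf φ n L h2]
  exact Finset.sum_eq_zero fun j hj => by
    rw [digits_zero X n _ (fun j => (cf_le L j).trans_lt h1) h3 j (Finset.mem_range.1 hj)]; simp

/-- A number with `k` digits in base `2 ^ B`, the digit of index `i + j` being `f (i + j)`. -/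
def mkN (B : ℕ) (f : ℕ → ℕ) : ℕ → ℕ → ℕ
  | 0, _ => 0
  | k + 1, i => Nat.add (f i) (Nat.shiftLeft (mkN B f k (Nat.add i 1)) B)

lemma mkN_succ (B : ℕ) (f : ℕ → ℕ) (k i : ℕ) :
    mkN B f (k + 1) i = f i + 2 ^ B * mkN B f k (i + 1) := by
  rw [mkN]; simp [Nat.shiftLeft_eq, mul_comm]

lemma land_mkN (B c : ℕ) (f : ℕ → ℕ) (hf : ∀ i, f i < 2 ^ c) (hc : c ≤ B) (k i P : ℕ) :
    ∃ (L : List (ℤ × ℕ)) (q : ℕ), evX (2 ^ B : ℕ) L = (2 ^ B : ℕ) ^ i * (P &&& mkN B f k i : ℕ) ∧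
      (P &&& mkN B f k i) = nrm L + (2 ^ B - 1) * q ∧ nrm L ≤ k * 2 ^ c ∧
      (∀ t ∈ L, f t.2 ≠ 0 ∧ t.2 < i + k) ∧ (nrm L : ℝ) = sem (fun _ => 1) L ∧
      ∀ φ, sem φ L = ∑ j ∈ Finset.range k,
        ((P / 2 ^ (B * j) % 2 ^ B &&& f (i + j) : ℕ) : ℝ) * φ (i + j) := by
  induction k generalizing i P with
  | zero => exact ⟨[], 0, by simp [mkN]⟩
  | succ k ih =>
    obtain ⟨L, q, h1, h2, h3, h4, h5, h6⟩ := ih (i + 1) (P / 2 ^ B)
    have f1 : f i < 2 ^ B := (hf i).trans_le (Nat.pow_le_pow_right two_pos hc)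
    have p0 : 0 < 2 ^ B := by positivity
    have e1 : (P &&& mkN B f (k + 1) i) % 2 ^ B = P % 2 ^ B &&& f i := by
      rw [Nat.and_mod_two_pow, mkN_succ, Nat.add_mul_mod_self_left, Nat.mod_eq_of_lt f1]
    have e2 : (P &&& mkN B f (k + 1) i) / 2 ^ B = P / 2 ^ B &&& mkN B f k (i + 1) := by
      rw [Nat.and_div_two_pow, mkN_succ, Nat.add_mul_div_left _ _ p0, Nat.div_eq_of_lt f1, zero_add]
    have e3 := Nat.mod_add_div (P &&& mkN B f (k + 1) i) (2 ^ B)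
    rw [e1, e2] at e3
    have d1 : P % 2 ^ B &&& f i ≤ f i := Nat.and_le_right
    have h7 : ∀ φ : ℕ → ℝ, ∑ j ∈ Finset.range (k + 1),
        ((P / 2 ^ (B * j) % 2 ^ B &&& f (i + j) : ℕ) : ℝ) * φ (i + j)
          = ((P % 2 ^ B &&& f i : ℕ) : ℝ) * φ i + sem φ L := fun φ => by
      rw [Finset.sum_range_succ', h6, add_comm]
      simp only [Nat.div_div_eq_div_mul, ← pow_add, mul_zero, pow_zero, Nat.div_one, add_zero,
        mul_add, mul_one, add_comm B, add_assoc, add_comm 1]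
    simp only [h7]
    generalize P % 2 ^ B &&& f i = a at e3 d1
    generalize P / 2 ^ B &&& mkN B f k (i + 1) = w at *
    obtain ⟨Y, hY⟩ : ∃ Y, 2 ^ B = Y + 1 := ⟨2 ^ B - 1, by omega⟩
    have g4 : ∀ t ∈ L, f t.2 ≠ 0 ∧ t.2 < i + (k + 1) := fun t ht =>
      ⟨(h4 t ht).1, by have := (h4 t ht).2; omega⟩
    rw [← e3]
    by_cases h0 : f i = 0
    · obtain rfl : a = 0 := by omega
      refine ⟨L, q + w, by rw [h1]; push_cast; ring, ?_, by nlinarith [Nat.zero_le (2 ^ c)], g4,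
        h5, by simp⟩
      rw [hY] at h2 ⊢
      simp only [Nat.add_sub_cancel] at h2 ⊢
      nlinarith
    · refine ⟨(a, i) :: L, q + w, by rw [evX_cons, h1]; push_cast; ring, ?_, ?_, ?_,
        by simp [h5], by simp⟩
      · rw [hY] at h2 ⊢
        simp only [Nat.add_sub_cancel, nrm_cons, Int.natAbs_natCast] at h2 ⊢
        nlinarith
      · simp only [nrm_cons, Int.natAbs_natCast]
        nlinarith [hf i]
      · intro t ht
        rcases List.mem_cons.1 ht with rfl | ht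
        · exact ⟨h0, by simp⟩
        · exact g4 t ht

/-- The model: value modulo `2 ^ (B * n)`, coefficient bound, error bound. -/
structure TM where
  v : ℕ
  b : ℕ
  r : ℕ

/-- The format: bits of a digit, number of digits, digits of a row. -/
structure Fm where
  B : ℕ
  n : ℕ
  w : ℕ

namespace Fm
variable (c : Fm)
def md : ℕ := Nat.pow 2 (Nat.mul c.B c.n)
def mk1 : ℕ := Nat.sub c.md 1
def ones : ℕ := mkN c.B (fun _ => 1) c.n 0
def ho : ℕ := Nat.shiftLeft c.ones (Nat.sub c.B 1)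
def b1 : ℕ := Nat.sub c.B 1
def x1 : ℕ := Nat.sub (Nat.pow 2 c.B) 1
/-- Digits below `2 ^ (B - 10 - s)` at the places of bidegree at most `dx`, `d`. -/
def lm (s dx d : ℕ) : ℕ :=
  mkN c.B (fun i => cond (Nat.ble (Nat.mod i c.w) dx && Nat.ble i d)
    (Nat.sub (Nat.pow 2 (Nat.sub (Nat.sub c.B 10) s)) 1) 0) c.n 0
def lf : ℕ := c.lm 0 c.w c.n
end Fm

namespace TM
variable (c : Fm)
def cst (a : ℕ) : TM := ⟨a, a, 0⟩
def add (p q : TM) : TM := ⟨Nat.add p.v q.v, Nat.add p.b q.b, Nat.add p.r q.r⟩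
def neg (p : TM) : TM := ⟨Nat.sub c.md (Nat.land p.v c.mk1), p.b, p.r⟩
def sub (p q : TM) : TM :=
  ⟨Nat.add p.v (Nat.sub c.md (Nat.land q.v c.mk1)), Nat.add p.b q.b, Nat.add p.r q.r⟩
def mul (p q : TM) : TM := ⟨Nat.land (Nat.mul p.v q.v) c.mk1, Nat.mul p.b q.b,
  Nat.add (Nat.mul p.b q.r) (Nat.mul p.r (Nat.add q.b q.r))⟩
def smul (a : ℕ) (p : TM) : TM := ⟨Nat.mul a p.v, Nat.mul a p.b, Nat.mul a p.r⟩
def up (s : ℕ) (p : TM) : TM := ⟨Nat.shiftLeft p.v s, Nat.shiftLeft p.b s, Nat.shiftLeft p.r s⟩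
def err (a : ℕ) (p : TM) : TM := ⟨p.v, p.b, Nat.add p.r a⟩
def su (v : ℕ) : ℕ := Nat.land (Nat.add v c.ho) c.mk1
def sg (u : ℕ) : ℕ := Nat.land (Nat.shiftRight u c.b1) c.ones
def sp (u : ℕ) : ℕ := Nat.land u (Nat.mul (sg c u) c.x1)
/-- The digits that are positive. -/
def pp (u : ℕ) : ℕ := Nat.sub (sp c u) (Nat.shiftLeft (sg c u) c.b1)
/-- The digits that are negative. -/
def pn (u : ℕ) : ℕ := Nat.sub (Nat.sub c.ho (Nat.shiftLeft (sg c u) c.b1)) (Nat.sub u (sp c u))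
def nb2 (p : TM) (P N : ℕ) : ℕ :=
  cond (Nat.beq (Nat.land (Nat.add p.v N) c.mk1) P
      && Nat.ble (Nat.add p.b (Nat.mod (Nat.add P N) c.x1)) c.x1)
    (Nat.mod (Nat.add P N) c.x1) p.b
/-- A sharp coefficient bound. -/
def nb (m : ℕ) (p : TM) : ℕ :=
  nb2 c p (Nat.land (pp c (su c p.v)) m) (Nat.land (pn c (su c p.v)) m)
def shp (dx d : ℕ) (p : TM) : TM := ⟨p.v, nb c (c.lm 0 dx d) p, p.r⟩
/-- A bound of the represented number. -/
def bnd (p : TM) : ℕ := Nat.add (nb c c.lf p) p.r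
def bd0 (p : TM) : ℕ := Nat.add p.b p.r
def ofPN (P N : ℕ) : TM := ⟨Nat.add P (Nat.sub c.md (Nat.land N c.mk1)), Nat.mod (Nat.add P N) c.x1, 0⟩
def tr2 (s : ℕ) (p q : TM) : TM := err (Nat.add (Nat.shiftRight (bnd c (sub c p (up s q))) s) 1) q
/-- Rounding: `s` bits less, bidegree at most `dx`, `d`. -/
def tr (s dx d : ℕ) (p : TM) : TM :=
  tr2 c s p (ofPN c (Nat.land (Nat.shiftRight (pp c (su c p.v)) s) (c.lm s dx d))
    (Nat.land (Nat.shiftRight (pn c (su c p.v)) s) (c.lm s dx d)))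
/-- The monomial of index `k`. -/
def mono (k : ℕ) : TM := ⟨Nat.pow 2 (Nat.mul c.B k), 1, 0⟩
end TM

lemma dv {m a b : ℤ} (h : m ∣ a) (e : b = a) : m ∣ b := e ▸ h
lemma ab {a b r s : ℝ} (h : |a| ≤ r) (e : b = a) (e' : s = r) : |b| ≤ s := e ▸ e' ▸ h

/-- A format together with a point `x` and the values `ζ` of the rows. -/
structure Cx where
  c : Fm
  x : ℝ
  ζ : ℕ → ℝ
  hx : |x| ≤ 1
  hy : ∀ k, |ζ k| ≤ 1
  z0 : ζ 0 = 1
  hB : 10 ≤ c.B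
  hn : c.n ≤ 255
  hw : 0 < c.w

namespace Cx
variable (Γ : Cx)
noncomputable def φ (k : ℕ) : ℝ := Γ.x ^ (k % Γ.c.w) * Γ.ζ (k / Γ.c.w)

lemma φ_le (k : ℕ) : |Γ.φ k| ≤ 1 := by
  rw [φ, abs_mul, abs_pow]
  exact mul_le_one₀ (pow_le_one₀ (abs_nonneg _) Γ.hx) (by positivity) (Γ.hy _)

lemma φ_zero : Γ.φ 0 = 1 := by simp [φ, Γ.z0]

lemma φ_add {j k : ℕ} (h : j % Γ.c.w + k % Γ.c.w < Γ.c.w)
    (hz : Γ.ζ (j / Γ.c.w + k / Γ.c.w) = Γ.ζ (j / Γ.c.w) * Γ.ζ (k / Γ.c.w)) :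
    Γ.φ (j + k) = Γ.φ j * Γ.φ k := by
  rw [φ, φ, φ, Nat.add_mod_of_add_mod_lt h, Nat.add_div_eq_of_add_mod_lt h, pow_add, hz]; ring

lemma md_cast : ((Γ.c.md : ℕ) : ℤ) = ((2 ^ Γ.c.B : ℕ) : ℤ) ^ Γ.c.n := by
  simp [Fm.md, ← pow_mul]

lemma land_mk1 (a : ℕ) : Nat.land a Γ.c.mk1 = a % Γ.c.md := Nat.and_two_pow_sub_one_eq_mod _ _

lemma md_pos : 0 < Γ.c.md := Nat.pos_of_ne_zero (by simp [Fm.md])

lemma land_eq (a : ℕ) : (Γ.c.md : ℤ) ∣ (Nat.land a Γ.c.mk1 : ℕ) - (a : ℤ) := by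
  rw [land_mk1]; push_cast
  exact ⟨-(a / Γ.c.md), by rw [Int.emod_def]; ring⟩

lemma neg_eq (a : ℕ) : (Γ.c.md : ℤ) ∣ (Nat.sub Γ.c.md (Nat.land a Γ.c.mk1) : ℕ) + (a : ℤ) := by
  have h1 := Γ.land_eq a
  have h2 : Nat.land a Γ.c.mk1 ≤ Γ.c.md := by rw [land_mk1]; exact (Nat.mod_lt _ Γ.md_pos).le
  rw [Nat.sub_eq, Nat.cast_sub h2]
  exact dv ((dvd_refl (Γ.c.md : ℤ)).sub h1) (by ring)

end Cx

/-- `k` represents the real number `a` with `e` binary places and bidegree at most `dx`, `d`. -/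
def Rep (Γ : Cx) (e dx d : ℕ) (k : TM) (a : ℝ) : Prop :=
  ∃ L : List (ℤ × ℕ), (Γ.c.md : ℤ) ∣ evX (2 ^ Γ.c.B : ℕ) L - k.v ∧ nrm L ≤ k.b ∧
    (∀ t ∈ L, t.2 % Γ.c.w ≤ dx ∧ t.2 ≤ d) ∧ |a * 2 ^ e - sem Γ.φ L| ≤ k.r

namespace Rep
variable {Γ : Cx} {e f dx d dx' d' : ℕ} {p q : TM} {a b : ℝ}

lemma mono (h : Rep Γ e dx d p a) (h1 : dx ≤ dx') (h2 : d ≤ d') : Rep Γ e dx' d' p a := by
  obtain ⟨L, a1, a2, a3, a4⟩ := h
  exact ⟨L, a1, a2, fun t ht => ⟨(a3 t ht).1.trans h1, (a3 t ht).2.trans h2⟩, a4⟩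

lemma congr (h : Rep Γ e dx d p a) (h1 : a = b) : Rep Γ e dx d p b := h1 ▸ h

lemma scale (h : Rep Γ e dx d p a) (h1 : b * 2 ^ f = a * 2 ^ e) : Rep Γ f dx d p b := by
  obtain ⟨L, a1, a2, a3, a4⟩ := h
  exact ⟨L, a1, a2, a3, h1 ▸ a4⟩

lemma cst (Γ : Cx) (e dx d n : ℕ) : Rep Γ e dx d (TM.cst n) (n / 2 ^ e) :=
  ⟨[(n, 0)], by simp [TM.cst], by simp [TM.cst], by simp, by simp [TM.cst, Γ.φ_zero]⟩

lemma mono_x (Γ : Cx) (h : 1 < Γ.c.w) : Rep Γ 0 1 1 (TM.mono Γ.c 1) Γ.x :=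
  ⟨[(1, 1)], by simp [TM.mono], by simp [TM.mono], by simp [Nat.mod_eq_of_lt h],
    by simp [TM.mono, Cx.φ, Nat.mod_eq_of_lt h, Nat.div_eq_of_lt h, Γ.z0]⟩

lemma mono_y (Γ : Cx) (j : ℕ) : Rep Γ 0 0 (Γ.c.w * j) (TM.mono Γ.c (Γ.c.w * j)) (Γ.ζ j) :=
  ⟨[(1, Γ.c.w * j)], by simp [TM.mono, pow_mul], by simp [TM.mono], by simp,
    by simp [TM.mono, Cx.φ, Nat.mul_div_cancel_left _ Γ.hw]⟩

lemma add (hp : Rep Γ e dx d p a) (hq : Rep Γ e dx d q b) : Rep Γ e dx d (p.add q) (a + b) := by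
  obtain ⟨L, a1, a2, a3, a4⟩ := hp
  obtain ⟨M, b1, b2, b3, b4⟩ := hq
  refine ⟨L ++ M, ?_, by simpa [TM.add] using add_le_add a2 b2,
    fun t ht => (List.mem_append.1 ht).elim (a3 t) (b3 t), ?_⟩
  · exact dv (a1.add b1) (by simp [TM.add]; ring)
  · exact ab ((abs_add_le _ _).trans (add_le_add a4 b4)) (by simp; ring) (by simp [TM.add])

lemma neg (hp : Rep Γ e dx d p a) : Rep Γ e dx d (TM.neg Γ.c p) (-a) := by
  obtain ⟨L, a1, a2, a3, a4⟩ := hp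
  refine ⟨lsm (-1) 0 L, ?_, by simpa [nrm_lsm, TM.neg] using a2, fun t ht => ?_, ?_⟩
  · exact dv (a1.add (Γ.neg_eq p.v)).neg_right (by simp only [evX_lsm, TM.neg]; ring)
  · obtain ⟨u, hu, rfl⟩ := List.mem_map.1 ht
    simpa using a3 u hu
  · rw [sem_lsm _ _ _ _ fun t _ => by simp [Γ.φ_zero], Γ.φ_zero, ← abs_neg]
    exact ab a4 (by push_cast; ring) rfl

lemma sub (hp : Rep Γ e dx d p a) (hq : Rep Γ e dx d q b) :
    Rep Γ e dx d (TM.sub Γ.c p q) (a - b) := (hp.add hq.neg).congr (sub_eq_add_neg _ _).symm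

lemma err (hp : Rep Γ e dx d p a) {n : ℕ} (h : |b - a| * 2 ^ e ≤ n) :
    Rep Γ e dx d (p.err n) b := by
  obtain ⟨L, a1, a2, a3, a4⟩ := hp
  refine ⟨L, a1, a2, a3, ?_⟩
  have h1 : |(b - a) * 2 ^ e| ≤ n := by rwa [abs_mul, abs_of_pos (a := (2 : ℝ) ^ e) (by positivity)]
  exact ab ((abs_add_le _ _).trans (add_le_add a4 h1)) (by ring) (by simp [TM.err])

lemma mul' (hp : Rep Γ e dx d p a) (hq : Rep Γ f dx' d' q b) (h : dx + dx' < Γ.c.w)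
    (hz : ∀ i ≤ d / Γ.c.w, ∀ j, Γ.ζ (i + j) = Γ.ζ i * Γ.ζ j) :
    Rep Γ (e + f) (dx + dx') (d + d') (TM.mul Γ.c p q) (a * b) := by
  obtain ⟨L, a1, a2, a3, a4⟩ := hp
  obtain ⟨M, b1, b2, b3, b4⟩ := hq
  have lt : ∀ t ∈ L, ∀ u ∈ M, t.2 % Γ.c.w + u.2 % Γ.c.w < Γ.c.w := fun t ht u hu =>
    (add_le_add (a3 t ht).1 (b3 u hu).1).trans_lt h
  refine ⟨lml L M, ?_, by rw [nrm_lml]; exact Nat.mul_le_mul a2 b2, fun t ht => ?_, ?_⟩
  · refine dv (((a1.mul_right (evX (2 ^ Γ.c.B : ℕ) M)).add (b1.mul_left p.v)).sub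
      (Γ.land_eq (Nat.mul p.v q.v))) ?_
    simp only [evX_lml, TM.mul, Nat.mul_eq]; push_cast; ring
  · obtain ⟨u, hu, ht⟩ := List.mem_flatMap.1 ht
    obtain ⟨w, hw, rfl⟩ := List.mem_map.1 ht
    refine ⟨?_, add_le_add (a3 u hu).2 (b3 w hw).2⟩
    rw [Nat.add_mod_of_add_mod_lt (lt u hu w hw)]
    exact add_le_add (a3 u hu).1 (b3 w hw).1
  · rw [sem_lml _ _ _ fun t ht u hu => Γ.φ_add (lt t ht u hu)
      (hz _ (Nat.div_le_div_right (a3 t ht).2) _)]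
    have c1 : |sem Γ.φ L| ≤ p.b := (abs_sem_le Γ.φ_le L).trans (by exact_mod_cast a2)
    have c2 : |sem Γ.φ M| ≤ q.b := (abs_sem_le Γ.φ_le M).trans (by exact_mod_cast b2)
    have e1 : a * b * 2 ^ (e + f) - sem Γ.φ L * sem Γ.φ M = sem Γ.φ L * (b * 2 ^ f - sem Γ.φ M)
        + (a * 2 ^ e - sem Γ.φ L) * (sem Γ.φ M + (b * 2 ^ f - sem Γ.φ M)) := by ring
    rw [e1]
    refine (abs_add_le _ _).trans ?_
    simp only [TM.mul, Nat.add_eq, Nat.mul_eq, abs_mul]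
    push_cast
    gcongr
    exact (abs_add_le _ _).trans (add_le_add c2 b4)

/-- The product of a polynomial in `x` alone with an arbitrary model. -/
lemma mul (hp : Rep Γ e dx d p a) (hq : Rep Γ f dx' d' q b) (h : dx + dx' < Γ.c.w)
    (h' : d < Γ.c.w) : Rep Γ (e + f) (dx + dx') (d + d') (TM.mul Γ.c p q) (a * b) :=
  hp.mul' hq h fun i hi j => by
    rw [Nat.div_eq_of_lt h', Nat.le_zero] at hi
    rw [hi, Γ.z0, zero_add, one_mul]

lemma smul (n : ℕ) (hp : Rep Γ e dx d p a) : Rep Γ e dx d (p.smul n) (n * a) := by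
  obtain ⟨L, a1, a2, a3, a4⟩ := hp
  refine ⟨lsm n 0 L, ?_, by simpa [nrm_lsm, TM.smul] using Nat.mul_le_mul_left n a2,
    fun t ht => ?_, ?_⟩
  · refine dv (a1.mul_left n) ?_
    simp only [evX_lsm, TM.smul, Nat.mul_eq]; push_cast; ring
  · obtain ⟨u, hu, rfl⟩ := List.mem_map.1 ht
    simpa using a3 u hu
  · rw [sem_lsm _ _ _ _ fun t _ => by simp [Γ.φ_zero], Γ.φ_zero]
    have : |n * (a * 2 ^ e - sem Γ.φ L)| ≤ n * p.r := by
      rw [abs_mul, Nat.abs_cast]; gcongr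
    exact ab this (by push_cast; ring) (by simp [TM.smul])

lemma up (s : ℕ) (hp : Rep Γ e dx d p a) : Rep Γ (e + s) dx d (p.up s) a := by
  have := (hp.smul (2 ^ s)).scale (f := e + s) (b := a) (by push_cast; ring)
  simpa [TM.smul, TM.up, Nat.shiftLeft_eq, mul_comm] using this

lemma land_lm (Γ : Cx) (s dx d P : ℕ) : ∃ (L : List (ℤ × ℕ)) (q : ℕ),
    evX (2 ^ Γ.c.B : ℕ) L = (Nat.land P (Γ.c.lm s dx d) : ℕ) ∧
      Nat.land P (Γ.c.lm s dx d) = nrm L + Γ.c.x1 * q ∧ nrm L ≤ 255 * 2 ^ (Γ.c.B - 10) ∧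
      ∀ t ∈ L, (t.2 % Γ.c.w ≤ dx ∧ t.2 ≤ d) ∧ t.2 < Γ.c.n := by
  obtain ⟨L, q, h1, h2, h3, h4, -⟩ := land_mkN Γ.c.B (Γ.c.B - 10)
    (fun i => cond (Nat.ble (Nat.mod i Γ.c.w) dx && Nat.ble i d)
      (Nat.sub (Nat.pow 2 (Nat.sub (Nat.sub Γ.c.B 10) s)) 1) 0) (fun i => by
      have h1 : 2 ^ (Γ.c.B - 10 - s) ≤ 2 ^ (Γ.c.B - 10) := Nat.pow_le_pow_right two_pos (by omega)
      have h2 : 0 < 2 ^ (Γ.c.B - 10 - s) := by positivity
      cases (Nat.ble (Nat.mod i Γ.c.w) dx && Nat.ble i d)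
      · simp
      · simp only [cond_true, Nat.sub_eq, Nat.pow_eq]; omega) (by omega) Γ.c.n 0 P
  refine ⟨L, q, by simpa [Fm.lm] using h1, h2, h3.trans (Nat.mul_le_mul_right _ Γ.hn),
    fun t ht => ⟨?_, by simpa using (h4 t ht).2⟩⟩
  have := (h4 t ht).1
  cases h : (Nat.ble (Nat.mod t.2 Γ.c.w) dx && Nat.ble t.2 d)
  · simp [h] at this
  · simp only [Bool.and_eq_true, Nat.ble_eq] at h
    exact h

lemma sum_mod (Γ : Cx) {P N a b q q' : ℕ} (h1 : P = a + Γ.c.x1 * q) (h2 : N = b + Γ.c.x1 * q')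
    (h3 : a ≤ 255 * 2 ^ (Γ.c.B - 10)) (h4 : b ≤ 255 * 2 ^ (Γ.c.B - 10)) :
    Nat.mod (Nat.add P N) Γ.c.x1 = a + b := by
  have e : 2 ^ Γ.c.B = 1024 * 2 ^ (Γ.c.B - 10) := by
    rw [show 1024 = 2 ^ 10 from rfl, ← pow_add, Nat.add_sub_cancel' Γ.hB]
  have p : 0 < 2 ^ (Γ.c.B - 10) := by positivity
  have lt : a + b < Γ.c.x1 := by simp only [Fm.x1, Nat.sub_eq, Nat.pow_eq]; omega
  show (P + N) % Γ.c.x1 = _
  rw [h1, h2, show a + Γ.c.x1 * q + (b + Γ.c.x1 * q') = a + b + Γ.c.x1 * (q + q') by ring,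
    Nat.add_mul_mod_self_left, Nat.mod_eq_of_lt lt]

lemma ofPN (Γ : Cx) (e s dx d P N : ℕ) : ∃ a, Rep Γ e dx d
    (TM.ofPN Γ.c (Nat.land P (Γ.c.lm s dx d)) (Nat.land N (Γ.c.lm s dx d))) a := by
  obtain ⟨L, q, a1, a2, a3, a4⟩ := land_lm Γ s dx d P
  obtain ⟨M, q', b1, b2, b3, b4⟩ := land_lm Γ s dx d N
  refine ⟨sem Γ.φ (L ++ lsm (-1) 0 M) / 2 ^ e, L ++ lsm (-1) 0 M, ?_, ?_, fun t ht => ?_, by simp⟩
  · refine dv (Γ.neg_eq (Nat.land N (Γ.c.lm s dx d))).neg_right ?_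
    simp only [evX_app, evX_lsm, a1, b1, TM.ofPN, Nat.add_eq]; push_cast; ring
  · simp only [TM.ofPN, sum_mod Γ a2 b2 a3 b3, nrm_app, nrm_lsm]; simp
  · rcases List.mem_append.1 ht with h | h
    · exact (a4 t h).1
    · obtain ⟨u, hu, rfl⟩ := List.mem_map.1 h
      simpa using (b4 u hu).1

lemma le0 (hp : Rep Γ e dx d p a) : |a| * 2 ^ e ≤ p.bd0 := by
  obtain ⟨L, -, a2, -, a4⟩ := hp
  have h0 : |sem Γ.φ L| ≤ p.b := (abs_sem_le Γ.φ_le L).trans (by exact_mod_cast a2)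
  have h1 := abs_add_le (sem Γ.φ L) (a * 2 ^ e - sem Γ.φ L)
  rw [add_sub_cancel, abs_mul, abs_of_pos (a := (2 : ℝ) ^ e) (by positivity)] at h1
  simp only [TM.bd0, Nat.add_eq, Nat.cast_add]
  linarith

lemma shp (hp : Rep Γ e dx d p a) (h : d < Γ.c.n) (h1 : dx ≤ dx') (h2 : d ≤ d') :
    Rep Γ e dx' d' (TM.shp Γ.c dx' d' p) a := by
  obtain ⟨M, q, b1, b2, b3, b4⟩ := land_lm Γ 0 dx' d' (TM.pp Γ.c (TM.su Γ.c p.v))
  obtain ⟨N, q', c1, c2, c3, c4⟩ := land_lm Γ 0 dx' d' (TM.pn Γ.c (TM.su Γ.c p.v))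
  rw [TM.shp, TM.nb, TM.nb2, sum_mod Γ b2 c2 b3 c3]
  generalize Nat.land (TM.pp Γ.c (TM.su Γ.c p.v)) (Γ.c.lm 0 dx' d') = P at *
  generalize Nat.land (TM.pn Γ.c (TM.su Γ.c p.v)) (Γ.c.lm 0 dx' d') = Q at *
  cases hc : (Nat.beq (Nat.land (Nat.add p.v Q) Γ.c.mk1) P
    && Nat.ble (Nat.add p.b (nrm M + nrm N)) Γ.c.x1)
  · exact hp.mono h1 h2
  obtain ⟨L, a1, a2, a3, a4⟩ := hp
  simp only [Bool.and_eq_true, Nat.beq_eq, Nat.ble_eq, Nat.add_eq] at hc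
  have dd : (Γ.c.md : ℤ) ∣ evX (2 ^ Γ.c.B : ℕ) (M ++ lsm (-1) 0 N) - p.v := by
    have h1 := Γ.land_eq (p.v + Q)
    rw [hc.1] at h1
    refine dv h1 ?_
    simp only [evX_app, evX_lsm, b1, c1]; push_cast; ring
  have mem : ∀ t ∈ M ++ lsm (-1) 0 N, (t.2 % Γ.c.w ≤ dx' ∧ t.2 ≤ d') ∧ t.2 < Γ.c.n := fun t ht => by
    rcases List.mem_append.1 ht with h1 | h1
    · exact b4 t h1
    · obtain ⟨u, hu, rfl⟩ := List.mem_map.1 h1
      simpa using c4 u hu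
  have nn : nrm (M ++ lsm (-1) 0 N) = nrm M + nrm N := by simp [nrm_lsm]
  have z := sem_zero Γ.φ (X := 2 ^ Γ.c.B) (n := Γ.c.n)
    (L := L ++ lsm (-1) 0 (M ++ lsm (-1) 0 N)) (by
    have : 0 < 2 ^ Γ.c.B := by positivity
    have h2 := hc.2
    simp only [Fm.x1, Nat.sub_eq, Nat.pow_eq] at h2
    rw [nrm_app, nrm_lsm, nn]
    simp only [Int.natAbs_neg, Int.natAbs_one]; omega) (fun t ht => by
    rcases List.mem_append.1 ht with h1 | h1
    · exact (a3 t h1).2.trans_lt h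
    · obtain ⟨u, hu, rfl⟩ := List.mem_map.1 h1
      simpa using (mem u hu).2) (by
    rw [← Γ.md_cast]
    exact dv (a1.sub dd) (by rw [evX_app, evX_lsm]; ring))
  rw [sem_app, sem_lsm _ _ _ _ fun t _ => by simp [Γ.φ_zero], Γ.φ_zero] at z
  exact ⟨_, dd, nn.le, fun t ht => (mem t ht).1, ab a4 (by push_cast at z; linarith) rfl⟩

lemma nb_le (hp : Rep Γ e dx d p a) (h : d < Γ.c.n) : |a| * 2 ^ e ≤ TM.bnd Γ.c p := by
  have h1 : Rep Γ e Γ.c.w d p a := by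
    obtain ⟨L, a1, a2, a3, a4⟩ := hp
    exact ⟨L, a1, a2, fun t ht => ⟨(Nat.mod_lt _ Γ.hw).le, (a3 t ht).2⟩, a4⟩
  exact (h1.shp h le_rfl h.le).le0

lemma tr (s dx' d' : ℕ) (hp : Rep Γ (e + s) dx d p a) (h : d < Γ.c.n) (h' : d' < Γ.c.n) :
    Rep Γ e dx' d' (TM.tr Γ.c s dx' d' p) a := by
  obtain ⟨b, hb⟩ := ofPN Γ e s dx' d' (Nat.shiftRight (TM.pp Γ.c (TM.su Γ.c p.v)) s)
    (Nat.shiftRight (TM.pn Γ.c (TM.su Γ.c p.v)) s)
  refine hb.err ?_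
  have h1 := ((hp.mono (le_max_left dx dx') (le_max_left d d')).sub
    ((hb.up s).mono (le_max_right _ _) (le_max_right _ _))).nb_le (max_lt h h')
  generalize TM.bnd Γ.c _ = n at h1
  have h2 : (n : ℝ) < ((n / 2 ^ s + 1 : ℕ) : ℝ) * 2 ^ s := by
    exact_mod_cast (Nat.div_lt_iff_lt_mul (by positivity)).1 (Nat.lt_succ_self _)
  rw [Nat.add_eq, Nat.shiftRight_eq, Nat.shiftRight_eq_div_pow]
  refine le_of_mul_le_mul_right ?_ (show (0 : ℝ) < 2 ^ s by positivity)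
  rw [pow_add, ← mul_assoc] at h1
  linarith

end Rep

lemma ndiv (a b : ℕ) : Nat.div a b = a / b := rfl
lemma nmod (a b : ℕ) : Nat.mod a b = a % b := rfl

/-- The mask of `b` bits at the places in the rows `s` and the columns `t`. -/
def msk (c : Fm) (b : ℕ) (s t : ℕ → Bool) : ℕ :=
  mkN c.B (fun i => cond (s (Nat.div i c.w) && t (Nat.mod i c.w)) (Nat.sub (Nat.pow 2 b) 1) 0) c.n 0

/-- The lowest `b` bits of the digit of index `i`. -/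
def dg (B b P i : ℕ) : ℝ := (P / 2 ^ (B * i) % 2 ^ b : ℕ)

lemma dg_shift (B b P i j : ℕ) : dg B b (Nat.shiftRight P (B * j)) i = dg B b P (j + i) := by
  simp only [dg, Nat.shiftRight_eq, Nat.shiftRight_eq_div_pow, Nat.div_div_eq_div_mul, ← pow_add,
    ← mul_add]

lemma sum_rows (F : ℕ → ℝ) (m w : ℕ) : ∑ i ∈ Finset.range (w * m), F i
    = ∑ j ∈ Finset.range m, ∑ k ∈ Finset.range w, F (w * j + k) := by
  induction m with
  | zero => simp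
  | succ m ih => rw [Nat.mul_succ, Finset.sum_range_add, ih, Finset.sum_range_succ]

/-- The masked digits as a polynomial. -/
noncomputable def mv (c : Fm) (m b : ℕ) (s t : ℕ → Bool) (P : ℕ) (x : ℝ) (ζ : ℕ → ℝ) : ℝ :=
  ∑ j ∈ Finset.range m, if s j then ζ j * ∑ k ∈ Finset.range c.w,
    if t k then dg c.B b P (c.w * j + k) * x ^ k else 0 else 0

lemma land_msk (c : Fm) {m b : ℕ} (hw : 0 < c.w) (hm : c.n = c.w * m) (hb : b ≤ c.B)
    (s t : ℕ → Bool) (P : ℕ) : ∃ (L : List (ℤ × ℕ)) (q : ℕ),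
    evX (2 ^ c.B : ℕ) L = (Nat.land P (msk c b s t) : ℕ) ∧
      Nat.land P (msk c b s t) = nrm L + c.x1 * q ∧ nrm L ≤ c.n * 2 ^ b ∧
      (∀ u ∈ L, s (u.2 / c.w) ∧ t (u.2 % c.w)) ∧ (nrm L : ℝ) = mv c m b s t P 1 (fun _ => 1) ∧
      ∀ x ζ, sem (fun k => x ^ (k % c.w) * ζ (k / c.w)) L = mv c m b s t P x ζ := by
  obtain ⟨L, q, h1, h2, h3, h4, h5, h6⟩ := land_mkN c.B b
    (fun i => cond (s (Nat.div i c.w) && t (Nat.mod i c.w)) (Nat.sub (Nat.pow 2 b) 1) 0) (fun i => by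
      have h2 : 0 < 2 ^ b := by positivity
      cases (s (Nat.div i c.w) && t (Nat.mod i c.w))
      · simp
      · simp only [cond_true, Nat.sub_eq, Nat.pow_eq]; omega) hb c.n 0 P
  have h7 : ∀ x ζ, sem (fun k => x ^ (k % c.w) * ζ (k / c.w)) L = mv c m b s t P x ζ := by
    intro x ζ
    rw [h6, hm, sum_rows, mv]
    refine Finset.sum_congr rfl fun j _ => ?_
    have e : ∀ k ∈ Finset.range c.w, ((P / 2 ^ (c.B * (c.w * j + k)) % 2 ^ c.B &&&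
        cond (s (Nat.div (0 + (c.w * j + k)) c.w) && t (Nat.mod (0 + (c.w * j + k)) c.w))
          (Nat.sub (Nat.pow 2 b) 1) 0 : ℕ) : ℝ)
        * (x ^ ((0 + (c.w * j + k)) % c.w) * ζ ((0 + (c.w * j + k)) / c.w))
        = if s j then ζ j * (if t k then dg c.B b P (c.w * j + k) * x ^ k else 0) else 0 := by
      intro k hk
      have e1 : (c.w * j + k) / c.w = j := by
        rw [Nat.mul_add_div hw, Nat.div_eq_of_lt (Finset.mem_range.1 hk), add_zero]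
      have e2 : (c.w * j + k) % c.w = k := by
        rw [Nat.mul_add_mod, Nat.mod_eq_of_lt (Finset.mem_range.1 hk)]
      simp only [zero_add, ndiv, nmod, e1, e2, Nat.sub_eq, Nat.pow_eq]
      cases s j <;> cases t k <;>
        simp [dg, Nat.and_two_pow_sub_one_eq_mod, Nat.mod_mod_of_dvd _ (pow_dvd_pow 2 hb)]
      ring
    rw [Finset.sum_congr rfl e]
    split_ifs <;> simp [Finset.mul_sum]
  refine ⟨L, q, by simpa [msk] using h1, h2, h3, fun u hu => ?_, ?_, h7⟩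
  · have := (h4 u hu).1
    cases h : (s (Nat.div u.2 c.w) && t (Nat.mod u.2 c.w))
    · simp [h] at this
    · simpa [ndiv, nmod] using h
  · rw [h5, ← h7]; simp

lemma mod_msk (c : Fm) {m b : ℕ} (hw : 0 < c.w) (hm : c.n = c.w * m) (hb : b ≤ c.B)
    (h : c.n * 2 ^ b < c.x1) (s t : ℕ → Bool) (P : ℕ) :
    (Nat.mod (Nat.land P (msk c b s t)) c.x1 : ℝ) = mv c m b s t P 1 (fun _ => 1) := by
  obtain ⟨L, q, -, h2, h3, -, h5, -⟩ := land_msk c hw hm hb s t P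
  rw [h2, nmod, Nat.add_mul_mod_self_left, Nat.mod_eq_of_lt (h3.trans_lt h), h5]

/-- The model read off from the positive digits `P` and the negative digits `N`. -/
def TM.ex (c : Fm) (M P N : ℕ) : TM := TM.ofPN c (Nat.land P M) (Nat.land N M)

lemma Rep.ex (Γ : Cx) {m b : ℕ} (hm : Γ.c.n = Γ.c.w * m) (hb : b ≤ Γ.c.B - 10)
    {s t : ℕ → Bool} {dx dy : ℕ} (hs : ∀ j, s j → j ≤ dy) (ht : ∀ k, t k → k ≤ dx) (e P N : ℕ) :
    Rep Γ e dx (Γ.c.w * dy + dx) (TM.ex Γ.c (msk Γ.c b s t) P N)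
      ((mv Γ.c m b s t P Γ.x Γ.ζ - mv Γ.c m b s t N Γ.x Γ.ζ) / 2 ^ e) := by
  obtain ⟨L, q, a1, a2, a3, a4, -, a6⟩ := land_msk Γ.c Γ.hw hm (hb.trans (Nat.sub_le _ _)) s t P
  obtain ⟨M, q', b1, b2, b3, b4, -, b6⟩ := land_msk Γ.c Γ.hw hm (hb.trans (Nat.sub_le _ _)) s t N
  have le : Γ.c.n * 2 ^ b ≤ 255 * 2 ^ (Γ.c.B - 10) :=
    Nat.mul_le_mul Γ.hn (Nat.pow_le_pow_right two_pos hb)
  have dd : ∀ i, s (i / Γ.c.w) ∧ t (i % Γ.c.w) → i % Γ.c.w ≤ dx ∧ i ≤ Γ.c.w * dy + dx :=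
    fun i hi => ⟨ht _ hi.2, (Nat.div_add_mod i Γ.c.w).ge.trans
      (add_le_add (Nat.mul_le_mul_left _ (hs _ hi.1)) (ht _ hi.2))⟩
  refine ⟨L ++ lsm (-1) 0 M, ?_, ?_, fun u hu => ?_, ?_⟩
  · refine dv (Γ.neg_eq (Nat.land N (msk Γ.c b s t))).neg_right ?_
    simp only [evX_app, evX_lsm, a1, b1, TM.ex, TM.ofPN, Nat.add_eq]; push_cast; ring
  · simp only [TM.ex, TM.ofPN, Rep.sum_mod Γ a2 b2 (a3.trans le) (b3.trans le), nrm_app, nrm_lsm]
    simp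
  · rcases List.mem_append.1 hu with h | h
    · exact dd _ (a4 u h)
    · obtain ⟨v, hv, rfl⟩ := List.mem_map.1 h
      simpa using dd _ (b4 v hv)
  · rw [sem_app, sem_lsm _ _ _ _ fun t _ => by simp [Γ.φ_zero], Γ.φ_zero, ← a6, ← b6]
    simp [TM.ex, TM.ofPN, sub_eq_add_neg, show Γ.φ = fun k => Γ.x ^ (k % Γ.c.w) * Γ.ζ (k / Γ.c.w) from rfl]

end Pool.Agent.Lib.MP_6e7c44_mp.LA
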