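import Pool.Agent.Lib.MP_6e7c44_mp.LA.Defs
import Pool.Agent.Lib.MP_6e7c44_mp.LA.TM

/-! Polynomial cone data and their models on a rectangle. -/

set_option autoImplicit false

namespace Pool.Agent.Lib.MP_6e7c44_mp.LA

/-- A polynomial of degree at most `k` in one variable and its derivative. -/
noncomputable def pe1 (w : ℝ) : ℕ → List ℤ → ℝ × ℝ
  | _, [] => (0, 0)
  | 0, c :: _ => (c, 0)
  | k + 1, c :: r => (c + w * (pe1 w k r).1, (pe1 w k r).1 + w * (pe1 w k r).2)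

/-- A polynomial of total degree at most `k` in two variables and its two derivatives; the
rows are the coefficients of the powers of `v`. -/
noncomputable def pe2 (v w : ℝ) : ℕ → List (List ℤ) → ℝ × ℝ × ℝ
  | _, [] => (0, 0, 0)
  | 0, r :: _ => ((pe1 w 0 r).1, 0, (pe1 w 0 r).2)
  | k + 1, r :: L => ((pe1 w (k + 1) r).1 + v * (pe2 v w k L).1,
      (pe2 v w k L).1 + v * (pe2 v w k L).2.1, (pe1 w (k + 1) r).2 + v * (pe2 v w k L).2.2)

lemma pe1_der {w : ℝ → ℝ} {w' t : ℝ} (h : HasDerivAt w w' t) (k : ℕ) (r : List ℤ) :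
    HasDerivAt (fun s => (pe1 (w s) k r).1) ((pe1 (w t) k r).2 * w') t := by
  induction k generalizing r with
  | zero => cases r <;> simpa [pe1] using hasDerivAt_const t _
  | succ k ih =>
    rcases r with _ | ⟨c, r⟩
    · simpa [pe1] using hasDerivAt_const t _
    · simp only [pe1]
      exact ((h.mul (ih r)).const_add (c : ℝ)).congr_deriv (by ring)

lemma pe2_der {v w : ℝ → ℝ} {v' w' t : ℝ} (hv : HasDerivAt v v' t) (h : HasDerivAt w w' t)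
    (k : ℕ) (L : List (List ℤ)) : HasDerivAt (fun s => (pe2 (v s) (w s) k L).1)
      ((pe2 (v t) (w t) k L).2.1 * v' + (pe2 (v t) (w t) k L).2.2 * w') t := by
  induction k generalizing L with
  | zero =>
    rcases L with _ | ⟨r, L⟩
    · simpa [pe2] using hasDerivAt_const t _
    · simpa [pe2] using pe1_der h 0 r
  | succ k ih =>
    rcases L with _ | ⟨r, L⟩
    · simpa [pe2] using hasDerivAt_const t _
    · simp only [pe2]
      exact ((pe1_der h (k + 1) r).add (hv.mul (ih L))).congr_deriv (by ring)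

lemma pe1_cont (k : ℕ) (r : List ℤ) : Continuous fun w => (pe1 w k r).1 :=
  continuous_iff_continuousAt.2 fun t => (pe1_der (hasDerivAt_id t) k r).continuousAt

lemma pe2_cont (k : ℕ) (L : List (List ℤ)) :
    Continuous fun η : ℂ => (pe2 (η.im - 3 / 4) η.re k L).1 := by
  induction k generalizing L with
  | zero =>
    rcases L with _ | ⟨r, L⟩
    · exact continuous_const
    · exact (pe1_cont 0 r).comp Complex.continuous_re
  | succ k ih =>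
    rcases L with _ | ⟨r, L⟩
    · exact continuous_const
    · exact ((pe1_cont (k + 1) r).comp Complex.continuous_re).add
        ((Complex.continuous_im.sub continuous_const).mul (ih L))

/-- The polynomial of degree at most six in `η.im - 3 / 4` (rows) and `η.re` with the
coefficients `L / 2 ^ 24`. -/
noncomputable def pfl (L : List (List ℤ)) : Fld where
  f η := (pe2 (η.im - 3 / 4) η.re 6 L).1 / 2 ^ 24
  d η η' := (pe2 (η.im - 3 / 4) η.re 6 L).2.2 / 2 ^ 24 * η'.re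
    + (pe2 (η.im - 3 / 4) η.re 6 L).2.1 / 2 ^ 24 * η'.im
  cont := (pe2_cont 6 L).div_const _
  der η η' g t h := by
    have h1 := Complex.reCLM.hasFDerivAt.comp_hasDerivAt t h
    have h2 := Complex.imCLM.hasFDerivAt.comp_hasDerivAt t h
    refine ((pe2_der (h2.sub_const (3 / 4)) h1 6 L).div_const (2 ^ 24)).congr_deriv ?_
    simp only [Function.comp_apply, Complex.reCLM_apply, Complex.imCLM_apply, Complex.smul_re,
      Complex.smul_im, smul_eq_mul]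
    ring

/-- The coefficients of the cone data. -/
structure PC where
  a : List (List ℤ)
  b1 : List (List ℤ)
  b2 : List (List ℤ)
  D : List (List ℤ)
  S : List (List ℤ)

noncomputable def PC.cd (P : PC) : CD := ⟨pfl P.a, pfl P.b1, pfl P.b2, pfl P.D, pfl P.S⟩

namespace TM

/-- An integer constant. -/
def cz (c : Fm) : ℤ → TM
  | .ofNat n => cst n
  | .negSucc n => neg c (cst (Nat.succ n))

def h1 (c : Fm) (s : ℕ) (W : TM) : ℕ → List ℤ → TM × TM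
  | _, [] => (cst 0, cst 0)
  | 0, a :: _ => (cz c a, cst 0)
  | k + 1, a :: r => (add (up (Nat.mul s (Nat.succ k)) (cz c a)) (mul c W (h1 c s W k r).1),
      add (up s (h1 c s W k r).1) (mul c W (h1 c s W k r).2))

def h2 (c : Fm) (s : ℕ) (V W : TM) : ℕ → List (List ℤ) → TM × TM × TM
  | _, [] => (cst 0, cst 0, cst 0)
  | 0, r :: _ => ((h1 c s W 0 r).1, cst 0, (h1 c s W 0 r).2)
  | k + 1, r :: L => (add (h1 c s W (Nat.succ k) r).1 (mul c V (h2 c s V W k L).1),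
      add (up s (h2 c s V W k L).1) (mul c V (h2 c s V W k L).2.1),
      add (h1 c s W (Nat.succ k) r).2 (mul c V (h2 c s V W k L).2.2))

/-- A test for a nonnegative value that is smaller than `2 ^ n` units. -/
def ge0 (c : Fm) (n : ℕ) (p : TM) : Bool :=
  Nat.ble (bnd c (sub c p (cst (Nat.pow 2 n)))) (Nat.pow 2 n)

/-- A test for `0 ≤ p` at the points where `0 ≤ g`. -/
def gm (c : Fm) (n l : ℕ) (g p : TM) : Bool := ge0 c n (sub c p (smul l g))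

/-- The value of a polynomial and its derivative in the direction `(F, G)`. -/
def t3 (c : Fm) (F G : TM) (p : TM × TM × TM) : TM × TM :=
  (tr c 64 4 40 p.1, add (mul c (tr c 64 4 40 p.2.2) F) (mul c (tr c 64 4 40 p.2.1) G))

/-- A step of the iteration for the square root. -/
def st (N x : ℕ) : ℕ := Nat.succ (Nat.div (Nat.add x (Nat.div N x)) 2)

/-- The tests for growth and invariance. -/
def lf4 (c : Fm) (l1 l2 l3 : ℕ) (V g T m : TM) (D S : TM × TM) (N R0 R1 : ℕ) : Bool :=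
  Nat.ble N (Nat.mul R1 R1) && Nat.ble (Nat.add R0 R1) (Nat.pow 2 111) &&
  ge0 c 60 (sub c S.1 (cst (Nat.pow 2 47))) && gm c 60 l3 g (sub c (cst (Nat.pow 2 52)) S.1) &&
  ge0 c 60 (sub c D.1 (cst (Nat.pow 2 48))) && Nat.ble (bd0 D.1) (Nat.pow 2 56) &&
  gm c 118 l1 (up 56 g)
    (sub c (mul c (sub c (sub c (sub c m (up 40 V)) D.1) (cst (Nat.pow 2 50))) S.1) S.2) &&
  gm c 118 l2 (up 56 g) (sub c (add D.2 (mul c (sub c (sub c (smul 2 m) T) D.1) D.1))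
    (add (mul c S.1 (add (cst (Nat.pow 2 56)) (smul 24 S.1)))
      (cst (Nat.add (Nat.add R0 R1) (Nat.pow 2 82)))))

def lf3 (c : Fm) (l1 l2 l3 : ℕ) (V g T m : TM) (D S : TM × TM) (R0 n1 n2 : ℕ) : Bool :=
  lf4 c l1 l2 l3 V g T m D S (Nat.add (Nat.mul n1 n1) (Nat.mul n2 n2)) R0
    (st (Nat.add (Nat.mul n1 n1) (Nat.mul n2 n2)) (st (Nat.add (Nat.mul n1 n1) (Nat.mul n2 n2))
      (st (Nat.add (Nat.mul n1 n1) (Nat.mul n2 n2)) (Nat.succ (Nat.add n1 n2)))))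

/-- The residual of the equation of Riccati. -/
def lf2 (c : Fm) (l1 l2 l3 : ℕ) (V g T W U q be : TM) (a b1 b2 D S : TM × TM) : Bool :=
  Nat.ble (bd0 a.1) (Nat.pow 2 58) && Nat.ble (bd0 be) (Nat.pow 2 58) &&
  Nat.ble (bd0 b1.1) (Nat.pow 2 59) && Nat.ble (bd0 b2.1) (Nat.pow 2 59) &&
  lf3 c l1 l2 l3 V g T (sub c a.1 be) D S
    (bnd c (sub c (sub c (add (mul c (sub c T a.1) a.1) (cst (Nat.pow 2 111))) q) a.2))
    (bnd c (sub c (sub c (add (mul c U b1.1) (mul c W b2.1)) (cst (Nat.mul 3 (Nat.pow 2 110))))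
      b1.2))
    (bnd c (sub c (sub c (mul c U b2.1) (mul c W b1.1)) b2.2))

def lf1 (c : Fm) (k l1 l2 l3 : ℕ) (V W g T q : TM) (a b1 b2 D S : TM × TM) : Bool :=
  Nat.ble 1 k && lf2 c l1 l2 l3 V g T (up 41 W) (sub c T (smul 2 a.1)) q
    (tr c 64 4 40 (add (smul k q) (cst (Nat.succ (Nat.div (Nat.pow 2 126) k))))) a b1 b2 D S

def lf0 (c : Fm) (k l1 l2 l3 : ℕ) (V W g : TM) (a b1 b2 D S : TM × TM) : Bool :=
  lf1 c k l1 l2 l3 V W g (up 39 (smul 3 V)) (add (mul c b1.1 b1.1) (mul c b2.1 b2.1)) a b1 b2 D S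

def lfF (c : Fm) (P : PC) (k l1 l2 l3 : ℕ) (V W Y g F G : TM) : Bool :=
  lf0 c k l1 l2 l3 V W g (t3 c F G (h2 c 16 Y V 6 P.a)) (t3 c F G (h2 c 16 Y V 6 P.b1))
    (t3 c F G (h2 c 16 Y V 6 P.b2)) (t3 c F G (h2 c 16 Y V 6 P.D)) (t3 c F G (h2 c 16 Y V 6 P.S))

/-- The test of a cell; `V` and `W` are the models of the coordinates. -/
def leaf (c : Fm) (P : PC) (k l1 l2 l3 : ℕ) (V W : TM) : Bool :=
  lfF c P k l1 l2 l3 V W (sub c W (cst 49152))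
    (sub c (cst (Nat.mul 2049 (Nat.pow 2 22))) (add (mul c V V) (mul c W W)))
    (err (Nat.pow 2 16) (up 23 (sub c (add (mul c V V) (smul 2 (mul c W W))) (cst (Nat.pow 2 33)))))
    (err (Nat.pow 2 16) (up 23 (neg c (mul c V W))))

end TM

/-- Subdivisions of a rectangle. -/
inductive BT : Type
  | lf (k l1 l2 l3 : ℕ) : BT
  | ou : BT
  | sv (a b : BT) : BT
  | sw (a b : BT) : BT

/-- The format of the models on a cell. -/
def cF : Fm := ⟨160, 81, 9⟩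

/-- Half of a number, rounded up. -/
def hf (n : ℕ) : ℕ := Nat.div (Nat.succ n) 2

/-- The test of the rectangle with centre `(v, w) / 2 ^ 16` and half sides `(h, k) / 2 ^ 16`. -/
def ck (P : PC) : BT → ℤ → ℤ → ℕ → ℕ → Bool
  | .lf n l1 l2 l3, v, w, h, k => TM.leaf cF P n l1 l2 l3
      (TM.add (TM.cz cF v) (TM.smul h (TM.mono cF 1))) (TM.add (TM.cz cF w) (TM.smul k (TM.mono cF 9)))
  | .ou, v, w, h, k => Nat.blt (Nat.mul 2049 (Nat.pow 2 22))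
      (Nat.add (Nat.pow (Nat.sub v.natAbs h) 2) (Nat.pow (Nat.sub w.natAbs k) 2))
  | .sv a b, v, w, h, k => ck P a (Int.sub v (Int.ofNat (hf h))) w (hf h) k &&
      ck P b (Int.add v (Int.ofNat (hf h))) w (hf h) k
  | .sw a b, v, w, h, k => ck P a v (Int.sub w (Int.ofNat (hf k))) h (hf k) &&
      ck P b v (Int.add w (Int.ofNat (hf k))) h (hf k)

/-- The rows are the powers of a second variable. -/
def Cx.Z (Γ : Cx) : Prop := ∀ i j, Γ.ζ (i + j) = Γ.ζ i * Γ.ζ j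

/-- A point of the square. -/
noncomputable def sqx (c : Fm) (h1 : 10 ≤ c.B) (h2 : c.n ≤ 255) (h3 : 0 < c.w) {x y : ℝ}
    (hx : |x| ≤ 1) (hy : |y| ≤ 1) : Cx :=
  ⟨c, x, fun k => y ^ k, hx, fun k => by rw [abs_pow]; exact pow_le_one₀ (abs_nonneg _) hy,
    pow_zero y, h1, h2, h3⟩

namespace Rep
variable {Γ : Cx} {e s dx d : ℕ} {p V W : TM} {a v w : ℝ}

lemma zero (Γ : Cx) (e dx d : ℕ) : Rep Γ e dx d (TM.cst 0) 0 :=
  (cst Γ e dx d 0).congr (by simp)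

lemma cz (Γ : Cx) (e dx d : ℕ) (n : ℤ) : Rep Γ e dx d (TM.cz Γ.c n) (n / 2 ^ e) := by
  rcases n with n | n
  · exact (cst Γ e dx d n).congr (by simp)
  · exact (cst Γ e dx d (n + 1)).neg.congr (by rw [Int.negSucc_eq]; push_cast; ring)

lemma cast {e' dx' d' : ℕ} (h : Rep Γ e dx d p a) (h0 : e = e') (h1 : dx ≤ dx') (h2 : d ≤ d') :
    Rep Γ e' dx' d' p a := h0 ▸ h.mono h1 h2

lemma mz {f dx' d' : ℕ} {q : TM} {b : ℝ} (hp : Rep Γ e dx d p a) (hz : Γ.Z)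
    (hq : Rep Γ f dx' d' q b) (h : dx + dx' < Γ.c.w) :
    Rep Γ (e + f) (dx + dx') (d + d') (TM.mul Γ.c p q) (a * b) := hp.mul' hq h fun i _ j => hz i j

lemma h1 (hW : Rep Γ s dx d W w) (hz : Γ.Z) (k : ℕ) (hk : dx * k < Γ.c.w) (r : List ℤ) :
    Rep Γ (s * k) (dx * k) (d * k) (TM.h1 Γ.c s W k r).1 (pe1 w k r).1 ∧
      Rep Γ (s * k) (dx * k) (d * k) (TM.h1 Γ.c s W k r).2 (pe1 w k r).2 := by
  induction k generalizing r with
  | zero =>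
    rcases r with _ | ⟨c, r⟩
    · exact ⟨zero .., zero ..⟩
    · exact ⟨(cz Γ _ _ _ c).congr (by simp [pe1]), zero ..⟩
  | succ k ih =>
    rcases r with _ | ⟨c, r⟩
    · exact ⟨zero .., zero ..⟩
    have hk' : dx + dx * k < Γ.c.w := by rwa [Nat.mul_succ, add_comm] at hk
    obtain ⟨i1, i2⟩ := ih (by omega) r
    refine ⟨Rep.add ?_ ((hW.mz hz i1 hk').cast (by ring) (by ring_nf; rfl) (by ring_nf; rfl)),
      Rep.add ((i1.up s).cast (by ring) (by nlinarith) (by nlinarith))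
        ((hW.mz hz i2 hk').cast (by ring) (by ring_nf; rfl) (by ring_nf; rfl))⟩
    exact (((cz Γ 0 _ _ c).up _).cast (zero_add _) le_rfl le_rfl).congr (by simp)

lemma h2 (hV : Rep Γ s dx d V v) (hz : Γ.Z) (hW : Rep Γ s dx d W w) (k : ℕ)
    (hk : dx * k < Γ.c.w) (L : List (List ℤ)) :
    Rep Γ (s * k) (dx * k) (d * k) (TM.h2 Γ.c s V W k L).1 (pe2 v w k L).1 ∧
      Rep Γ (s * k) (dx * k) (d * k) (TM.h2 Γ.c s V W k L).2.1 (pe2 v w k L).2.1 ∧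
      Rep Γ (s * k) (dx * k) (d * k) (TM.h2 Γ.c s V W k L).2.2 (pe2 v w k L).2.2 := by
  induction k generalizing L with
  | zero =>
    rcases L with _ | ⟨r, L⟩
    · exact ⟨zero .., zero .., zero ..⟩
    · exact ⟨(hW.h1 hz 0 hk r).1, zero .., (hW.h1 hz 0 hk r).2⟩
  | succ k ih =>
    rcases L with _ | ⟨r, L⟩
    · exact ⟨zero .., zero .., zero ..⟩
    have hk' : dx + dx * k < Γ.c.w := by rwa [Nat.mul_succ, add_comm] at hk
    obtain ⟨i1, i2, i3⟩ := ih (by omega) L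
    obtain ⟨j1, j2⟩ := hW.h1 hz (k + 1) hk r
    exact ⟨j1.add ((hV.mz hz i1 hk').cast (by ring) (by ring_nf; rfl) (by ring_nf; rfl)),
      Rep.add ((i1.up s).cast (by ring) (by nlinarith) (by nlinarith))
        ((hV.mz hz i2 hk').cast (by ring) (by ring_nf; rfl) (by ring_nf; rfl)),
      j2.add ((hV.mz hz i3 hk').cast (by ring) (by ring_nf; rfl) (by ring_nf; rfl))⟩

lemma ge0 (hp : Rep Γ e dx d p a) (h : d < Γ.c.n) {n : ℕ} (k : TM.ge0 Γ.c n p = true) : 0 ≤ a := by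
  have h1 := (hp.sub (cst Γ e dx d (Nat.pow 2 n))).nb_le h
  have h2 : (TM.bnd Γ.c (TM.sub Γ.c p (TM.cst (Nat.pow 2 n))) : ℝ) ≤ (Nat.pow 2 n : ℕ) := by
    exact_mod_cast Nat.le_of_ble_eq_true k
  have p2 : (0 : ℝ) < 2 ^ e := by positivity
  have h3 := (abs_le.1 ((le_div_iff₀ p2).2 (h1.trans h2))).1
  linarith

lemma le_of (hp : Rep Γ e dx d p a) (h : d < Γ.c.n) {n : ℕ}
    (k : Nat.ble (TM.bnd Γ.c p) n = true) : |a| ≤ n / 2 ^ e := by
  have h2 : (TM.bnd Γ.c p : ℝ) ≤ n := by exact_mod_cast Nat.le_of_ble_eq_true k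
  exact (le_div_iff₀ (by positivity)).2 ((hp.nb_le h).trans h2)

lemma le_b (hp : Rep Γ e dx d p a) {n : ℕ} (k : Nat.ble p.bd0 (Nat.pow 2 n) = true) :
    |a| * 2 ^ e ≤ 2 ^ n :=
  hp.le0.trans (by exact_mod_cast Nat.le_of_ble_eq_true k)

lemma gm {e' dx' d' n l : ℕ} {g : TM} {γ : ℝ} (hp : Rep Γ e dx d p a) (hg : Rep Γ e' dx' d' g γ)
    (h0 : 0 ≤ γ) (h : d < Γ.c.n) (h1 : dx' ≤ dx) (h2 : d' ≤ d)
    (k : TM.gm Γ.c n l g p = true) : 0 ≤ a := by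
  have h3 := (hp.sub (((hg.mono h1 h2).smul l).scale (f := e) (b := l * γ * 2 ^ e' / 2 ^ e)
    (by field_simp))).ge0 h k
  have : 0 ≤ l * γ * 2 ^ e' / 2 ^ e := by positivity
  linarith

lemma c2 (Γ : Cx) (e dx d n : ℕ) : Rep Γ e dx d (TM.cst (Nat.pow 2 n)) (2 ^ n / 2 ^ e) :=
  (cst Γ e dx d _).congr (by simp)

end Rep

/-- Models of a function and of its derivative. -/
def R2 (Γ : Cx) (p : TM × TM) (f : Fld) (η η' : ℂ) : Prop :=
  Rep Γ 56 4 40 p.1 (f.f η) ∧ Rep Γ 112 8 80 p.2 (f.d η η')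

section
variable {Γ : Cx} {V W g T m F G U q be : TM} {a b1 b2 D S : TM × TM} {C : CD} {η η' : ℂ}
  {γ μ : ℝ} {k l1 l2 l3 : ℕ}

lemma r2_t3 (hz : Γ.Z) (hw : Γ.c.w = 9) (hn : Γ.c.n = 81) (hV : Rep Γ 16 1 9 V η.re)
    (hW : Rep Γ 16 1 9 W (η.im - 3 / 4)) (hF : Rep Γ 56 2 18 F η'.re)
    (hG : Rep Γ 56 2 18 G η'.im) (L : List (List ℤ)) :
    R2 Γ (TM.t3 Γ.c F G (TM.h2 Γ.c 16 W V 6 L)) (pfl L) η η' := by
  obtain ⟨h1, h2, h3⟩ := hW.h2 hz hV 6 (by omega) L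
  have k : ∀ {p : TM} {a : ℝ}, Rep Γ (16 * 6) (1 * 6) (9 * 6) p a →
      Rep Γ 56 4 40 (TM.tr Γ.c 64 4 40 p) (a / 2 ^ 24) := fun h =>
    Rep.tr 64 4 40 (h.scale (by ring)) (by omega) (by omega)
  exact ⟨k h1, (((k h3).mz hz hF (by omega)).add ((k h2).mz hz hG (by omega))).mono
    (by norm_num) (by norm_num)⟩

lemma lf4_ok (hz : Γ.Z) (hw : Γ.c.w = 9) (hn : Γ.c.n = 81) (hV : Rep Γ 16 1 9 V η.re)
    (hg : Rep Γ 32 2 18 g γ) (h0 : 0 ≤ γ) (hT : Rep Γ 56 4 40 T (3 / 2 * η.re))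
    (hm : Rep Γ 56 4 40 m μ) (hD : R2 Γ D C.D η η') (hS : R2 Γ S C.S η η') {N R0 R1 : ℕ}
    (h : TM.lf4 Γ.c l1 l2 l3 V g T m D S N R0 R1 = true) :
    N ≤ R1 * R1 ∧ (R0 : ℝ) / 2 ^ 112 + R1 / 2 ^ 112 ≤ 1 / 2 ∧ 1 / 512 ≤ C.S.f η ∧
      C.S.f η ≤ 1 / 16 ∧ 1 / 256 ≤ C.D.f η ∧ C.D.f η ≤ 1 ∧
      C.S.d η η' ≤ (μ - η.re - C.D.f η - 1 / 64) * C.S.f η ∧
      (R0 : ℝ) / 2 ^ 112 + R1 / 2 ^ 112 + C.S.f η * (1 + 24 * C.S.f η) + 1 / 2 ^ 30
        ≤ C.D.d η η' + (2 * μ - 3 / 2 * η.re - C.D.f η) * C.D.f η := by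
  simp only [TM.lf4, Bool.and_eq_true] at h
  obtain ⟨⟨⟨⟨⟨⟨⟨k1, k2⟩, k3⟩, k4⟩, k5⟩, k6⟩, k7⟩, k8⟩ := h
  have e2 : (R0 : ℝ) + R1 ≤ 2 ^ 111 := by exact_mod_cast Nat.le_of_ble_eq_true k2
  have e3 := (hS.1.sub (Rep.c2 ..)).ge0 (by omega) k3
  have e4 := ((Rep.c2 ..).sub hS.1).gm hg h0 (by omega) (by omega) (by omega) k4
  have e5 := (hD.1.sub (Rep.c2 ..)).ge0 (by omega) k5
  have e6 := hD.1.le_b k6
  have e7 := (((((hm.sub ((hV.up 40).mono (by omega) (by omega))).sub hD.1).sub (Rep.c2 ..)).mz hz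
    hS.1 (by omega)).sub hS.2).gm (hg.up 56) h0 (by omega) (by omega) (by omega) k7
  have e8 := ((hD.2.add ((((hm.smul 2).sub hT).sub hD.1).mz hz hD.1 (by omega))).sub
    ((hS.1.mz hz ((Rep.c2 ..).add (hS.1.smul 24)) (by omega)).add (Rep.cst ..))).gm (hg.up 56) h0
      (by omega) (by omega) (by omega) k8
  simp only [Nat.add_eq, Nat.pow_eq] at e8
  push_cast at e8
  refine ⟨Nat.le_of_ble_eq_true k1, by linarith, by linarith, by linarith, by linarith,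
    by linarith [le_abs_self (C.D.f η)], by linarith, by linarith⟩

lemma lf0_ok (hz : Γ.Z) (hw : Γ.c.w = 9) (hn : Γ.c.n = 81) (hV : Rep Γ 16 1 9 V η.re)
    (hW : Rep Γ 16 1 9 W η.im) (hg : Rep Γ 32 2 18 g γ) (h0 : 0 ≤ γ) (ha : R2 Γ a C.a η η')
    (h1 : R2 Γ b1 C.b1 η η') (h2 : R2 Γ b2 C.b2 η η') (hD : R2 Γ D C.D η η')
    (hS : R2 Γ S C.S η η') (h : TM.lf0 Γ.c k l1 l2 l3 V W g a b1 b2 D S = true) :
    ∃ m, C.At η η' m := by
  have hT : Rep Γ 56 4 40 (TM.up 39 (TM.smul 3 V)) (3 / 2 * η.re) :=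
    (((hV.smul 3).up 39).scale (by push_cast; ring)).mono (by omega) (by omega)
  have hW2 : Rep Γ 56 4 40 (TM.up 41 W) (2 * η.im) :=
    ((hW.up 41).scale (by ring)).mono (by omega) (by omega)
  have hq := (h1.1.mz hz h1.1 (by omega)).add (h2.1.mz hz h2.1 (by omega))
  have hU := hT.sub (ha.1.smul 2)
  simp only [TM.lf0, TM.lf1, TM.lf2, TM.lf3, Bool.and_eq_true] at h
  obtain ⟨k0, ⟨⟨⟨k1, k2⟩, k3⟩, k4⟩, k5⟩ := h
  set ρ := Nat.succ (Nat.div (Nat.pow 2 126) k) with hρ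
  have hb := Rep.tr (e := 56) 64 4 40 ((((hq.smul k).scale (f := 56 + 64)
    (b := k / 2 ^ 8 * (C.b1.f η * C.b1.f η + C.b2.f η * C.b2.f η)) (by ring))).add
      (Rep.cst _ _ _ _ ρ)) (by omega) (by omega)
  obtain ⟨e1, e2, e3, e4, e5, e6, e7, e8⟩ := lf4_ok hz hw hn hV hg h0 hT (ha.1.sub hb) hD hS k5
  have r0 := (((((hT.sub ha.1).mz hz ha.1 (by omega)).add (Rep.c2 _ _ _ _ 111)).sub hq).sub
    ha.2).nb_le (by omega)
  have r1 := ((((hU.mz hz h1.1 (by omega)).add (hW2.mz hz h2.1 (by omega))).sub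
    (Rep.cst _ _ _ _ (Nat.mul 3 (Nat.pow 2 110)))).sub h1.2).nb_le (by omega)
  have r2 := (((hU.mz hz h2.1 (by omega)).sub (hW2.mz hz h1.1 (by omega))).sub h2.2).nb_le (by omega)
  have a1 := ha.1.le_b k1
  have a2 := hb.le_b k2
  have a3 := h1.1.le_b k3
  have a4 := h2.1.le_b k4
  have k1 : (2 : ℝ) ^ 126 ≤ k * ρ := by
    have := Nat.lt_mul_div_succ (2 ^ 126) (Nat.le_of_ble_eq_true k0)
    exact_mod_cast this.le
  generalize TM.st _ _ = R1 at *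
  generalize TM.bnd _ _ = R0 at r0 e2 e8
  generalize TM.bnd _ _ = n1 at r1 e1
  generalize TM.bnd _ _ = n2 at r2 e1
  have e1' : ((n1 : ℝ) / 2 ^ 112) ^ 2 + (n2 / 2 ^ 112) ^ 2 ≤ (R1 / 2 ^ 112) ^ 2 := by
    have : (n1 : ℝ) * n1 + n2 * n2 ≤ R1 * R1 := by exact_mod_cast e1
    linarith
  have s2 : ∀ {x : ℝ} {n : ℕ}, |x| * 2 ^ (56 + 56) ≤ n → x ^ 2 ≤ (n / 2 ^ 112) ^ 2 := fun h =>
    sq_le_sq.2 (((le_div_iff₀ (by positivity)).2 h).trans (le_abs_self _))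
  have q0 : 0 ≤ C.b1.f η * C.b1.f η + C.b2.f η * C.b2.f η :=
    add_nonneg (mul_self_nonneg _) (mul_self_nonneg _)
  refine ⟨_, e3, e4, e5, e6, by linarith, by linarith, by linarith, ?_, ?_, ?_, e7,
    R0 / 2 ^ 112, R1 / 2 ^ 112, by positivity, e2, ?_, ?_, e8⟩
  · linarith [(abs_le.1 (show |C.a.f η| ≤ 4 by linarith)).1,
      le_abs_self ((k : ℝ) / 2 ^ 8 * (C.b1.f η * C.b1.f η + C.b2.f η * C.b2.f η) + ρ / 2 ^ (56 + 64))]
  · exact sub_le_self _ (by positivity)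
  · rw [sub_sub_cancel, sq (C.b1.f η), sq (C.b2.f η)]
    generalize C.b1.f η * C.b1.f η + C.b2.f η * C.b2.f η = y at q0
    nlinarith [sq_nonneg ((k : ℝ) / 2 ^ 8 * y - ρ / 2 ^ (56 + 64)), mul_le_mul_of_nonneg_right k1 q0]
  · exact ab ((le_div_iff₀ (by positivity)).2 r0) (by ring) rfl
  · refine le_trans (le_of_eq ?_) ((add_le_add (s2 r1) (s2 r2)).trans e1')
    simp only [Nat.mul_eq, Nat.pow_eq]
    push_cast
    ring

lemma leaf_ok (hz : Γ.Z) (hw : Γ.c.w = 9) (hn : Γ.c.n = 81) {P : PC} (hV : Rep Γ 16 1 9 V η.re)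
    (hW : Rep Γ 16 1 9 W η.im) (h1 : ‖η‖ ^ 2 ≤ 2 + 1 / 1024) (h2 : ‖η' - Kp η‖ ≤ 1 / 2 ^ 40)
    (h : TM.leaf Γ.c P k l1 l2 l3 V W = true) : ∃ m, P.cd.At η η' m := by
  have vv := hV.mz hz hV (by omega)
  have ww := hW.mz hz hW (by omega)
  have e1 : |η'.re - (η.re * η.re + 2 * (η.im * η.im) - 2) / 2| ≤ 1 / 2 ^ 40 :=
    ab ((Complex.abs_re_le_norm _).trans h2) (by simp [Kp]; ring) rfl
  have e2 : |η'.im - -(η.re * η.im) / 2| ≤ 1 / 2 ^ 40 :=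
    ab ((Complex.abs_im_le_norm _).trans h2) (by simp [Kp]; ring) rfl
  have hF := ((((vv.add (ww.smul 2)).sub (Rep.c2 _ _ _ _ 33)).up 23).scale (f := 56)
    (b := (η.re * η.re + 2 * (η.im * η.im) - 2) / 2) (by push_cast; ring)).err (b := η'.re)
      (n := Nat.pow 2 16) (by norm_num at e1 ⊢; linarith)
  have hG := (((hV.mz hz hW (by omega)).neg.up 23).scale (f := 56) (b := -(η.re * η.im) / 2)
    (by ring)).err (b := η'.im) (n := Nat.pow 2 16) (by norm_num at e2 ⊢; linarith)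
  have hY : Rep Γ 16 1 9 (TM.sub Γ.c W (TM.cst 49152)) (η.im - 3 / 4) :=
    (hW.sub (Rep.cst _ _ _ _ _)).congr (by norm_num)
  have k := r2_t3 hz hw hn hV hY hF hG
  refine lf0_ok hz hw hn hV hW ((Rep.cst _ _ _ _ _).sub (vv.add ww)) ?_ (k _) (k _) (k _) (k _)
    (k _) h
  rw [Complex.sq_norm, Complex.normSq_apply] at h1
  norm_num at h1 ⊢
  linarith

end

lemma exists_unit {x : ℝ} {h : ℕ} (k : |x| ≤ h) : ∃ t : ℝ, |t| ≤ 1 ∧ x = h * t := by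
  rcases Nat.eq_zero_or_pos h with rfl | h0
  · exact ⟨0, by simp, by simpa using k⟩
  have h1 : (0 : ℝ) < h := by exact_mod_cast h0
  exact ⟨x / h, by rwa [abs_div, abs_of_pos h1, div_le_one h1], by field_simp⟩

lemma rep_x {Γ : Cx} (h1 : 1 < Γ.c.w) {d s h : ℕ} (h2 : 1 ≤ d) {v : ℤ} {a : ℝ}
    (e : a * 2 ^ s - v = h * Γ.x) :
    Rep Γ s 1 d (TM.add (TM.cz Γ.c v) (TM.smul h (TM.mono Γ.c 1))) a :=
  ((Rep.cz Γ 0 1 d v).add (((Rep.mono_x Γ h1).smul h).mono le_rfl h2)).scale (by linarith)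

lemma rep_y {Γ : Cx} {s h : ℕ} {v : ℤ} {a : ℝ} (e : a * 2 ^ s - v = h * Γ.ζ 1) :
    Rep Γ s 1 (Γ.c.w * 1) (TM.add (TM.cz Γ.c v) (TM.smul h (TM.mono Γ.c (Γ.c.w * 1)))) a :=
  ((Rep.cz Γ 0 1 _ v).add (((Rep.mono_y Γ 1).smul h).mono zero_le_one le_rfl)).scale (by linarith)

lemma half_cov {x : ℝ} {v : ℤ} {h : ℕ} (k : |x - v| ≤ h) :
    |x - (Int.sub v (Int.ofNat (hf h)) : ℤ)| ≤ hf h ∨
      |x - (Int.add v (Int.ofNat (hf h)) : ℤ)| ≤ hf h := by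
  have h1 : (h : ℝ) ≤ 2 * hf h := by
    have : h ≤ 2 * hf h := by
      show h ≤ 2 * ((h + 1) / 2)
      omega
    exact_mod_cast this
  have h2 : (0 : ℝ) ≤ hf h := by positivity
  show |x - (v - (hf h : ℕ) : ℤ)| ≤ hf h ∨ |x - (v + (hf h : ℕ) : ℤ)| ≤ hf h
  simp only [abs_le] at k ⊢
  push_cast
  rcases le_total x v with c | c
  · exact .inl ⟨by linarith, by linarith⟩
  · exact .inr ⟨by linarith, by linarith⟩

lemma out_le {x : ℝ} {v : ℤ} {h : ℕ} (k : |x - v| ≤ h) :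
    ((Nat.pow (Nat.sub v.natAbs h) 2 : ℕ) : ℝ) ≤ x ^ 2 := by
  rw [Nat.pow_eq, Nat.sub_eq, Nat.cast_pow, sq_le_sq, Nat.abs_cast]
  rcases le_total v.natAbs h with c | c
  · simp [Nat.sub_eq_zero_of_le c]
  · rw [Nat.cast_sub c, Nat.cast_natAbs, Int.cast_abs]
    linarith [abs_sub_abs_le_abs_sub (v : ℝ) x, abs_sub_comm (v : ℝ) x]

lemma ck_ok {P : PC} {η η' : ℂ} (h1 : ‖η‖ ^ 2 ≤ 2 + 1 / 1024) (h2 : ‖η' - Kp η‖ ≤ 1 / 2 ^ 40)
    (t : BT) {v w : ℤ} {h k : ℕ} (hv : |η.re * 2 ^ 16 - v| ≤ (h : ℝ))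
    (hw : |η.im * 2 ^ 16 - w| ≤ (k : ℝ))
    (c : ck P t v w h k = true) : ∃ m, P.cd.At η η' m := by
  induction t generalizing v w h k with
  | lf n l1 l2 l3 =>
    obtain ⟨x, x1, x2⟩ := exists_unit hv
    obtain ⟨y, y1, y2⟩ := exists_unit hw
    exact leaf_ok (Γ := sqx cF (by decide) (by decide) (by decide) x1 y1)
      (fun i j => pow_add y i j) rfl rfl (rep_x (show 1 < 9 by decide) (show 1 ≤ 9 by decide) x2)
      (rep_y (by rw [y2]; exact congrArg _ (pow_one y).symm)) h1 h2 c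
  | ou =>
    have e := Nat.cast_lt (α := ℝ).2 (Nat.blt_eq ▸ c)
    have e1 := out_le hv
    have e2 := out_le hw
    rw [Complex.sq_norm, Complex.normSq_apply] at h1
    rw [Nat.add_eq, Nat.cast_add] at e
    generalize ((Nat.pow (Nat.sub _ h) 2 : ℕ) : ℝ) = p at e e1
    generalize ((Nat.pow (Nat.sub _ k) 2 : ℕ) : ℝ) = q at e e2
    norm_num at e
    linarith
  | sv a b ia ib =>
    obtain ⟨c1, c2⟩ := Bool.and_eq_true_iff.1 c
    exact (half_cov hv).elim (fun e => ia e hw c1) fun e => ib e hw c2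
  | sw a b ia ib =>
    obtain ⟨c1, c2⟩ := Bool.and_eq_true_iff.1 c
    exact (half_cov hw).elim (fun e => ia hv e c1) fun e => ib hv e c2

/-- The certificate implies the cone inequalities. -/
theorem cd_ok {P : PC} {t : BT} (h : ck P t 0 49088 98304 49152 = true) : P.cd.OK := by
  intro η η' h1 h2 h3
  have h4 := h1
  rw [Complex.sq_norm, Complex.normSq_apply] at h4
  refine ck_ok h1 h3 t ?_ ?_ h <;> rw [abs_le] <;> push_cast <;> constructor <;>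
    nlinarith [mul_self_nonneg η.re, mul_self_nonneg η.im]

/-- The format of the enclosures of the data. -/
def cQ : Fm := ⟨128, 49, 7⟩

def TM.cq0 (c : Fm) (L : List (List ℤ)) (V Y : TM) (a : ℤ) (r : ℕ) : Bool :=
  Nat.ble (TM.bnd c (TM.sub c (TM.h2 c 12 Y V 6 L).1 (TM.up 72 (TM.cz c a)))) (Nat.shiftLeft r 72)

/-- The test that a polynomial is within `r / 2 ^ 24` of `c / 2 ^ 24` on the square with centre
`(cv, cw) / 4096` and half side `hw / 4096`. -/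
def cq (L : List (List ℤ)) (cv cw : ℤ) (hw : ℕ) (c : ℤ) (r : ℕ) : Bool :=
  TM.cq0 cQ L (TM.add (TM.cz cQ cv) (TM.smul hw (TM.mono cQ 1)))
    (TM.add (TM.cz cQ (Int.sub cw 3072)) (TM.smul hw (TM.mono cQ 7))) c r

lemma cq_aux {Γ : Cx} (hz : Γ.Z) (hw : Γ.c.w = 7) (hn : Γ.c.n = 49) {V Y : TM} {η : ℂ}
    (hV : Rep Γ 12 1 7 V η.re) (hY : Rep Γ 12 1 7 Y (η.im - 3 / 4)) {L : List (List ℤ)} {c : ℤ}
    {r : ℕ} (h : TM.cq0 Γ.c L V Y c r = true) :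
    |(pfl L).f η - (c : ℝ) / 2 ^ 24| ≤ (r : ℝ) / 2 ^ 24 := by
  unfold TM.cq0 at h
  have k := ((hY.h2 hz hV 6 (by omega) L).1.sub (((Rep.cz Γ 0 _ _ c).up 72).cast rfl le_rfl
    le_rfl)).le_of (n := Nat.shiftLeft r 72) (by omega) h
  rw [Nat.shiftLeft_eq', Nat.shiftLeft_eq] at k
  push_cast at k
  show |(pe2 (η.im - 3 / 4) η.re 6 L).1 / 2 ^ 24 - (c : ℝ) / 2 ^ 24| ≤ _
  rw [← sub_div, abs_div, abs_of_pos (a := (2 : ℝ) ^ 24) (by positivity)]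
  gcongr
  exact ab k (by ring) (by ring)

lemma unit12 {a : ℝ} {c : ℤ} {h : ℕ} (k : |a - (c : ℝ) / 4096| ≤ (h : ℝ) / 4096) :
    ∃ t : ℝ, |t| ≤ 1 ∧ a * 2 ^ 12 - c = h * t ∧
      (a - 3 / 4) * 2 ^ 12 - (Int.sub c 3072 : ℤ) = h * t ^ 1 := by
  obtain ⟨x, x1, x2⟩ := exists_unit (x := a * 2 ^ 12 - c) (h := h)
    (abs_le.2 ⟨by linarith [(abs_le.1 k).1], by linarith [(abs_le.1 k).2]⟩)
  refine ⟨x, x1, x2, ?_⟩
  show _ - ((c - 3072 : ℤ) : ℝ) = _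
  push_cast
  linarith

theorem cq_ok {L : List (List ℤ)} {cv cw c : ℤ} {hw r : ℕ} {η : ℂ} (h : cq L cv cw hw c r = true)
    (h1 : |η.re - (cv : ℝ) / 4096| ≤ (hw : ℝ) / 4096)
    (h2 : |η.im - (cw : ℝ) / 4096| ≤ (hw : ℝ) / 4096) :
    |(pfl L).f η - (c : ℝ) / 2 ^ 24| ≤ (r : ℝ) / 2 ^ 24 := by
  obtain ⟨x, x1, x2, -⟩ := unit12 h1
  obtain ⟨y, y1, -, y2⟩ := unit12 h2
  unfold cq at h
  exact cq_aux (Γ := sqx cQ (by decide) (by decide) (by decide) x1 y1) (fun i j => pow_add y i j)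
    rfl rfl (rep_x (show 1 < 7 by decide) (show 1 ≤ 7 by decide) x2) (rep_y y2) h

end Pool.Agent.Lib.MP_6e7c44_mp.LA
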