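import Pool.Agent.Lib.MP_6e7c44_mp.LA.Defs
import Pool.Agent.Lib.MP_6e7c44_mp.LA.TM

/-! The checker of one step of a tube. -/

set_option autoImplicit false

namespace Pool.Agent.Lib.MP_6e7c44_mp.LA

/-- The format of the tubes: seven rows of fourteen digits. -/
def cV : Fm := ⟨128, 98, 14⟩

def r0 (j : ℕ) : Bool := Nat.beq j 0
def r1 (j : ℕ) : Bool := Nat.ble 1 j && Nat.ble j 6
def cl (q k : ℕ) : Bool := Nat.ble k q
def cb (b k : ℕ) : Bool := Nat.ble k 4 && Nat.testBit (Nat.add k 1) b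
def cp (p k : ℕ) : Bool := Nat.ble k 5 && Nat.beq (Nat.mod k 2) p
def mX : ℕ := msk cV 31 r0 (cl 5)
def mA : ℕ := msk cV 31 r1 (cl 5)
def mB : ℕ := msk cV 15 r0 (cl 3)
def mP (p : ℕ) : ℕ := msk cV 31 r0 (cp p)

def I6.n : I6 → ℕ
  | .i0 => 1
  | .i1 => 2
  | .i2 => 3
  | .i3 => 4
  | .i4 => 5
  | .i5 => 6

def all6 (f : I6 → Bool) : Bool := f .i0 && (f .i1 && (f .i2 && (f .i3 && (f .i4 && f .i5))))
def mx (a b : ℕ) : ℕ := cond (Nat.ble a b) b a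

/-- The data of a step. -/
structure Raw where
  hn : ℕ
  u : ℕ
  R : I6 → ℕ
  be : I6 → ℕ
  t : I6 → ℕ
  xp : I6 → ℕ
  xn : I6 → ℕ
  hk : Bool → ℕ
  hp : Bool → ℕ
  hm : Bool → ℕ
  ap : I6 → ℕ
  an : I6 → ℕ
  bp : I6 → I6 → ℕ
  bn : I6 → I6 → ℕ

def mu (p q : TM) : TM := TM.mul cV p q
def sb (p q : TM) : TM := TM.sub cV p q
def bd (p : TM) : ℕ := TM.bnd cV p
def t5 (s : ℕ) (p : TM) : TM := TM.tr cV s 5 5 p
def dn (a s : ℕ) : ℕ := Nat.add (Nat.shiftRight a s) 1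

/-- The derivative of a polynomial of degree five. -/
def dr1 (s : ℕ → Bool) (P N : ℕ) : TM :=
  ((TM.ex cV (msk cV 31 s (cb 0)) P N).add ((TM.ex cV (msk cV 31 s (cb 1)) P N).up 1)).add
    ((TM.ex cV (msk cV 31 s (cb 2)) P N).up 2)
def dr (s : ℕ → Bool) (P N : ℕ) : TM := dr1 s (Nat.shiftRight P 128) (Nat.shiftRight N 128)

namespace Raw
variable (r : Raw)

def X (i : I6) : TM := TM.ex cV mX (r.xp i) (r.xn i)
def E (i : I6) : TM := (TM.ex cV mA (r.ap i) (r.an i)).up r.u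
def Et (i : I6) : TM := (r.E i).add ((r.X i).up 12)
def dZ (i : I6) : TM :=
  (((dr r1 (r.ap i) (r.an i)).up r.u).add ((dr r0 (r.xp i) (r.xn i)).up 13)).up 41
def B (i l : I6) : TM := TM.ex cV mB (r.bp i l) (r.bn i l)
def Hr (j : Bool) : TM := TM.ex cV mX (r.hp j) (r.hm j)
def H (j : Bool) : TM := (TM.cst (r.hk j)).add (r.Hr j)
def qq : TM := (t5 20 ((mu (r.X .i2) (r.X .i2)).add (mu (r.X .i3) (r.X .i3)))).add (.cst (Nat.pow 2 30))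
def rho (j : Bool) : TM := cond j (r.qq.add ((r.X .i2).up 6)) (sb r.qq ((r.X .i2).up 6))
def kk (j : Bool) : TM := t5 20 (mu (r.H j) (r.H j))
def eps (j : Bool) : ℕ := bd (sb (mu (r.kk j) (r.rho j)) (.cst (Nat.pow 2 64)))
def ht (j : Bool) : TM := (r.H j).err (dn (Nat.mul (r.eps j) (r.H j).bd0) 63)
def kt (j : Bool) : TM := (r.kk j).err (dn (Nat.mul (r.eps j) (r.kk j).bd0) 63)
def aa (j : Bool) : TM := t5 26 (mu (r.kt j) (r.ht j))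
def bb (j : Bool) : TM := mu (r.aa j) (r.kt j)
def as : TM := (r.aa true).add (r.aa false)
def uu : TM := t5 26 (mu (t5 36 ((r.bb true).add (r.bb false))) (r.X .i3))
def ii : TM := t5 22 (sb (r.as.up 22) ((mu r.uu (r.X .i3)).smul 3))
def ri : TM := t5 23 ((((mu r.uu (r.X .i2)).up 1).add
  (mu (t5 36 (sb (r.bb true) (r.bb false))) (r.X .i3))).smul 3)
def xe (i j : I6) : TM := mu (r.X i) (r.Et j)
def li (i : I6) : TM := ((r.E i).add ((r.X i).up 13)).up 26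

/-- The vector field at the centre plus its derivative applied to the error, 72 binary places. -/
def row : I6 → TM
  | .i0 => (sb ((r.xe .i0 .i0).add ((r.xe .i1 .i1).up 1)) (.cst (Nat.pow 2 65))).up 7
  | .i1 => TM.neg cV (((r.xe .i1 .i0).add (r.xe .i0 .i1)).up 6)
  | .i2 => (sb (((r.li .i4).add (r.xe .i1 .i3)).add (r.xe .i3 .i1))
      ((r.xe .i0 .i2).add (r.xe .i2 .i0))).up 7
  | .i3 => (sb (r.li .i5) ((((r.xe .i0 .i3).add (r.xe .i1 .i2)).add (r.xe .i3 .i0)).add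
      (r.xe .i2 .i1))).up 7
  | .i4 => sb ((((((r.xe .i0 .i4).add (r.xe .i4 .i0)).add
      (((r.xe .i1 .i5).add (r.xe .i5 .i1)).up 1)).up 6).add (mu (r.as.add r.ii) (r.E .i2))).add
      (mu r.ri (r.E .i3)))
      (((mu r.as (r.X .i2)).add ((sb (r.aa true) (r.aa false)).up 25)).up 13)
  | .i5 => sb (((sb ((r.xe .i0 .i5).add (r.xe .i5 .i0))
      (((r.xe .i1 .i4).add (r.xe .i4 .i1)).up 1)).up 6).add (mu r.ri (r.E .i2)))
      ((mu r.ii (r.E .i3)).add ((mu r.as (r.X .i3)).up 13))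

def eb (i : I6) : ℕ := (r.E i).bd0
def ee (i j : I6) : ℕ := Nat.mul (r.eb i) (r.eb j)
def e2 : ℕ := Nat.add (r.ee .i2 .i2) (r.ee .i3 .i3)
def e1 : ℕ := Nat.add (mx (r.eb .i2) (r.eb .i3)) (dn (Nat.add (r.eb .i2) (r.eb .i3)) 3)
def e3 : ℕ := dn (Nat.add r.e1 (Nat.div r.e2 r.e1)) 1
def es : ℕ := dn (Nat.add r.e3 (Nat.div r.e2 r.e3)) 1
def hb (j : Bool) : ℕ := (r.ht j).bd0
def gq (j : Bool) : ℕ := Nat.add
  (Nat.div (Nat.shiftLeft (r.hb j) 59) (Nat.sub (Nat.pow 2 65) (Nat.mul (r.hb j) r.es))) 1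
def g4 (j : Bool) : ℕ := Nat.mul (Nat.mul (r.gq j) (r.gq j)) (Nat.mul (r.gq j) (r.gq j))
def w2 : ℕ := dn (Nat.mul (Nat.mul 3 (Nat.mul r.es r.es)) (Nat.add (r.g4 true) (r.g4 false))) 80

/-- Bounds of the nonlinear terms, 79 binary places. -/
def nl : I6 → ℕ
  | .i0 => Nat.add (r.ee .i0 .i0) (Nat.mul 2 (r.ee .i1 .i1))
  | .i1 => r.ee .i0 .i1
  | .i2 => Nat.mul 2 (Nat.add (r.ee .i0 .i2) (r.ee .i1 .i3))
  | .i3 => Nat.mul 2 (Nat.add (r.ee .i0 .i3) (r.ee .i1 .i2))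
  | .i4 => Nat.add (Nat.add (r.ee .i0 .i4) (Nat.mul 2 (r.ee .i1 .i5))) r.w2
  | .i5 => Nat.add (Nat.add (r.ee .i0 .i5) (Nat.mul 2 (r.ee .i1 .i4))) r.w2

def G (l : I6) : TM := (sb ((r.row l).smul r.hn) (r.dZ l)).err
  (Nat.mul r.hn (dn (Nat.add (r.nl l) (Nat.pow 2 43)) 7))
def d2 (i : I6) (v : I6 → TM) : TM := (mu (r.B i .i0) (v .i0)).add (mu (r.B i .i1) (v .i1))
def d6 (i : I6) (v : I6 → TM) : TM := (((r.d2 i v).add (mu (r.B i .i2) (v .i2))).add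
  (mu (r.B i .i3) (v .i3))).add ((mu (r.B i .i4) (v .i4)).add (mu (r.B i .i5) (v .i5)))
def dB (v : I6 → TM) : I6 → TM
  | .i0 => r.d6 .i0 v
  | .i1 => r.d6 .i1 v
  | .i2 => r.d2 .i2 v
  | .i3 => r.d2 .i3 v
  | .i4 => r.d6 .i4 v
  | .i5 => r.d6 .i5 v
def gg (i : I6) : ℕ := dn (bd (r.dB r.G i)) (Nat.add (r.t i) 17)
def dl (i : I6) : ℕ := dn (Nat.shiftLeft
  (bd (sb ((TM.mono cV (Nat.mul 14 i.n)).smul (Nat.pow 2 (r.t i))) (r.dB r.E i))) 20) (r.t i)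
def gm : ℕ := mx (mx (mx (r.gg .i0) (r.gg .i1)) (mx (r.gg .i2) (r.gg .i3))) (mx (r.gg .i4) (r.gg .i5))
def d (i : I6) : ℕ := Nat.mul 2 (Nat.add (r.gg i) (dn (Nat.mul (r.dl i) r.gm) 19))
def okH (j : Bool) : Bool := Nat.ble (r.eps j) (Nat.pow 2 63) && (Nat.ble (r.Hr j).bd0 (r.hk j) &&
  (Nat.blt (Nat.mul (r.hb j) r.es) (Nat.pow 2 65) && Nat.ble (r.gq j) (Nat.pow 2 25)))
def okI (i : I6) : Bool := Nat.ble (r.dl i) (Nat.pow 2 19) && (Nat.blt 0 (r.R i) &&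
  (Nat.blt (Nat.add (r.R i) (r.d i)) (Nat.pow 2 24) &&
    Nat.ble (Nat.add (Nat.shiftLeft (r.X i).bd0 13) (r.eb i)) (Nat.pow 2 45)))
def ok : Bool := Nat.blt 0 r.hn && (Nat.ble r.e2 (Nat.mul r.es r.es) &&
  (r.okH true && (r.okH false && all6 r.okI)))

end Raw

/-- The sum of the digits of parity `p`. -/
def sP (p P : ℕ) : ℕ := Nat.mod (Nat.land P (mP p)) cV.x1
/-- `a * p (1) = 2 ^ b * q (-1)`. -/
def lk (a b P N P' N' : ℕ) : Bool :=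
  Nat.beq (Nat.add (Nat.mul a (Nat.add (sP 0 P) (sP 1 P)))
      (Nat.shiftLeft (Nat.add (sP 0 N') (sP 1 P')) b))
    (Nat.add (Nat.mul a (Nat.add (sP 0 N) (sP 1 N))) (Nat.shiftLeft (Nat.add (sP 0 P') (sP 1 N')) b))
def sl (P : ℕ) (j : I6) : ℕ := Nat.shiftRight P (Nat.mul 128 (Nat.mul 14 j.n))
def isU : I6 → Bool
  | .i0 => true
  | .i1 => true
  | _ => false
def lkR (w : Bool) (b R d R' : ℕ) : Bool :=
  cond w (Nat.ble (Nat.add (Nat.mul b R') (Nat.mul 128 d)) (Nat.mul 128 R))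
    (Nat.ble (Nat.mul 128 (Nat.add R d)) (Nat.mul b R'))
def lkC (r r' : Raw) (a b : ℕ) (j k : I6) : Bool :=
  lk a b (sl (r.ap k) j) (sl (r.an k) j) (sl (r'.ap k) j) (sl (r'.an k) j)
def lkJ (w : Bool) (r r' : Raw) (j : I6) : Bool :=
  lk 1 0 (r.xp j) (r.xn j) (r'.xp j) (r'.xn j) && (Nat.blt 0 (r'.be j) &&
    (lkR (w && isU j) (r'.be j) (r.R j) (r.d j) (r'.R j) &&
      all6 (lkC r r' (Nat.shiftLeft (r'.be j) r.u) (Nat.add r'.u 7) j)))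
def link (w : Bool) (r r' : Raw) : Bool := all6 (lkJ w r r')

def rd (D p w : ℕ) : ℕ := Nat.land (Nat.shiftRight D p) (Nat.sub (Nat.pow 2 w) 1)
def o32 : ℕ := Nat.div (Nat.pow 2 12544) (Nat.sub (Nat.pow 2 32) 1)
def o16 : ℕ := Nat.div (Nat.pow 2 2048) (Nat.sub (Nat.pow 2 16) 1)
def ng (w o U : ℕ) : ℕ :=
  Nat.land U (Nat.mul (Nat.land (Nat.shiftRight U w) o) (Nat.sub (Nat.pow 2 w) 1))
def ps (w o U : ℕ) : ℕ := Nat.sub (Nat.land U (Nat.mul o (Nat.sub (Nat.pow 2 w) 1))) (ng w o U)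
def uX (D : ℕ) : ℕ := rd D 256 1536
def uB (D : ℕ) : ℕ := rd D 6272 2048
def sp (D p j : ℕ) : ℕ := Nat.shiftLeft (rd D p 640) j
def uA (D : ℕ) : ℕ := Nat.add (Nat.add (Nat.add (sp D 1792 1792) (sp D 2432 3584))
  (Nat.add (sp D 3072 5376) (sp D 3712 7168))) (Nat.add (sp D 4352 8960) (sp D 4992 10752))
def uC (D : ℕ) : ℕ :=
  Nat.add (sp D 5632 5376) (Nat.shiftLeft (Nat.shiftRight (rd D 5632 640) 32) 7168)
def oX : I6 → ℕ
  | .i0 => 0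
  | .i1 => 32
  | .i2 => 64
  | .i3 => 96
  | .i4 => 768
  | .i5 => 800
def oB : I6 → ℕ
  | .i0 => 0
  | .i1 => 512
  | .i2 => 96
  | .i3 => 608
  | .i4 => 1024
  | .i5 => 1536
def fA (f : ℕ → ℕ) (D : ℕ) : I6 → ℕ
  | .i0 => f (uC D)
  | .i1 => Nat.shiftRight (f (uC D)) 64
  | .i2 => f (uA D)
  | .i3 => Nat.shiftRight (f (uA D)) 32
  | .i4 => Nat.shiftRight (f (uA D)) 64
  | .i5 => Nat.shiftRight (f (uA D)) 96
def fH (U : ℕ) (j : Bool) : ℕ := Nat.shiftRight U (cond j 832 864)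
def fB (U : ℕ) (i l : I6) : ℕ := Nat.shiftRight U (Nat.add (oB i) (Nat.mul 16 (Nat.sub l.n 1)))

def unpack (D : ℕ) : Raw where
  hn := rd D 0 8
  u := rd D 248 4
  R i := rd D (Nat.sub (Nat.mul 24 i.n) 16) 24
  be i := rd D (Nat.add (Nat.mul 10 i.n) 142) 10
  t i := rd D (Nat.add (Nat.mul 6 i.n) 206) 6
  xp i := Nat.shiftRight (ps 31 o32 (uX D)) (oX i)
  xn i := Nat.shiftRight (ng 31 o32 (uX D)) (oX i)
  hk j := rd (fH (ps 31 o32 (uX D)) j) 0 31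
  hp j := Nat.sub (fH (ps 31 o32 (uX D)) j) (rd (fH (ps 31 o32 (uX D)) j) 0 31)
  hm j := fH (ng 31 o32 (uX D)) j
  ap := fA (ps 31 o32) D
  an := fA (ng 31 o32) D
  bp := fB (ps 15 o16 (uB D))
  bn := fB (ng 15 o16 (uB D))

def chain (fin : Raw → Bool) : ℕ → ℕ → List ℕ → Bool
  | _, D, [] => (unpack D).ok && fin (unpack D)
  | 0, D, D' :: l => (unpack D).ok && (link false (unpack D) (unpack D') && chain fin 0 D' l)
  | n + 1, D, D' :: l => (unpack D).ok && (link true (unpack D) (unpack D') && chain fin n D' l)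

end Pool.Agent.Lib.MP_6e7c44_mp.LA
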