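import Pool.Agent.Lib.MP_6e7c44_mp.Barrier
import Pool.Agent.Lib.MP_6e7c44_mp.Phase

/-!
Lagrange solutions of all eccentricities, two nearly equal masses and a small one: the reduced
system in the time of McGehee, its invariants, the cone conditions and the tubes.
-/

set_option autoImplicit false

open Set Complex

noncomputable section

namespace Pool.Agent.Lib.MP_6e7c44_mp.LA

/-- Normalised masses close to `(1/2, 1/2, 0)`. -/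
def Mass (μ : Fin 3 → ℝ) : Prop :=
  (∀ k, 0 < μ k) ∧ μ 0 + μ 1 + μ 2 = 1 ∧ |μ 0 - μ 1| ≤ 1 / 2 ^ 50 ∧ μ 2 ≤ 1 / 2 ^ 50

/-- Reduced states `(η, Y, W)`. -/
abbrev Z3 := ℂ × ℂ × ℂ

def Sg (Y : ℂ) : ℂ := 1 + ff (Y - 1 / 2) - ff (Y + 1 / 2)

/-- The Kepler part of the equation for `η`. -/
def Kp (η : ℂ) : ℂ := (3 / 2 * η.re - η) * η - 1

/-- The reduced vector field. -/
def GR (μ : Fin 3 → ℝ) (z : Z3) : Z3 :=
  (Kp z.1 + μ 2 * Sg z.2.1, z.2.2 - z.1 * z.2.1,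
    (3 / 2 * z.1.re - z.1) * z.2.2 - (ff (z.2.1 + 1 / 2) + ff (z.2.1 - 1 / 2)) / 2
      + (μ 0 - μ 1) / 2 * Sg z.2.1)

/-- No collision of the third body. -/
def NC (z : Z3) : Prop := z.2.1 + 1 / 2 ≠ 0 ∧ z.2.1 - 1 / 2 ≠ 0

def I0 (μ : Fin 3 → ℝ) : ℝ := μ 0 * μ 1 + μ 1 * μ 2 + μ 2 * μ 0

/-- Minus the scaled total energy. -/
def En (μ : Fin 3 → ℝ) (z : Z3) : ℝ :=
  -(μ 0 * μ 1 * (‖z.1‖ ^ 2 / 2 - 1)
    + μ 1 * μ 2 * (‖z.2.2 - z.1 / 2‖ ^ 2 / 2 - ‖z.2.1 - 1 / 2‖⁻¹)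
    + μ 2 * μ 0 * (‖z.2.2 + z.1 / 2‖ ^ 2 / 2 - ‖z.2.1 + 1 / 2‖⁻¹)) / I0 μ

/-- The scaled total angular momentum. -/
def Am (μ : Fin 3 → ℝ) (z : Z3) : ℝ :=
  (μ 0 * μ 1 * z.1.im + μ 1 * μ 2 * cr (z.2.1 - 1 / 2) (z.2.2 - z.1 / 2)
    + μ 2 * μ 0 * cr (z.2.1 + 1 / 2) (z.2.2 + z.1 / 2)) / I0 μ

/-- Positions and velocities of a reduced state. -/
def phys (z : Z3) : (Fin 3 → ℂ) × (Fin 3 → ℂ) :=
  (![0, 1, z.2.1 + 1 / 2], ![0, z.1, z.2.2 + z.1 / 2])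

/-- The reduced state has a collision-free escaping future. -/
def EscR (μ : Fin 3 → ℝ) (z : Z3) : Prop := phys z ∈ Esc μ

/-- The apex of the equilateral triangle. -/
def cL : ℂ := I * (√3 / 2 : ℝ)

/-- The Lagrange state. -/
def lag (η : ℂ) : Z3 := (η, cL, cL * η)

/-- The derivative of the attraction. -/
def dff (x e : ℂ) : ℂ := ((‖x‖ ^ 3)⁻¹ : ℝ) • e - (3 * (‖x‖ ^ 5)⁻¹ * dot x e : ℝ) • x

/-- A function of `η` with its directional derivative. -/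
structure Fld where
  f : ℂ → ℝ
  d : ℂ → ℂ → ℝ
  cont : Continuous f
  der : ∀ (η : ℝ → ℂ) (η' : ℂ) (g t : ℝ), HasDerivAt η (g • η') t →
    HasDerivAt (fun s => f (η s)) (g * d (η t) η') t

/-- The data of the cone field. -/
structure CD where
  a : Fld
  b1 : Fld
  b2 : Fld
  D : Fld
  S : Fld

/-- The slope of the approximate unstable space. -/
def CD.M (C : CD) (η s : ℂ) : ℂ :=
  C.a.f η * s + (C.b1.f η + C.b2.f η * I) * (starRingEnd ℂ) s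

/-- The inequalities of the cone field at `η` with velocity `η'`; `m` is a lower bound of the
symmetric map `C.M η`. -/
structure CD.At (C : CD) (η η' : ℂ) (m : ℝ) : Prop where
  S0 : 1 / 512 ≤ C.S.f η
  S1 : C.S.f η ≤ 1 / 16
  D0 : 1 / 256 ≤ C.D.f η
  D1 : C.D.f η ≤ 1
  a1 : |C.a.f η| ≤ 8
  b1 : |C.b1.f η| ≤ 8
  b2 : |C.b2.f η| ≤ 8
  m0 : -8 ≤ m
  m1 : m ≤ C.a.f η
  m2 : C.b1.f η ^ 2 + C.b2.f η ^ 2 ≤ (C.a.f η - m) ^ 2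
  gr : C.S.d η η' ≤ (m - η.re - C.D.f η - 1 / 64) * C.S.f η
  cn : ∃ R0 R1 : ℝ, 0 ≤ R1 ∧ R0 + R1 ≤ 1 / 2 ∧
    |3 / 2 * η.re * C.a.f η + 1 / 2 - C.a.f η ^ 2 - C.b1.f η ^ 2 - C.b2.f η ^ 2 - C.a.d η η'| ≤ R0 ∧
    (3 / 2 * η.re * C.b1.f η + 2 * η.im * C.b2.f η - 3 / 4 - C.b1.d η η' - 2 * C.a.f η * C.b1.f η) ^ 2
      + (3 / 2 * η.re * C.b2.f η - 2 * η.im * C.b1.f η - C.b2.d η η' - 2 * C.a.f η * C.b2.f η) ^ 2
        ≤ R1 ^ 2 ∧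
    R0 + R1 + C.S.f η * (1 + 24 * C.S.f η) + 1 / 2 ^ 30
      ≤ C.D.d η η' + (2 * m - 3 / 2 * η.re - C.D.f η) * C.D.f η

/-- The cone inequalities hold on the half disc. -/
def CD.OK (C : CD) : Prop := ∀ η η' : ℂ, ‖η‖ ^ 2 ≤ 2 + 1 / 1024 → -(1 / 1024) ≤ η.im →
  ‖η' - Kp η‖ ≤ 1 / 2 ^ 40 → ∃ m, C.At η η' m

/-- The state lies in the cone. -/
def CD.In (C : CD) (z : Z3) : Prop :=
  ‖z.2.2 - cL * z.1 - C.M z.1 (z.2.1 - cL)‖ ≤ C.D.f z.1 * ‖z.2.1 - cL‖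

/-- The normalised deviation from the apex. -/
def CD.sh (C : CD) (z : Z3) : ℂ := (z.2.1 - cL) / (63 / 64 * max (C.S.f z.1) (1 / 1024) : ℝ)

/-- What is known at the end of the local stage; `e2` is the square of the eccentricity and `u`
the direction of the section. -/
def CD.Init (C : CD) (μ : Fin 3 → ℝ) (e2 : ℝ) (u : ℂ) (z : Z3) : Prop :=
  C.In z ∧ ‖z.1‖ ^ 2 ≤ 2 + 1 / 1024 ∧ -(1 / 1024) ≤ z.1.im ∧ 0 < En μ z ∧ ∃ y : ℝ,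
    |z.1.im ^ 2 - (1 - z.1.re ^ 2 / 2 - y)| ≤ 1 / 2 ^ 36 ∧
    |z.1.re ^ 2 + y ^ 2 - z.1.re ^ 4 / 4 - e2| ≤ 1 / 2 ^ 36 ∧
    (1 / 2 ^ 20 ≤ e2 → ∃ t : ℝ, 0 < t ∧ z.1.re = t * u.re ∧ y = t * u.im)

/-- `g` is essential on `A`: it cannot be made zero-free by a change where `N g < 1`. -/
def Ess (N : ℂ → ℝ) (A : Set ℂ) (g : ℂ → ℂ) : Prop :=
  ∀ g' : ℂ → ℂ, ContinuousOn g' A → (∀ ξ ∈ A, 1 ≤ N (g ξ) → g' ξ = g ξ) → ∃ ξ ∈ A, g' ξ = 0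

/-- The maximum norm. -/
def nM (w : ℂ) : ℝ := max |w.re| |w.im|

/-- A continuous family of states, essential for the deviation from the apex. -/
structure Fam (C : CD) (X : ℂ → Z3) : Prop where
  cont : Continuous X
  nc : ∀ ξ, NC (X ξ)
  ess : Ess norm univ fun ξ => C.sh (X ξ)

/-- Six indices. -/
inductive I6 : Type
  | i0 | i1 | i2 | i3 | i4 | i5
  deriving DecidableEq

instance : Fintype I6 := ⟨{.i0, .i1, .i2, .i3, .i4, .i5}, fun x => by cases x <;> simp⟩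

lemma I6.sum (f : I6 → ℝ) : ∑ i, f i = f .i0 + f .i1 + f .i2 + f .i3 + f .i4 + f .i5 := by
  show ∑ i ∈ ({.i0, .i1, .i2, .i3, .i4, .i5} : Finset I6), f i = _
  simp [add_assoc]

/-- Real coordinates of a reduced state. -/
def co (z : Z3) : I6 → ℝ
  | .i0 => z.1.re
  | .i1 => z.1.im
  | .i2 => z.2.1.re
  | .i3 => z.2.1.im
  | .i4 => z.2.2.re
  | .i5 => z.2.2.im

def yc (x : I6 → ℝ) : ℂ := ⟨x .i2, x .i3⟩
def Fs (Y : ℂ) : ℂ := (ff (Y + 1 / 2) + ff (Y - 1 / 2)) / 2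

/-- The limit vector field in real coordinates. -/
def f0 (x : I6 → ℝ) : I6 → ℝ
  | .i0 => x .i0 ^ 2 / 2 + x .i1 ^ 2 - 1
  | .i1 => -(x .i0 * x .i1) / 2
  | .i2 => x .i4 - (x .i0 * x .i2 - x .i1 * x .i3)
  | .i3 => x .i5 - (x .i0 * x .i3 + x .i1 * x .i2)
  | .i4 => x .i0 * x .i4 / 2 + x .i1 * x .i5 - (Fs (yc x)).re
  | .i5 => x .i0 * x .i5 / 2 - x .i1 * x .i4 - (Fs (yc x)).im

/-- The compact region in which the tubes lie. -/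
def Safe (x : I6 → ℝ) : Prop :=
  (∀ i, |x i| ≤ 64) ∧ 1 / 32 ≤ ‖yc x + 1 / 2‖ ∧ 1 / 32 ≤ ‖yc x - 1 / 2‖

/-- A curve that solves the limit system up to a small error as long as it is safe. -/
structure Traj (X : ℝ → I6 → ℝ) : Prop where
  cont : Continuous X
  der : ∀ τ, Safe (X τ) → ∀ i, ∃ w : ℝ, |w| ≤ 1 / 2 ^ 36 ∧
    HasDerivAt (fun s => X s i) (f0 (X τ) i + w) τ

/-- One step of a tube: length, coordinates at both ends, radii, drift, final property. -/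
structure SS where
  h : ℝ
  yS : I6 → (I6 → ℝ) → ℝ
  yE : I6 → (I6 → ℝ) → ℝ
  R : I6 → ℝ
  d : I6 → ℝ
  out : (I6 → ℝ) → Prop

def SS.Box (s : SS) (x : I6 → ℝ) : Prop := ∀ j, |s.yS j x| ≤ s.R j

structure SS.OK (s : SS) : Prop where
  h0 : 0 ≤ s.h
  R0 : ∀ j, 0 < s.R j
  cS : ∀ j, Continuous (s.yS j)
  step : ∀ X, Traj X → ∀ τ, s.Box (X τ) → (∀ t ∈ Icc τ (τ + s.h), Safe (X t)) ∧
    (∀ j, |s.yE j (X (τ + s.h)) - s.yS j (X τ)| ≤ s.d j) ∧ s.out (X (τ + s.h))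

/-- The link of two steps; `w = true` means that the first two coordinates are exit directions. -/
def SS.Link (w : Bool) (s s' : SS) : Prop := ∀ j, ∃ k : ℝ, 0 < k ∧
  (∀ x, s'.yS j x = k * s.yE j x) ∧
  if w = true ∧ (j = .i0 ∨ j = .i1) then s'.R j ≤ k * (s.R j - s.d j)
  else k * (s.R j + s.d j) ≤ s'.R j

/-- A chain of `n` links with exit directions followed by plain links, ending in `P`. -/
def Chain (P : (I6 → ℝ) → Prop) : ℕ → SS → List SS → Prop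
  | _, s, [] => s.OK ∧ ∀ x, s.out x → P x
  | 0, s, s' :: l => s.OK ∧ s.Link false s' ∧ Chain P 0 s' l
  | n + 1, s, s' :: l => s.OK ∧ s.Link true s' ∧ Chain P n s' l

/-- The normalised exit coordinates at the start of a step. -/
def SS.g (s : SS) (x : I6 → ℝ) : ℂ := ⟨s.yS .i0 x / s.R .i0, s.yS .i1 x / s.R .i1⟩

/-- The escape criterion. -/
def Out (x : I6 → ℝ) : Prop := Safe x ∧ 3 / 20 ≤ x .i1 ∧ ∃ ζ c G a : ℝ, 0 < ζ ∧ 0 < c ∧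
  2 ≤ (c * ζ) ^ 2 ∧ 1 / 2 ≤ G ∧ 0 ≤ a ∧ 1 / G + 1 / 800 ≤ a ^ 2 / 2 ∧
  G + 513 / 1024 * (ζ ^ 2 / 3 + 2 / (3 * ζ)) + 1 / 2 ^ 20 ≤ ‖yc x‖ ∧
  (a + 513 / 1024 * c + 1 / 2 ^ 20) * ‖yc x‖ ≤ x .i2 * x .i4 + x .i3 * x .i5

/-- Squared eccentricities `e2` for which the tubes are known to lead to escape. -/
def Good (C : CD) (e2 : ℝ) : Prop := ∃ u : ℂ, u ≠ 0 ∧ ∀ μ, Mass μ → ∀ X, Fam C X →
  (∀ ξ, ‖C.sh (X ξ)‖ ≤ 1 → C.Init μ e2 u (X ξ)) → ∃ ξ, ‖C.sh (X ξ)‖ ≤ 1 ∧ EscR μ (X ξ)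

end Pool.Agent.Lib.MP_6e7c44_mp.LA
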