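import Pool.Agent.Lib.MP_6e7c44_mp.LA.Defs

/-! The escape criterion with a parabolic binary. -/

set_option autoImplicit false

open Set Complex Filter Topology

noncomputable section

namespace Pool.Agent.Lib.MP_6e7c44_mp.LA

lemma esc_fc_neg (x : ℂ) : fc (-x) = -fc x := by simp [fc]

lemma esc_dot_ff (a b : ℂ) : dot (ff a) b = (‖a‖ ^ 3)⁻¹ * dot a b := by
  simp only [ff, dot, Complex.smul_re, Complex.smul_im, smul_eq_mul]; ring

lemma esc_hd_inv {f : ℝ → ℂ} {f' : ℂ} {t : ℝ} (hf : HasDerivAt f f' t) (h : 0 < ‖f t‖) :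
    HasDerivAt (fun s => ‖f s‖⁻¹) (-dot (ff (f t)) f') t := by
  refine hd_congr ((hd_norm hf h).inv h.ne') (fun _ => rfl) ?_
  rw [esc_dot_ff]; field_simp

lemma esc_hd_sq {f : ℝ → ℂ} {f' : ℂ} {t : ℝ} (hf : HasDerivAt f f' t) :
    HasDerivAt (fun s => ‖f s‖ ^ 2) (2 * dot (f t) f') t :=
  hd_congr (hd_dot hf hf) (fun s => (dot_self _).symm) (by unfold dot; ring)

lemma esc_amgm {s ζ : ℝ} (hs : 0 ≤ s) (hζ : 0 < ζ) :
    s ^ 2 ≤ ζ ^ 2 / 3 + 2 / (3 * ζ) * s ^ 3 := by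
  have e : ζ ^ 2 / 3 + 2 / (3 * ζ) * s ^ 3 - s ^ 2 = (s - ζ) ^ 2 * (2 * s + ζ) / (3 * ζ) := by
    field_simp; ring
  have : 0 ≤ (s - ζ) ^ 2 * (2 * s + ζ) / (3 * ζ) := by positivity
  linarith

/-- The total energy in the coordinates of Jacobi. -/
def Hj (θ m : ℝ) (x p y w : ℂ) : ℝ :=
  θ * (1 - θ) * (‖p‖ ^ 2 / 2 - (1 - m) * ‖x‖⁻¹)
    + m * (‖w‖ ^ 2 / 2 - (1 - θ) * ‖y - θ • x‖⁻¹ - θ * ‖y + (1 - θ) • x‖⁻¹)

lemma esc_binary {θ m G : ℝ} {x p y w : ℂ} (θ0 : 0 < θ) (θ1 : θ < 1) (m0 : 0 ≤ m) (hG : 0 < G)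
    (h0 : G ≤ ‖y - θ • x‖) (h1 : G ≤ ‖y + (1 - θ) • x‖) (hw : G⁻¹ ≤ ‖w‖ ^ 2 / 2) (hx : 0 < ‖x‖)
    (hH : Hj θ m x p y w < 0) : ‖p‖ ^ 2 * ‖x‖ < 2 := by
  have a0 : ‖y - θ • x‖⁻¹ ≤ G⁻¹ := inv_anti₀ hG h0
  have a1 : ‖y + (1 - θ) • x‖⁻¹ ≤ G⁻¹ := inv_anti₀ hG h1
  have a2 := mul_le_mul_of_nonneg_left a0 (by linarith : 0 ≤ 1 - θ)
  have a3 := mul_le_mul_of_nonneg_left a1 θ0.le
  have a4 : 0 ≤ m * (‖w‖ ^ 2 / 2 - (1 - θ) * ‖y - θ • x‖⁻¹ - θ * ‖y + (1 - θ) • x‖⁻¹) :=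
    mul_nonneg m0 (by linarith)
  have a5 : θ * (1 - θ) * (‖p‖ ^ 2 / 2 - (1 - m) * ‖x‖⁻¹) < 0 := by unfold Hj at hH; linarith
  have a6 : 0 < θ * (1 - θ) := mul_pos θ0 (by linarith)
  have a7 : ‖p‖ ^ 2 / 2 - (1 - m) * ‖x‖⁻¹ < 0 := by
    by_contra h
    exact absurd a5 (not_lt.mpr (mul_nonneg a6.le (not_lt.mp h)))
  have a8 : 0 ≤ m * ‖x‖⁻¹ := by positivity
  have a9 : ‖p‖ ^ 2 / 2 < ‖x‖⁻¹ := by linarith
  have := mul_lt_mul_of_pos_right a9 hx
  rw [inv_mul_cancel₀ hx.ne'] at this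
  linarith

lemma esc_low {θ X : ℝ} {x y : ℂ} (θ0 : 511 / 1024 ≤ θ) (θ1 : θ ≤ 513 / 1024) (h : ‖x‖ ≤ X) :
    ‖y‖ - 513 / 1024 * X ≤ ‖y - θ • x‖ ∧ ‖y‖ - 513 / 1024 * X ≤ ‖y + (1 - θ) • x‖ := by
  have n0 := norm_nonneg x
  constructor
  · have a1 := norm_sub_norm_le y (θ • x)
    rw [norm_smul, Real.norm_of_nonneg (by linarith)] at a1
    nlinarith
  · have a1 := norm_sub_norm_le y (-((1 - θ) • x))
    rw [sub_neg_eq_add, norm_neg, norm_smul, Real.norm_of_nonneg (by linarith)] at a1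
    nlinarith

lemma esc_radial {y w : ℂ} (hy : 0 < ‖y‖) {b : ℝ} (hb : 0 ≤ b) (h : b ≤ dot y w / ‖y‖) :
    (dot y w / ‖y‖ - b) ^ 2 ≤ ‖w‖ ^ 2 := by
  have a1 : dot y w / ‖y‖ ≤ ‖w‖ := by
    rw [div_le_iff₀ hy]; linarith [(abs_le.mp (abs_dot_le y w)).2]
  exact pow_le_pow_left₀ (by linarith) (by linarith) 2

theorem esc_core {x p y w : ℝ → ℂ} {θ m ζ c : ℝ}
    (hx : ∀ t, HasDerivAt x (p t) t)
    (hp : ∀ t, HasDerivAt p
      (-((1 - m) • fc (x t)) + m • (fc (y t - θ • x t) - fc (y t + (1 - θ) • x t))) t)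
    (hy : ∀ t, HasDerivAt y (w t) t)
    (hw : ∀ t, HasDerivAt w
      (-((1 - θ) • fc (y t - θ • x t)) - θ • fc (y t + (1 - θ) • x t)) t)
    (θ0 : 511 / 1024 ≤ θ) (θ1 : θ ≤ 513 / 1024) (m0 : 0 ≤ m) (m1 : m ≤ 1 / 2 ^ 50)
    (hζ : 0 < ζ) (hc : 0 < c) (hcζ : 2 ≤ (c * ζ) ^ 2) (i1 : ‖x 0‖ = 1)
    (i2 : 1 / 2 ≤ ‖y 0‖ - 513 / 1024 * (ζ ^ 2 / 3 + 2 / (3 * ζ)))
    (i3 : 513 / 1024 * c ≤ dot (y 0) (w 0) / ‖y 0‖)
    (i4 : 1 / 800 ≤ (dot (y 0) (w 0) / ‖y 0‖ - 513 / 1024 * c) ^ 2 / 2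
      - (‖y 0‖ - 513 / 1024 * (ζ ^ 2 / 3 + 2 / (3 * ζ)))⁻¹)
    (i5 : Hj θ m (x 0) (p 0) (y 0) (w 0) < 0) (i6 : 3 / 20 ≤ cr (x 0) (p 0)) :
    ∀ t, 0 ≤ t → 1 / 100 ≤ ‖x t‖ ∧ 1 / 2 + t / 20 ≤ ‖y t - θ • x t‖ ∧
      1 / 2 + t / 20 ≤ ‖y t + (1 - θ) • x t‖ := by
  obtain ⟨X0, hX0⟩ : ∃ X0, X0 = ζ ^ 2 / 3 + 2 / (3 * ζ) := ⟨_, rfl⟩
  rw [← hX0] at i2 i4
  have X01 : 1 ≤ X0 := by
    have := esc_amgm (s := 1) (by norm_num) hζ
    rw [hX0]; linarith
  let G : ℝ → ℝ := fun t => ‖y t‖ - 513 / 1024 * (X0 + c * t)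
  let S : Set ℝ := {t | 1 / 100 ≤ ‖x t‖ ∧ ‖p t‖ ^ 2 * ‖x t‖ ≤ 2 ∧
    513 / 1024 * c * ‖y t‖ ≤ dot (y t) (w t) ∧ 1 / 4 ≤ G t}
  have G0 : G 0 = ‖y 0‖ - 513 / 1024 * X0 := by simp [G]
  have core : ∀ t1, 0 ≤ t1 → Icc 0 t1 ⊆ S →
      (1 / 100 < ‖x t1‖ ∧ ‖p t1‖ ^ 2 * ‖x t1‖ < 2 ∧
        513 / 1024 * c * ‖y t1‖ < dot (y t1) (w t1) ∧ 1 / 4 < G t1) ∧
      1 / 2 + t1 / 20 ≤ ‖y t1 - θ • x t1‖ ∧ 1 / 2 + t1 / 20 ≤ ‖y t1 + (1 - θ) • x t1‖ := by
    intro t1 ht1 hS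
    have sub : ∀ {t s : ℝ}, t ∈ Icc 0 t1 → s ∈ Icc 0 t → s ∈ Icc 0 t1 :=
      fun ht hs => ⟨hs.1, le_trans hs.2 ht.2⟩
    have hxr : ∀ t ∈ Icc 0 t1, 0 < ‖x t‖ := fun t ht => by linarith [(hS ht).1]
    have hG4 : ∀ t ∈ Icc 0 t1, 1 / 4 ≤ G t := fun t ht => (hS ht).2.2.2
    have hG : ∀ t ∈ Icc 0 t1, 0 < G t := fun t ht => by linarith [hG4 t ht]
    have hys : ∀ t ∈ Icc 0 t1, 0 < ‖y t‖ := fun t ht => by
      have a1 := hG t ht
      have a2 : 0 ≤ c * t := mul_nonneg hc.le ht.1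
      simp only [G] at a1
      linarith
    -- the binary grows at most like a parabolic one
    have hA : ∀ k : ℝ, 0 ≤ k → 2 ≤ k ^ 2 → ∀ t ∈ Icc 0 t1, √‖x t‖ ^ 3 ≤ 1 + 3 / 2 * k * t := by
      intro k hk hk2 t ht
      have := mono_of_deriv (F := fun s => 3 / 2 * k * s - √‖x s‖ ^ 3)
        (F' := fun s => 3 / 2 * k - 3 / 2 * (dot (x s) (p s) / √‖x s‖)) ht.1
        (by
          intro s hs
          have a0 := hxr s (sub ht hs)
          have a1 := ((hasDerivAt_id s).const_mul (3 / 2 * k)).sub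
            (((hd_norm (hx s) a0).sqrt a0.ne').pow 3)
          refine hd_congr a1 (fun _ => rfl) ?_
          have a2 : 0 < √‖x s‖ := Real.sqrt_pos.mpr a0
          have a3 : √‖x s‖ ^ 2 = ‖x s‖ := Real.sq_sqrt a0.le
          simp only [Nat.cast_ofNat, Nat.add_one_sub_one, mul_one, a3]
          field_simp)
        (by
          intro s hs
          have a0 := hxr s (sub ht hs)
          have a2 : 0 < √‖x s‖ := Real.sqrt_pos.mpr a0
          have a3 : √‖x s‖ ^ 2 = ‖x s‖ := Real.sq_sqrt a0.le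
          have a4 := (hS (sub ht hs)).2.1
          have a5 : ‖x s‖ * ‖p s‖ ≤ k * √‖x s‖ := by
            apply abs_le_of_sq_le_sq' _ (by positivity) |>.2
            rw [mul_pow, mul_pow, a3]
            nlinarith
          have a6 : dot (x s) (p s) / √‖x s‖ ≤ k := by
            rw [div_le_iff₀ a2]; linarith [(abs_le.mp (abs_dot_le (x s) (p s))).2]
          show 0 ≤ 3 / 2 * k - 3 / 2 * (dot (x s) (p s) / √‖x s‖)
          linarith)
      simp only [i1, Real.sqrt_one] at this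
      linarith
    have hX : ∀ t ∈ Icc 0 t1, ‖x t‖ ≤ X0 + c * t := by
      intro t ht
      have a1 := hA (c * ζ) (by positivity) hcζ t ht
      have a2 := esc_amgm (Real.sqrt_nonneg ‖x t‖) hζ
      rw [Real.sq_sqrt (norm_nonneg _)] at a2
      have a3 := mul_le_mul_of_nonneg_left a1 (by positivity : 0 ≤ 2 / (3 * ζ))
      have a4 : 2 / (3 * ζ) * (1 + 3 / 2 * (c * ζ) * t) = 2 / (3 * ζ) + c * t := by field_simp
      rw [hX0]; linarith
    have l0 : ∀ t ∈ Icc 0 t1, G t ≤ ‖y t - θ • x t‖ := fun t ht => (esc_low θ0 θ1 (hX t ht)).1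
    have l1 : ∀ t ∈ Icc 0 t1, G t ≤ ‖y t + (1 - θ) • x t‖ :=
      fun t ht => (esc_low θ0 θ1 (hX t ht)).2
    have f0 : ∀ t ∈ Icc 0 t1, fc (y t - θ • x t) = ff (y t - θ • x t) :=
      fun t ht => fc_eq (by linarith [l0 t ht, hG4 t ht])
    have f1 : ∀ t ∈ Icc 0 t1, fc (y t + (1 - θ) • x t) = ff (y t + (1 - θ) • x t) :=
      fun t ht => fc_eq (by linarith [l1 t ht, hG4 t ht])
    have f2 : ∀ t ∈ Icc 0 t1, fc (x t) = ff (x t) := fun t ht => fc_eq (hS ht).1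
    -- the radial motion of the third body
    let g : ℝ → ℂ := fun t => -((1 - θ) • fc (y t - θ • x t)) - θ • fc (y t + (1 - θ) • x t)
    have hg : ∀ t ∈ Icc 0 t1, ‖g t‖ ≤ (G t ^ 2)⁻¹ := by
      intro t ht
      have b0 := hG t ht
      have b1 := l0 t ht
      have b2 := l1 t ht
      have c0 : ‖ff (y t - θ • x t)‖ ≤ (G t ^ 2)⁻¹ := by
        rw [norm_ff (by linarith)]; gcongr
      have c1 : ‖ff (y t + (1 - θ) • x t)‖ ≤ (G t ^ 2)⁻¹ := by
        rw [norm_ff (by linarith)]; gcongr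
      simp only [g]
      rw [f0 t ht, f1 t ht]
      refine le_trans (norm_sub_le _ _) ?_
      rw [norm_neg, norm_smul, norm_smul, Real.norm_of_nonneg (by linarith),
        Real.norm_of_nonneg (by linarith)]
      have c2 := mul_le_mul_of_nonneg_left c0 (by linarith : 0 ≤ 1 - θ)
      have c3 := mul_le_mul_of_nonneg_left c1 (by linarith : 0 ≤ θ)
      linarith
    let u : ℝ → ℝ := fun t => dot (y t) (w t) / ‖y t‖
    have hu0 : ∀ t ∈ Icc 0 t1, 513 / 1024 * c ≤ u t := fun t ht =>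
      (le_div_iff₀ (hys t ht)).mpr (hS ht).2.2.1
    have hs : ∀ t ∈ Icc 0 t1, HasDerivAt (fun s => ‖y s‖) (u t) t :=
      fun t ht => hd_norm (hy t) (hys t ht)
    have hsG : ∀ t ∈ Icc 0 t1, HasDerivAt G (u t - 513 / 1024 * c) t := fun t ht =>
      hd_congr ((hs t ht).sub ((((hasDerivAt_id t).const_mul c).const_add X0).const_mul
        (513 / 1024))) (fun _ => rfl) (by simp)
    let u' : ℝ → ℝ := fun t =>
      ((dot (w t) (w t) + dot (y t) (g t)) * ‖y t‖ - dot (y t) (w t) * u t) / ‖y t‖ ^ 2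
    have hu : ∀ t ∈ Icc 0 t1, HasDerivAt u (u' t) t :=
      fun t ht => (hd_dot (hy t) (hw t)).div (hs t ht) (hys t ht).ne'
    have hu' : ∀ t ∈ Icc 0 t1, -(G t ^ 2)⁻¹ ≤ u' t := by
      intro t ht
      have a0 := hys t ht
      have a1 := hg t ht
      have a2 := (abs_le.mp (abs_dot_le (y t) (g t))).1
      have a3 := dot_cr (y t) (w t)
      have e : u' t = cr (y t) (w t) ^ 2 / ‖y t‖ ^ 3 + dot (y t) (g t) / ‖y t‖ := by
        simp only [u', u]
        rw [dot_self]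
        have : cr (y t) (w t) ^ 2 = ‖y t‖ ^ 2 * ‖w t‖ ^ 2 - dot (y t) (w t) ^ 2 := by linarith
        rw [this]; field_simp; ring
      have a4 : -‖g t‖ ≤ dot (y t) (g t) / ‖y t‖ := by
        rw [le_div_iff₀ a0]; linarith
      have a5 : 0 ≤ cr (y t) (w t) ^ 2 / ‖y t‖ ^ 3 := by positivity
      linarith
    have hF : ∀ t ∈ Icc 0 t1, 1 / 800 ≤ (u t - 513 / 1024 * c) ^ 2 / 2 - (G t)⁻¹ := by
      intro t ht
      rw [← G0] at i4
      refine le_trans i4 ?_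
      apply mono_of_deriv (F := fun s => (u s - 513 / 1024 * c) ^ 2 / 2 - (G s)⁻¹)
        (F' := fun s => (u s - 513 / 1024 * c) * (u' s + (G s ^ 2)⁻¹)) ht.1
      · intro s hs'
        have hs2 := sub ht hs'
        have a1 := ((((hu s hs2).sub_const (513 / 1024 * c)).pow 2).div_const 2).sub
          ((hsG s hs2).inv (hG s hs2).ne')
        refine hd_congr a1 (fun _ => by simp) ?_
        simp; ring
      · intro s hs'
        have hs2 := sub ht hs'
        exact mul_nonneg (by linarith [hu0 s hs2]) (by linarith [hu' s hs2])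
    have huv : ∀ t ∈ Icc 0 t1, 1 / 20 ≤ u t - 513 / 1024 * c := by
      intro t ht
      apply abs_le_of_sq_le_sq' _ (by linarith [hu0 t ht]) |>.2
      have a1 := hF t ht
      have a2 : 0 < (G t)⁻¹ := inv_pos.mpr (hG t ht)
      linarith
    have hgrow : ∀ t ∈ Icc 0 t1, 1 / 2 + t / 20 ≤ G t := by
      intro t ht
      have := mono_of_deriv (F := fun s => G s - 1 / 20 * s)
        (F' := fun s => u s - 513 / 1024 * c - 1 / 20) ht.1
        (fun s hs' => hd_congr ((hsG s (sub ht hs')).sub ((hasDerivAt_id s).const_mul (1 / 20)))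
          (fun _ => rfl) (by simp))
        (fun s hs' => by linarith [huv s (sub ht hs')])
      simp only [G0] at this
      linarith
    -- conservation of energy
    have hE : Hj θ m (x t1) (p t1) (y t1) (w t1) ≤ Hj θ m (x 0) (p 0) (y 0) (w 0) := by
      have := mono_of_deriv (F := fun s => -Hj θ m (x s) (p s) (y s) (w s)) (F' := fun _ => 0) ht1
        (by
          intro s hs'
          have b0 := hG s hs'
          have a0 := esc_hd_inv (hx s) (hxr s hs')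
          have a1 := esc_hd_inv ((hy s).sub ((hx s).const_smul θ))
            (lt_of_lt_of_le b0 (l0 s hs'))
          have a2 := esc_hd_inv ((hy s).add ((hx s).const_smul (1 - θ)))
            (lt_of_lt_of_le b0 (l1 s hs'))
          have a3 := (((((esc_hd_sq (hp s)).div_const 2).sub (a0.const_mul (1 - m))).const_mul
            (θ * (1 - θ))).add (((((esc_hd_sq (hw s)).div_const 2).sub
              (a1.const_mul (1 - θ))).sub (a2.const_mul θ)).const_mul m)).neg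
          refine hd_congr a3 (fun _ => rfl) ?_
          rw [f0 s hs', f1 s hs', f2 s hs']
          simp only [Pi.sub_apply, Pi.add_apply, Pi.smul_apply]
          generalize ff (x s) = A
          generalize ff (y s - θ • x s) = B
          generalize ff (y s + (1 - θ) • x s) = C
          simp only [dot, Complex.add_re, Complex.add_im, Complex.neg_re, Complex.neg_im,
            Complex.sub_re, Complex.sub_im, Complex.smul_re, Complex.smul_im, smul_eq_mul]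
          ring)
        (fun _ _ => le_rfl)
      linarith
    -- the angular momentum of the binary
    let ρ : ℝ → ℝ := fun t => √(1 / 2 + t / 20)
    have hρ2 : ∀ t ∈ Icc 0 t1, ρ t ^ 2 = 1 / 2 + t / 20 :=
      fun t ht => Real.sq_sqrt (by linarith [ht.1])
    have hρ : ∀ t ∈ Icc 0 t1, 7 / 10 ≤ ρ t := fun t ht => by
      apply abs_le_of_sq_le_sq' _ (Real.sqrt_nonneg _) |>.2
      rw [hρ2 t ht]; linarith [ht.1]
    have hLL : cr (x 0) (p 0) - 18000 * m * (ρ 0)⁻¹ ≤ cr (x t1) (p t1) - 18000 * m * (ρ t1)⁻¹ := by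
      exact mono_of_deriv (F := fun s => cr (x s) (p s) - 18000 * m * (ρ s)⁻¹)
        (F' := fun s => m * (cr (x s) (ff (y s - θ • x s) - ff (y s + (1 - θ) • x s))
          + 450 * (ρ s ^ 3)⁻¹)) ht1
        (by
          intro s hs'
          have b0 : 0 < ρ s := by linarith [hρ s hs']
          have a0 : HasDerivAt ρ (1 / 20 / (2 * ρ s)) s := by
            have := (((hasDerivAt_id s).div_const 20).const_add (1 / 2)).sqrt
              (by simp only [id]; linarith [hs'.1])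
            exact this
          have a1 := (hd_cr (hx s) (hp s)).sub ((a0.inv b0.ne').const_mul (18000 * m))
          refine hd_congr a1 (fun _ => rfl) ?_
          rw [f0 s hs', f1 s hs']
          generalize ff (y s - θ • x s) = B
          generalize ff (y s + (1 - θ) • x s) = C
          simp only [fc, cr, Complex.add_re, Complex.add_im, Complex.neg_re, Complex.neg_im,
            Complex.sub_re, Complex.sub_im, Complex.smul_re, Complex.smul_im, smul_eq_mul]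
          field_simp
          ring)
        (by
          intro s hs'
          have b0 := hρ s hs'
          have b1 := hρ2 s hs'
          have b2 := hgrow s hs'
          have b3 := hA (3 / 2) (by norm_num) (by norm_num) s hs'
          have b4 : √‖x s‖ ^ 2 = ‖x s‖ := Real.sq_sqrt (norm_nonneg _)
          have b5 := Real.sqrt_nonneg ‖x s‖
          have b6 : 0 < ρ s := by linarith
          have c2 := ff_lip (ρ := ρ s ^ 2) (x := y s - θ • x s) (y := y s + (1 - θ) • x s)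
            (by positivity) (by linarith [l0 s hs']) (by linarith [l1 s hs'])
          have c3 : y s - θ • x s - (y s + (1 - θ) • x s) = -x s := by
            rw [sub_smul, one_smul]; abel
          rw [c3, norm_neg] at c2
          have c4 := (abs_le.mp (abs_cr_le (x s)
            (ff (y s - θ • x s) - ff (y s + (1 - θ) • x s)))).1
          generalize √‖x s‖ = σ at b3 b4 b5
          have d1 : σ ^ 3 ≤ 45 * ρ s ^ 2 := by rw [b1]; linarith [hs'.1]
          have d2 : σ ≤ 5 * ρ s := by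
            apply le_of_pow_le_pow_left₀ (n := 3) (by norm_num) (by positivity)
            have : 0 ≤ ρ s ^ 2 := by positivity
            nlinarith
          have d3 : ‖x s‖ ^ 2 ≤ 225 * ρ s ^ 3 := by
            calc ‖x s‖ ^ 2 = σ * σ ^ 3 := by rw [← b4]; ring
              _ ≤ 5 * ρ s * (45 * ρ s ^ 2) := by gcongr
              _ = _ := by ring
          have d4 : ‖x s‖ * ‖ff (y s - θ • x s) - ff (y s + (1 - θ) • x s)‖
              ≤ 450 * (ρ s ^ 3)⁻¹ := by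
            calc _ ≤ ‖x s‖ * (2 / (ρ s ^ 2) ^ 3 * ‖x s‖) := by gcongr
              _ = 2 / (ρ s ^ 2) ^ 3 * ‖x s‖ ^ 2 := by ring
              _ ≤ 2 / (ρ s ^ 2) ^ 3 * (225 * ρ s ^ 3) := by gcongr
              _ = _ := by field_simp; ring
          exact mul_nonneg m0 (by linarith))
    have ht1' : t1 ∈ Icc 0 t1 := ⟨ht1, le_rfl⟩
    have b4 : ‖p t1‖ ^ 2 * ‖x t1‖ < 2 := by
      refine esc_binary (by linarith) (by linarith) m0 (hG t1 ht1') (l0 t1 ht1') (l1 t1 ht1') ?_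
        (hxr t1 ht1') (lt_of_le_of_lt hE i5)
      have a1 := esc_radial (hys t1 ht1') (by positivity) (hu0 t1 ht1')
      have a2 := hF t1 ht1'
      simp only [u] at a2
      linarith
    have b5 : 149 / 1000 ≤ cr (x t1) (p t1) := by
      have a1 : 0 ≤ 18000 * m * (ρ t1)⁻¹ := by
        have := hρ t1 ht1'
        positivity
      have a2 : (ρ 0)⁻¹ ≤ (7 / 10)⁻¹ := inv_anti₀ (by norm_num) (hρ 0 ⟨le_rfl, ht1⟩)
      have a3 : 18000 * m * (ρ 0)⁻¹ ≤ 18000 * (1 / 2 ^ 50) * (7 / 10)⁻¹ := by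
        have : 0 ≤ (ρ 0)⁻¹ := inv_nonneg.mpr (Real.sqrt_nonneg _)
        gcongr
      have a4 : (18000 : ℝ) * (1 / 2 ^ 50) * (7 / 10)⁻¹ ≤ 1 / 1000 := by norm_num
      linarith
    have b6 : (149 / 1000) ^ 2 ≤ ‖x t1‖ ^ 2 * ‖p t1‖ ^ 2 := by
      have := pow_le_pow_left₀ (by norm_num) b5 2
      nlinarith [dot_cr (x t1) (p t1), sq_nonneg (dot (x t1) (p t1))]
    have b7 : 1 / 100 < ‖x t1‖ := by
      have := hxr t1 ht1'
      nlinarith
    have b8 : 513 / 1024 * c * ‖y t1‖ < dot (y t1) (w t1) := by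
      have a1 := huv t1 ht1'
      exact (lt_div_iff₀ (hys t1 ht1')).mp (by simp only [u] at a1; linarith)
    have b9 := hgrow t1 ht1'
    exact ⟨⟨b7, b4, b8, by linarith⟩, by linarith [l0 t1 ht1'], by linarith [l1 t1 ht1']⟩
  have cx : Continuous x := continuous_iff_continuousAt.mpr fun t => (hx t).continuousAt
  have cp : Continuous p := continuous_iff_continuousAt.mpr fun t => (hp t).continuousAt
  have cy : Continuous y := continuous_iff_continuousAt.mpr fun t => (hy t).continuousAt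
  have cw : Continuous w := continuous_iff_continuousAt.mpr fun t => (hw t).continuousAt
  have cd : Continuous fun t => dot (y t) (w t) := by unfold dot; fun_prop
  have cpx : Continuous fun t => ‖p t‖ ^ 2 * ‖x t‖ := by fun_prop
  have ccy : Continuous fun t => 513 / 1024 * c * ‖y t‖ := by fun_prop
  have cG : Continuous G := by simp only [G]; fun_prop
  have hclosed : IsClosed S :=
    (isClosed_le continuous_const cx.norm).inter ((isClosed_le cpx continuous_const).inter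
      ((isClosed_le ccy cd).inter (isClosed_le continuous_const cG)))
  have hT : (0 : ℝ) ∈ S := by
    have y0 : 0 < ‖y 0‖ := by linarith
    obtain ⟨l0, l1⟩ := esc_low (x := x 0) (y := y 0) (X := X0) θ0 θ1 (by linarith)
    refine ⟨by linarith, le_of_lt ?_, (le_div_iff₀ y0).mp i3, by rw [G0]; linarith⟩
    refine esc_binary (by linarith) (by linarith) m0 (by linarith) l0 l1 ?_ (by linarith) i5
    have a1 := esc_radial y0 (by positivity) i3
    linarith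
  intro t ht
  have hall : Icc 0 t ⊆ S := by
    apply (hclosed.inter isClosed_Icc).Icc_subset_of_forall_mem_nhdsGT_of_Icc_subset hT
    intro s hs hsub
    obtain ⟨⟨a1, a2, a3, a4⟩, -⟩ := core s hs.1 hsub
    apply mem_nhdsWithin_of_mem_nhds
    filter_upwards [cx.norm.continuousAt.eventually (lt_mem_nhds a1),
      cpx.continuousAt.eventually (gt_mem_nhds a2),
      ccy.continuousAt.eventually_lt cd.continuousAt a3,
      cG.continuousAt.eventually (lt_mem_nhds a4)] with r b1 b2 b3 b4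
    exact ⟨b1.le, b2.le, b3.le, b4.le⟩
  obtain ⟨⟨a1, -⟩, a3⟩ := core t ht hall
  exact ⟨a1.le, a3⟩

lemma esc_zero_sum {μ : Fin 3 → ℝ} {d v : ℝ → Fin 3 → ℂ} (hs : Sol μ d v)
    (hsum : μ 0 + μ 1 + μ 2 = 1) (h0 : d 0 0 + d 0 1 + d 0 2 = 0)
    (h1 : v 0 0 + v 0 1 + v 0 2 = 0) (t : ℝ) : d t 0 + d t 1 + d t 2 = 0 := by
  have hd : ∀ k t, HasDerivAt (fun s => d s k) (v t k) t := fun k t => hasDerivAt_pi.mp (hs.hd t) k
  have hv : ∀ k t, HasDerivAt (fun s => v s k) (GG μ (d t) k) t :=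
    fun k t => hasDerivAt_pi.mp (hs.hv t) k
  have a1 : ∀ t, HasDerivAt (fun s => v s 0 + v s 1 + v s 2) 0 t := fun t =>
    hd_congr (((hv 0 t).add (hv 1 t)).add (hv 2 t)) (fun _ => rfl) (by
      have : μ 2 = 1 - μ 0 - μ 1 := by linarith
      simp only [GG, Fin.sum_univ_three, this]
      module)
  have a2 : ∀ t, v t 0 + v t 1 + v t 2 = 0 := fun t => by
    rw [← h1]
    exact is_const_of_deriv_eq_zero (fun s => (a1 s).differentiableAt) (fun s => (a1 s).deriv) t 0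
  have a3 : ∀ t, HasDerivAt (fun s => d s 0 + d s 1 + d s 2) 0 t := fun t =>
    hd_congr (((hd 0 t).add (hd 1 t)).add (hd 2 t)) (fun _ => rfl) (a2 t).symm
  rw [← h0]
  exact is_const_of_deriv_eq_zero (fun s => (a3 s).differentiableAt) (fun s => (a3 s).deriv) t 0

lemma esc_energy {μ : Fin 3 → ℝ} (hμ : Mass μ) {z : Z3} (hE : 0 < En μ z) {θ : ℝ}
    (hθ : θ * (μ 0 + μ 1) = μ 0) :
    Hj θ (μ 2) 1 z.1 (z.2.1 - 1 / 2 + θ • (1 : ℂ)) (z.2.2 - z.1 / 2 + θ • z.1) < 0 := by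
  obtain ⟨hp, hs, -, -⟩ := hμ
  have p0 := hp 0
  have p1 := hp 1
  have p2 := hp 2
  have hI : 0 < I0 μ := by unfold I0; positivity
  have h1 := (div_pos_iff_of_pos_right hI).mp hE
  have e0 : z.2.1 - 1 / 2 + θ • (1 : ℂ) - θ • (1 : ℂ) = z.2.1 - 1 / 2 := by abel
  have e1 : z.2.1 - 1 / 2 + θ • (1 : ℂ) + (1 - θ) • (1 : ℂ) = z.2.1 + 1 / 2 := by
    rw [sub_smul, one_smul]; ring
  obtain ⟨ν, hν⟩ : ∃ ν, ν = μ 0 + μ 1 := ⟨_, rfl⟩
  have n0 : 0 < ν := by linarith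
  have m0 : μ 0 = θ * ν := by rw [hν, hθ]
  have m1 : μ 1 = (1 - θ) * ν := by linarith
  have m2 : μ 2 = 1 - ν := by linarith
  have key : ν * Hj θ (μ 2) 1 z.1 (z.2.1 - 1 / 2 + θ • (1 : ℂ)) (z.2.2 - z.1 / 2 + θ • z.1)
      = μ 0 * μ 1 * (‖z.1‖ ^ 2 / 2 - 1)
        + μ 1 * μ 2 * (‖z.2.2 - z.1 / 2‖ ^ 2 / 2 - ‖z.2.1 - 1 / 2‖⁻¹)
        + μ 2 * μ 0 * (‖z.2.2 + z.1 / 2‖ ^ 2 / 2 - ‖z.2.1 + 1 / 2‖⁻¹) := by
    unfold Hj
    rw [e0, e1, norm_one, inv_one, m0, m1, m2]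
    simp only [sq_norm', Complex.add_re, Complex.add_im, Complex.sub_re, Complex.sub_im,
      Complex.smul_re, Complex.smul_im, smul_eq_mul, Complex.div_ofNat_re, Complex.div_ofNat_im]
    ring
  by_contra h
  have := mul_nonneg n0.le (not_lt.mp h)
  linarith

lemma esc_init {a b Y W : ℂ} {A : ℝ} (h1 : ‖a - Y‖ ≤ 1 / 2 ^ 50) (h2 : ‖b - W‖ ≤ 128 / 2 ^ 50)
    (hW : ‖W‖ ≤ 128) (hY : 1 / 2 ≤ ‖Y‖) (hA : 0 ≤ A) (h : (A + 1 / 2 ^ 20) * ‖Y‖ ≤ dot Y W) :
    A * ‖a‖ ≤ dot a b := by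
  have c1 := dot_pert a b Y W
  have c2 : ‖a‖ ≤ ‖Y‖ + 1 / 2 ^ 50 := by linarith [norm_sub_norm_le a Y]
  have c3 : ‖b‖ ≤ 129 := by linarith [norm_sub_norm_le b W]
  have c4 : A ≤ 128 := by
    have := (abs_le.mp (abs_dot_le Y W)).2
    by_contra hh
    nlinarith
  have c5 := mul_le_mul h1 c3 (norm_nonneg _) (by norm_num)
  have c6 := mul_le_mul_of_nonneg_left h2 (norm_nonneg Y)
  have c7 := mul_le_mul_of_nonneg_left c2 hA
  nlinarith

theorem escape {μ : Fin 3 → ℝ} (hμ : Mass μ) {z : Z3} (hE : 0 < En μ z) (h : Out (co z)) :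
    EscR μ z := by
  obtain ⟨⟨hb, -, -⟩, hL, ζ, c, G, a, hζ, hc, hcζ, hG, ha, hGa, hY, hdot⟩ := h
  have p0 := hμ.1 0
  have p1 := hμ.1 1
  have p2 := hμ.1 2
  have hsum := hμ.2.1
  have m01 := abs_le.mp hμ.2.2.1
  have m2 := hμ.2.2.2
  have hν : 0 < μ 0 + μ 1 := by linarith
  obtain ⟨θ, hθ⟩ : ∃ θ, θ = μ 0 / (μ 0 + μ 1) := ⟨_, rfl⟩
  have hθ1 : θ * (μ 0 + μ 1) = μ 0 := by rw [hθ]; field_simp
  have hθ2 : |θ - 1 / 2| ≤ 1 / 2 ^ 50 := by
    rw [abs_le]; constructor <;> nlinarith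
  have hθ3 := abs_le.mp hθ2
  obtain ⟨d, v, hs, e0, e1⟩ := exists_sol μ (fun k => by
    rw [abs_of_pos (hμ.1 k)]
    fin_cases k
    · show μ 0 ≤ 1; linarith
    · show μ 1 ≤ 1; linarith
    · show μ 2 ≤ 1; linarith) (rel (phys z).1) (rel (phys z).2)
  have hz := esc_zero_sum hs hsum (by rw [e0]; exact rel_sum _) (by rw [e1]; exact rel_sum _)
  have hd : ∀ k t, HasDerivAt (fun s => d s k) (v t k) t := fun k t => hasDerivAt_pi.mp (hs.hd t) k
  have hv : ∀ k t, HasDerivAt (fun s => v s k) (GG μ (d t) k) t :=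
    fun k t => hasDerivAt_pi.mp (hs.hv t) k
  have r0 : ∀ t, d t 0 + θ • d t 2 - θ • d t 2 = d t 0 := fun t => by abel
  have r1 : ∀ t, d t 0 + θ • d t 2 + (1 - θ) • d t 2 = -d t 1 := fun t => by
    have := hz t
    rw [sub_smul, one_smul]
    linear_combination this
  have d0 : d 0 0 = z.2.1 - 1 / 2 := by rw [e0]; simp [rel, phys]; ring
  have d2 : d 0 2 = 1 := by rw [e0]; simp [rel, phys]
  have v0 : v 0 0 = z.2.2 - z.1 / 2 := by rw [e1]; simp [rel, phys]; ring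
  have v2 : v 0 2 = z.1 := by rw [e1]; simp [rel, phys]
  have yc0 : yc (co z) = z.2.1 := rfl
  rw [yc0] at hY hdot
  have hη : ‖z.1‖ ≤ 128 := by
    have a1 : |z.1.re| ≤ 64 := hb .i0
    have a2 : |z.1.im| ≤ 64 := hb .i1
    linarith [Complex.norm_le_abs_re_add_abs_im z.1]
  have hW : ‖z.2.2‖ ≤ 128 := by
    have a1 : |z.2.2.re| ≤ 64 := hb .i4
    have a2 : |z.2.2.im| ≤ 64 := hb .i5
    linarith [Complex.norm_le_abs_re_add_abs_im z.2.2]
  have X0 : 0 ≤ 513 / 1024 * (ζ ^ 2 / 3 + 2 / (3 * ζ)) := by positivity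
  have y0 : ‖d 0 0 + θ • d 0 2 - z.2.1‖ ≤ 1 / 2 ^ 50 := by
    have : d 0 0 + θ • d 0 2 - z.2.1 = (θ - 1 / 2) • (1 : ℂ) := by
      rw [d0, d2]; simp [sub_smul]; ring
    rw [this, norm_smul, norm_one, mul_one]; exact hθ2
  have w0 : ‖v 0 0 + θ • v 0 2 - z.2.2‖ ≤ 128 / 2 ^ 50 := by
    have : v 0 0 + θ • v 0 2 - z.2.2 = (θ - 1 / 2) • z.1 := by
      rw [v0, v2]; simp [sub_smul]; ring
    rw [this, norm_smul]
    have := mul_le_mul hθ2 hη (norm_nonneg _) (by norm_num)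
    rw [Real.norm_eq_abs]; linarith
  have y1 : G ≤ ‖d 0 0 + θ • d 0 2‖ - 513 / 1024 * (ζ ^ 2 / 3 + 2 / (3 * ζ)) := by
    have := (abs_le.mp (abs_norm_sub_norm_le (d 0 0 + θ • d 0 2) z.2.1)).1
    linarith
  have u0 : a + 513 / 1024 * c
      ≤ dot (d 0 0 + θ • d 0 2) (v 0 0 + θ • v 0 2) / ‖d 0 0 + θ • d 0 2‖ := by
    rw [le_div_iff₀ (by linarith)]
    exact esc_init y0 w0 hW (by linarith) (by positivity) hdot
  have key := esc_core (x := fun t => d t 2) (p := fun t => v t 2)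
    (y := fun t => d t 0 + θ • d t 2) (w := fun t => v t 0 + θ • v t 2) (θ := θ) (m := μ 2)
    (ζ := ζ) (c := c) (hd 2)
    (fun t => hd_congr (hv 2 t) (fun _ => rfl) (by
      simp only [r0, r1, esc_fc_neg, GG, Fin.sum_univ_three]
      module))
    (fun t => (hd 0 t).add ((hd 2 t).const_smul θ))
    (fun t => hd_congr ((hv 0 t).add ((hv 2 t).const_smul θ)) (fun _ => rfl) (by
      have h0 : μ 0 = θ - θ * μ 2 := by
        have : μ 0 + μ 1 = 1 - μ 2 := by linarith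
        rw [this] at hθ1; linarith
      simp only [r0, r1, esc_fc_neg, GG, Fin.sum_univ_three, h0]
      module))
    (by linarith) (by linarith) p2.le m2 hζ hc hcζ (by simp only [d2, norm_one]) (by linarith)
    (by linarith)
    (by
      have c1 := pow_le_pow_left₀ ha (le_sub_iff_add_le.mpr u0) 2
      have c2 := inv_anti₀ (by linarith : 0 < G) y1
      rw [one_div] at hGa
      linarith)
    (by simp only [d0, d2, v0, v2]; exact esc_energy hμ hE hθ1)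
    (by
      have : cr 1 z.1 = z.1.im := by simp [cr]
      simp only [d2, v2, this]; exact hL)
  simp only [r0, r1, norm_neg] at key
  have far : ∀ t, 0 ≤ t → ∀ k, 1 / 100 ≤ ‖d t k‖ := by
    intro t ht k
    obtain ⟨k1, k2, k3⟩ := key t ht
    fin_cases k
    · show 1 / 100 ≤ ‖d t 0‖; linarith
    · show 1 / 100 ≤ ‖d t 1‖; linarith
    · exact k1
  refine esc_lift hsum e0 e1 hs.hd (fun t ht => hd_congr (hs.hv t) (fun _ => rfl) ?_) hz
    (fun t ht k h => ?_) ?_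
  · funext k
    simp only [GG, fc_eq (far t ht _)]
  · have := far t ht k
    rw [h, norm_zero] at this
    norm_num at this
  · have h1 : Tendsto (fun t : ℝ => 1 / 2 + t / 20) atTop atTop :=
      tendsto_atTop_add_const_left _ _ (tendsto_id.atTop_div_const (by norm_num))
    refine tendsto_atTop_mono' _ ?_ h1
    filter_upwards [eventually_ge_atTop 0] with t ht using (key t ht).2.1

end Pool.Agent.Lib.MP_6e7c44_mp.LA
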