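import Pool.Agent.Lib.MP_6e7c44_mp.LA.Init

/-! The escape check at the end of a tube and the range of eccentricities of a box. -/

set_option autoImplicit false

open Set Complex

namespace Pool.Agent.Lib.MP_6e7c44_mp.LA

namespace ID
variable {K : Type} [Field K] [LinearOrder K] (d : ID K)

/-- The exit check: `X` is the centre, `R` the error, and the parameters 23 to 29 are
`ζ, c, G, a`, lower and upper bounds of the distance, and a bound of its error. -/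
def Q : Prop :=
  3 / 20 + d.R .i1 ≤ d.X .i1 ∧ 0 < d.p 23 ∧ 0 < d.p 24 ∧ 2 ≤ (d.p 24 * d.p 23) ^ 2 ∧
  1 / 2 ≤ d.p 25 ∧ 0 ≤ d.p 26 ∧ 1 / d.p 25 + 1 / 800 ≤ d.p 26 ^ 2 / 2 ∧ 0 ≤ d.p 29 ∧
  d.R .i2 ^ 2 + d.R .i3 ^ 2 ≤ d.p 29 ^ 2 ∧ d.p 27 ^ 2 ≤ d.X .i2 ^ 2 + d.X .i3 ^ 2 ∧
  d.X .i2 ^ 2 + d.X .i3 ^ 2 ≤ d.p 28 ^ 2 ∧ 0 ≤ d.p 28 ∧
  d.p 25 + 513 / 1024 * (d.p 23 ^ 2 / 3 + 2 / (3 * d.p 23)) + 1 / 2 ^ 20 + d.p 29 ≤ d.p 27 ∧
  (d.p 26 + 513 / 1024 * d.p 24 + 1 / 2 ^ 20) * (d.p 28 + d.p 29) + |d.X .i2| * d.R .i4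
    + |d.X .i3| * d.R .i5 + (|d.X .i4| + d.R .i4) * d.R .i2 + (|d.X .i5| + d.R .i5) * d.R .i3
      ≤ d.X .i2 * d.X .i4 + d.X .i3 * d.X .i5

instance : Decidable d.Q := by unfold Q; infer_instance

def ph (τ : K) : K := τ * (d.p 0 ^ 2 + d.p 1 ^ 2) - τ ^ 2 * d.p 0 ^ 4 / 4

/-- The range check; the parameters 21 and 22 are the ends of the range. -/
def V : Prop := 0 < d.p 3 ∧ d.p 22 + 1 / 2 ^ 36 < d.ph ((d.p 2 + d.p 3) ^ 2) ∧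
  d.p 0 ^ 2 * (2 + 1 / 1024 + d.p 0 ^ 2 * (d.p 2 + d.p 3) ^ 2) ≤ 4 * (d.p 0 ^ 2 + d.p 1 ^ 2) ∧
  ((d.p 0 = 1 ∧ d.p 1 = 0 ∧ d.p 2 = 0 ∧ 0 ≤ d.p 4 ∧ d.p 22 + 1 / 2 ^ 36 ≤ d.p 4 ^ 2) ∨
    (0 < d.p 0 ^ 2 + d.p 1 ^ 2 ∧ 0 ≤ d.p 4 ∧ 1 / 2 ^ 20 ≤ d.p 21 ∧ 0 ≤ d.p 2 - d.p 3 ∧
      d.ph ((d.p 2 - d.p 3) ^ 2) + 1 / 2 ^ 36 < d.p 21))

instance : Decidable d.V := by unfold V; infer_instance

lemma cast_Q {d : ID ℚ} (h : d.Q) : d.cast.Q := by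
  simp only [Q, ← Rat.cast_le (K := ℝ), ← Rat.cast_lt (K := ℝ)] at h
  push_cast at h
  exact h

lemma cast_V {d : ID ℚ} (h : d.V) : d.cast.V := by
  simp only [V, ph, ← Rat.cast_le (K := ℝ), ← Rat.cast_lt (K := ℝ), ← Rat.cast_inj (α := ℝ)] at h
  push_cast at h
  exact h

variable {d : ID ℝ}

lemma out (h : d.Q) {z : I6 → ℝ} (hs : Safe z) (hz : ∀ i, |z i - d.X i| ≤ d.R i) : Out z := by
  obtain ⟨a1, a2, a3, a4, a5, a6, a7, a8, a9, b1, b2, b3, b4, b5⟩ := h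
  have n1 : ‖yc z - yc d.X‖ ≤ d.p 29 := by
    refine (abs_le_of_sq_le_sq' ?_ a8).2
    have h2 := abs_le.1 (hz .i2)
    have h3 := abs_le.1 (hz .i3)
    rw [sq_norm']
    simp only [yc, sub_re, sub_im]
    linarith [sq_le_sq' h2.1 h2.2, sq_le_sq' h3.1 h3.2]
  have n2 : d.p 27 ≤ ‖yc d.X‖ :=
    (abs_le_of_sq_le_sq' (by rw [sq_norm']; exact b1) (norm_nonneg _)).2
  have n3 : ‖yc d.X‖ ≤ d.p 28 := (abs_le_of_sq_le_sq' (by rw [sq_norm']; exact b2) b3).2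
  have n4 := abs_le.1 ((abs_norm_sub_norm_le _ _).trans n1)
  refine ⟨hs, by linarith [(abs_le.1 (hz .i1)).1], _, _, _, _, a2, a3, a4, a5, a6, a7,
    by linarith, ?_⟩
  have c : ∀ i, |z i| ≤ |d.X i| + d.R i := fun i => by
    linarith [abs_sub_abs_le_abs_sub (z i) (d.X i), hz i]
  have c1 := (abs_le.1 (am (k := d.X .i2) (hz .i4))).1
  have c2 := (abs_le.1 (am (k := d.X .i3) (hz .i5))).1
  have c3 := (abs_le.1 ((am (k := z .i4) (hz .i2)).trans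
    (mul_le_mul_of_nonneg_right (c .i4) ((abs_nonneg _).trans (hz .i2))))).1
  have c4 := (abs_le.1 ((am (k := z .i5) (hz .i3)).trans
    (mul_le_mul_of_nonneg_right (c .i5) ((abs_nonneg _).trans (hz .i3))))).1
  have c5 := mul_le_mul_of_nonneg_left (show ‖yc z‖ ≤ d.p 28 + d.p 29 by linarith)
    (show 0 ≤ d.p 26 + 513 / 1024 * d.p 24 + 1 / 2 ^ 20 by positivity)
  linarith

lemma ph_mono (h : d.V) {s t : ℝ} (h1 : s ≤ t) (h2 : d.p 0 ^ 2 * s ≤ 2 + 1 / 1024 ∧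
    t ≤ (d.p 2 + d.p 3) ^ 2 ∨ d.p 0 ^ 2 * t ≤ 2 + 1 / 1024 ∧ s ≤ (d.p 2 + d.p 3) ^ 2) :
    d.ph s ≤ d.ph t := by
  have h3 : d.p 0 ^ 4 * (s + t) ≤ 4 * (d.p 0 ^ 2 + d.p 1 ^ 2) := by
    have := h.2.2.1
    rcases h2 with h2 | h2 <;>
      nlinarith [mul_le_mul_of_nonneg_left h2.1 (sq_nonneg (d.p 0)),
        mul_le_mul_of_nonneg_left h2.2 (show 0 ≤ d.p 0 ^ 4 by positivity)]
  simp only [ph]
  nlinarith [mul_nonneg (sub_nonneg.2 h1) (sub_nonneg.2 h3)]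

lemma on (h : d.V) {C : CD} {μ : Fin 3 → ℝ} {e2 : ℝ} (h1 : d.p 21 ≤ e2) (h2 : e2 ≤ d.p 22) {z : Z3}
    (hz : C.Init μ e2 ⟨d.p 0, d.p 1⟩ z) : d.On z.1 := by
  obtain ⟨-, a1, a2, -, y, a3, a4, a5⟩ := hz
  obtain ⟨b1, b2, b3, b4⟩ := id h
  have v2 : z.1.re ^ 2 ≤ 2 + 1 / 1024 := by rw [sq_norm'] at a1; nlinarith
  have key : ∀ t, |t - d.p 2| ≤ d.p 3 → z.1.re = d.p 0 * t → |y - d.p 1 * t| ≤ d.p 4 →
      d.On z.1 := fun t k1 k2 k3 => by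
    have e : d.p 2 + d.p 3 * ((t - d.p 2) / d.p 3) = t := by field_simp; ring
    exact ⟨a2, (t - d.p 2) / d.p 3, y, by rwa [abs_div, abs_of_pos b1, div_le_one b1],
      by rw [e, k2], by rwa [e], a3⟩
  have up : ∀ t, z.1.re = d.p 0 * t → d.ph (t ^ 2) ≤ d.p 22 + 1 / 2 ^ 36 →
      t ^ 2 ≤ (d.p 2 + d.p 3) ^ 2 := fun t k1 k2 => by
    by_contra k3
    have := ph_mono h (not_le.1 k3).le (Or.inr ⟨by rw [← mul_pow, ← k1]; exact v2, le_rfl⟩)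
    linarith
  rw [abs_le] at a4
  rcases b4 with ⟨c1, c2, c3, c4, c5⟩ | ⟨-, c2, c3, c4, c5⟩
  · have := up z.1.re (by rw [c1, one_mul]) (by simp only [ph, c1, c2]; nlinarith)
    refine key z.1.re ?_ (by rw [c1, one_mul]) ?_
    · rw [c3, zero_add] at this
      rw [c3, sub_zero]
      exact abs_le_of_sq_le_sq this b1.le
    · rw [c2, zero_mul, sub_zero]
      refine abs_le_of_sq_le_sq ?_ c4
      nlinarith [mul_nonneg (sq_nonneg z.1.re) (show 0 ≤ 4 - z.1.re ^ 2 by linarith)]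
  · obtain ⟨t, t0, t1, t2⟩ := a5 (c3.trans h1)
    simp only at t1 t2
    have e : d.ph (t ^ 2) = z.1.re ^ 2 + y ^ 2 - z.1.re ^ 4 / 4 := by rw [t1, t2, ph]; ring
    have u := up t (by rw [t1, mul_comm]) (by linarith)
    refine key t (abs_le.2 ⟨?_, ?_⟩) (by rw [t1, mul_comm]) (by rw [t2]; simpa [mul_comm] using c2)
    · by_contra k
      have := ph_mono h (pow_le_pow_left₀ t0.le (show t ≤ d.p 2 - d.p 3 by linarith) 2)
        (Or.inl ⟨by rw [← mul_pow, mul_comm, ← t1]; exact v2, by nlinarith⟩)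
      linarith
    · linarith [(abs_le_of_sq_le_sq' u (by linarith)).2]

lemma u_ne (h : d.V) : (⟨d.p 0, d.p 1⟩ : ℂ) ≠ 0 := fun e => by
  have e1 : d.p 0 = 0 := congrArg re e
  have e2 : d.p 1 = 0 := congrArg im e
  rcases h.2.2.2 with h | h
  · linarith [h.1]
  · simp [e1, e2] at h

end ID

/-- The data at the start of a step. -/
def Raw.d0 (r : Raw) (p : ℕ → ℚ) : ID ℚ where
  p := p
  a k j := ((Nat.add (sP 0 (sl (r.ap k) j)) (sP 1 (sl (r.an k) j)) : ℕ)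
    - (Nat.add (sP 0 (sl (r.an k) j)) (sP 1 (sl (r.ap k) j)) : ℕ)) * 2 ^ r.u / 2 ^ 39
  X i := ((Nat.add (sP 0 (r.xp i)) (sP 1 (r.xn i)) : ℕ)
    - (Nat.add (sP 0 (r.xn i)) (sP 1 (r.xp i)) : ℕ)) / 2 ^ 26
  R i := r.R i / 2 ^ 24

/-- The data at the end of a step. -/
def Raw.d1 (r : Raw) (p : ℕ → ℚ) : ID ℚ where
  p := p
  a _ _ := 0
  X i := ((Nat.add (sP 0 (r.xp i)) (sP 1 (r.xp i)) : ℕ)
    - (Nat.add (sP 0 (r.xn i)) (sP 1 (r.xn i)) : ℕ)) / 2 ^ 26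
  R i := r.eb i / 2 ^ 39

/-- The check of one box, apart from the cell. -/
def boxk (p : ℕ → ℚ) (n D : ℕ) (l : List ℕ) : Bool :=
  decide ((unpack D).d0 p).V && (decide ((unpack D).d0 p).P &&
    chain (fun r => decide (r.d1 p).Q) n D l)

theorem box_good {p : ℕ → ℚ} {n D : ℕ} {l : List ℕ} (h : boxk p n D l = true) {C : CD}
    (hC : ((unpack D).d0 p).cast.Cell C) {e2 : ℝ} (h1 : p 21 ≤ e2) (h2 : e2 ≤ p 22) :
    Good C e2 := by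
  simp only [boxk, Bool.and_eq_true, decide_eq_true_eq] at h
  have hc := chain_ok (P := Out) (fun r hr z hz => ID.out (ID.cast_Q (of_decide_eq_true hr)) hz.1
    fun i => by
      have := hz.2 i
      rw [Raw.xs, pl_one] at this
      simp only [ID.cast, Raw.d1, Nat.add_eq]
      push_cast
      exact this) n D l h.2.2
  have hr : (unpack D).ok = true := by
    have := h.2.2
    cases l <;> cases n <;> simp only [chain, Bool.and_eq_true] at this <;> exact this.1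
  generalize unpack D = r at *
  have hV := ID.cast_V h.1
  refine ⟨_, ID.u_ne hV, fun μ hμ X hX hI => enter (ID.cast_P h.2.1) hC hr (fun k j => ?_)
    (funext fun i => ?_) (funext fun i => ?_) hc hμ hX fun ξ hξ =>
      ⟨(hI ξ hξ).1, (hI ξ hξ).2.2.2.1, ID.on hV h1 h2 (hI ξ hξ)⟩⟩
  · simp only [Raw.As, Matrix.of_apply, ← pl_sl, pl_neg, ID.cast, Raw.d0, Nat.add_eq]
    push_cast
    rfl
  · simp only [Raw.xs, pl_neg, ID.cast, Raw.d0, Nat.add_eq]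
    push_cast
    rfl
  · simp only [Raw.ss, ID.cast, Raw.d0]
    push_cast
    rfl

end Pool.Agent.Lib.MP_6e7c44_mp.LA
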