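import Pool.Agent.Lib.MP_6e7c44_mp.LA.Defs
import Pool.Agent.Lib.MP_6e7c44_mp.HSym
import Pool.Agent.Lib.MP_6e7c44_mp.HEReg

/-! Cut-off flows and essential maps. -/

set_option autoImplicit false

open Set Complex Filter Topology

noncomputable section

namespace Pool.Agent.Lib.MP_6e7c44_mp.LA

/-- A global continuous flow whose orbits in `U` are orbits of `F` slowed down outside `K`. -/
theorem cutoff_flow {E : Type} [NormedAddCommGroup E] [NormedSpace ℝ E] [FiniteDimensional ℝ E]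
    {U K : Set E} (hU : IsOpen U) (hK : IsCompact K) (hKU : K ⊆ U) {F : E → E}
    (hF : ContDiffOn ℝ 1 F U) : ∃ (Φ : ℝ → E → E) (β : E → ℝ),
      Continuous (fun p : ℝ × E => Φ p.1 p.2) ∧ (∀ x, Φ 0 x = x) ∧ Continuous β ∧
      (∀ x, 0 ≤ β x ∧ β x ≤ 1) ∧ (∀ x ∈ K, β x = 1) ∧
      ∀ x ∈ U, ∀ t, Φ t x ∈ U ∧ HasDerivAt (fun s => Φ s x) (β (Φ t x) • F (Φ t x)) t := by
  obtain ⟨K', k1, k2, k3⟩ := exists_compact_between hK hU hKU
  obtain ⟨β, b0, b1, b2⟩ := exists_contMDiffMap_zero_one_of_isClosed (n := 1)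
    (modelWithCornersSelf ℝ E) isOpen_interior.isClosed_compl hK.isClosed
    (disjoint_left.2 fun x h1 h2 => h1 (k2 h2))
  have cβ : ContDiff ℝ 1 β := β.contMDiff.contDiff
  have z0 : ∀ x, x ∉ K' → β x • F x = 0 := fun x hx => by
    rw [b0 fun h => hx (interior_subset h)]; simp
  have cZ : ContDiff ℝ 1 fun x => β x • F x := contDiff_iff_contDiffAt.2 fun x => by
    by_cases hx : x ∈ U
    · exact cβ.contDiffAt.smul (hF.contDiffAt (hU.mem_nhds hx))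
    · exact (contDiffAt_const (c := 0)).congr_of_eventuallyEq
        (mem_of_superset (k1.isClosed.isOpen_compl.mem_nhds fun h => hx (k3 h)) z0)
  have sZ : HasCompactSupport fun x => β x • F x := HasCompactSupport.intro k1 z0
  obtain ⟨L, hL⟩ := cZ.lipschitzWith_of_hasCompactSupport sZ (by simp)
  obtain ⟨C, hC⟩ := sZ.exists_bound_of_continuous cZ.continuous
  have := FiniteDimensional.complete ℝ E
  obtain ⟨Φ, f0, f1, f2⟩ := Hg.exists_lip_flow hL (L := ⟨C, (norm_nonneg _).trans (hC 0)⟩) hC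
  refine ⟨Φ, β, continuous_iff_continuousAt.2 fun p => ?_, f0, cβ.continuous, fun x => b2 x,
    fun x hx => b1 hx, fun x hx t => ⟨?_, f1 x t⟩⟩
  · obtain ⟨C, hC⟩ := f2 (|p.1| + 1)
    exact hC.continuousOn.continuousAt ((isOpen_Ioo.prod isOpen_univ).mem_nhds
      ⟨⟨by linarith [neg_abs_le p.1], by linarith [le_abs_self p.1]⟩, trivial⟩)
  · by_contra h
    have := ODE_solution_unique_univ (v := fun _ x => β x • F x) (s := fun _ => univ)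
      (f := fun s => Φ s x) (g := fun _ => Φ t x) (t₀ := t) (fun _ => hL.lipschitzOnWith)
      (fun s => ⟨f1 x s, trivial⟩)
      (fun s => ⟨by rw [z0 _ fun h' => h (k3 h')]; exact hasDerivAt_const _ _, trivial⟩) rfl
    have := congrFun this 0
    rw [f0] at this
    exact h (this ▸ hx)

theorem isOpen_NC : IsOpen {z : Z3 | NC z} := by
  exact (isOpen_ne_fun (by fun_prop) continuous_const).inter
    (isOpen_ne_fun (by fun_prop) continuous_const)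

theorem cd_nrm {f : Z3 → ℂ} {z : Z3} (hf : ContDiffAt ℝ 1 f z) (h : f z ≠ 0) :
    ContDiffAt ℝ 1 (fun z => ‖f z‖) z := hf.norm ℝ h

theorem cd_ff {f : Z3 → ℂ} {z : Z3} (hf : ContDiffAt ℝ 1 f z) (h : f z ≠ 0) :
    ContDiffAt ℝ 1 (fun z => ff (f z)) z :=
  (((cd_nrm hf h).pow 3).inv (pow_ne_zero _ (norm_ne_zero_iff.2 h))).smul hf

theorem cd_re {f : Z3 → ℂ} (hf : ContDiff ℝ 1 f) : ContDiff ℝ 1 fun z => (f z).re :=
  reCLM.contDiff.comp hf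

theorem cd_im {f : Z3 → ℂ} (hf : ContDiff ℝ 1 f) : ContDiff ℝ 1 fun z => (f z).im :=
  imCLM.contDiff.comp hf

theorem cd_GR (μ : Fin 3 → ℝ) : ContDiffOn ℝ 1 (GR μ) {z | NC z} := by
  intro z hz
  have h1 := cd_ff (f := fun z => z.2.1 + 1 / 2) (by fun_prop) hz.1
  have h2 := cd_ff (f := fun z => z.2.1 - 1 / 2) (by fun_prop) hz.2
  have h3 : ContDiffAt ℝ 1 (fun z : Z3 => Sg z.2.1) z := (contDiffAt_const.add h2).sub h1
  have h4 : ContDiffAt ℝ 1 (fun z : Z3 => 3 / 2 * (z.1.re : ℂ) - z.1) z :=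
    (contDiffAt_const.mul (ofRealCLM.contDiff.comp (cd_re contDiff_fst)).contDiffAt).sub
      contDiffAt_fst
  exact ((((h4.mul contDiffAt_fst).sub contDiffAt_const).add (contDiffAt_const.mul h3)).prodMk
    ((by fun_prop : ContDiffAt ℝ 1 (fun z : Z3 => z.2.2 - z.1 * z.2.1) z).prodMk
    (((h4.mul contDiffAt_snd.snd).sub ((h1.add h2).div_const 2)).add
      (contDiffAt_const.mul h3)))).contDiffWithinAt

theorem cd_En (μ : Fin 3 → ℝ) : ContDiffOn ℝ 1 (En μ) {z | NC z} := by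
  intro z hz
  have h1 := (cd_nrm (f := fun z => z.2.1 + 1 / 2) (by fun_prop) hz.1).inv (norm_ne_zero_iff.2 hz.1)
  have h2 := (cd_nrm (f := fun z => z.2.1 - 1 / 2) (by fun_prop) hz.2).inv (norm_ne_zero_iff.2 hz.2)
  have h3 : ∀ {f : Z3 → ℂ}, ContDiffAt ℝ 1 f z → ContDiffAt ℝ 1 (fun z => ‖f z‖ ^ 2 / 2) z :=
    fun h => (h.norm_sq ℝ).div_const 2
  exact ((((contDiffAt_const.mul ((h3 contDiffAt_fst).sub contDiffAt_const)).add
    (contDiffAt_const.mul ((h3 (by fun_prop)).sub h2))).add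
    (contDiffAt_const.mul ((h3 (by fun_prop)).sub h1))).neg.div_const _).contDiffWithinAt

theorem cd_Am (μ : Fin 3 → ℝ) : ContDiff ℝ 1 (Am μ) := by
  have h : ∀ {f g : Z3 → ℂ}, ContDiff ℝ 1 f → ContDiff ℝ 1 g →
      ContDiff ℝ 1 fun z => cr (f z) (g z) :=
    fun hf hg => ((cd_re hf).mul (cd_im hg)).sub ((cd_im hf).mul (cd_re hg))
  exact (((contDiff_const.mul (cd_im contDiff_fst)).add (contDiff_const.mul
    (h (by fun_prop) (by fun_prop)))).add (contDiff_const.mul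
    (h (by fun_prop) (by fun_prop)))).div_const _

theorem log_homotopy {A : Type} [TopologicalSpace A] {H : A × ℝ → ℂ} (hH : Continuous H)
    {a b : A → ℝ} (ha : Continuous a) (hb : Continuous b)
    (h0 : ∀ x, ∀ s ∈ uIcc (a x) (b x), H (x, s) ≠ 0) {L : A → ℂ} (hL : Continuous L)
    (h1 : ∀ x, exp (L x) = H (x, a x)) : ∃ L : C(A, ℂ), ∀ x, exp (L x) = H (x, b x) := by
  let K : C(unitInterval × A, {z : ℂ // z ≠ 0}) :=
    ⟨fun y => ⟨H (y.2, AffineMap.lineMap (a y.2) (b y.2) (y.1 : ℝ)), h0 _ _ (by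
      rw [← segment_eq_uIcc]; exact lineMap_mem_segment ℝ _ _ y.1.2)⟩, by
      refine Continuous.subtype_mk (hH.comp (continuous_snd.prodMk ?_)) _
      simp only [AffineMap.lineMap_apply]
      fun_prop⟩
  have h2 := isCoveringMap_exp.liftHomotopy_lifts K ⟨L, hL⟩ fun x => Subtype.ext (by
    simp [K, h1])
  refine ⟨(isCoveringMap_exp.liftHomotopy K ⟨L, hL⟩ fun x => Subtype.ext (by
    simp [K, h1])).comp ⟨fun x => (1, x), by fun_prop⟩, fun x => ?_⟩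
  simpa [K] using congrArg Subtype.val (congrFun h2 (1, x))

theorem ess_base {H : ℂ × ℝ → ℂ} (hH : Continuous H) {T : ℂ → ℝ} (hT : Continuous T)
    (T0 : ∀ ξ, 0 ≤ T ξ) {r : ℝ} (hr : 0 < r) (h0 : ∀ ξ, ‖ξ‖ = 1 → H (ξ, 0) = r * ξ)
    (h1 : ∀ ξ, ‖ξ‖ = 1 → (∀ t ∈ Icc 0 (T ξ), H (ξ, t) ≠ 0) ∧ 1 ≤ ‖H (ξ, T ξ)‖) :
    Ess norm univ fun ξ => H (ξ, T ξ) := by
  intro g' cg hg
  by_contra hz
  push Not at hz
  obtain ⟨L, cL, hL⟩ := Hg.has_log (continuousOn_univ.1 cg) fun x => hz x trivial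
  have n : ∀ x : Metric.sphere (0 : ℂ) 1, ‖(x : ℂ)‖ = 1 := fun x => by simp
  obtain ⟨L3, hL3⟩ := log_homotopy (H := fun y : Metric.sphere (0 : ℂ) 1 × ℝ => H (y.1, y.2))
    (by fun_prop) (a := fun x => T x) (b := fun _ => 0) (by fun_prop) continuous_const
    (fun x s hs => (h1 x (n x)).1 s (by rwa [uIcc_of_ge (T0 x)] at hs)) (L := fun x => L x)
    (by fun_prop) fun x => (hL x).trans (hg x trivial (h1 x (n x)).2)
  obtain ⟨L4, hL4⟩ := L3.exists_restrict_eq Metric.isClosed_sphere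
  refine Hg.no_log (L := fun x => L4 x - log r) (L4.continuous.continuousOn.sub continuousOn_const)
    fun x hx => ?_
  have a3 := hL3 ⟨x, hx⟩
  have r0 : (r : ℂ) ≠ 0 := ofReal_ne_zero.2 hr.ne'
  rw [← hL4] at a3
  rw [exp_sub, exp_log r0, show exp (L4 x) = _ from a3, h0 x (n ⟨x, hx⟩)]
  field_simp

theorem ess_step {N N' : ℂ → ℝ} (cN : Continuous N) (hN : N 0 ≤ 1) {A : Set ℂ} (hA : IsClosed A)
    {g g2 : ℂ → ℂ} (cg : Continuous g) (cg2 : Continuous g2) (he : Ess N A g)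
    (h : ∀ ξ ∈ A, N (g ξ) = 1 → 1 ≤ N' (g2 ξ) ∧
      ∀ t ∈ Icc (0 : ℝ) 1, (1 - t) • g ξ + t • g2 ξ ≠ 0) :
    Ess N' (A ∩ {ξ | N (g ξ) ≤ 1}) g2 := by
  intro g' cg' hg'
  by_contra hz
  push Not at hz
  have cB : IsClosed (A ∩ {ξ | N (g ξ) ≤ 1}) :=
    hA.inter (isClosed_le (cN.comp cg) continuous_const)
  have cC : IsClosed (A ∩ {ξ | N (g ξ) = 1}) :=
    hA.inter (isClosed_eq (cN.comp cg) continuous_const)
  obtain ⟨G, hG⟩ := ContinuousMap.exists_restrict_eq cB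
    (⟨_, continuousOn_iff_continuous_restrict.1 cg'⟩ : C(↥(A ∩ {ξ | N (g ξ) ≤ 1}), ℂ))
  have eG : ∀ ξ ∈ A ∩ {ξ | N (g ξ) ≤ 1}, G ξ = g' ξ := fun ξ hξ =>
    congrArg (fun F : C(↥(A ∩ {ξ | N (g ξ) ≤ 1}), ℂ) => F ⟨ξ, hξ⟩) hG
  have e2 : ∀ ξ ∈ A ∩ {ξ | N (g ξ) = 1}, G ξ = g2 ξ := fun ξ hξ =>
    (eG ξ ⟨hξ.1, hξ.2.le⟩).trans (hg' ξ ⟨hξ.1, hξ.2.le⟩ (h ξ hξ.1 hξ.2).1)
  have cZ : IsClosed (Prod.fst '' {p : ℂ × Icc (0 : ℝ) 1 |
      G p.1 + (p.2 : ℝ) • (g p.1 - g2 p.1) = 0}) :=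
    isClosedMap_fst_of_compactSpace _ (isClosed_eq (by fun_prop) continuous_const)
  obtain ⟨l, l0, l1, l2⟩ := exists_continuous_zero_one_of_isClosed cZ cC (disjoint_left.2 (by
    rintro _ ⟨⟨ξ, t⟩, h1, rfl⟩ h2
    refine (h ξ h2.1 h2.2).2 (1 - t) ⟨by linarith [t.2.2], by linarith [t.2.1]⟩ ?_
    have h1' : G ξ + (t : ℝ) • (g ξ - g2 ξ) = 0 := h1
    rw [← h1', e2 ξ h2]
    module))
  classical
  obtain ⟨ξ, hξ, h0⟩ := he (fun ξ => if N (g ξ) ≤ 1 then G ξ + l ξ • (g ξ - g2 ξ) else g ξ) (by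
    refine ContinuousOn.mono (s := A ∩ {ξ | N (g ξ) ≤ 1} ∪ A ∩ {ξ | 1 ≤ N (g ξ)}) ?_
      fun ξ hξ => (le_total (N (g ξ)) 1).imp (fun h => ⟨hξ, h⟩) fun h => ⟨hξ, h⟩
    refine ContinuousOn.union_of_isClosed (ContinuousOn.congr
      (f := fun ξ => G ξ + l ξ • (g ξ - g2 ξ)) (by fun_prop) fun ξ hξ => if_pos hξ.2)
      (ContinuousOn.congr cg.continuousOn fun ξ hξ => ?_) cB
      (hA.inter (isClosed_le continuous_const (cN.comp cg)))
    by_cases h1 : N (g ξ) ≤ 1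
    · have m : ξ ∈ A ∩ {ξ | N (g ξ) = 1} := ⟨hξ.1, le_antisymm h1 hξ.2⟩
      simp [h1, e2 ξ m, l1 m]
    · exact if_neg h1) fun ξ hξ h2 => by
      by_cases h1 : N (g ξ) ≤ 1
      · have m : ξ ∈ A ∩ {ξ | N (g ξ) = 1} := ⟨hξ, le_antisymm h1 h2⟩
        simp [h1, e2 ξ m, l1 m]
      · exact if_neg h1
  by_cases h1 : N (g ξ) ≤ 1
  · rw [if_pos h1] at h0
    have := l0 ⟨(ξ, ⟨l ξ, l2 ξ⟩), h0, rfl⟩
    rw [this, Pi.zero_apply, zero_smul, add_zero, eG ξ ⟨hξ, h1⟩] at h0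
    exact hz ξ ⟨hξ, h1⟩ h0
  · rw [if_neg h1] at h0
    exact h1 (h0 ▸ hN)

end Pool.Agent.Lib.MP_6e7c44_mp.LA
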