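import Pool.Agent.Lib.MP_6e7c44_mp.LA.Defs

/-! Invariants, the second order remainder of the attraction, and the cone field. -/

set_option autoImplicit false

open Set Complex Filter Topology

noncomputable section

namespace Pool.Agent.Lib.MP_6e7c44_mp.LA

variable {μ : Fin 3 → ℝ}

lemma i_inv {y : ℝ → ℂ} {e : ℂ} {t : ℝ} (h : HasDerivAt y e t) (h0 : y t ≠ 0) :
    HasDerivAt (fun s => ‖y s‖⁻¹) (-(dot (y t) e * ‖y t‖⁻¹ ^ 3)) t := by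
  have h1 := norm_pos_iff.2 h0
  refine hd_congr ((hd_norm h h1).inv h1.ne') (fun _ => rfl) ?_
  field_simp

lemma i_nsq {y : ℝ → ℂ} {e : ℂ} {t : ℝ} (h : HasDerivAt y e t) :
    HasDerivAt (fun s => ‖y s‖ ^ 2) (2 * dot (y t) e) t :=
  hd_congr (hd_dot h h) (fun _ => (dot_self _).symm) (by unfold dot; ring)

lemma i_tay {f f' : ℝ → ℂ} {K : ℝ} (n : ℕ) (h0 : f 0 = 0) (h : ∀ t ∈ Icc (0 : ℝ) 1,
    HasDerivAt f (f' t) t ∧ ‖f' t‖ ≤ K * ((n + 1 : ℕ) * t ^ n)) :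
    ∀ t ∈ Icc (0 : ℝ) 1, ‖f t‖ ≤ K * t ^ (n + 1) := fun _ ht =>
  image_norm_le_of_norm_deriv_right_le_deriv_boundary
    (fun t ht => (h t ht).1.continuousAt.continuousWithinAt)
    (fun t ht => (h t (Ico_subset_Icc_self ht)).1.hasDerivWithinAt)
    (B := fun t => K * t ^ (n + 1)) (by simp [h0])
    (fun t => (hasDerivAt_pow (n + 1) t).const_mul K) (fun t ht => (h t (Ico_subset_Icc_self ht)).2) ht

/-- The second derivative of the attraction along a line. -/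
def iD2 (x e : ℂ) : ℂ := (-6 * ‖x‖⁻¹ ^ 5 * dot x e : ℝ) • e +
  (15 * ‖x‖⁻¹ ^ 7 * dot x e ^ 2 - 3 * ‖x‖⁻¹ ^ 5 * ‖e‖ ^ 2 : ℝ) • x

/-- The third derivative of the attraction along a line. -/
def iD3 (x e : ℂ) : ℂ := (45 * ‖x‖⁻¹ ^ 7 * dot x e ^ 2 - 9 * ‖x‖⁻¹ ^ 5 * ‖e‖ ^ 2 : ℝ) • e +
  (45 * ‖x‖⁻¹ ^ 7 * dot x e * ‖e‖ ^ 2 - 105 * ‖x‖⁻¹ ^ 9 * dot x e ^ 3 : ℝ) • x

lemma i_line {y : ℝ → ℂ} {e : ℂ} {t : ℝ} (h : HasDerivAt y e t) (h0 : y t ≠ 0) :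
    HasDerivAt (fun s => ff (y s)) (dff (y t) e) t ∧
    HasDerivAt (fun s => dff (y s) e) (iD2 (y t) e) t ∧
    HasDerivAt (fun s => iD2 (y s) e) (iD3 (y t) e) t := by
  have a := i_inv h h0
  have b : HasDerivAt (fun s => dot (y s) e) (‖e‖ ^ 2) t :=
    hd_congr (hd_dot h (hasDerivAt_const t e)) (fun _ => rfl) (by rw [dot_self]; simp [dot])
  refine ⟨hd_congr ((a.fun_pow 3).smul h) (fun s => by simp [ff]) ?_,
    hd_congr (((a.fun_pow 3).smul_const e).sub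
      ((((a.fun_pow 5).const_mul 3).fun_mul b).smul h)) (fun s => by simp [dff]) ?_,
    hd_congr (((((a.fun_pow 5).const_mul (-6)).fun_mul b).smul_const e).add
      (((((a.fun_pow 7).const_mul 15).fun_mul (b.fun_pow 2)).fun_sub
        (((a.fun_pow 5).const_mul 3).mul_const (‖e‖ ^ 2))).smul h)) (fun s => rfl) ?_⟩ <;>
  · simp only [dff, iD2, iD3, ← inv_pow, Complex.real_smul]
    push_cast
    ring

lemma i_cos (x e : ℂ) (h0 : x ≠ 0) : ∃ c : ℝ, c ^ 2 ≤ 1 * ‖e‖ ^ 2 ∧ |c| ≤ ‖e‖ ∧ dot x e = c * ‖x‖ := by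
  have h1 := norm_pos_iff.2 h0
  have h2 : |dot x e / ‖x‖| ≤ ‖e‖ := by
    rw [abs_div, abs_norm, div_le_iff₀' h1]
    exact abs_dot_le x e
  exact ⟨_, by rw [one_mul, ← sq_abs]; gcongr, h2, by field_simp⟩

lemma i_D2 (x e : ℂ) (h0 : x ≠ 0) : ‖iD2 x e‖ ≤ 6 * ‖e‖ ^ 2 / ‖x‖ ^ 4 := by
  have h1 := norm_pos_iff.2 h0
  obtain ⟨c, h2, -, h3⟩ := i_cos x e h0
  apply abs_le_of_sq_le_sq' _ (by positivity) |>.2
  have e1 : ‖iD2 x e‖ ^ 2 = (-6 * ‖x‖⁻¹ ^ 5 * dot x e) ^ 2 * ‖e‖ ^ 2 +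
      2 * (-6 * ‖x‖⁻¹ ^ 5 * dot x e) * (15 * ‖x‖⁻¹ ^ 7 * dot x e ^ 2 - 3 * ‖x‖⁻¹ ^ 5 * ‖e‖ ^ 2)
        * dot x e + (15 * ‖x‖⁻¹ ^ 7 * dot x e ^ 2 - 3 * ‖x‖⁻¹ ^ 5 * ‖e‖ ^ 2) ^ 2 * ‖x‖ ^ 2 := by
    unfold iD2
    generalize -6 * ‖x‖⁻¹ ^ 5 * dot x e = A
    generalize 15 * ‖x‖⁻¹ ^ 7 * dot x e ^ 2 - 3 * ‖x‖⁻¹ ^ 5 * ‖e‖ ^ 2 = B
    simp only [sq_norm', dot, add_re, add_im, smul_re, smul_im, smul_eq_mul]
    ring
  have e2 : ‖iD2 x e‖ ^ 2 = (45 * c ^ 4 - 18 * c ^ 2 * ‖e‖ ^ 2 + 9 * ‖e‖ ^ 4) / ‖x‖ ^ 8 := by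
    rw [e1, h3]
    field_simp
    ring
  rw [e2, div_pow, ← pow_mul]
  gcongr
  nlinarith [mul_nonneg (sub_nonneg.2 h2) (sq_nonneg c), mul_nonneg (sub_nonneg.2 h2) (sq_nonneg ‖e‖)]

lemma i_D3 (x e : ℂ) (h0 : x ≠ 0) : ‖iD3 x e‖ ≤ 96 * ‖e‖ ^ 3 / ‖x‖ ^ 5 := by
  have h1 := norm_pos_iff.2 h0
  obtain ⟨c, h2, h4, h3⟩ := i_cos x e h0
  have h5 := norm_nonneg e
  have a1 : |45 * c ^ 2 - 9 * ‖e‖ ^ 2| ≤ 36 * ‖e‖ ^ 2 :=
    abs_le.2 ⟨by nlinarith [sq_nonneg c], by nlinarith⟩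
  have a2 : |45 * ‖e‖ ^ 2 - 105 * c ^ 2| ≤ 60 * ‖e‖ ^ 2 :=
    abs_le.2 ⟨by nlinarith, by nlinarith [sq_nonneg c]⟩
  have e1 : iD3 x e = ((45 * c ^ 2 - 9 * ‖e‖ ^ 2) / ‖x‖ ^ 5) • e +
      (c * (45 * ‖e‖ ^ 2 - 105 * c ^ 2) / ‖x‖ ^ 6) • x := by
    unfold iD3
    rw [h3]
    congr 2 <;> field_simp
  rw [e1]
  refine (norm_add_le _ _).trans ?_
  simp only [norm_smul, Real.norm_eq_abs, abs_div, abs_mul, abs_pow, abs_norm]
  calc _ ≤ 36 * ‖e‖ ^ 2 / ‖x‖ ^ 5 * ‖e‖ + ‖e‖ * (60 * ‖e‖ ^ 2) / ‖x‖ ^ 6 * ‖x‖ := by gcongr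
    _ = _ := by field_simp; ring

lemma i_seg {x e : ℂ} {ε t : ℝ} (he : ‖e‖ ≤ ε) (hx : ε < ‖x‖) (ht : t ∈ Icc (0 : ℝ) 1) :
    ‖x‖ - ε ≤ ‖x + t • e‖ ∧ x + t • e ≠ 0 ∧ HasDerivAt (fun s : ℝ => x + s • e) e t := by
  have h1 : ‖x‖ - ε ≤ ‖x + t • e‖ := by
    have a := norm_sub_le (x + t • e) (t • e)
    rw [add_sub_cancel_right, norm_smul, Real.norm_of_nonneg ht.1] at a
    nlinarith [ht.2, norm_nonneg e]
  exact ⟨h1, norm_pos_iff.1 (by linarith), by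
    simpa using ((hasDerivAt_id t).smul_const e).const_add x⟩

theorem ff2 {x e : ℂ} {ε : ℝ} (he : ‖e‖ ≤ ε) (hx : ε < ‖x‖) :
    ‖ff (x + e) - ff x - dff x e‖ ≤ 3 * ε ^ 2 / (‖x‖ - ε) ^ 4 := by
  have h0 := sub_pos.2 hx
  have h1 := i_tay (f := fun t => dff (x + t • e) e - dff x e) (f' := fun t => iD2 (x + t • e) e)
    (K := 6 * ε ^ 2 / (‖x‖ - ε) ^ 4) 0 (by simp) fun t ht => by
      obtain ⟨a, b, c⟩ := i_seg he hx ht
      refine ⟨(i_line c b).2.1.sub_const _, (i_D2 _ _ b).trans ?_⟩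
      simp only [zero_add, Nat.cast_one, pow_zero, mul_one]
      gcongr
  have h2 := i_tay (f := fun t => ff (x + t • e) - ff x - t • dff x e)
    (f' := fun t => dff (x + t • e) e - dff x e) (K := 3 * ε ^ 2 / (‖x‖ - ε) ^ 4) 1 (by simp)
    (fun t ht => by
      obtain ⟨a, b, c⟩ := i_seg he hx ht
      refine ⟨hd_congr (((i_line c b).1.sub_const (ff x)).fun_sub
        ((hasDerivAt_id t).smul_const (dff x e))) (fun _ => rfl) (by simp),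
        (h1 t ht).trans_eq ?_⟩
      push_cast
      ring) 1 ⟨zero_le_one, le_rfl⟩
  simpa using h2

lemma i_ff3 {x e : ℂ} (he : ‖e‖ ≤ 1 / 16) (hx : ‖x‖ = 1) :
    ‖ff (x + e) - ff x - dff x e - (1 / 2 : ℝ) • iD2 x e‖ ≤ 24 * ‖e‖ ^ 3 := by
  have h0 : 1 / 16 < ‖x‖ := by rw [hx]; norm_num
  have h1 := i_tay (f := fun t => iD2 (x + t • e) e - iD2 x e) (f' := fun t => iD3 (x + t • e) e)
    (K := 144 * ‖e‖ ^ 3) 0 (by simp) fun t ht => by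
      obtain ⟨a, b, c⟩ := i_seg he h0 ht
      refine ⟨(i_line c b).2.2.sub_const _, (i_D3 _ _ b).trans ?_⟩
      rw [hx] at a
      calc _ ≤ 96 * ‖e‖ ^ 3 / (1 - 1 / 16) ^ 5 := by gcongr
        _ ≤ _ := by
          rw [div_le_iff₀ (by norm_num)]
          have := pow_nonneg (norm_nonneg e) 3
          norm_num
          linarith
  have h2 := i_tay (f := fun t => dff (x + t • e) e - dff x e - t • iD2 x e)
    (f' := fun t => iD2 (x + t • e) e - iD2 x e) (K := 72 * ‖e‖ ^ 3) 1 (by simp) fun t ht => by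
      obtain ⟨a, b, c⟩ := i_seg he h0 ht
      refine ⟨hd_congr (((i_line c b).2.1.sub_const (dff x e)).fun_sub
        ((hasDerivAt_id t).smul_const (iD2 x e))) (fun _ => rfl) (by simp),
        (h1 t ht).trans_eq ?_⟩
      push_cast
      ring
  have h3 := i_tay (f := fun t => ff (x + t • e) - ff x - t • dff x e - (t ^ 2 / 2) • iD2 x e)
    (f' := fun t => dff (x + t • e) e - dff x e - t • iD2 x e) (K := 24 * ‖e‖ ^ 3) 2 (by simp)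
    (fun t ht => by
      obtain ⟨a, b, c⟩ := i_seg he h0 ht
      refine ⟨hd_congr ((((i_line c b).1.sub_const (ff x)).fun_sub
        ((hasDerivAt_id t).smul_const (dff x e))).fun_sub
        (((hasDerivAt_pow 2 t).div_const 2).smul_const (iD2 x e))) (fun _ => rfl) (by simp),
        (h2 t ht).trans_eq ?_⟩
      push_cast
      ring) 1 ⟨zero_le_one, le_rfl⟩
  simpa using h3

lemma i_s3 : (√3 : ℝ) ^ 2 = 3 := Real.sq_sqrt (by norm_num)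

lemma i_re : cL.re = 0 := by simp [cL]

lemma i_im : cL.im = √3 / 2 := by simp [cL]

lemma i_n1 : ‖cL + 1 / 2‖ = 1 := by
  rw [← sq_eq_sq₀ (norm_nonneg _) zero_le_one, sq_norm']
  simp [i_re, i_im]
  linear_combination i_s3 / 4

lemma i_n2 : ‖cL - 1 / 2‖ = 1 := by
  rw [← sq_eq_sq₀ (norm_nonneg _) zero_le_one, sq_norm']
  simp [i_re, i_im]
  linear_combination i_s3 / 4

lemma i_ff {x : ℂ} (h : ‖x‖ = 1) : ff x = x := by simp [ff, h]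

/-- The nonlinear term at the apex: the quadratic part is at most `0.975 |s|^2`. -/
theorem ff3 {s : ℂ} (hs : ‖s‖ ≤ 1 / 16) :
    ‖cL - Fs (cL + s) - (s / 2 - 3 / 4 * (starRingEnd ℂ) s)‖ ≤ (1 + 24 * ‖s‖) * ‖s‖ ^ 2 := by
  have h1 := i_ff3 hs i_n1
  have h2 := i_ff3 hs i_n2
  rw [i_ff i_n1, add_right_comm] at h1
  rw [i_ff i_n2, sub_add_eq_add_sub] at h2
  let Q : ℂ := ⟨√3 / 2 * (3 / 4 * s.re * s.im), √3 / 2 * (3 / 8 * s.re ^ 2 + 9 / 8 * s.im ^ 2)⟩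
  have h3 : ‖Q‖ ≤ ‖s‖ ^ 2 := by
    apply abs_le_of_sq_le_sq' _ (by positivity) |>.2
    simp only [sq_norm', Q, mul_pow, div_pow, i_s3]
    nlinarith [sq_nonneg (s.re ^ 2), sq_nonneg (s.im ^ 2), sq_nonneg (s.re * s.im)]
  have e : cL - Fs (cL + s) - (s / 2 - 3 / 4 * (starRingEnd ℂ) s) =
      -((1 / 2 : ℝ) • (ff (cL + s + 1 / 2) - (cL + 1 / 2) - dff (cL + 1 / 2) s -
        (1 / 2 : ℝ) • iD2 (cL + 1 / 2) s) + (1 / 2 : ℝ) • (ff (cL + s - 1 / 2) - (cL - 1 / 2) -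
        dff (cL - 1 / 2) s - (1 / 2 : ℝ) • iD2 (cL - 1 / 2) s) + Q) := by
    simp only [Fs, dff, iD2, i_n1, i_n2, sq_norm' s]
    apply Complex.ext <;> simp [dot, Q, i_re, i_im, sq]
    · ring
    · linear_combination (3 / 4 * s.im - 15 / 16 * √3 * s.im ^ 2) * i_s3
  rw [e, norm_neg]
  refine norm_add₃_le.trans ?_
  rw [norm_smul, norm_smul, Real.norm_of_nonneg (by norm_num)]
  linarith

lemma i_cube {x : ℂ} (h : x ≠ 0) : ‖x‖⁻¹ ^ 3 * (x.re ^ 2 + x.im ^ 2) = ‖x‖⁻¹ := by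
  have := norm_ne_zero_iff.2 h
  rw [← sq_norm']
  field_simp

theorem inv_En (hμ : Mass μ) {γ : ℝ → Z3} {g t : ℝ} (hn : NC (γ t))
    (h : HasDerivAt γ (g • GR μ (γ t)) t) :
    HasDerivAt (fun s => En μ (γ s)) (g * (γ t).1.re * En μ (γ t)) t := by
  have h1 := hd_fst h
  have h2 := hd_fst (hd_snd h)
  have h3 := hd_snd (hd_snd h)
  have a1 := ((i_nsq h1).div_const 2).sub_const 1
  have a2 := ((i_nsq (h3.fun_sub (h1.div_const 2))).div_const 2).fun_sub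
    (i_inv (h2.sub_const (1 / 2)) hn.2)
  have a3 := ((i_nsq (h3.fun_add (h1.div_const 2))).div_const 2).fun_sub
    (i_inv (h2.add_const (1 / 2)) hn.1)
  refine hd_congr ((((a1.const_mul (μ 0 * μ 1)).fun_add (a2.const_mul (μ 1 * μ 2))).fun_add
    (a3.const_mul (μ 2 * μ 0))).fun_neg.div_const (I0 μ)) (fun _ => rfl) ?_
  have b1 := i_cube hn.1
  have b2 := i_cube hn.2
  have b3 : μ 2 = 1 - μ 0 - μ 1 := by linarith [hμ.2.1]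
  rw [En, ← mul_div_assoc]
  congr 1
  simp only [GR, Kp, Sg, ff, ← inv_pow, sq_norm', b3] at b1 b2 ⊢
  generalize ‖(γ t).2.1 + 1 / 2‖⁻¹ = α at b1 b2 ⊢
  generalize ‖(γ t).2.1 - 1 / 2‖⁻¹ = β at b1 b2 ⊢
  simp [dot, pow_succ] at b1 b2 ⊢
  linear_combination -(g * (γ t).1.re * (1 - μ 0 - μ 1) * μ 0) * b1 -
    (g * (γ t).1.re * (1 - μ 0 - μ 1) * μ 1) * b2

theorem inv_Am (hμ : Mass μ) {γ : ℝ → Z3} {g t : ℝ} (hn : NC (γ t))
    (h : HasDerivAt γ (g • GR μ (γ t)) t) :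
    HasDerivAt (fun s => Am μ (γ s)) (-(g * (γ t).1.re / 2) * Am μ (γ t)) t := by
  have h1 := hd_fst h
  have h2 := hd_fst (hd_snd h)
  have h3 := hd_snd (hd_snd h)
  have a2 := hd_cr (h2.sub_const (1 / 2)) (h3.fun_sub (h1.div_const 2))
  have a3 := hd_cr (h2.add_const (1 / 2)) (h3.fun_add (h1.div_const 2))
  refine hd_congr (((((hd_im h1).const_mul (μ 0 * μ 1)).fun_add
    (a2.const_mul (μ 1 * μ 2))).fun_add (a3.const_mul (μ 2 * μ 0))).div_const (I0 μ))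
    (fun _ => rfl) ?_
  have b3 : μ 2 = 1 - μ 0 - μ 1 := by linarith [hμ.2.1]
  rw [Am, ← mul_div_assoc]
  congr 1
  simp only [GR, Kp, Sg, ff, ← inv_pow, b3]
  generalize ‖(γ t).2.1 + 1 / 2‖⁻¹ = α
  generalize ‖(γ t).2.1 - 1 / 2‖⁻¹ = β
  simp [cr, pow_succ]
  ring

lemma i_prim {a : ℝ → ℝ} (ha : Continuous a) (t : ℝ) :
    HasDerivAt (fun u => ∫ x in (0 : ℝ)..u, a x) (a t) t :=
  (ha.integral_hasStrictDerivAt 0 t).hasDerivAt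

lemma i_lin {f a : ℝ → ℝ} (c : ℝ) (ha : Continuous a)
    (hf : ∀ t, HasDerivAt f (c * a t * f t) t) (t : ℝ) :
    f t = f 0 * Real.exp (c * ∫ x in (0 : ℝ)..t, a x) := by
  have h1 : ∀ t, HasDerivAt (fun u => f u * Real.exp (-(c * ∫ x in (0 : ℝ)..u, a x))) 0 t :=
    fun t => hd_congr ((hf t).fun_mul ((i_prim ha t).const_mul c).fun_neg.exp) (fun _ => rfl)
      (by ring)
  have h2 := is_const_of_deriv_eq_zero (fun t => (h1 t).differentiableAt) (fun t => (h1 t).deriv) t 0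
  simp only [intervalIntegral.integral_same, mul_zero, neg_zero, Real.exp_zero, mul_one] at h2
  rw [← h2, mul_assoc, ← Real.exp_add, neg_add_cancel, Real.exp_zero, mul_one]

/-- The sign of the energy and of the angular momentum, and `En * Am ^ 2`, are preserved. -/
theorem inv_flow (hμ : Mass μ) {γ : ℝ → Z3} {g : ℝ → ℝ} (hg : Continuous g)
    (h : ∀ t, NC (γ t) ∧ HasDerivAt γ (g t • GR μ (γ t)) t) (t : ℝ) :
    (0 < En μ (γ 0) → 0 < En μ (γ t)) ∧ (0 < Am μ (γ 0) → 0 < Am μ (γ t)) ∧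
      En μ (γ t) * Am μ (γ t) ^ 2 = En μ (γ 0) * Am μ (γ 0) ^ 2 := by
  have hc : Continuous γ := continuous_iff_continuousAt.2 fun t => (h t).2.continuousAt
  have ha : Continuous fun t => g t * (γ t).1.re := by fun_prop
  have h1 := i_lin (f := fun s => En μ (γ s)) 1 ha
    (fun t => hd_congr (inv_En hμ (h t).1 (h t).2) (fun _ => rfl) (by ring)) t
  have h2 := i_lin (f := fun s => Am μ (γ s)) (-(1 / 2)) ha
    (fun t => hd_congr (inv_Am hμ (h t).1 (h t).2) (fun _ => rfl) (by ring)) t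
  rw [h1, h2]
  refine ⟨fun k => by positivity, fun k => by positivity, ?_⟩
  rw [mul_pow, mul_mul_mul_comm, ← Real.exp_nat_mul, ← Real.exp_add]
  simp

lemma i_I0 (hμ : Mass μ) : 1 / 5 ≤ I0 μ := by
  obtain ⟨h0, h1, h2, h3⟩ := hμ
  have := abs_le.1 h2
  have a : 9 / 20 ≤ μ 0 := by linarith [this.1]
  have b : 9 / 20 ≤ μ 1 := by linarith [this.2]
  unfold I0
  nlinarith [mul_pos (h0 1) (h0 2), mul_pos (h0 2) (h0 0)]

theorem inv_lag (hμ : Mass μ) (η : ℂ) :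
    NC (lag η) ∧ En μ (lag η) = 1 - ‖η‖ ^ 2 / 2 ∧ Am μ (lag η) = η.im := by
  have h0 : I0 μ ≠ 0 := ne_of_gt (by linarith [i_I0 hμ])
  have e1 : cL * η - η / 2 = (cL - 1 / 2) * η := by ring
  have e2 : cL * η + η / 2 = (cL + 1 / 2) * η := by ring
  have e3 : ∀ x : ℂ, ‖x‖ = 1 → cr x (x * η) = η.im := fun x h => by
    have := sq_norm' x
    rw [h] at this
    simp only [cr, mul_re, mul_im]
    linear_combination -η.im * this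
  refine ⟨⟨norm_ne_zero_iff.1 (i_n1.trans_ne one_ne_zero),
    norm_ne_zero_iff.1 (i_n2.trans_ne one_ne_zero)⟩, ?_, ?_⟩
  · simp only [En, lag, e1, e2, norm_mul, i_n1, i_n2]
    rw [div_eq_iff h0, I0]
    ring
  · simp only [Am, lag, e1, e2, e3 _ i_n1, e3 _ i_n2]
    rw [div_eq_iff h0, I0]
    ring

lemma i_avg (hμ : Mass μ) {X Y Z : ℝ} (h1 : |Y - X| ≤ 20) (h2 : |Z - X| ≤ 20) :
    |(μ 0 * μ 1 * X + μ 1 * μ 2 * Y + μ 2 * μ 0 * Z) / I0 μ - X| ≤ 1 / 2 ^ 42 := by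
  have h0 := i_I0 hμ
  obtain ⟨a0, a1, -, a3⟩ := hμ
  have e : (μ 0 * μ 1 * X + μ 1 * μ 2 * Y + μ 2 * μ 0 * Z) / I0 μ - X =
      μ 2 * (μ 1 * (Y - X) + μ 0 * (Z - X)) / I0 μ := by
    rw [div_sub' (by linarith), I0]
    congr 1
    ring
  have b : |μ 1 * (Y - X) + μ 0 * (Z - X)| ≤ 20 := by
    refine (abs_add_le _ _).trans ?_
    rw [abs_mul, abs_mul, abs_of_pos (a0 0), abs_of_pos (a0 1)]
    nlinarith [a0 0, a0 1, a0 2]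
  rw [e, abs_div, abs_mul, abs_of_pos (a0 2), abs_of_pos (by linarith : 0 < I0 μ)]
  exact le_trans (b := 1 / 2 ^ 50 * 20 / (1 / 5)) (by gcongr) (by norm_num)

lemma i_near {Y c : ℂ} (h : ‖Y - cL‖ ≤ 1 / 10) (hc : ‖cL + c‖ = 1) :
    9 / 10 ≤ ‖Y + c‖ ∧ ‖Y + c‖ ≤ 11 / 10 ∧ ‖ff (Y + c) - (cL + c)‖ ≤ 3 * ‖Y - cL‖ := by
  have h1 := abs_le.1 (abs_norm_sub_norm_le (Y + c) (cL + c))
  rw [add_sub_add_right_eq_sub, hc] at h1
  have h2 : 9 / 10 ≤ ‖Y + c‖ := by linarith [h1.1]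
  have h3 := ff_lip (by norm_num) h2 (hc ▸ by norm_num : 9 / 10 ≤ ‖cL + c‖)
  rw [i_ff hc, add_sub_add_right_eq_sub] at h3
  exact ⟨h2, by linarith [h1.2], h3.trans (by gcongr; norm_num)⟩

lemma i_Sg {Y : ℂ} (h : ‖Y - cL‖ ≤ 1 / 10) : ‖Sg Y‖ ≤ 6 * ‖Y - cL‖ := by
  have h1 := (i_near h i_n1).2.2
  have h2 := (i_near h (c := -(1 / 2)) (by rw [← sub_eq_add_neg, i_n2])).2.2
  have h3 := norm_sub_le (ff (Y + -(1 / 2)) - (cL + -(1 / 2))) (ff (Y + 1 / 2) - (cL + 1 / 2))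
  rw [show Sg Y = ff (Y + -(1 / 2)) - (cL + -(1 / 2)) - (ff (Y + 1 / 2) - (cL + 1 / 2)) by
    rw [Sg, sub_eq_add_neg Y]; ring]
  linarith

lemma i_one {z : Z3} {c W : ℂ} (h1 : ‖z.1‖ ≤ 2) (h2 : ‖z.2.1 - cL‖ ≤ 1 / 10)
    (h3 : ‖z.2.2 - cL * z.1‖ ≤ 4) (hc : ‖cL + c‖ = 1) (hW : W = z.2.2 + c * z.1) :
    z.2.1 + c ≠ 0 ∧ |‖W‖ ^ 2 / 2 - ‖z.2.1 + c‖⁻¹ - (‖z.1‖ ^ 2 / 2 - 1)| ≤ 20 ∧
      |cr (z.2.1 + c) W - z.1.im| ≤ 20 := by
  obtain ⟨a1, a2, -⟩ := i_near h2 hc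
  have a3 : ‖W‖ ≤ 6 := by
    have := norm_add_le (z.2.2 - cL * z.1) ((cL + c) * z.1)
    rw [norm_mul, hc, show z.2.2 - cL * z.1 + (cL + c) * z.1 = W by rw [hW]; ring] at this
    linarith
  have a4 : ‖z.2.1 + c‖⁻¹ ≤ 2 := inv_le_of_inv_le₀ (by norm_num) (by linarith)
  have a5 : 0 ≤ ‖z.2.1 + c‖⁻¹ := by positivity
  have a6 := abs_le.1 ((abs_cr_le (z.2.1 + c) W).trans
    (mul_le_mul a2 a3 (norm_nonneg _) (by norm_num)))
  have a7 := abs_le.1 ((abs_im_le_norm z.1).trans h1)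
  have := norm_nonneg W
  have := norm_nonneg z.1
  exact ⟨norm_pos_iff.1 (by linarith), abs_le.2 ⟨by nlinarith, by nlinarith⟩,
    abs_le.2 ⟨by linarith [a6.1, a7.2], by linarith [a6.2, a7.1]⟩⟩

theorem inv_approx (hμ : Mass μ) {z : Z3} (h1 : ‖z.1‖ ≤ 2) (h2 : ‖z.2.1 - cL‖ ≤ 1 / 10)
    (h3 : ‖z.2.2 - cL * z.1‖ ≤ 4) : NC z ∧ |En μ z - (1 - ‖z.1‖ ^ 2 / 2)| ≤ 1 / 2 ^ 42 ∧
      |Am μ z - z.1.im| ≤ 1 / 2 ^ 42 ∧ ‖Sg z.2.1‖ ≤ 6 * ‖z.2.1 - cL‖ := by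
  obtain ⟨a1, a2, a3⟩ := i_one (W := z.2.2 + z.1 / 2) h1 h2 h3 i_n1 (by ring)
  obtain ⟨b1, b2, b3⟩ := i_one (W := z.2.2 - z.1 / 2) (c := -(1 / 2)) h1 h2 h3
    (by rw [← sub_eq_add_neg, i_n2]) (by ring)
  rw [← sub_eq_add_neg] at b1 b2 b3
  refine ⟨⟨a1, b1⟩, ?_, i_avg hμ b3 a3, i_Sg h2⟩
  refine le_of_eq_of_le ?_ (i_avg hμ b2 a2)
  rw [← abs_neg, En]
  congr 1
  ring

lemma i_M {C : CD} {η η' : ℂ} {m : ℝ} (h : C.At η η' m) (s : ℂ) :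
    ‖C.M η s‖ ≤ 24 * ‖s‖ ∧ m * ‖s‖ ^ 2 ≤ dot s (C.M η s) := by
  constructor
  · have a := norm_add_le (C.a.f η * s) ((C.b1.f η + C.b2.f η * I) * (starRingEnd ℂ) s)
    have b := norm_add_le (C.b1.f η : ℂ) (C.b2.f η * I)
    simp only [norm_mul, norm_real, Real.norm_eq_abs, norm_conj, norm_I, mul_one] at a b
    have := norm_nonneg s
    unfold CD.M
    nlinarith [h.a1, h.b1, h.b2]
  · have a : |C.b1.f η * (s.re ^ 2 - s.im ^ 2) + C.b2.f η * (2 * s.re * s.im)| ≤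
        (C.a.f η - m) * (s.re ^ 2 + s.im ^ 2) := by
      apply abs_le_of_sq_le_sq _ (mul_nonneg (sub_nonneg.2 h.m1) (by positivity))
      nlinarith [mul_le_mul_of_nonneg_right h.m2 (sq_nonneg (s.re ^ 2 + s.im ^ 2)),
        sq_nonneg (C.b1.f η * (2 * s.re * s.im) - C.b2.f η * (s.re ^ 2 - s.im ^ 2))]
    simp [sq_norm', dot, CD.M]
    linarith [(abs_le.1 a).1]

/-- In the cone the momentum deviation is small. -/
theorem cone_p {C : CD} (hC : C.OK) {z : Z3} (h1 : ‖z.1‖ ^ 2 ≤ 2 + 1 / 1024)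
    (h2 : -(1 / 1024) ≤ z.1.im) (h3 : ‖z.2.1 - cL‖ ≤ C.S.f z.1) (h4 : C.In z) :
    ‖z.2.2 - cL * z.1‖ ≤ 3 := by
  obtain ⟨m, h⟩ := hC z.1 (Kp z.1) h1 h2 (by simp)
  have a := norm_add_le (z.2.2 - cL * z.1 - C.M z.1 (z.2.1 - cL)) (C.M z.1 (z.2.1 - cL))
  rw [sub_add_cancel] at a
  have b := mul_le_mul_of_nonneg_right h.D1 (norm_nonneg (z.2.1 - cL))
  unfold CD.In at h4
  linarith [(i_M h (z.2.1 - cL)).1, h.S1]

lemma i_fence {f a : ℝ → ℝ} {T : ℝ} (ha : Continuous a)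
    (h : ∀ t ∈ Icc 0 T, ∃ d, HasDerivAt f d t ∧ (f t < 0 → a t * f t ≤ d)) (h0 : 0 ≤ f 0) :
    ∀ t ∈ Icc 0 T, 0 ≤ f t := by
  choose! d h1 h2 using h
  intro t ht
  have k : ∀ ε : ℝ, 0 < ε → -f t ≤ ε * Real.exp ((∫ x in (0 : ℝ)..t, a x) + t) := fun ε hε =>
    image_le_of_deriv_right_lt_deriv_boundary (f := fun t => -f t) (f' := fun t => -d t)
      (fun t ht => (h1 t ht).fun_neg.continuousAt.continuousWithinAt)
      (fun t ht => (h1 t (Ico_subset_Icc_self ht)).fun_neg.hasDerivWithinAt)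
      (B := fun t => ε * Real.exp ((∫ x in (0 : ℝ)..t, a x) + t))
      (by simp only [intervalIntegral.integral_same]; linarith [mul_pos hε (Real.exp_pos (0 + 0))])
      (fun t => ((i_prim ha t).fun_add (hasDerivAt_id' t)).exp.const_mul ε) (fun t ht e => by
        have a1 := mul_pos hε (Real.exp_pos ((∫ x in (0 : ℝ)..t, a x) + t))
        have a2 := h2 t (Ico_subset_Icc_self ht) (by linarith)
        rw [← mul_assoc, ← e]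
        linarith) ht
  by_contra! hn
  have a1 := Real.exp_pos ((∫ x in (0 : ℝ)..t, a x) + t)
  have a2 := k (-f t / 2 / Real.exp ((∫ x in (0 : ℝ)..t, a x) + t))
    (div_pos (by linarith) a1)
  rw [div_mul_cancel₀ _ a1.ne'] at a2
  linarith

/-- The scalar inequality behind the invariance of the cone. -/
lemma i_cone {D Dd m v ρ σ κ A B : ℝ} (D0 : 1 / 256 ≤ D) (D1 : D ≤ 1) (m0 : -8 ≤ m) (v1 : v ≤ 2)
    (ρ0 : 0 ≤ ρ) (ρ1 : ρ ≤ 1) (σ0 : 0 ≤ σ) (κ0 : 0 ≤ κ)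
    (hρ : ρ ≤ Dd + (2 * m - 3 / 2 * v - D) * D) (hA : (m - v) * σ ^ 2 - σ * κ ≤ A)
    (hB : B ≤ (v / 2 - m) * κ ^ 2 + ρ * σ * κ) (hW : D ^ 2 * σ ^ 2 - κ ^ 2 < 0) :
    600 * (D ^ 2 * σ ^ 2 - κ ^ 2) ≤ 2 * D * Dd * σ ^ 2 + D ^ 2 * (2 * A) - 2 * B := by
  have h0 : 0 < D := by linarith
  have h1 : D * σ ≤ κ := abs_le_of_sq_le_sq' (by rw [mul_pow]; linarith) κ0 |>.2
  have h2 : σ ≤ 128 * (κ + D * σ) := by nlinarith
  have h3 : σ * (κ - D * σ) ≤ 128 * (κ ^ 2 - D ^ 2 * σ ^ 2) := by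
    nlinarith [mul_le_mul_of_nonneg_right h2 (sub_nonneg.2 h1)]
  have h4 : (D ^ 2 + ρ) * (σ * (κ - D * σ)) ≤ 2 * (128 * (κ ^ 2 - D ^ 2 * σ ^ 2)) :=
    mul_le_mul (by nlinarith) h3 (mul_nonneg σ0 (sub_nonneg.2 h1)) (by norm_num)
  have h5 : (v / 2 - m) * (κ ^ 2 - D ^ 2 * σ ^ 2) ≤ 9 * (κ ^ 2 - D ^ 2 * σ ^ 2) :=
    mul_le_mul_of_nonneg_right (by linarith) (by linarith)
  have h6 := mul_le_mul_of_nonneg_left hρ (mul_nonneg h0.le (sq_nonneg σ))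
  have h7 := mul_le_mul_of_nonneg_left hA (sq_nonneg D)
  linarith

/-- The velocity of the distance from the graph of `C.M`. -/
def iQ (C : CD) (μ : Fin 3 → ℝ) (z : Z3) : ℂ :=
  (GR μ z).2.2 - cL * (GR μ z).1 - (C.a.d z.1 (GR μ z).1 * (z.2.1 - cL) + C.a.f z.1 * (GR μ z).2.1
    + ((C.b1.d z.1 (GR μ z).1 + C.b2.d z.1 (GR μ z).1 * I) * (starRingEnd ℂ) (z.2.1 - cL)
      + (C.b1.f z.1 + C.b2.f z.1 * I) * (starRingEnd ℂ) (GR μ z).2.1))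

lemma i_dq (C : CD) {γ : ℝ → Z3} {g t : ℝ} (h : HasDerivAt γ (g • GR μ (γ t)) t) :
    HasDerivAt (fun s => (γ s).2.2 - cL * (γ s).1 - C.M (γ s).1 ((γ s).2.1 - cL))
      (g • iQ C μ (γ t)) t := by
  have h1 := hd_fst h
  have h2 := (hd_fst (hd_snd h)).sub_const cL
  refine hd_congr (((hd_snd (hd_snd h)).fun_sub (h1.const_mul cL)).fun_sub
    (((C.a.der _ _ g t h1).ofReal_comp.fun_mul h2).fun_add
      (((C.b1.der _ _ g t h1).ofReal_comp.fun_add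
        ((C.b2.der _ _ g t h1).ofReal_comp.mul_const I)).fun_mul h2.star))) (fun _ => rfl) ?_
  simp [iQ]
  ring

lemma i_pt {C : CD} (hC : C.OK) (hμ : Mass μ) {z : Z3} (h1 : ‖z.1‖ ^ 2 ≤ 2 + 1 / 1024)
    (h2 : -(1 / 1024) ≤ z.1.im) (h3 : ‖z.2.1 - cL‖ ≤ C.S.f z.1) {s q : ℂ} (hs : s = z.2.1 - cL)
    (hq : q = z.2.2 - cL * z.1 - C.M z.1 s) : ∃ m ρ, C.At z.1 (GR μ z).1 m ∧ 0 ≤ ρ ∧ ρ ≤ 1 ∧
      ρ ≤ C.D.d z.1 (GR μ z).1 + (2 * m - 3 / 2 * z.1.re - C.D.f z.1) * C.D.f z.1 ∧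
      (m - z.1.re) * ‖s‖ ^ 2 - ‖s‖ * ‖q‖ ≤ dot s (GR μ z).2.1 ∧
      dot q (iQ C μ z) ≤ (z.1.re / 2 - m) * ‖q‖ ^ 2 + ρ * ‖s‖ * ‖q‖ := by
  obtain ⟨η, Y, W⟩ := z
  simp only at h1 h2 h3 hs hq ⊢
  obtain rfl : Y = cL + s := by rw [hs]; ring
  obtain rfl : W = q + cL * η + C.M η s := by rw [hq]; ring
  rw [add_sub_cancel_left] at h3
  obtain ⟨m', k⟩ := hC η (Kp η) h1 h2 (by simp)
  have s1 : ‖s‖ ≤ 1 / 16 := h3.trans k.S1
  have s0 := norm_nonneg s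
  have a1 := i_Sg (Y := cL + s) (by rw [add_sub_cancel_left]; linarith)
  rw [add_sub_cancel_left] at a1
  obtain ⟨b0, -, b2, b3⟩ := hμ
  obtain ⟨m, h⟩ := hC η (GR μ (η, cL + s, q + cL * η + C.M η s)).1 h1 h2 (by
    simp only [GR, add_sub_cancel_left, norm_mul, norm_real, Real.norm_of_nonneg (b0 2).le]
    exact le_trans (b := 1 / 2 ^ 50 * 1) (by gcongr; linarith) (by norm_num))
  obtain ⟨R0, R1, c1, c2, c3, c4, c5⟩ := h.cn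
  have c0 := (abs_nonneg _).trans c3
  have S0 := h.S0
  have S1 := h.S1
  refine ⟨m, _, h, by positivity, by nlinarith, c5, ?_, ?_⟩
  · have e : dot s (GR μ (η, cL + s, q + cL * η + C.M η s)).2.1 =
        dot s (C.M η s) + dot s q - η.re * ‖s‖ ^ 2 := by
      simp [GR, dot, sq_norm']
      ring
    linarith [(i_M h s).2, (abs_le.1 (abs_dot_le s q)).1]
  · have n1 := ff3 s1
    have n2 : ‖(((μ 0 - μ 1) / 2 : ℝ) - cL * μ 2) * Sg (cL + s)‖ ≤ 1 / 2 ^ 30 * ‖s‖ := by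
      have d1 := norm_sub_le (((μ 0 - μ 1) / 2 : ℝ) : ℂ) (cL * μ 2)
      have d2 : ‖cL‖ ≤ 1 := abs_le_of_sq_le_sq' (by
        rw [sq_norm', i_re, i_im, div_pow, i_s3]; norm_num) zero_le_one |>.2
      rw [norm_mul, norm_real, norm_real, Real.norm_of_nonneg (b0 2).le, Real.norm_eq_abs,
        abs_div, abs_two] at d1
      have d3 := mul_le_mul_of_nonneg_right d2 (b0 2).le
      rw [norm_mul]
      exact le_trans (b := 1 / 2 ^ 49 * (6 * ‖s‖)) (by gcongr; linarith) (by linarith)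
    unfold iQ
    generalize C.a.d η _ = ad at c3 ⊢
    generalize C.b1.d η _ = b1d at c4 ⊢
    generalize C.b2.d η _ = b2d at c4 ⊢
    generalize hr0 : 3 / 2 * η.re * C.a.f η + 1 / 2 - C.a.f η ^ 2 - C.b1.f η ^ 2 - C.b2.f η ^ 2 - ad
      = r0 at c3
    generalize hr1 : 3 / 2 * η.re * C.b1.f η + 2 * η.im * C.b2.f η - 3 / 4 - b1d -
      2 * C.a.f η * C.b1.f η = r1 at c4
    generalize hr2 : 3 / 2 * η.re * C.b2.f η - 2 * η.im * C.b1.f η - b2d -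
      2 * C.a.f η * C.b2.f η = r2 at c4
    have n3 : ‖(r0 : ℂ) * s‖ ≤ R0 * ‖s‖ := by
      rw [norm_mul, norm_real]
      exact mul_le_mul_of_nonneg_right c3 s0
    have n4 : ‖(⟨r1, r2⟩ : ℂ) * (starRingEnd ℂ) s‖ ≤ R1 * ‖s‖ := by
      rw [norm_mul, norm_conj]
      exact mul_le_mul_of_nonneg_right (abs_le_of_sq_le_sq' (by rwa [sq_norm']) c1).2 s0
    have n5 : (1 + 24 * ‖s‖) * ‖s‖ ^ 2 ≤ C.S.f η * (1 + 24 * C.S.f η) * ‖s‖ := by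
      rw [sq, ← mul_assoc, mul_comm (1 + _)]
      gcongr
    have n6 := (abs_le.1 (abs_dot_le q ((r0 : ℂ) * s + (⟨r1, r2⟩ : ℂ) * (starRingEnd ℂ) s +
      (cL - Fs (cL + s) - (s / 2 - 3 / 4 * (starRingEnd ℂ) s)) +
      (((μ 0 - μ 1) / 2 : ℝ) - cL * μ 2) * Sg (cL + s)))).2.trans (mul_le_mul_of_nonneg_left
        (norm_add_le_of_le (norm_add_le_of_le (norm_add_le_of_le n3 n4) (n1.trans n5)) n2)
        (norm_nonneg q))
    refine le_of_eq_of_le ?_ ((add_le_add_right n6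
      (η.re / 2 * ‖q‖ ^ 2 - dot q (C.M η q))).trans (by linarith [(i_M h q).2]))
    subst hr0 hr1 hr2
    simp only [GR, Fs, Kp]
    generalize ff (cL + s + 1 / 2) = F0
    generalize ff (cL + s - 1 / 2) = F1
    generalize Sg (cL + s) = G
    rw [sq_norm']
    simp [dot, CD.M, sq]
    ring

/-- The cone is invariant and the normalised deviation grows. -/
theorem cone_flow {C : CD} (hC : C.OK) (hμ : Mass μ) {γ : ℝ → Z3} {g : ℝ → ℝ} {T : ℝ}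
    (hg : Continuous g) (g0 : ∀ t, 0 ≤ g t)
    (h : ∀ t ∈ Icc 0 T, HasDerivAt γ (g t • GR μ (γ t)) t ∧ ‖(γ t).1‖ ^ 2 ≤ 2 + 1 / 1024 ∧
      -(1 / 1024) ≤ (γ t).1.im ∧ ‖(γ t).2.1 - cL‖ ≤ C.S.f (γ t).1) (h0 : C.In (γ 0)) :
    ∀ t ∈ Icc 0 T, C.In (γ t) ∧ ∃ d, HasDerivAt (fun s => ‖C.sh (γ s)‖ ^ 2) d t ∧
      g t / 32 * ‖C.sh (γ t)‖ ^ 2 ≤ d := by
  have h1 := i_fence (T := T) (a := fun t => 600 * g t) (f := fun t => C.D.f (γ t).1 ^ 2 *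
      ‖(γ t).2.1 - cL‖ ^ 2 - ‖(γ t).2.2 - cL * (γ t).1 - C.M (γ t).1 ((γ t).2.1 - cL)‖ ^ 2)
    (by fun_prop) (fun t ht => by
      obtain ⟨a0, a1, a2, a3⟩ := h t ht
      obtain ⟨m, ρ, k, b1, b2, b3, b4, b5⟩ := i_pt hC hμ a1 a2 a3 rfl rfl
      refine ⟨_, (((C.D.der _ _ _ t (hd_fst a0)).fun_pow 2).fun_mul
        (i_nsq ((hd_fst (hd_snd a0)).sub_const cL))).fun_sub (i_nsq (i_dq C a0)), fun hW => ?_⟩
      have b6 := mul_le_mul_of_nonneg_left (i_cone k.D0 k.D1 k.m0 (by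
        nlinarith [sq_norm' (γ t).1, sq_nonneg (γ t).1.im]) b1 b2 (norm_nonneg _) (norm_nonneg _)
        b3 b4 b5 hW) (g0 t)
      refine le_of_eq_of_le (by ring) (b6.trans_eq ?_)
      simp [dot]
      ring) (by
      have := pow_le_pow_left₀ (norm_nonneg _) h0 2
      rw [mul_pow] at this
      linarith)
  intro t ht
  obtain ⟨a0, a1, a2, a3⟩ := h t ht
  obtain ⟨m, ρ, k, -, -, -, b4, -⟩ := i_pt hC hμ a1 a2 a3 rfl rfl
  have D0 := k.D0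
  have S0 := k.S0
  have h2 : C.In (γ t) := (abs_le_of_sq_le_sq' (by rw [mul_pow]; linarith [h1 t ht])
    (by positivity)).2
  have c1 := C.S.der _ _ _ t (hd_fst a0)
  have c2 : ∀ᶠ s in 𝓝 t, ‖C.sh (γ s)‖ ^ 2 =
      ‖(γ s).2.1 - cL‖ ^ 2 / (63 / 64 * C.S.f (γ s).1) ^ 2 :=
    (c1.continuousAt.eventually_const_lt (by linarith : 1 / 1024 < C.S.f (γ t).1)).mono
      fun s hs => by rw [CD.sh, norm_div, max_eq_left hs.le, div_pow, norm_real, Real.norm_eq_abs,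
        sq_abs]
  refine ⟨h2, _, ((i_nsq ((hd_fst (hd_snd a0)).sub_const cL)).fun_div
    ((c1.const_mul (63 / 64)).fun_pow 2) (by positivity)).congr_of_eventuallyEq c2, ?_⟩
  have c3 : dot ((γ t).2.1 - cL) (g t • GR μ (γ t)).2.1 =
      g t * dot ((γ t).2.1 - cL) (GR μ (γ t)).2.1 := by
    simp [dot]
    ring
  have c4 := mul_le_mul_of_nonneg_left h2 (norm_nonneg ((γ t).2.1 - cL))
  have c5 := mul_le_mul_of_nonneg_left k.gr (sq_nonneg ‖(γ t).2.1 - cL‖)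
  have c6 := mul_le_mul_of_nonneg_left (show (m - (γ t).1.re - C.D.f (γ t).1) *
    ‖(γ t).2.1 - cL‖ ^ 2 ≤ dot ((γ t).2.1 - cL) (GR μ (γ t)).2.1 by linarith)
    (by positivity : 0 ≤ C.S.f (γ t).1)
  rw [c2.self_of_nhds, c3, ← mul_div_assoc, div_le_div_iff₀ (by positivity) (by positivity)]
  have c7 := mul_le_mul_of_nonneg_left (add_le_add c5 c6)
    (by positivity [g0 t] : 0 ≤ 2 * g t * (63 / 64) ^ 4 * C.S.f (γ t).1 ^ 3)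
  simp only [Nat.cast_ofNat, Nat.add_one_sub_one, pow_one]
  linarith

end Pool.Agent.Lib.MP_6e7c44_mp.LA
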