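import Pool.Agent.Lib.MP_6e7c44_mp.LA.Flow
import Pool.Agent.Lib.MP_6e7c44_mp.LA.Inv
import Pool.Agent.Lib.MP_6e7c44_mp.LA.Back
import Pool.Agent.Lib.MP_6e7c44_mp.LA.Esc

/-! Chains of steps. -/

set_option autoImplicit false

open Set Complex Filter Topology

noncomputable section

namespace Pool.Agent.Lib.MP_6e7c44_mp.LA

theorem yc_co (z : Z3) : yc (co z) = z.2.1 := rfl

theorem co_cont : Continuous co := continuous_pi fun i => by
  cases i <;> simp only [co] <;> fun_prop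

theorem safe_nc {z : Z3} (h : Safe (co z)) : NC z :=
  ⟨norm_pos_iff.1 (lt_of_lt_of_le (by norm_num) h.2.1),
    norm_pos_iff.1 (lt_of_lt_of_le (by norm_num) h.2.2)⟩

theorem safe_cpt : IsCompact {z : Z3 | Safe (co z)} := by
  refine Metric.isCompact_of_isClosed_isBounded ?_ (isBounded_iff_forall_norm_le.2 ⟨128, ?_⟩)
  · simp only [Safe, setOf_and, setOf_forall, yc_co]
    exact (isClosed_iInter fun i => isClosed_le ((continuous_apply i).comp co_cont).abs
      continuous_const).inter ((isClosed_le continuous_const (by fun_prop)).inter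
      (isClosed_le continuous_const (by fun_prop)))
  · intro z hz
    have h := hz.1
    have h0 := h .i0
    have h1 := h .i1
    have h2 := h .i2
    have h3 := h .i3
    have h4 := h .i4
    have h5 := h .i5
    simp only [co] at h0 h1 h2 h3 h4 h5
    simp only [Prod.norm_def, max_le_iff]
    exact ⟨by linarith [norm_le_abs_re_add_abs_im z.1],
      by linarith [norm_le_abs_re_add_abs_im z.2.1], by linarith [norm_le_abs_re_add_abs_im z.2.2]⟩

theorem ff_le {x : ℂ} (h : 1 / 32 ≤ ‖x‖) : ‖ff x‖ ≤ 1024 := by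
  have h0 : 0 < ‖x‖ := lt_of_lt_of_le (by norm_num) h
  rw [norm_ff h0, inv_le_comm₀ (by positivity) (by norm_num)]
  nlinarith

theorem sg_le {z : Z3} (h : Safe (co z)) {c : ℝ} (hc : |c| ≤ 1 / 2 ^ 50) :
    ‖c * Sg z.2.1‖ ≤ 1 / 2 ^ 36 := by
  have h1 : ‖ff (z.2.1 + 1 / 2)‖ ≤ 1024 := ff_le h.2.1
  have h2 : ‖ff (z.2.1 - 1 / 2)‖ ≤ 1024 := ff_le h.2.2
  have h3 : ‖Sg z.2.1‖ ≤ 2049 := by
    refine (norm_sub_le _ _).trans ?_
    have := norm_add_le (1 : ℂ) (ff (z.2.1 - 1 / 2))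
    rw [norm_one] at this
    linarith
  rw [norm_mul, norm_real, Real.norm_eq_abs]
  exact (mul_le_mul hc h3 (norm_nonneg _) (by positivity)).trans (by norm_num)

theorem traj {μ : Fin 3 → ℝ} (hμ : Mass μ) {γ : ℝ → Z3} (cγ : Continuous γ)
    (h : ∀ t, Safe (co (γ t)) → HasDerivAt γ (GR μ (γ t)) t) : Traj fun t => co (γ t) := by
  refine ⟨co_cont.comp cγ, fun τ hs i => ?_⟩
  have d := h τ hs
  have d1 := (ContinuousLinearMap.fst ℝ ℂ (ℂ × ℂ)).hasFDerivAt.comp_hasDerivAt τ d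
  have d' := (ContinuousLinearMap.snd ℝ ℂ (ℂ × ℂ)).hasFDerivAt.comp_hasDerivAt τ d
  have d2 := (ContinuousLinearMap.fst ℝ ℂ ℂ).hasFDerivAt.comp_hasDerivAt τ d'
  have d3 := (ContinuousLinearMap.snd ℝ ℂ ℂ).hasFDerivAt.comp_hasDerivAt τ d'
  have s1 := sg_le hs (c := μ 2) (by rw [abs_of_pos (hμ.1 2)]; exact hμ.2.2.2)
  have s2 := sg_le hs (c := (μ 0 - μ 1) / 2) (by
    rw [abs_div, abs_two]; linarith [hμ.2.2.1, abs_nonneg (μ 0 - μ 1)])
  push_cast at s2
  cases i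
  · refine ⟨_, (abs_re_le_norm _).trans s1,
      (reCLM.hasFDerivAt.comp_hasDerivAt τ d1).congr_deriv ?_⟩
    simp [GR, Kp, f0, co]; ring
  · refine ⟨_, (abs_im_le_norm _).trans s1,
      (imCLM.hasFDerivAt.comp_hasDerivAt τ d1).congr_deriv ?_⟩
    simp [GR, Kp, f0, co]; ring
  · refine ⟨0, by simp, (reCLM.hasFDerivAt.comp_hasDerivAt τ d2).congr_deriv ?_⟩
    simp [GR, f0, co]
  · refine ⟨0, by simp, (imCLM.hasFDerivAt.comp_hasDerivAt τ d2).congr_deriv ?_⟩
    simp [GR, f0, co]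
  · refine ⟨_, (abs_re_le_norm _).trans s2,
      (reCLM.hasFDerivAt.comp_hasDerivAt τ d3).congr_deriv ?_⟩
    simp [GR, f0, co, Fs, yc_co]; ring
  · refine ⟨_, (abs_im_le_norm _).trans s2,
      (imCLM.hasFDerivAt.comp_hasDerivAt τ d3).congr_deriv ?_⟩
    simp [GR, f0, co, Fs, yc_co]; ring

theorem exists_step {μ : Fin 3 → ℝ} (hμ : Mass μ) : ∃ Φ : ℝ → Z3 → Z3,
    (∀ t, Continuous (Φ t)) ∧ ∀ z, NC z → (∀ t, NC (Φ t z)) ∧ ∀ s : SS, s.OK → s.Box (co z) →
      (∀ j, |s.yE j (co (Φ s.h z)) - s.yS j (co z)| ≤ s.d j) ∧ s.out (co (Φ s.h z)) ∧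
      (0 < En μ z → 0 < En μ (Φ s.h z)) ∧ (EscR μ (Φ s.h z) → EscR μ z) := by
  obtain ⟨Φ, β, c1, f0, c2, -, b1, hf⟩ :=
    cutoff_flow isOpen_NC safe_cpt (fun _ h => safe_nc h) (cd_GR μ)
  refine ⟨Φ, fun t => c1.comp (Continuous.prodMk_right t), fun z hz =>
    ⟨fun t => (hf z hz t).1, fun s hs hb => ?_⟩⟩
  have cγ : Continuous fun t => Φ t z := c1.comp (Continuous.prodMk_left z)
  have := hs.step _ (traj hμ cγ fun t ht => by simpa [b1 _ ht] using (hf z hz t).2) 0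
    (by rwa [f0])
  rw [zero_add, f0] at this
  refine ⟨this.2.1, this.2.2, fun h => ?_, fun h => ?_⟩
  · exact (inv_flow hμ (c2.comp cγ) (hf z hz) s.h).1 (by rwa [f0])
  · have := back hμ (c2.comp cγ) hs.h0 (hf z hz)
      (fun t ht => by simp [b1 _ (this.1 t ht)]) h
    rwa [f0] at this

theorem Chain.ok {P : (I6 → ℝ) → Prop} {n : ℕ} {s : SS} {l : List SS} (h : Chain P n s l) :
    s.OK := by
  cases l <;> cases n <;> exact h.1

theorem link_le {k a b R d R' : ℝ} (k0 : 0 < k) (h1 : |b| ≤ R) (h2 : |a - b| ≤ d)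
    (h3 : k * (R + d) ≤ R') : |k * a| ≤ R' := by
  rw [abs_mul, abs_of_pos k0]
  exact (mul_le_mul_of_nonneg_left (by linarith [abs_sub_abs_le_abs_sub a b]) k0.le).trans h3

theorem link_ge {k a b R d R' : ℝ} (k0 : 0 < k) (R0 : 0 < R) (R1 : 0 < R') (h1 : |b / R| = 1)
    (h2 : |a - b| ≤ d) (h3 : R' ≤ k * (R - d)) :
    1 ≤ |k * a / R'| ∧ ∀ t ∈ Icc (0 : ℝ) 1, (1 - t) * (b / R) + t * (k * a / R') ≠ 0 := by
  have h4 := abs_le.1 h2
  rcases (abs_eq zero_le_one).1 h1 with h | h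
  · have : 1 ≤ k * a / R' := by
      rw [div_eq_iff R0.ne'] at h
      rw [le_div_iff₀ R1]; nlinarith
    exact ⟨this.trans (le_abs_self _), fun t ht => by rw [h]; nlinarith [ht.1, ht.2]⟩
  · have : k * a / R' ≤ -1 := by
      rw [div_eq_iff R0.ne'] at h
      rw [div_le_iff₀ R1]; nlinarith
    exact ⟨by linarith [neg_le_abs (k * a / R')], fun t ht => by rw [h]; nlinarith [ht.1, ht.2]⟩

theorem SS.OK.cg {s : SS} (h : s.OK) : Continuous s.g := by
  have h0 := h.cS .i0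
  have h1 := h.cS .i1
  have : s.g = fun x => ((s.yS .i0 x / s.R .i0 : ℝ) : ℂ) + ((s.yS .i1 x / s.R .i1 : ℝ) : ℂ) * I :=
    funext fun x => by rw [SS.g, mk_eq_add_mul_I]
  rw [this]
  fun_prop

theorem chain_main {μ : Fin 3 → ℝ} (hμ : Mass μ) {X : ℂ → Z3} (cX : Continuous X)
    (nX : ∀ ξ, NC (X ξ)) {A : Set ℂ} (hA : IsClosed A) {n : ℕ} {s : SS} {l : List SS}
    (hc : Chain Out n s l) (he : Ess nM A fun ξ => s.g (co (X ξ)))
    (hb : ∀ ξ ∈ A, nM (s.g (co (X ξ))) ≤ 1 → s.Box (co (X ξ)) ∧ 0 < En μ (X ξ)) :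
    ∃ ξ ∈ A, EscR μ (X ξ) := by
  obtain ⟨Φ, cΦ, hΦ⟩ := exists_step hμ
  have pt : ∀ (l : List SS) (s : SS) (z : Z3), Chain Out 0 s l → NC z → s.Box (co z) →
      0 < En μ z → EscR μ z := by
    intro l
    induction l with
    | nil =>
      intro s z hc hz hb hE
      obtain ⟨-, h2, h3, h4⟩ := (hΦ z hz).2 s hc.1 hb
      exact h4 (escape hμ (h3 hE) (hc.2 _ h2))
    | cons s' l ih =>
      intro s z hc hz hb hE
      obtain ⟨h1, -, h3, h4⟩ := (hΦ z hz).2 s hc.1 hb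
      refine h4 (ih s' _ hc.2.2 ((hΦ z hz).1 _) (fun j => ?_) (h3 hE))
      obtain ⟨k, k0, k1, k2⟩ := hc.2.1 j
      rw [if_neg (by simp)] at k2
      rw [k1]
      exact link_le k0 (hb j) (h1 j) k2
  have base : ∀ {X : ℂ → Z3}, Continuous X → (∀ ξ, NC (X ξ)) → ∀ {A : Set ℂ} {s : SS}
      {l : List SS}, Chain Out 0 s l → (Ess nM A fun ξ => s.g (co (X ξ))) →
      (∀ ξ ∈ A, nM (s.g (co (X ξ))) ≤ 1 → s.Box (co (X ξ)) ∧ 0 < En μ (X ξ)) →
      ∃ ξ ∈ A, EscR μ (X ξ) := fun cX nX A s l hc he hb => by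
    obtain ⟨ξ, hξ, h0⟩ := he _ (hc.ok.cg.comp (co_cont.comp cX)).continuousOn fun _ _ _ => rfl
    have := hb ξ hξ (by simp only [Function.comp] at h0; simp [h0, nM])
    exact ⟨ξ, hξ, pt l s _ hc (nX ξ) this.1 this.2⟩
  have cN : Continuous nM := continuous_re.abs.max continuous_im.abs
  induction l generalizing n s X A with
  | nil => exact base cX nX (l := []) (by cases n <;> exact hc) he hb
  | cons s' l ih =>
    cases n with
    | zero => exact base cX nX hc he hb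
    | succ n =>
      obtain ⟨ok, lk, hc'⟩ := hc
      have cg := ok.cg.comp (co_cont.comp cX)
      have cX' := (cΦ s.h).comp cX
      have ok' := hc'.ok
      obtain ⟨ξ, hξ, h⟩ := ih (X := fun ξ => Φ s.h (X ξ)) cX' (fun ξ => (hΦ _ (nX ξ)).1 _)
        (hA.inter (isClosed_le (cN.comp cg) continuous_const)) hc'
        (ess_step cN (by simp [nM]) hA cg (ok'.cg.comp (co_cont.comp cX')) he fun ξ hξ h1 => by
          obtain ⟨h2, -⟩ := (hΦ _ (nX ξ)).2 s ok (hb ξ hξ h1.le).1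
          obtain ⟨k, k0, k1, k2⟩ := lk .i0
          obtain ⟨m, m0, m1, m2⟩ := lk .i1
          rw [if_pos (by simp)] at k2 m2
          rcases max_choice |(s.g (co (X ξ))).re| |(s.g (co (X ξ))).im| with e | e
          · have := link_ge k0 (ok.R0 _) (ok'.R0 _) (e.symm.trans h1) (h2 .i0) k2
            rw [← k1] at this
            exact ⟨this.1.trans (le_max_left _ _), fun t ht h0 =>
              this.2 t ht (by simpa [SS.g] using congrArg re h0)⟩
          · have := link_ge m0 (ok.R0 _) (ok'.R0 _) (e.symm.trans h1) (h2 .i1) m2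
            rw [← m1] at this
            exact ⟨this.1.trans (le_max_right _ _), fun t ht h0 =>
              this.2 t ht (by simpa [SS.g] using congrArg im h0)⟩)
        fun ξ hξ h1 => by
          have hb' := hb ξ hξ.1 hξ.2
          obtain ⟨h2, -, h3, -⟩ := (hΦ _ (nX ξ)).2 s ok hb'.1
          refine ⟨fun j => ?_, h3 hb'.2⟩
          by_cases hj : j = .i0 ∨ j = .i1
          · have R0 := ok'.R0 j
            rw [← div_le_one R0, ← abs_of_pos R0, ← abs_div]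
            rcases hj with rfl | rfl
            exacts [(le_max_left _ _).trans h1, (le_max_right _ _).trans h1]
          · obtain ⟨k, k0, k1, k2⟩ := lk j
            rw [if_neg (by simp [hj])] at k2
            rw [k1]
            exact link_le k0 (hb'.1 j) (h2 j) k2
      exact ⟨ξ, hξ.1, ((hΦ _ (nX ξ)).2 s ok (hb ξ hξ.1 hξ.2).1).2.2.2 h⟩

end Pool.Agent.Lib.MP_6e7c44_mp.LA
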