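import Pool.Agent.Lib.MP_6e7c44_mp.LA.StepC
import Pool.Agent.Lib.MP_6e7c44_mp.LA.Tube

/-! The entry into a tube and the exit from it. -/

set_option autoImplicit false

open Set Complex

namespace Pool.Agent.Lib.MP_6e7c44_mp.LA

/-- The data of the entry check. -/
structure ID (K : Type) where
  p : ℕ → K
  a : I6 → I6 → K
  X : I6 → K
  R : I6 → K

namespace ID
variable {K : Type} [Field K] [LinearOrder K] (d : ID K)

def c3 : K := 929887697 / 2 ^ 30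
def p0 : K := 1 - (d.p 0 * d.p 2) ^ 2 / 2 - d.p 1 * d.p 2 - d.p 5 ^ 2
def p1 : K := -(d.p 0 ^ 2 * d.p 2 * d.p 3) - d.p 1 * d.p 3 - 2 * d.p 5 * d.p 6
def p2 : K := -((d.p 0 * d.p 3) ^ 2 / 2) - d.p 6 ^ 2
def e1 : K := max |d.p0| |d.p0 + d.p2| + |d.p1| + d.p 4 + 1 / 2 ^ 36
def det : K := d.a .i0 .i2 * d.a .i1 .i3 - d.a .i0 .i3 * d.a .i1 .i2
def ac : K := |d.X .i2| + |d.a .i2 .i2| * d.R .i2 + |d.a .i2 .i3| * d.R .i3
def bc : K := |d.X .i3 - c3| + 1 / 2 ^ 30 + |d.a .i3 .i2| * d.R .i2 + |d.a .i3 .i3| * d.R .i3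
def al : K := d.ac + d.a .i2 .i0 * d.R .i0
def be : K := d.bc + d.a .i3 .i1 * d.R .i1
def cu (i : I6) : K :=
  |d.a .i1 i * (d.p 0 * d.p 2 - d.X .i0) - d.a .i0 i * (d.p 5 - d.X .i1)|
    + |d.a .i1 i * (d.p 0 * d.p 3) - d.a .i0 i * d.p 6| + |d.a .i0 i| * d.p 8
def wr (i j : I6) (s m n u : K) : K :=
  |s * c3 * d.X j + m * d.X .i2 + n * (d.X .i3 - c3) - d.X i|
    + |m * d.a .i2 .i0 - d.a i .i0| * d.R .i0 + |n * d.a .i3 .i1 - d.a i .i1| * d.R .i1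
    + |s * c3 * d.a j .i2 + m * d.a .i2 .i2 + n * d.a .i3 .i2 - d.a i .i2| * d.R .i2
    + |s * c3 * d.a j .i3 + m * d.a .i2 .i3 + n * d.a .i3 .i3 - d.a i .i3| * d.R .i3
    + d.p 18 * d.p 20 + (|u| + d.p 11 + |n|) / 2 ^ 30

/-- The entry check.  Parameters: 0, 1 direction, 2, 3 centre and radius of `t`, 4 error of `y`,
5, 6 linear model of `ω`, 7 lower bound, 8 error, 9, 10, 11 cell, 12 to 17 values and errors of the
slope, 18 bound of `D`, 19 lower bound of `S`, 20 bound of the deviation. -/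
def P : Prop :=
  (d.a .i0 .i0 = 0 ∧ d.a .i0 .i1 = 0 ∧ d.a .i0 .i4 = 0 ∧ d.a .i0 .i5 = 0) ∧
  (d.a .i1 .i0 = 0 ∧ d.a .i1 .i1 = 0 ∧ d.a .i1 .i4 = 0 ∧ d.a .i1 .i5 = 0) ∧
  (d.a .i2 .i1 = 0 ∧ d.a .i2 .i4 = 0 ∧ d.a .i2 .i5 = 0 ∧ 0 < d.a .i2 .i0) ∧
  (d.a .i3 .i0 = 0 ∧ d.a .i3 .i4 = 0 ∧ d.a .i3 .i5 = 0 ∧ 0 < d.a .i3 .i1) ∧
  (d.a .i4 .i5 = 0 ∧ d.a .i5 .i4 = 0 ∧ 0 < d.a .i4 .i4 ∧ 0 < d.a .i5 .i5) ∧
  (1 / 1024 < d.p 7 ∧ 0 ≤ d.p 5 - |d.p 6| ∧ d.p 7 ^ 2 + d.e1 ≤ (d.p 5 - |d.p 6|) ^ 2 ∧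
    d.e1 ≤ d.p 8 * (d.p 7 + (d.p 5 - |d.p 6|)) ∧ 0 ≤ d.p 8) ∧
  (0 < |d.det| ∧ d.cu .i3 ≤ d.R .i2 * |d.det| ∧ d.cu .i2 ≤ d.R .i3 * |d.det|) ∧
  (|d.p 0 * d.p 2 - d.p 9| + |d.p 0 * d.p 3| ≤ d.p 11 ∧
    |d.p 5 - d.p 10| + |d.p 6| + d.p 8 ≤ d.p 11) ∧
  (0 ≤ d.p 20 ∧ d.al ^ 2 + d.be ^ 2 ≤ d.p 20 ^ 2 ∧ d.p 20 < 63 / 64 * d.p 19 ∧ 0 ≤ d.p 18) ∧
  d.wr .i4 .i1 (-1) (d.p 12 + d.p 14) (d.p 16) (d.p 10) + (d.p 13 + d.p 15) * d.al + d.p 17 * d.be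
    ≤ d.R .i4 * d.a .i4 .i4 ∧
  d.wr .i5 .i0 1 (d.p 16) (d.p 12 - d.p 14) (d.p 9) + d.p 17 * d.al + (d.p 13 + d.p 15) * d.be
    ≤ d.R .i5 * d.a .i5 .i5

instance : Decidable d.P := by unfold P; infer_instance

def cast (d : ID ℚ) : ID ℝ := ⟨fun i => d.p i, fun i j => d.a i j, fun i => d.X i, fun i => d.R i⟩

lemma cast_P {d : ID ℚ} (h : d.P) : d.cast.P := by
  simp only [P, wr, cu, al, be, ac, bc, det, e1, p0, p1, p2, c3, ← Rat.cast_le (K := ℝ),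
    ← Rat.cast_lt (K := ℝ), ← Rat.cast_inj (α := ℝ)] at h
  push_cast at h
  exact h

lemma am {k y R : ℝ} (h : |y| ≤ R) : |k * y| ≤ |k| * R := by
  rw [abs_mul]; exact mul_le_mul_of_nonneg_left h (abs_nonneg _)

lemma c3_err : |√3 / 2 - (c3 : ℝ)| ≤ 1 / 2 ^ 30 := by
  have h1 : (2 * (929887696 / 2 ^ 30) : ℝ) ≤ √3 := Real.le_sqrt_of_sq_le (by norm_num)
  have h2 : √3 ≤ (2 * (929887698 / 2 ^ 30) : ℝ) := Real.sqrt_le_iff.2 (by norm_num)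
  rw [c3, abs_le]
  constructor <;> linarith

variable {d : ID ℝ}

lemma curve (h : d.P) {x y ω : ℝ} (hx : |x| ≤ 1) (hy : |y - d.p 1 * (d.p 2 + d.p 3 * x)| ≤ d.p 4)
    (h1 : |ω ^ 2 - (1 - (d.p 0 * (d.p 2 + d.p 3 * x)) ^ 2 / 2 - y)| ≤ 1 / 2 ^ 36)
    (h2 : -(1 / 1024) ≤ ω) : |ω - (d.p 5 + d.p 6 * x)| ≤ d.p 8 := by
  obtain ⟨-, -, -, -, -, ⟨a1, a2, a3, a4, a5⟩, -⟩ := h
  have x2 : 0 ≤ x ^ 2 ∧ x ^ 2 ≤ 1 := ⟨sq_nonneg _, (sq_le_one_iff_abs_le_one _).2 hx⟩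
  have b1 : |d.p0 + d.p2 * x ^ 2| ≤ max |d.p0| |d.p0 + d.p2| := by
    have c1 := abs_le.1 (le_max_left |d.p0| |d.p0 + d.p2| : |d.p0| ≤ _)
    have c2 := abs_le.1 (le_max_right |d.p0| |d.p0 + d.p2| : |d.p0 + d.p2| ≤ _)
    rw [abs_le]
    constructor <;> nlinarith
  have b2 := abs_le.1 (am (k := d.p1) hx)
  have b3 : |ω ^ 2 - (d.p 5 + d.p 6 * x) ^ 2| ≤ d.e1 := by
    have e : ω ^ 2 - (d.p 5 + d.p 6 * x) ^ 2 = (d.p0 + d.p2 * x ^ 2) + d.p1 * x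
        - (y - d.p 1 * (d.p 2 + d.p 3 * x))
        + (ω ^ 2 - (1 - (d.p 0 * (d.p 2 + d.p 3 * x)) ^ 2 / 2 - y)) := by
      simp only [p0, p1, p2]; ring
    rw [e, e1, abs_le]
    rw [abs_le] at b1 hy h1
    constructor <;> linarith
  have b4 : d.p 5 - |d.p 6| ≤ d.p 5 + d.p 6 * x := by linarith [(abs_le.1 (am (k := d.p 6) hx)).1]
  generalize d.p 5 + d.p 6 * x = u, d.p 5 - |d.p 6| = m at *
  have b5 : d.p 7 ≤ ω := by
    by_contra hc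
    nlinarith [(abs_le.1 b3).1]
  rw [sq_sub_sq, abs_mul, abs_of_pos (by linarith)] at b3
  refine le_of_mul_le_mul_left (b3.trans (a4.trans ?_)) (by linarith)
  nlinarith

lemma cram {p q k u0 u1 v0 v1 e x w R D z : ℝ} (hx : |x| ≤ 1) (hw : |w| ≤ e) (hD : 0 < |D|)
    (h : |p * u0 - q * v0| + |p * u1 - q * v1| + |q| * e ≤ R * |D|)
    (hz : k * D * z = p * (u0 + u1 * x) - q * (v0 + v1 * x + w)) (hk : |k| = 1) : |z| ≤ R := by
  have h1 := abs_le.1 (am (k := p * u1 - q * v1) hx)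
  have h2 := abs_le.1 (am (k := q) hw)
  have h3 : |k * D * z| ≤ R * |D| := by
    rw [hz, abs_le]
    constructor <;> linarith [le_abs_self (p * u0 - q * v0), neg_abs_le (p * u0 - q * v0)]
  rw [abs_mul, abs_mul, hk, one_mul, mul_comm] at h3
  exact le_of_mul_le_mul_right h3 hD

lemma wrow {y : I6 → ℝ} {i j : I6} {s m n u t sr si em en q W g dm dn : ℝ} (hs : |s| = 1)
    (h0 : |y .i0| ≤ d.R .i0) (h1 : |y .i1| ≤ d.R .i1) (h2 : |y .i2| ≤ d.R .i2)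
    (h3 : |y .i3| ≤ d.R .i3) (ht : t = d.X j + (d.a j .i2 * y .i2 + d.a j .i3 * y .i3))
    (tu : |t - u| ≤ d.p 11)
    (er : sr = d.X .i2 + (d.a .i2 .i0 * y .i0 + d.a .i2 .i2 * y .i2 + d.a .i2 .i3 * y .i3))
    (ei : si + √3 / 2 = d.X .i3 + (d.a .i3 .i1 * y .i1 + d.a .i3 .i2 * y .i2 + d.a .i3 .i3 * y .i3))
    (br : |sr| ≤ d.al) (bi : |si| ≤ d.be) (hm : |em| ≤ dm) (hn : |en| ≤ dn)
    (hq : |q| ≤ d.p 18 * d.p 20) (hW : W = s * (√3 / 2) * t + (m + em) * sr + (n + en) * si + q)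
    (eW : W = d.X i + (d.a i .i0 * y .i0 + d.a i .i1 * y .i1 + d.a i .i2 * y .i2
      + d.a i .i3 * y .i3 + g * y i)) (g0 : 0 < g)
    (h : d.wr i j s m n u + dm * d.al + dn * d.be ≤ d.R i * g) : |y i| ≤ d.R i := by
  have b0 := abs_le.1 (am (k := m * d.a .i2 .i0 - d.a i .i0) h0)
  have b1 := abs_le.1 (am (k := n * d.a .i3 .i1 - d.a i .i1) h1)
  have b2 := abs_le.1 (am (k := s * c3 * d.a j .i2 + m * d.a .i2 .i2 + n * d.a .i3 .i2 - d.a i .i2) h2)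
  have b3 := abs_le.1 (am (k := s * c3 * d.a j .i3 + m * d.a .i2 .i3 + n * d.a .i3 .i3 - d.a i .i3) h3)
  have b4 := abs_le.1 ((am (k := em) br).trans
    (mul_le_mul_of_nonneg_right hm ((abs_nonneg _).trans br)))
  have b5 := abs_le.1 ((am (k := en) bi).trans
    (mul_le_mul_of_nonneg_right hn ((abs_nonneg _).trans bi)))
  have b6 : |s * t - n| ≤ |u| + d.p 11 + |n| := by
    have := abs_sub (s * t) n
    rw [abs_mul, hs] at this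
    linarith [abs_sub_abs_le_abs_sub t u]
  have b7 := abs_le.1 ((am (k := s * t - n) c3_err).trans
    (mul_le_mul_of_nonneg_right b6 (by positivity)))
  have b8 := abs_le.1 hq
  have b9 := abs_le.1 (le_refl |s * c3 * d.X j + m * d.X .i2 + n * (d.X .i3 - c3) - d.X i|)
  have e : g * y i = (s * c3 * d.X j + m * d.X .i2 + n * (d.X .i3 - c3) - d.X i)
      + (m * d.a .i2 .i0 - d.a i .i0) * y .i0 + (n * d.a .i3 .i1 - d.a i .i1) * y .i1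
      + (s * c3 * d.a j .i2 + m * d.a .i2 .i2 + n * d.a .i3 .i2 - d.a i .i2) * y .i2
      + (s * c3 * d.a j .i3 + m * d.a .i2 .i3 + n * d.a .i3 .i3 - d.a i .i3) * y .i3
      + em * sr + en * si + (s * t - n) * (√3 / 2 - c3) + q := by
    linear_combination hW - eW + s * c3 * ht + m * er + n * ei
  have : |g * y i| ≤ d.R i * g := by
    rw [e, abs_le]
    rw [wr] at h
    constructor <;> linarith
  rw [abs_mul, abs_of_pos g0, mul_comm] at this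
  exact le_of_mul_le_mul_right this g0

lemma opp {p q s y a c b : ℝ} (hp : 0 ≤ p) (hq : 0 ≤ q) (h0 : 0 < p + q) (h : p * s + q * y = 0)
    (ha : 0 < a) (e : s = c + a * y) (hc : |c| ≤ b) : |s| ≤ b := by
  have h1 : s * y ≤ 0 := by
    by_contra h2
    push Not at h2
    have h3 : 0 < s * s := by
      rcases eq_or_ne s 0 with h4 | h4
      · simp [h4] at h2
      · exact mul_self_pos.2 h4
    have h4 : p * (s * s) + q * (s * y) = 0 := by linear_combination s * h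
    rcases hp.eq_or_lt with h5 | h5
    · nlinarith
    · nlinarith [mul_nonneg hq h2.le]
  have h2 : s * s ≤ s * c := by
    have : s * s = s * c + a * (s * y) := by linear_combination s * e
    nlinarith
  refine le_trans (abs_le_of_sq_le_sq' ?_ (abs_nonneg _)).2 hc
  rw [sq_abs, sq_abs]
  nlinarith [sq_nonneg (s - c)]

/-- What is assumed about the cone field on the cell. -/
def Cell (d : ID ℝ) (C : CD) : Prop := ∀ η : ℂ, |η.re - d.p 9| ≤ d.p 11 → |η.im - d.p 10| ≤ d.p 11 →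
  |C.a.f η - d.p 12| ≤ d.p 13 ∧ |C.b1.f η - d.p 14| ≤ d.p 15 ∧ |C.b2.f η - d.p 16| ≤ d.p 17 ∧
    C.D.f η ≤ d.p 18 ∧ d.p 19 ≤ C.S.f η

/-- The binary is near the curve of the box. -/
def On (d : ID ℝ) (η : ℂ) : Prop := -(1 / 1024) ≤ η.im ∧ ∃ x y : ℝ, |x| ≤ 1 ∧
  η.re = d.p 0 * (d.p 2 + d.p 3 * x) ∧ |y - d.p 1 * (d.p 2 + d.p 3 * x)| ≤ d.p 4 ∧
    |η.im ^ 2 - (1 - η.re ^ 2 / 2 - y)| ≤ 1 / 2 ^ 36

lemma point (h : d.P) {C : CD} (hC : d.Cell C) (R0 : ∀ j, 0 < d.R j) {z : Z3} {y : I6 → ℝ}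
    (hz : ∀ k, co z k = d.X k + ∑ j, d.a k j * y j) (h1 : C.In z) (h2 : d.On z.1) :
    (|y .i0| ≤ d.R .i0 → |y .i1| ≤ d.R .i1 → (∀ j, |y j| ≤ d.R j) ∧ ‖C.sh z‖ < 1) ∧
      ∀ t ∈ Icc (0 : ℝ) 1, (1 - t) • C.sh z + t • (⟨y .i0 / d.R .i0, y .i1 / d.R .i1⟩ : ℂ) = 0 →
        ‖C.sh z‖ < 1 := by
  obtain ⟨w0, x, v, hx, hv, hy, hw⟩ := h2
  have w1 := curve h hx hy (hv ▸ hw) w0
  obtain ⟨⟨a1, a2, a3, a4⟩, ⟨a5, a6, a7, a8⟩, ⟨b1, b2, b3, b4⟩, ⟨b5, b6, b7, b8⟩,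
    ⟨c1, c2, c4, c5⟩, -, ⟨d1, d2, d3⟩, ⟨d4, d5⟩, ⟨f1, f2, f3, f4⟩, g1, g2⟩ := h
  have z0 := hz .i0
  have z1 := hz .i1
  have z2 := hz .i2
  have z3 := hz .i3
  have z4 := hz .i4
  have z5 := hz .i5
  simp only [co, I6.sum, a1, a2, a3, a4, a5, a6, a7, a8, b1, b2, b3, b5, b6, b7, c1, c2, zero_mul,
    zero_add, add_zero] at z0 z1 z2 z3 z4 z5
  have y2 : |y .i2| ≤ d.R .i2 := cram (k := 1) hx w1 d1 d2
    (by rw [det]; linear_combination d.a .i1 .i3 * (hv - z0) + d.a .i0 .i3 * z1) abs_one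
  have y3 : |y .i3| ≤ d.R .i3 := cram (k := -1) hx w1 d1 d3
    (by rw [det]; linear_combination d.a .i1 .i2 * (hv - z0) + d.a .i0 .i2 * z1) (by simp)
  have u0 : |z.1.re - d.p 9| ≤ d.p 11 := by
    have := abs_add_le (d.p 0 * d.p 2 - d.p 9) (d.p 0 * d.p 3 * x)
    rw [hv, show d.p 0 * (d.p 2 + d.p 3 * x) - d.p 9 = d.p 0 * d.p 2 - d.p 9 + d.p 0 * d.p 3 * x by
      ring]
    linarith [am (k := d.p 0 * d.p 3) hx]
  have u1 : |z.1.im - d.p 10| ≤ d.p 11 := by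
    have := abs_le.1 (am (k := d.p 6) hx)
    rw [abs_le] at w1 ⊢
    constructor <;> linarith [le_abs_self (d.p 5 - d.p 10), neg_abs_le (d.p 5 - d.p 10)]
  obtain ⟨k1, k2, k3, k4, k5⟩ := hC _ u0 u1
  have l0 : cL.re = 0 := by simp [cL]
  have l1 : cL.im = √3 / 2 := by simp [cL]
  have sr : (z.2.1 - cL).re = z.2.1.re := by simp [cL]
  have si : (z.2.1 - cL).im + √3 / 2 = z.2.1.im := by simp [cL]
  have cr : |d.X .i2 + (d.a .i2 .i2 * y .i2 + d.a .i2 .i3 * y .i3)| ≤ d.ac := by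
    rw [ac, add_assoc]
    exact (abs_add_le _ _).trans (add_le_add le_rfl ((abs_add_le _ _).trans
      (add_le_add (am y2) (am y3))))
  have ci : |d.X .i3 - √3 / 2 + (d.a .i3 .i2 * y .i2 + d.a .i3 .i3 * y .i3)| ≤ d.bc := by
    have := abs_sub (d.X .i3 - c3) (√3 / 2 - c3)
    rw [sub_sub_sub_cancel_right] at this
    rw [bc, add_assoc]
    exact (abs_add_le _ _).trans (add_le_add (by linarith [c3_err]) ((abs_add_le _ _).trans
      (add_le_add (am y2) (am y3))))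
  have S0 : 0 < 63 / 64 * max (C.S.f z.1) (1 / 1024) :=
    mul_pos (by norm_num) (lt_max_of_lt_right (by norm_num))
  have nn : |(z.2.1 - cL).re| ≤ d.al → |(z.2.1 - cL).im| ≤ d.be →
      ‖z.2.1 - cL‖ ≤ d.p 20 ∧ ‖C.sh z‖ < 1 := fun h1 h2 => by
    have : ‖z.2.1 - cL‖ ≤ d.p 20 := by
      refine (abs_le_of_sq_le_sq' ?_ f1).2
      rw [sq_norm']
      linarith [sq_le_sq' (abs_le.1 h1).1 (abs_le.1 h1).2, sq_le_sq' (abs_le.1 h2).1 (abs_le.1 h2).2]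
    refine ⟨this, ?_⟩
    rw [CD.sh, norm_div, norm_real, Real.norm_of_nonneg S0.le, div_lt_one S0]
    linarith [le_max_left (C.S.f z.1) (1 / 1024)]
  refine ⟨fun y0 y1 => ?_, fun t ht e => ?_⟩
  · have br : |(z.2.1 - cL).re| ≤ d.al := by
      have := am (k := d.a .i2 .i0) y0
      rw [abs_of_pos b4] at this
      rw [abs_le] at cr this ⊢
      rw [al]
      constructor <;> linarith
    have bi : |(z.2.1 - cL).im| ≤ d.be := by
      have := am (k := d.a .i3 .i1) y1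
      rw [abs_of_pos b8] at this
      rw [abs_le] at ci this ⊢
      rw [be]
      constructor <;> linarith
    obtain ⟨n1, n2⟩ := nn br bi
    have hq : ‖z.2.2 - cL * z.1 - C.M z.1 (z.2.1 - cL)‖ ≤ d.p 18 * d.p 20 :=
      h1.trans (mul_le_mul k4 n1 (norm_nonneg _) f4)
    have m1 := abs_le.1 k1
    have m2 := abs_le.1 k2
    refine ⟨fun j => ?_, n2⟩
    cases j
    exacts [y0, y1, y2, y3,
      wrow (em := C.a.f z.1 - d.p 12 + (C.b1.f z.1 - d.p 14)) (by simp) y0 y1 y2 y3 z1 u1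
        (sr.trans z2) (si.trans z3) br bi (abs_le.2 ⟨by linarith, by linarith⟩) k3
        ((abs_re_le_norm _).trans hq) (by simp [CD.M, l0, l1]; ring) z4 c4 g1,
      wrow (en := C.a.f z.1 - d.p 12 - (C.b1.f z.1 - d.p 14)) abs_one y0 y1 y2 y3 z0 u0
        (sr.trans z2) (si.trans z3) br bi k3 (abs_le.2 ⟨by linarith, by linarith⟩)
        ((abs_im_le_norm _).trans hq) (by simp [CD.M, l0, l1]; ring) z5 c5 g2]
  · have e1 := congrArg Complex.re e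
    have e2 := congrArg Complex.im e
    simp only [CD.sh, add_re, add_im, smul_re, smul_im, div_ofReal_re, div_ofReal_im, smul_eq_mul,
      zero_re, zero_im] at e1 e2
    have p0 : 0 ≤ (1 - t) / (63 / 64 * max (C.S.f z.1) (1 / 1024)) :=
      div_nonneg (sub_nonneg.2 ht.2) S0.le
    have q0 : ∀ j, 0 < (1 - t) / (63 / 64 * max (C.S.f z.1) (1 / 1024)) + t / d.R j := fun j => by
      rcases ht.1.eq_or_lt with h | h
      · rw [← h, zero_div, add_zero, sub_zero]; exact div_pos one_pos S0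
      · exact add_pos_of_nonneg_of_pos p0 (div_pos h (R0 j))
    refine (nn ?_ ?_).2
    · exact (opp (y := y .i0) p0 (div_nonneg ht.1 (R0 .i0).le) (q0 _) (by linear_combination e1) b4
        (by linear_combination sr + z2) cr).trans (le_add_of_nonneg_right (mul_pos b4 (R0 _)).le)
    · exact (opp (y := y .i1) p0 (div_nonneg ht.1 (R0 .i1).le) (q0 _) (by linear_combination e2) b8
        (by linear_combination si + z3) ci).trans (le_add_of_nonneg_right (mul_pos b8 (R0 _)).le)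

end ID

lemma sh_cont (C : CD) : Continuous C.sh := by
  have := C.S.cont
  refine Continuous.div (by fun_prop) (by fun_prop) fun z => ?_
  exact ofReal_ne_zero.2 (mul_pos (by norm_num) (lt_max_of_lt_right (by norm_num))).ne'

theorem enter {d : ID ℝ} (h : d.P) {C : CD} (hC : d.Cell C) {r : Raw} (hr : r.ok = true)
    (e1 : ∀ k j, d.a k j = r.As (-1) k j) (e2 : d.X = r.xs (-1)) (e3 : d.R = r.ss.R) {n : ℕ}
    {l : List SS} (hc : Chain Out n r.ss l) {μ : Fin 3 → ℝ} (hμ : Mass μ) {X : ℂ → Z3}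
    (hX : Fam C X) (hI : ∀ ξ, ‖C.sh (X ξ)‖ ≤ 1 → C.In (X ξ) ∧ 0 < En μ (X ξ) ∧ d.On (X ξ).1) :
    ∃ ξ, ‖C.sh (X ξ)‖ ≤ 1 ∧ EscR μ (X ξ) := by
  have ok := Raw.ss_ok hr
  have c1 := (sh_cont C).comp hX.cont
  have pt := fun ξ h1 => ID.point h hC (e3 ▸ ok.R0) (z := X ξ) (y := r.yy (-1) (co (X ξ)))
    (fun k => by
      simp only [e1, e2]
      exact (congrFun (Raw.yy_spec (Raw.det_ne hr (by simp)) _) k).symm) (hI ξ h1).1 (hI ξ h1).2.2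
  have bx : ∀ ξ j, |r.ss.yS j (co (X ξ)) / r.ss.R j| ≤ 1 → |r.yy (-1) (co (X ξ)) j| ≤ d.R j :=
    fun ξ j h1 => by
      rwa [abs_div, abs_of_pos (ok.R0 j), div_le_one (ok.R0 j), ← e3] at h1
  obtain ⟨ξ, h1, h2⟩ := chain_main hμ hX.cont hX.nc
    (isClosed_univ.inter (isClosed_le c1.norm continuous_const)) hc
    (ess_step (N' := nM) continuous_norm (by simp) isClosed_univ c1
      (ok.cg.comp (co_cont.comp hX.cont)) hX.ess fun ξ _ h1 => ⟨by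
        by_contra h2
        push Not at h2
        exact (((pt ξ h1.le).1 (bx ξ _ ((le_max_left _ _).trans h2.le))
          (bx ξ _ ((le_max_right _ _).trans h2.le))).2).ne h1,
        fun t ht h2 => ((pt ξ h1.le).2 t ht (e3 ▸ h2)).ne h1⟩)
    fun ξ h1 h2 => ⟨fun j => (((pt ξ h1.2).1 (bx ξ _ ((le_max_left _ _).trans h2))
      (bx ξ _ ((le_max_right _ _).trans h2))).1 j).trans_eq (congrFun e3 j), (hI ξ h1.2).2.1⟩
  exact ⟨ξ, h1.2, h2⟩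

end Pool.Agent.Lib.MP_6e7c44_mp.LA
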