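import Pool.Agent.Lib.MP_6e7c44_mp.LA.LocalAux
import Pool.Agent.Lib.MP_6e7c44_mp.LA.Back

/-! The local stage. -/

set_option autoImplicit false

open Set Complex Filter Topology

noncomputable section

namespace Pool.Agent.Lib.MP_6e7c44_mp.LA

namespace LocalAux

lemma at_kp {C : CD} (hC : C.OK) {η : ℂ} (h1 : ‖η‖ ^ 2 ≤ 2 + 1 / 1024)
    (h2 : -(1 / 1024) ≤ η.im) : 1 / 512 ≤ C.S.f η ∧ C.S.f η ≤ 1 / 16 ∧ 0 ≤ C.D.f η := by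
  obtain ⟨m, h⟩ := hC η (Kp η) h1 h2 (by simp)
  exact ⟨h.S0, h.S1, le_trans (by norm_num) h.D0⟩

lemma den_pos (C : CD) (η : ℂ) : 0 < 63 / 64 * max (C.S.f η) (1 / 1024) :=
  mul_pos (by norm_num) (lt_max_of_lt_right (by norm_num))

lemma cont_sh (C : CD) : Continuous C.sh :=
  (continuous_snd.fst.sub continuous_const).div (continuous_ofReal.comp
    (continuous_const.mul ((C.S.cont.comp continuous_fst).max continuous_const)))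
    fun z => ofReal_ne_zero.2 (den_pos C z.1).ne'

/-- A compact box around the Lagrange states. -/
def K1 (C : CD) : Set Z3 := {z | ‖z.1‖ ^ 2 ≤ 2 + 1 / 1024 ∧ -(1 / 1024) ≤ z.1.im ∧
  ‖z.2.1 - cL‖ ≤ 63 / 64 * C.S.f z.1 ∧ ‖z.2.2 - cL * z.1‖ ≤ 3}

lemma closed_K1 (C : CD) : IsClosed (K1 C) := by
  have := C.S.cont
  unfold K1
  refine IsClosed.and ?_ (.and ?_ (.and ?_ ?_)) <;> exact isClosed_le (by fun_prop) (by fun_prop)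

lemma compact_K1 {C : CD} (hC : C.OK) : IsCompact (K1 C) := by
  refine Metric.isCompact_of_isClosed_isBounded (closed_K1 C)
    ((Metric.isBounded_closedBall (x := 0) (r := 3 + 2 * ‖cL‖)).subset fun z hz => ?_)
  obtain ⟨a1, a2, a3, a4⟩ := hz
  have a5 := (at_kp hC a1 a2).2.1
  have a6 : ‖z.1‖ ≤ 2 := by nlinarith [norm_nonneg z.1]
  have a7 := norm_sub_norm_le z.2.1 cL
  have a8 := norm_sub_norm_le z.2.2 (cL * z.1)
  have a9 := norm_nonneg cL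
  rw [norm_mul] at a8
  rw [mem_closedBall_zero_iff, Prod.norm_def, Prod.norm_def]
  exact max_le (by linarith) (max_le (by linarith) (by nlinarith))

/-- The open region in which the estimates hold. -/
def U1 (C : CD) : Set Z3 := {z | ‖z.1‖ < 2 ∧ ‖z.2.1 - cL‖ < 1 / 10 ∧
  ‖z.2.1 - cL‖ < C.S.f z.1 ∧ ‖z.2.2 - cL * z.1‖ < 4}

lemma open_U1 (C : CD) : IsOpen (U1 C) := by
  have := C.S.cont
  unfold U1
  refine IsOpen.and ?_ (.and ?_ (.and ?_ ?_)) <;> exact isOpen_lt (by fun_prop) (by fun_prop)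

lemma K1_sub {C : CD} (hC : C.OK) : K1 C ⊆ U1 C := fun z ⟨a1, a2, a3, a4⟩ => by
  obtain ⟨b1, b2, -⟩ := at_kp hC a1 a2
  exact ⟨by nlinarith [norm_nonneg z.1], by linarith, by linarith, by linarith⟩

/-- The family of starting points. -/
def st (C : CD) (η s : ℂ) : Z3 := (η, cL + s, cL * η + C.M η s)

lemma cont_st (C : CD) (η : ℂ) : Continuous (st C η) := by
  unfold st CD.M
  fun_prop

lemma st_zero (C : CD) (η : ℂ) : st C η 0 = lag η := by simp [st, lag, CD.M]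

lemma st_in {C : CD} {η : ℂ} (h : 0 ≤ C.D.f η) (s : ℂ) : C.In (st C η s) := by
  simp only [CD.In, st, add_sub_cancel_left, sub_self, norm_zero]
  positivity

/-- An orbit that ends close to the apex has always been in the box. -/
lemma orbit {C : CD} (hC : C.OK) {μ : Fin 3 → ℝ} (hμ : Mass μ) {γ : ℝ → Z3} {g : ℝ → ℝ}
    (hg : Continuous g) (g0 : ∀ t, 0 ≤ g t)
    (h : ∀ t, γ t ∈ U1 C ∧ HasDerivAt γ (g t • GR μ (γ t)) t) (h0 : C.In (γ 0))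
    (h1 : 0 < En μ (γ 0)) (h2 : 0 < Am μ (γ 0)) {T : ℝ} (hT : 0 ≤ T) :
    (∀ t ∈ Icc 0 T, ‖C.sh (γ 0)‖ ≤ ‖C.sh (γ t)‖) ∧ (‖C.sh (γ T)‖ ≤ 1 →
      (∀ t ∈ Icc 0 T, γ t ∈ K1 C ∧ C.In (γ t)) ∧ ∀ κ : ℝ, (∀ t ∈ Icc 0 T, κ ≤ g t) →
        κ / 32 * ‖C.sh (γ 0)‖ ^ 2 * T ≤ 1) := by
  have ap := fun t => inv_approx hμ (h t).1.1.le (h t).1.2.1.le (h t).1.2.2.2.le
  have iv := inv_flow hμ hg fun t => ⟨(ap t).1, (h t).2⟩
  have a1 : ∀ t, ‖(γ t).1‖ ^ 2 ≤ 2 + 1 / 1024 := fun t => by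
    linarith [(abs_le.1 (ap t).2.1).2, (iv t).1 h1]
  have a2 : ∀ t, -(1 / 1024) ≤ (γ t).1.im := fun t => by
    linarith [(abs_le.1 (ap t).2.2.1).2, (iv t).2.1 h2]
  have cf := cone_flow (T := T) hC hμ hg g0
    (fun t _ => ⟨(h t).2, a1 t, a2 t, (h t).1.2.2.1.le⟩) h0
  have mo : ∀ a ∈ Icc 0 T, ∀ b ∈ Icc 0 T, a ≤ b → ‖C.sh (γ a)‖ ≤ ‖C.sh (γ b)‖ :=
    fun a ha b hb e => le_of_pow_le_pow_left₀ two_ne_zero (norm_nonneg _) (by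
      have := grow (f := fun s => ‖C.sh (γ s)‖ ^ 2) (c := 0) (fun t ht =>
        let ⟨d, k, k'⟩ := (cf t ht).2
        ⟨d, k, le_trans (by have := g0 t; positivity) k'⟩) a ha b hb e
      linarith)
  have m0 := fun t (ht : t ∈ Icc 0 T) => mo 0 ⟨le_rfl, hT⟩ t ht ht.1
  refine ⟨m0, fun e => ⟨fun t ht => ⟨⟨a1 t, a2 t, ?_, cone_p hC (a1 t) (a2 t) (h t).1.2.2.1.le
    (cf t ht).1⟩, (cf t ht).1⟩, fun κ hκ => ?_⟩⟩
  · have b := (mo t ht T ⟨hT, le_rfl⟩ ht.2).trans e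
    rwa [CD.sh, norm_div, norm_real, Real.norm_of_nonneg (den_pos C _).le,
      div_le_one (den_pos C _),
      max_eq_left (le_trans (by norm_num) (at_kp hC (a1 t) (a2 t)).1)] at b
  · have := grow (f := fun s => ‖C.sh (γ s)‖ ^ 2) (c := κ / 32 * ‖C.sh (γ 0)‖ ^ 2) (fun t ht =>
      let ⟨d, k, k'⟩ := (cf t ht).2
      ⟨d, k, le_trans (mul_le_mul (by linarith [hκ t ht])
        (pow_le_pow_left₀ (norm_nonneg _) (m0 t ht) 2) (by positivity)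
        (by linarith [g0 t])) k'⟩) 0 ⟨le_rfl, hT⟩ T ⟨hT, le_rfl⟩ hT
    have b := pow_le_one₀ (n := 2) (norm_nonneg _) e
    rw [sub_zero] at this
    nlinarith [sq_nonneg ‖C.sh (γ 0)‖]

end LocalAux

open LocalAux

theorem local_main {C : CD} (hC : C.OK) {μ : Fin 3 → ℝ} (hμ : Mass μ) {η : ℂ} (h1 : ‖η‖ ^ 2 < 2)
    (h2 : 0 < η.im) {u : ℂ} (hu : u ≠ 0) {V : Set Z3} (hV : V ∈ 𝓝 (lag η)) :
    ∃ X, Fam C X ∧ ∀ ξ, ‖C.sh (X ξ)‖ ≤ 1 → C.Init μ (1 - (2 - ‖η‖ ^ 2) * η.im ^ 2) u (X ξ) ∧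
      (EscR μ (X ξ) → ∃ z ∈ V, EscR μ z) := by
  obtain ⟨l1, l2, l3⟩ := inv_lag hμ η
  obtain ⟨s1, s2, s3⟩ := at_kp hC (η := η) (by linarith) (by linarith)
  have l4 : 2 * (En μ (lag η) * Am μ (lag η) ^ 2) = 1 - (1 - (2 - ‖η‖ ^ 2) * η.im ^ 2) := by
    rw [l2, l3]; ring
  generalize 1 - (2 - ‖η‖ ^ 2) * η.im ^ 2 = e2 at l4 ⊢
  obtain ⟨ρ, O, o1, o2, o3, o4, o5, o6⟩ := clock hμ e2 hu
  have kn : K1 C ⊆ {z | NC z} := fun z hz =>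
    (inv_approx hμ (K1_sub hC hz).1.le (K1_sub hC hz).2.1.le (K1_sub hC hz).2.2.2.le).1
  have l5 : 0 < En μ (lag η) := by linarith
  have l6 : 0 < Am μ (lag η) := by linarith
  obtain ⟨J, hJ⟩ : ∃ J : Z3 → ℝ, J = fun z => En μ z * Am μ z ^ 2 := ⟨_, rfl⟩
  have cJ : ContinuousOn J {z | NC z} :=
    hJ ▸ (cd_En μ).continuousOn.mul ((cd_Am μ).continuous.pow 2).continuousOn
  have l7 : 0 < J (lag η) := by rw [hJ]; positivity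
  obtain ⟨Q, hQ⟩ : ∃ Q : Set ℝ, Q = Icc (max (J (lag η) / 2) (J (lag η) - 1 / 2 ^ 41))
    (J (lag η) + 1 / 2 ^ 41) := ⟨_, rfl⟩
  have q1 : Q ∈ 𝓝 (J (lag η)) := hQ ▸ Icc_mem_nhds (max_lt (by linarith) (by norm_num)) (by norm_num)
  have q2 : ∀ z ∈ K1 C, J z ∈ Q → 0 < En μ z ∧ z ∈ O ∧
      |z.1.im ^ 2 - (1 - z.1.re ^ 2 / 2 - yy μ z)| ≤ 1 / 2 ^ 36 ∧
      |z.1.re ^ 2 + yy μ z ^ 2 - z.1.re ^ 4 / 4 - e2| ≤ 1 / 2 ^ 36 := fun z hz hq => by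
    rw [hQ, mem_Icc, max_le_iff] at hq
    have a : 0 < En μ z := by
      have : 0 < J z := by linarith [hq.1.1]
      rw [hJ] at this
      exact pos_of_mul_pos_left this (sq_nonneg _)
    obtain ⟨b1, b2, b3⟩ := est hμ (e2 := e2) hz.1 (K1_sub hC hz).2.1.le (K1_sub hC hz).2.2.2.le (by
      simp only [hJ] at hq
      rw [← l4, abs_le]; constructor <;> linarith [hq.1.2, hq.2])
    exact ⟨a, o5 z (kn hz) a b2 b3, b1, b2⟩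
  have cK : IsCompact (K1 C ∩ J ⁻¹' Q) := (compact_K1 hC).of_isClosed_subset
    ((cJ.mono kn).preimage_isClosed_of_isClosed (closed_K1 C) (hQ ▸ isClosed_Icc)) inter_subset_left
  have kO : K1 C ∩ J ⁻¹' Q ⊆ O ∩ U1 C := fun z hz => ⟨(q2 z hz.1 hz.2).2.1, K1_sub hC hz.1⟩
  have lK : lag η ∈ K1 C ∩ J ⁻¹' Q := ⟨⟨by simp only [lag]; linarith, by simp only [lag]; linarith,
    by simp only [lag, sub_self, norm_zero]; linarith, by simp [lag]⟩, (mem_of_mem_nhds q1 :)⟩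
  obtain ⟨Φ, β, f1, f2, f3, f4, f5, f6⟩ := cutoff_flow (o1.inter (open_U1 C)) cK kO
    (F := fun z => (ρ z)⁻¹ • GR μ z) (((o3.inv fun z hz => (o4 z hz).ne').smul
      ((cd_GR μ).mono o2)).mono inter_subset_left)
  obtain ⟨M, hM⟩ := cK.bddAbove_image (o3.continuousOn.mono fun z hz => (kO hz).1)
  have M1 : ∀ z ∈ K1 C ∩ J ⁻¹' Q, ρ z ≤ M := fun z hz => hM (mem_image_of_mem _ hz)
  have M0 : 0 < M := (o4 _ (kO lK).1).trans_le (M1 _ lK)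
  obtain ⟨W, hW, o6⟩ := o6 _ (kO lK).1
  have nl := isOpen_NC.mem_nhds l1
  have ev : ∀ᶠ z in 𝓝 (lag η), z ∈ V ∧ z ∈ W ∧ z ∈ O ∩ U1 C ∧ 0 < En μ z ∧ 0 < Am μ z ∧ J z ∈ Q :=
    (eventually_mem_set.2 hV).and ((eventually_mem_set.2 hW).and
      (((o1.inter (open_U1 C)).eventually_mem (kO lK)).and
      ((((cd_En μ).continuousOn.continuousAt nl).eventually (lt_mem_nhds l5)).and
      (((cd_Am μ).continuous.continuousAt.eventually (lt_mem_nhds l6)).and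
        ((cJ.continuousAt nl).eventually_mem q1)))))
  obtain ⟨r, r0, hr⟩ := Metric.nhds_basis_closedBall.eventually_iff.1
    ((cont_st C η).continuousAt.eventually (st_zero C η ▸ ev))
  obtain ⟨z, cz, z1, z2, z3⟩ : ∃ z : ℂ → Z3, Continuous z ∧ (∀ ξ, C.In (z ξ)) ∧
      (∀ ξ, z ξ ∈ V ∧ z ξ ∈ W ∧ z ξ ∈ O ∩ U1 C ∧ 0 < En μ (z ξ) ∧ 0 < Am μ (z ξ) ∧ J (z ξ) ∈ Q) ∧
      ∀ ξ, ‖ξ‖ = 1 → C.sh (z ξ) = (r / (63 / 64 * max (C.S.f η) (1 / 1024)) : ℝ) * ξ := by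
    have p : ∀ ξ : ℂ, 0 < max 1 ‖ξ‖ := fun ξ => lt_max_of_lt_left one_pos
    refine ⟨fun ξ => st C η ((r / max 1 ‖ξ‖ : ℝ) * ξ), (cont_st C η).comp
      ((continuous_ofReal.comp (continuous_const.div (by fun_prop) fun ξ => (p ξ).ne')).mul
        continuous_id), fun ξ => st_in s3 _, fun ξ => hr ?_, fun ξ hξ => ?_⟩
    · rw [mem_closedBall_zero_iff, norm_mul, norm_real,
        Real.norm_of_nonneg (div_pos r0 (p ξ)).le, div_mul_eq_mul_div, div_le_iff₀ (p ξ)]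
      exact mul_le_mul_of_nonneg_left (le_max_right _ _) r0.le
    · simp only [CD.sh, st, hξ, max_self, div_one, add_sub_cancel_left, ofReal_div]
      ring
  have r1 := div_pos r0 (den_pos C η)
  generalize r / (63 / 64 * max (C.S.f η) (1 / 1024)) = R at z3 r1
  obtain ⟨T, t1, t2, t3⟩ := o6 (64 * M / R ^ 2)
  have t4 : ∀ ξ, 0 ≤ T (z ξ) := fun ξ => le_trans (by positivity) (t2 _ (z2 ξ).2.1)
  have cT : Continuous fun ξ => T (z ξ) := t1.comp_continuous cz fun ξ => (z2 ξ).2.1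
  have main : ∀ ξ, (∀ t ∈ Icc 0 (T (z ξ)), ‖C.sh (z ξ)‖ ≤ ‖C.sh (Φ t (z ξ))‖) ∧
      (‖C.sh (Φ (T (z ξ)) (z ξ))‖ ≤ 1 → M⁻¹ / 32 * ‖C.sh (z ξ)‖ ^ 2 * T (z ξ) ≤ 1 ∧
        C.Init μ e2 u (Φ (T (z ξ)) (z ξ)) ∧ (EscR μ (Φ (T (z ξ)) (z ξ)) → EscR μ (z ξ))) := by
    intro ξ
    obtain ⟨-, a2, a3, a4, a5, a6⟩ := z2 ξ
    have a0 := z1 ξ
    have hT := t4 ξ
    have f6 := f6 _ a3
    obtain ⟨γ, hγ⟩ : ∃ γ : ℝ → Z3, γ = fun t => Φ t (z ξ) := ⟨_, rfl⟩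
    have e : ∀ t, Φ t (z ξ) = γ t := fun t => by rw [hγ]
    have e0 : z ξ = γ 0 := by rw [← e, f2]
    simp only [e, smul_smul] at f6 ⊢
    rw [e0] at a0 a2 a4 a5 a6 hT ⊢
    have cγ : Continuous γ := continuous_iff_continuousAt.2 fun t => (f6 t).2.continuousAt
    have cg : Continuous fun t => β (γ t) * (ρ (γ t))⁻¹ := (f3.comp cγ).mul
      ((o3.continuousOn.comp_continuous cγ fun t => (f6 t).1.1).inv₀ fun t => (o4 _ (f6 t).1.1).ne')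
    obtain ⟨b1, b2⟩ := orbit hC hμ cg
      (fun t => mul_nonneg (f4 _).1 (inv_pos.2 (o4 _ (f6 t).1.1)).le)
      (fun t => ⟨(f6 t).1.2, (f6 t).2⟩) a0 a4 a5 hT
    refine ⟨b1, fun h => ?_⟩
    obtain ⟨b2, b3⟩ := b2 h
    have iv := inv_flow hμ cg fun t => ⟨o2 (f6 t).1.1, (f6 t).2⟩
    have b4 : ∀ t ∈ Icc 0 (T (γ 0)), γ t ∈ K1 C ∩ J ⁻¹' Q := fun t ht => ⟨(b2 t ht).1, by
      rw [hJ] at a6 ⊢
      simpa only [mem_preimage, (iv t).2.2] using a6⟩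
    have hT' : T (γ 0) ∈ Icc 0 (T (γ 0)) := ⟨hT, le_rfl⟩
    obtain ⟨c1, -, c2, c3⟩ := q2 _ (b4 _ hT').1 (b4 _ hT').2
    refine ⟨b3 _ fun t ht => ?_, ⟨(b2 _ hT').2, (b2 _ hT').1.1, (b2 _ hT').1.2.1, c1, _, c2, c3,
      t3 γ a2 hT fun t ht => ⟨(f6 t).1.1, ?_⟩⟩,
      back hμ cg hT (fun t => ⟨o2 (f6 t).1.1, (f6 t).2⟩) fun t ht => ?_⟩
    · rw [f5 _ (b4 t ht), one_mul]
      exact inv_anti₀ (o4 _ (f6 t).1.1) (M1 _ (b4 t ht))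
    · simpa only [f5 _ (b4 t ht), one_mul] using (f6 t).2
    · rw [f5 _ (b4 t ht), one_mul]
      exact inv_pos.2 (o4 _ (f6 t).1.1)
  refine ⟨fun ξ => Φ (T (z ξ)) (z ξ), ⟨f1.comp (cT.prodMk cz),
    fun ξ => o2 (f6 _ (z2 ξ).2.2.1 _).1.1, ess_base (H := fun p => C.sh (Φ p.2 (z p.1)))
      ((cont_sh C).comp (f1.comp (continuous_snd.prodMk (cz.comp continuous_fst)))) cT t4 r1
      (fun ξ hξ => by simp only [f2, z3 ξ hξ]) fun ξ hξ => ?_⟩,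
    fun ξ h => ⟨((main ξ).2 h).2.1, fun k => ⟨_, (z2 ξ).1, ((main ξ).2 h).2.2 k⟩⟩⟩
  have n : ‖C.sh (z ξ)‖ = R := by
    rw [z3 ξ hξ, norm_mul, hξ, mul_one, norm_real, Real.norm_of_nonneg r1.le]
  refine ⟨fun t ht => norm_pos_iff.1 (r1.trans_le (n ▸ (main ξ).1 t ht)),
    le_of_not_gt fun h => ?_⟩
  have a := ((main ξ).2 h.le).1
  have b := mul_le_mul_of_nonneg_left (t2 _ (z2 ξ).2.1) (show 0 ≤ M⁻¹ / 32 * R ^ 2 by positivity)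
  rw [show M⁻¹ / 32 * R ^ 2 * (64 * M / R ^ 2) = 2 by field_simp; norm_num] at b
  rw [n] at a
  linarith

end Pool.Agent.Lib.MP_6e7c44_mp.LA
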