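import Pool.Agent.Lib.MP_6e7c44_mp.LA.Flow
import Pool.Agent.Lib.MP_6e7c44_mp.LA.Inv

/-! The clock of the local stage. -/

set_option autoImplicit false

open Set Complex Filter Topology

noncomputable section

namespace Pool.Agent.Lib.MP_6e7c44_mp.LA.LocalAux

lemma grow {f : ℝ → ℝ} {T c : ℝ} (h : ∀ t ∈ Icc 0 T, ∃ d, HasDerivAt f d t ∧ c ≤ d) :
    ∀ a ∈ Icc 0 T, ∀ b ∈ Icc 0 T, a ≤ b → c * (b - a) ≤ f b - f a :=
  (convex_Icc 0 T).mul_sub_le_image_sub_of_le_deriv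
    (fun t ht => let ⟨_, k, _⟩ := h t ht; k.continuousAt.continuousWithinAt)
    (fun t ht => let ⟨_, k, _⟩ := h t (interior_subset ht)
      k.differentiableAt.differentiableWithinAt)
    fun t ht => let ⟨_, k, k'⟩ := h t (interior_subset ht); k.deriv ▸ k'

/-- A plane curve of angular speed one ends on the prescribed ray. -/
lemma ray {v y : ℝ → ℝ} {T c : ℝ} {u : ℂ} (hT : 0 ≤ T) (hc : 0 < c)
    (h : ∀ t ∈ Icc 0 T, 0 < v t ^ 2 + y t ^ 2 ∧ ∃ v' y', HasDerivAt v v' t ∧ HasDerivAt y y' t ∧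
      v t * y' - y t * v' = v t ^ 2 + y t ^ 2)
    (h0 : (v 0 + y 0 * I) * exp (T * I) = c * u) :
    ∃ t : ℝ, 0 < t ∧ v T = t * u.re ∧ y T = t * u.im := by
  have key : ∀ t ∈ Icc 0 T, HasDerivAt (fun s : ℝ => (v s + y s * I) * exp ((T - s) * I) /
      (√(v s ^ 2 + y s ^ 2) : ℝ)) 0 t := fun t ht => by
    obtain ⟨hn, v', y', hv, hy, e⟩ := h t ht
    have h1 := (hv.ofReal_comp.add (hy.ofReal_comp.mul_const I)).mul
      ((((hasDerivAt_id t).ofReal_comp.const_sub (T : ℂ)).mul_const I).cexp)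
    have h2 := ((hv.pow 2).add (hy.pow 2)).sqrt hn.ne'
    have h3 := Real.sqrt_pos.2 hn
    refine (h1.div h2.ofReal_comp (ofReal_ne_zero.2 h3.ne')).congr_deriv ?_
    have h4 : ((√(v t ^ 2 + y t ^ 2) : ℝ) : ℂ) ^ 2 = v t ^ 2 + y t ^ 2 := by
      exact_mod_cast Real.sq_sqrt hn.le
    have e' : (v t : ℂ) * y' - y t * v' = v t ^ 2 + y t ^ 2 := by exact_mod_cast e
    have h5 := ofReal_ne_zero.2 h3.ne'
    simp only [Pi.add_apply, Pi.pow_apply, Pi.mul_apply, id] at h5 ⊢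
    push_cast
    generalize ((√(v t ^ 2 + y t ^ 2) : ℝ) : ℂ) = N at h4 h5 ⊢
    generalize cexp ((T - t) * I) = E
    field_simp
    rw [h4]
    linear_combination E * ((I * v t - y t) * e' - y t * (v t ^ 2 + y t ^ 2) * I_mul_I)
  have hk := constant_of_has_deriv_right_zero
    (fun t ht => (key t ht).continuousAt.continuousWithinAt)
    (fun t ht => (key t (Ico_subset_Icc_self ht)).hasDerivWithinAt) T ⟨hT, le_rfl⟩
  have n0 := Real.sqrt_pos.2 (h 0 ⟨le_rfl, hT⟩).1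
  have nT := Real.sqrt_pos.2 (h T ⟨hT, le_rfl⟩).1
  rw [ofReal_zero, sub_zero, h0, sub_self, zero_mul, exp_zero, mul_one,
    div_eq_iff (ofReal_ne_zero.2 nT.ne')] at hk
  have e : (v T + y T * I : ℂ) =
      (c / √(v 0 ^ 2 + y 0 ^ 2) * √(v T ^ 2 + y T ^ 2) : ℝ) * u := by rw [hk]; push_cast; ring
  refine ⟨_, mul_pos (div_pos hc n0) nT, ?_, ?_⟩
  · simpa only [add_re, ofReal_re, mul_I_re, ofReal_im, neg_zero, add_zero, re_ofReal_mul] using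
      congrArg re e
  · simpa only [add_im, ofReal_re, mul_I_im, ofReal_im, zero_add, im_ofReal_mul] using
      congrArg im e

variable {μ : Fin 3 → ℝ}

def yy (μ : Fin 3 → ℝ) (z : Z3) : ℝ := En μ z - Am μ z ^ 2 / 2

def Nm (μ : Fin 3 → ℝ) (z : Z3) : ℝ :=
  z.1.re ^ 2 * (En μ z + Am μ z ^ 2 / 2) - yy μ z * (GR μ z).1.re

lemma est (hμ : Mass μ) {z : Z3} {e2 : ℝ} (h1 : ‖z.1‖ ^ 2 ≤ 2 + 1 / 1024)
    (h2 : ‖z.2.1 - cL‖ ≤ 1 / 10) (h3 : ‖z.2.2 - cL * z.1‖ ≤ 4)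
    (h4 : |2 * (En μ z * Am μ z ^ 2) - (1 - e2)| ≤ 1 / 2 ^ 40) :
    |z.1.im ^ 2 - (1 - z.1.re ^ 2 / 2 - yy μ z)| ≤ 1 / 2 ^ 36 ∧
      |z.1.re ^ 2 + yy μ z ^ 2 - z.1.re ^ 4 / 4 - e2| ≤ 1 / 2 ^ 36 ∧
      |(GR μ z).1.re + yy μ z| ≤ 1 / 2 ^ 36 := by
  obtain ⟨-, a1, a2, a3⟩ := inv_approx hμ (by nlinarith [norm_nonneg z.1]) h2 h3
  have a4 : |μ 2 * (Sg z.2.1).re| ≤ 1 / 2 ^ 50 * 1 := by
    rw [abs_mul, abs_of_pos (hμ.1 2)]
    exact mul_le_mul hμ.2.2.2 ((abs_re_le_norm _).trans (by linarith)) (abs_nonneg _) (by norm_num)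
  have a5 : (GR μ z).1.re = z.1.re ^ 2 / 2 + z.1.im ^ 2 - 1 + μ 2 * (Sg z.2.1).re := by
    simp [GR, Kp]; ring
  rw [Complex.sq_norm, normSq_apply] at h1 a1
  rw [a5, yy]
  generalize En μ z = E at *
  generalize Am μ z = A at *
  generalize z.1.re = v at *
  generalize z.1.im = w at *
  generalize μ 2 * (Sg z.2.1).re = d at *
  have b1 : |A ^ 2 / 2 - w ^ 2 / 2| ≤ 2 / 2 ^ 42 := by
    have c1 : |w| ≤ 3 / 2 := abs_le_of_sq_le_sq' (by nlinarith) (by norm_num) |> abs_le.2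
    have c2 : |(A - w) / 2 + w| ≤ 2 := by
      rw [abs_le] at *; constructor <;> linarith [a2.1, a2.2, c1.1, c1.2]
    calc _ = |A - w| * |(A - w) / 2 + w| := by rw [← abs_mul]; congr 1; ring
      _ ≤ 1 / 2 ^ 42 * 2 := by gcongr
      _ = _ := by ring
  have b2 : |E + A ^ 2 / 2 - (1 - v ^ 2 / 2)| ≤ 3 / 2 ^ 42 := by
    rw [abs_le] at *; constructor <;> nlinarith [a1.1, a1.2, b1.1, b1.2]
  have b3 : |(E + A ^ 2 / 2) ^ 2 - (1 - v ^ 2 / 2) ^ 2| ≤ 9 / 2 ^ 42 := by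
    have c2 : |E + A ^ 2 / 2 - (1 - v ^ 2 / 2) + 2 * (1 - v ^ 2 / 2)| ≤ 3 := by
      rw [abs_le] at *; constructor <;> nlinarith [b2.1, b2.2, mul_self_nonneg w]
    calc _ = |E + A ^ 2 / 2 - (1 - v ^ 2 / 2)| *
          |E + A ^ 2 / 2 - (1 - v ^ 2 / 2) + 2 * (1 - v ^ 2 / 2)| := by
          rw [← abs_mul]; congr 1; ring
      _ ≤ 3 / 2 ^ 42 * 3 := by gcongr
      _ = _ := by ring
  have b4 : v ^ 2 + (E - A ^ 2 / 2) ^ 2 - v ^ 4 / 4 - e2 =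
      (E + A ^ 2 / 2) ^ 2 - (1 - v ^ 2 / 2) ^ 2 - (2 * (E * A ^ 2) - (1 - e2)) := by ring
  rw [b4]
  simp only [abs_le, ← sq] at *
  refine ⟨⟨?_, ?_⟩, ⟨?_, ?_⟩, ?_, ?_⟩ <;>
    linarith [a1.1, a1.2, b1.1, b1.2, b3.1, b3.2, h4.1, h4.2, a4.1, a4.2]

lemma Nm_pos {z : Z3} {e2 : ℝ} (he : 1 / 2 ^ 20 ≤ e2) (h1 : 0 < En μ z)
    (h2 : |z.1.re ^ 2 + yy μ z ^ 2 - z.1.re ^ 4 / 4 - e2| ≤ 1 / 2 ^ 36)
    (h3 : |(GR μ z).1.re + yy μ z| ≤ 1 / 2 ^ 36) : 0 < Nm μ z := by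
  have a1 : |yy μ z| ≤ En μ z + Am μ z ^ 2 / 2 := by
    rw [yy, abs_le]; constructor <;> nlinarith [sq_nonneg (Am μ z)]
  have a2 : 0 < En μ z + Am μ z ^ 2 / 2 := by positivity
  have a3 : yy μ z * ((GR μ z).1.re + yy μ z) ≤ |yy μ z| * (1 / 2 ^ 36) :=
    (le_abs_self _).trans (by rw [abs_mul]; gcongr)
  rw [Nm]
  generalize En μ z + Am μ z ^ 2 / 2 = A at *
  generalize yy μ z = y at *
  generalize z.1.re = v at *
  have a4 := (abs_le.1 h2).1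
  have a5 : 0 ≤ v ^ 4 := by positivity
  rcases lt_or_ge (1 / 2 ^ 36) (v ^ 2) with h | h
  · nlinarith [mul_pos (sub_pos.2 h) a2, sq_nonneg y]
  · have a6 : 1 / 2 ^ 11 ≤ |y| := abs_le_abs (by norm_num) (by norm_num) |>.trans
      (sq_le_sq.1 (show ((1 : ℝ) / 2 ^ 11) ^ 2 ≤ y ^ 2 by linarith)) |>.trans' (le_abs_self _)
    nlinarith [sq_abs y, mul_nonneg (sq_nonneg v) a2.le]

lemma cd_re : ContDiff ℝ 1 fun z : Z3 => z.1.re := reCLM.contDiff.comp contDiff_fst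

lemma cd_yy : ContDiffOn ℝ 1 (yy μ) {z | NC z} :=
  (cd_En μ).sub (((cd_Am μ).pow 2).div_const 2).contDiffOn

lemma cd_Nm : ContDiffOn ℝ 1 (Nm μ) {z | NC z} :=
  ((cd_re.pow 2).contDiffOn.mul ((cd_En μ).add (((cd_Am μ).pow 2).div_const 2).contDiffOn)).sub
    (cd_yy.mul (reCLM.contDiff.comp_contDiffOn (cd_GR μ).fst))

lemma pos_of_Nm {z : Z3} (h : 0 < Nm μ z) : 0 < z.1.re ^ 2 + yy μ z ^ 2 := by
  refine lt_of_le_of_ne (by positivity) fun e => ?_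
  have a : z.1.re ^ 2 = 0 := by nlinarith [sq_nonneg z.1.re, sq_nonneg (yy μ z)]
  have b : yy μ z = 0 := pow_eq_zero_iff two_ne_zero |>.1 (by linarith)
  simp [Nm, a, b] at h

/-- A change of time after which the end point of an orbit lies on the section. -/
lemma clock (hμ : Mass μ) (e2 : ℝ) {u : ℂ} (hu : u ≠ 0) : ∃ (ρ : Z3 → ℝ) (O : Set Z3),
    IsOpen O ∧ O ⊆ {z | NC z} ∧ ContDiffOn ℝ 1 ρ O ∧ (∀ z ∈ O, 0 < ρ z) ∧
    (∀ z, NC z → 0 < En μ z → |z.1.re ^ 2 + yy μ z ^ 2 - z.1.re ^ 4 / 4 - e2| ≤ 1 / 2 ^ 36 →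
      |(GR μ z).1.re + yy μ z| ≤ 1 / 2 ^ 36 → z ∈ O) ∧
    ∀ z0 ∈ O, ∃ W ∈ 𝓝 z0, ∀ B : ℝ, ∃ T : Z3 → ℝ, ContinuousOn T W ∧ (∀ z ∈ W, B ≤ T z) ∧
      ∀ γ : ℝ → Z3, γ 0 ∈ W → 0 ≤ T (γ 0) →
        (∀ t ∈ Icc 0 (T (γ 0)), γ t ∈ O ∧ HasDerivAt γ ((ρ (γ t))⁻¹ • GR μ (γ t)) t) →
        1 / 2 ^ 20 ≤ e2 → ∃ t : ℝ, 0 < t ∧ (γ (T (γ 0))).1.re = t * u.re ∧
          yy μ (γ (T (γ 0))) = t * u.im := by
  rcases lt_or_ge e2 (1 / 2 ^ 20) with he | he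
  · exact ⟨fun _ => 1, _, isOpen_NC, subset_rfl, contDiffOn_const, fun _ _ => one_pos,
      fun _ h _ _ _ => h, fun _ _ => ⟨univ, univ_mem, fun B => ⟨fun _ => B, continuousOn_const,
        fun _ _ => le_rfl, fun _ _ _ _ h => absurd he (not_lt.2 h)⟩⟩⟩
  refine ⟨fun z => Nm μ z / (z.1.re ^ 2 + yy μ z ^ 2), {z | NC z} ∩ Nm μ ⁻¹' Ioi 0,
    cd_Nm.continuousOn.isOpen_inter_preimage isOpen_NC isOpen_Ioi, inter_subset_left,
    (cd_Nm.mono inter_subset_left).div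
      (((cd_re.pow 2).contDiffOn.add (cd_yy.pow 2)).mono inter_subset_left)
      fun z hz => (pos_of_Nm hz.2).ne',
    fun z hz => div_pos hz.2 (pos_of_Nm hz.2), fun z h0 h1 h2 h3 => ⟨h0, Nm_pos he h1 h2 h3⟩,
    fun z0 h0 => ?_⟩
  obtain ⟨zz, hz⟩ : ∃ zz : Z3 → ℂ, zz = fun z => (z.1.re + yy μ z * I : ℂ) := ⟨_, rfl⟩
  have c1 : ContinuousOn zz {z | NC z} :=
    hz ▸ (continuous_ofReal.comp cd_re.continuous).continuousOn.add
      ((continuous_ofReal.comp_continuousOn cd_yy.continuousOn).mul continuousOn_const)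
  have n0 : zz z0 ≠ 0 := fun e => (pos_of_Nm h0.2).ne' (by
    rw [hz] at e
    have a := congrArg re e
    have b := congrArg im e
    simp only [add_re, ofReal_re, mul_I_re, ofReal_im, neg_zero, add_zero, zero_re, add_im,
      mul_I_im, zero_add, zero_im] at a b
    simp [a, b])
  have c2 : ContinuousOn (fun z => zz z / zz z0) {z | NC z} := c1.div_const _
  refine ⟨{z | NC z} ∩ (fun z => zz z / zz z0) ⁻¹' slitPlane,
    (c2.isOpen_inter_preimage isOpen_NC isOpen_slitPlane).mem_nhds ⟨h0.1, by simp [n0]⟩,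
    fun B => ?_⟩
  obtain ⟨n, hn⟩ := exists_nat_ge (B + 8)
  refine ⟨fun z => arg (u / zz z0) + n * (2 * Real.pi) - arg (zz z / zz z0),
    continuousOn_const.sub (continuousOn_arg.comp (c2.mono inter_subset_left) fun _ h => h.2),
    fun z _ => ?_, fun γ g0 hT h _ => ?_⟩
  · nlinarith [neg_pi_lt_arg (u / zz z0), arg_le_pi (zz z / zz z0), Real.pi_gt_three,
      Real.pi_le_four, Nat.cast_nonneg (α := ℝ) n]
  have k0 := slitPlane_ne_zero g0.2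
  have k1 := div_ne_zero hu n0
  refine ray (v := fun t => (γ t).1.re) (y := fun t => yy μ (γ t)) hT
    (div_pos (norm_pos_iff.2 k0) (norm_pos_iff.2 k1)) (fun t ht => ?_) ?_
  · obtain ⟨a, b⟩ := h t ht
    have p1 := pos_of_Nm a.2
    have p2 : 0 < Nm μ (γ t) := a.2
    refine ⟨p1, _, _, (reCLM.comp (.fst ℝ ℂ (ℂ × ℂ))).hasFDerivAt.comp_hasDerivAt t b,
      (inv_En hμ a.1 b).sub (((inv_Am hμ a.1 b).pow 2).div_const 2), ?_⟩
    simp only [ContinuousLinearMap.comp_apply, ContinuousLinearMap.coe_fst', Prod.smul_fst,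
      reCLM_apply, smul_re, smul_eq_mul]
    calc _ = (Nm μ (γ t) / ((γ t).1.re ^ 2 + yy μ (γ t) ^ 2))⁻¹ * Nm μ (γ t) := by
          generalize (Nm μ (γ t) / _)⁻¹ = g
          rw [Nm]; push_cast; ring
      _ = _ := by field_simp
  · have e1 := norm_mul_exp_arg_mul_I (zz (γ 0) / zz z0)
    have e2 := norm_mul_exp_arg_mul_I (u / zz z0)
    have e3 : (((γ 0).1.re + yy μ (γ 0) * I : ℂ)) = zz (γ 0) / zz z0 * zz z0 := by
      rw [div_mul_cancel₀ _ n0, hz]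
    have e4 : u = u / zz z0 * zz z0 := (div_mul_cancel₀ _ n0).symm
    have e5 := ofReal_ne_zero.2 (norm_pos_iff.2 k1).ne'
    simp only at e1 k0 ⊢
    rw [e3]
    push_cast
    rw [sub_mul, add_mul, exp_sub, exp_add, mul_assoc (n : ℂ), exp_nat_mul_two_pi_mul_I, mul_one]
    generalize zz (γ 0) / zz z0 = a at *
    generalize u / zz z0 = b at *
    have e6 := exp_ne_zero (arg a * I)
    generalize cexp (arg a * I) = A at *
    generalize cexp (arg b * I) = B at *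
    rw [e4]
    field_simp
    linear_combination (-(‖b‖ * B)) * e1 + (‖a‖ * A) * e2

end Pool.Agent.Lib.MP_6e7c44_mp.LA.LocalAux
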