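import Pool.Agent.Lib.MP_6e7c44_mp.LA.Back
import Pool.Agent.Lib.MP_6e7c44_mp.LA.Local
import Pool.Agent.Lib.MP_6e7c44_mp.LA.Dat0
import Pool.Agent.Lib.MP_6e7c44_mp.LA.Dat1
import Pool.Agent.Lib.MP_6e7c44_mp.LA.Dat2
import Pool.Agent.Lib.MP_6e7c44_mp.LA.Dat3

/-! Escaping orbits accumulate on every elliptic Lagrange state. -/

set_option autoImplicit false

namespace Pool.Agent.Lib.MP_6e7c44_mp.LA

lemma good_all {e2 : ℝ} (h1 : 0 ≤ e2) (h2 : e2 ≤ 1) : Good CC e2 :=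
  (rg0.trans <| rg1.trans <| rg2.trans rg3) e2 (by simpa using h1) (h2.trans (by norm_num))

theorem lag_esc (μ : Fin 3 → ℝ) (hμ : Mass μ) (η : ℂ) (h1 : ‖η‖ ^ 2 < 2) (h2 : 0 < η.im) :
    phys (lag η) ∈ closure (Esc μ) := by
  have e : ‖η‖ ^ 2 = η.re ^ 2 + η.im ^ 2 := by rw [Complex.sq_norm, Complex.normSq_apply]; ring
  obtain ⟨u, hu, hg⟩ := good_all (e2 := 1 - (2 - ‖η‖ ^ 2) * η.im ^ 2)
    (by rw [e]; nlinarith [sq_nonneg (η.im ^ 2 - 1), sq_nonneg (η.re * η.im)])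
    (by nlinarith [mul_nonneg (sub_nonneg.2 h1.le) (sq_nonneg η.im)])
  have cp : Continuous phys := by unfold phys; fun_prop
  refine mem_closure_iff_nhds.2 fun V hV => ?_
  obtain ⟨X, hX, h⟩ := local_main CC_ok hμ h1 h2 hu (cp.continuousAt.preimage_mem_nhds hV)
  obtain ⟨ξ, k1, k2⟩ := hg μ hμ X hX fun ξ hξ => (h ξ hξ).1
  obtain ⟨z, z1, z2⟩ := (h ξ k1).2 k2
  exact ⟨_, z1, z2⟩

end Pool.Agent.Lib.MP_6e7c44_mp.LA
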