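import Pool.Agent.Lib.MP_6e7c44_mp.LA.Chk

/-! The numbers represented by the models of a step. -/

set_option autoImplicit false

open Finset

noncomputable section

namespace Pool.Agent.Lib.MP_6e7c44_mp.LA

/-- A time `x` and coordinates `y` in the unit cube. -/
structure Pt where
  x : ℝ
  y : I6 → ℝ
  hx : |x| ≤ 1
  hy : ∀ j, |y j| ≤ 1

def Pt.z (π : Pt) : ℕ → ℝ
  | 0 => 1
  | 1 => π.y .i0
  | 2 => π.y .i1
  | 3 => π.y .i2
  | 4 => π.y .i3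
  | 5 => π.y .i4
  | 6 => π.y .i5
  | _ => 0

def Pt.g (π : Pt) : Cx where
  c := cV
  x := π.x
  ζ := π.z
  hx := π.hx
  hy k := by unfold Pt.z; split <;> simp [π.hy]
  z0 := rfl
  hB := by decide
  hn := by decide
  hw := by decide

lemma Pt.zn (π : Pt) (j : I6) : π.z j.n = π.y j := by cases j <;> rfl

def cf' (P N i : ℕ) : ℝ := dg 128 31 P i - dg 128 31 N i
def pl (P N j : ℕ) (x : ℝ) : ℝ := ∑ k ∈ range 6, cf' P N (14 * j + k) * x ^ k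
def dpl (P N j : ℕ) (x : ℝ) : ℝ := ∑ k ∈ range 5, (k + 1) * cf' P N (14 * j + k + 1) * x ^ k

lemma pl_der (P N j : ℕ) (x : ℝ) : HasDerivAt (pl P N j) (dpl P N j x) x := by
  have := HasDerivAt.fun_sum (u := range 6) fun k _ =>
    (hasDerivAt_pow k x).const_mul (cf' P N (14 * j + k))
  refine HasDerivAt.congr_deriv this ?_
  simp [dpl, sum_range_succ]; ring

lemma mv0 (b : ℕ) (t : ℕ → Bool) (P : ℕ) (x : ℝ) {ζ : ℕ → ℝ} (h : ζ 0 = 1) :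
    mv cV 7 b r0 t P x ζ = ∑ k ∈ range 14, if t k then dg 128 b P (14 * 0 + k) * x ^ k else 0 := by
  simp [mv, r0, h, cV]

lemma mv1 (π : Pt) (b : ℕ) (t : ℕ → Bool) (P : ℕ) : mv cV 7 b r1 t P π.x π.z
    = ∑ j : I6, (∑ k ∈ range 14, if t k then dg 128 b P (14 * j.n + k) * π.x ^ k else 0) * π.y j := by
  simp only [mv, I6.sum, sum_range_succ (n := 6), sum_range_succ (n := 5), sum_range_succ (n := 4),
    sum_range_succ (n := 3), sum_range_succ (n := 2), sum_range_succ (n := 1), sum_range_one]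
  simp [r1, cV, Pt.z, I6.n, mul_comm]

lemma sum_cl (P N j : ℕ) (x : ℝ) :
    (∑ k ∈ range 14, if cl 5 k then dg 128 31 P (14 * j + k) * x ^ k else 0)
      - (∑ k ∈ range 14, if cl 5 k then dg 128 31 N (14 * j + k) * x ^ k else 0) = pl P N j x := by
  simp [sum_range_succ, cl, pl, cf']; ring

def sb' (b P j : ℕ) (x : ℝ) : ℝ :=
  ∑ k ∈ range 14, if cb b k then dg 128 31 (Nat.shiftRight P 128) (14 * j + k) * x ^ k else 0

lemma sum_cb (P N j : ℕ) (x : ℝ) : (sb' 0 P j x - sb' 0 N j x) + 2 * (sb' 1 P j x - sb' 1 N j x)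
    + 4 * (sb' 2 P j x - sb' 2 N j x) = dpl P N j x := by
  have e : ∀ Q i, dg 128 31 (Nat.shiftRight Q 128) i = dg 128 31 Q (i + 1) := fun Q i => by
    rw [add_comm]; exact dg_shift 128 31 Q i 1
  simp only [sb', e, dpl, cf']
  simp [sum_range_succ, cb, Nat.testBit]; ring

variable {π : Pt} {e f : ℕ} {p q : TM} {a b : ℝ}

lemma lw {k : ℕ} (h : k ≤ 118) : k ≤ π.g.c.B - 10 := h
lemma lx {k : ℕ} (h : k < 14) : k < π.g.c.w := h
lemma ln {k : ℕ} (h : k < 98) : k < π.g.c.n := h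
lemma h_r0 (j : ℕ) (h : r0 j) : j ≤ 0 := by simpa [r0] using h
lemma h_r1 (j : ℕ) (h : r1 j) : j ≤ 6 := by simp [r1] at h; exact h.2
lemma h_cl (q k : ℕ) (h : cl q k) : k ≤ q := by simpa [cl] using h
lemma h_cb (b k : ℕ) (h : cb b k) : k ≤ 5 := by simp [cb] at h; omega

lemma rep0 (e P N : ℕ) : Rep π.g e 5 5 (TM.ex cV mX P N) (pl P N 0 π.x / 2 ^ e) :=
  (Rep.ex π.g (m := 7) (b := 31) rfl (lw (by decide)) h_r0 (h_cl 5) e P N).congr (by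
    rw [← sum_cl]; exact congrArg (· / _) (congrArg₂ _ (mv0 _ _ _ _ rfl) (mv0 _ _ _ _ rfl)))

lemma rep1 (e P N : ℕ) :
    Rep π.g e 5 89 (TM.ex cV mA P N) ((∑ j : I6, pl P N j.n π.x * π.y j) / 2 ^ e) :=
  (Rep.ex π.g (m := 7) (b := 31) rfl (lw (by decide)) h_r1 (h_cl 5) e P N).congr (by
    refine congrArg (· / _) ((congrArg₂ _ (mv1 π _ _ _) (mv1 π _ _ _)).trans ?_)
    rw [← sum_sub_distrib]
    exact sum_congr rfl fun j _ => by rw [← sub_mul, sum_cl])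

lemma rep_dr {s : ℕ → Bool} {dy : ℕ} (hs : ∀ j, s j → j ≤ dy) (P N : ℕ) {F : ℕ → ℕ → ℝ}
    (h : ∀ b Q, mv cV 7 31 s (cb b) (Nat.shiftRight Q 128) π.x π.z = F b Q) :
    Rep π.g 0 5 (14 * dy + 5) (dr s P N)
      ((F 0 P - F 0 N) + 2 * (F 1 P - F 1 N) + 4 * (F 2 P - F 2 N)) := by
  have H := fun b => Rep.ex π.g (m := 7) (b := 31) rfl (lw (by decide)) hs (h_cb b) 0
    (Nat.shiftRight P 128) (Nat.shiftRight N 128)
  refine ((H 0).add (((H 1).up 1).scale ?_)).add (((H 2).up 2).scale ?_) |>.congr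
    (congrArg₂ _ (congrArg₂ _ ?_ rfl) rfl)
  all_goals simp only [← h]; simp [Pt.g]; try ring

lemma repd0 (P N : ℕ) : Rep π.g 0 5 5 (dr r0 P N) (dpl P N 0 π.x) :=
  (rep_dr h_r0 P N (F := fun b Q => sb' b Q 0 π.x) fun _ _ => mv0 _ _ _ _ rfl).congr (sum_cb ..)

lemma repd1 (P N : ℕ) : Rep π.g 0 5 89 (dr r1 P N) (∑ j : I6, dpl P N j.n π.x * π.y j) :=
  (rep_dr h_r1 P N (F := fun b Q => ∑ j : I6, sb' b Q j.n π.x * π.y j)
    fun _ _ => mv1 π _ _ _).congr (by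
      simp only [← sum_cb, add_mul, sub_mul, mul_assoc, sum_add_distrib, sum_sub_distrib, ← mul_sum])

lemma Rep.m2 (hp : Rep π.g e 5 5 p a) (hq : Rep π.g f 5 5 q b) :
    Rep π.g (e + f) 10 10 (mu p q) (a * b) := hp.mul hq (lx (by decide)) (lx (by decide))
lemma Rep.mw (hp : Rep π.g e 5 5 p a) (hq : Rep π.g f 5 89 q b) :
    Rep π.g (e + f) 10 94 (mu p q) (a * b) := hp.mul hq (lx (by decide)) (lx (by decide))
lemma Rep.sb {dx d : ℕ} (hp : Rep π.g e dx d p a) (hq : Rep π.g e dx d q b) :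
    Rep π.g e dx d (sb p q) (a - b) := hp.sub hq
lemma Rep.t5 (s : ℕ) (hp : Rep π.g (e + s) 10 10 p a) : Rep π.g e 5 5 (t5 s p) a :=
  hp.tr s 5 5 (ln (by decide)) (ln (by decide))
lemma Rep.bd {dx d : ℕ} (hp : Rep π.g e dx d p a) (h : d < 98) : |a| * 2 ^ e ≤ bd p := hp.nb_le h
lemma Rep.cs (e dx d n : ℕ) (h : a * 2 ^ e = 2 ^ n) :
    Rep π.g e dx d (.cst (Nat.pow 2 n)) a := (Rep.cst π.g e dx d _).scale (by rw [h]; simp)

lemma le_dn (a s : ℕ) : (a : ℝ) / 2 ^ s ≤ dn a s := by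
  have h2 : (a : ℝ) < ((a / 2 ^ s + 1 : ℕ) : ℝ) * 2 ^ s := by
    exact_mod_cast (Nat.div_lt_iff_lt_mul (by positivity)).1 (Nat.lt_succ_self _)
  rw [dn, Nat.add_eq, Nat.shiftRight_eq, Nat.shiftRight_eq_div_pow, div_le_iff₀ (by positivity)]
  exact h2.le

namespace Raw
variable (r : Raw)

def xs (x : ℝ) (i : I6) : ℝ := pl (r.xp i) (r.xn i) 0 x / 2 ^ 26
def dx (x : ℝ) (i : I6) : ℝ := dpl (r.xp i) (r.xn i) 0 x / 2 ^ 26
def As (x : ℝ) : Matrix I6 I6 ℝ := .of fun k j => pl (r.ap k) (r.an k) j.n x * 2 ^ r.u / 2 ^ 39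
def dA (x : ℝ) : Matrix I6 I6 ℝ := .of fun k j => dpl (r.ap k) (r.an k) j.n x * 2 ^ r.u / 2 ^ 39
def bs (x : ℝ) (i l : I6) : ℝ :=
  mv cV 7 15 r0 (cl 3) (r.bp i l) x (fun _ => 1) - mv cV 7 15 r0 (cl 3) (r.bn i l) x fun _ => 1
def Bv (x : ℝ) (v : I6 → ℝ) (i : I6) : ℝ := r.bs x i .i0 * v .i0 + r.bs x i .i1 * v .i1
  + if i = .i2 ∨ i = .i3 then 0 else
    r.bs x i .i2 * v .i2 + r.bs x i .i3 * v .i3 + r.bs x i .i4 * v .i4 + r.bs x i .i5 * v .i5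

lemma rX (i : I6) : Rep π.g 26 5 5 (r.X i) (r.xs π.x i) := rep0 ..

lemma rE (i : I6) : Rep π.g 39 5 89 (r.E i) ((r.As π.x).mulVec π.y i) :=
  ((rep1 0 _ _).up r.u).scale (by
    simp only [As, Matrix.mulVec, dotProduct, Matrix.of_apply, sum_mul, pow_zero, div_one, zero_add]
    exact sum_congr rfl fun j _ => by ring)

lemma rEt (i : I6) : Rep π.g 39 5 89 (r.Et i) ((r.As π.x).mulVec π.y i + r.xs π.x i / 2) :=
  (r.rE i).add ((((r.rX i).up 12).scale (by ring)).mono le_rfl (by decide))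

lemma rdZ (i : I6) : Rep π.g 80 10 94 (r.dZ i) ((r.dA π.x).mulVec π.y i + r.dx π.x i) := by
  refine (Rep.up (e := 39) 41 (Rep.add (((repd1 _ _).up r.u).scale ?_)
    ((((repd0 _ _).up 13).scale ?_).mono le_rfl (by decide)))).mono (by decide) (by decide)
  · simp only [dA, Matrix.mulVec, dotProduct, Matrix.of_apply, sum_mul, zero_add]
    exact sum_congr rfl fun j _ => by ring
  · rw [dx]; ring

lemma rB (i l : I6) : Rep π.g 0 3 3 (r.B i l) (r.bs π.x i l) :=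
  (Rep.ex π.g (m := 7) (b := 15) rfl (lw (by decide)) h_r0 (h_cl 3) 0 _ _).congr (by
    rw [pow_zero, div_one, bs, mv0 _ _ _ _ (ζ := fun _ => 1) rfl, mv0 _ _ _ _ (ζ := fun _ => 1) rfl]
    exact congrArg₂ _ (mv0 _ _ _ _ rfl) (mv0 _ _ _ _ rfl))

lemma rdB {v : I6 → TM} {w : I6 → ℝ} (h : ∀ l, Rep π.g e 10 94 (v l) (w l)) (i : I6) :
    Rep π.g e 13 97 (r.dB v i) (r.Bv π.x w i) := by
  have m : ∀ i l, Rep π.g e 13 97 (mu (r.B i l) (v l)) (r.bs π.x i l * w l) := fun i l =>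
    ((r.rB i l).mul (h l) (lx (by decide)) (lx (by decide))).scale (by rw [zero_add])
  have h2 := fun i => (m i .i0).add (m i .i1)
  have h6 := fun i => (((h2 i).add (m i .i2)).add (m i .i3)).add ((m i .i4).add (m i .i5))
  cases i
  · exact (h6 _).congr (by simp [Bv]; ring)
  · exact (h6 _).congr (by simp [Bv]; ring)
  · exact (h2 _).congr (by simp [Bv])
  · exact (h2 _).congr (by simp [Bv])
  · exact (h6 _).congr (by simp [Bv]; ring)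
  · exact (h6 _).congr (by simp [Bv]; ring)

/-- The position relative to one of the two primaries. -/
def yj (X : I6 → ℝ) (j : Bool) : ℂ := cond j (yc X + 1 / 2) (yc X - 1 / 2)

lemma rrho (j : Bool) : Rep π.g 32 5 5 (r.rho j) (‖yj (r.xs π.x) j‖ ^ 2) := by
  have hq := (Rep.t5 (e := 32) 20 (((r.rX (π := π) .i2).m2 (r.rX .i2)).add
    ((r.rX .i3).m2 (r.rX .i3)))).add (Rep.cs (a := 1 / 4) 32 5 5 30 (by norm_num))
  cases j
  · exact (hq.sb ((r.rX .i2).up 6)).congr (by simp [yj, sq_norm', yc]; ring)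
  · exact (hq.add ((r.rX .i2).up 6)).congr (by simp [yj, sq_norm', yc]; ring)

lemma inv_err {H n ε : ℝ} (h0 : 0 ≤ H) (n0 : 0 ≤ n) (h1 : |H * H * n ^ 2 - 1| ≤ ε)
    (h2 : ε ≤ 1 / 2) : 0 < n ∧ |n⁻¹ - H| ≤ 2 * ε * H ∧ |n⁻¹ ^ 2 - H * H| ≤ 2 * ε * (H * H) := by
  obtain ⟨h3, h4⟩ := abs_le.1 h1
  have np : 0 < n := n0.lt_of_ne fun h => by rw [← h] at h3; nlinarith
  obtain ⟨z, rfl⟩ : ∃ z, H = z * n⁻¹ := ⟨H * n, by field_simp⟩
  have ip : 0 < n⁻¹ := inv_pos.2 np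
  have z0 : 0 ≤ z := nonneg_of_mul_nonneg_left h0 ip
  have e1 : z * n⁻¹ * (z * n⁻¹) * n ^ 2 = z ^ 2 := by field_simp
  rw [e1] at h3 h4
  have z1 : |1 - z| ≤ ε := abs_le.2 ⟨by nlinarith, by nlinarith⟩
  have z2 := (abs_le.1 z1).2
  have e0 : 0 ≤ ε := by linarith
  refine ⟨np, ?_, ?_⟩
  · rw [show n⁻¹ - z * n⁻¹ = (1 - z) * n⁻¹ by ring, abs_mul, abs_of_pos ip]
    nlinarith [mul_nonneg (mul_nonneg e0 ip.le) (show 0 ≤ 2 * z - 1 by linarith)]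
  · rw [show n⁻¹ ^ 2 - z * n⁻¹ * (z * n⁻¹) = (1 - z ^ 2) * n⁻¹ ^ 2 by ring, abs_mul,
      abs_of_pos (pow_pos ip 2)]
    have : |1 - z ^ 2| ≤ ε := abs_le.2 ⟨by linarith, by linarith⟩
    nlinarith [mul_nonneg (mul_nonneg e0 (pow_pos ip 2).le) (show 0 ≤ 2 * z ^ 2 - 1 by linarith),
      pow_pos ip 2]

lemma err_dn {k : TM} {v w ε : ℝ} {n : ℕ} (hk : Rep π.g e 5 5 k v) (h : |w - v| ≤ 2 * ε * v)
    (h0 : 0 ≤ v) (hn : ε * 2 ^ 64 = n) : Rep π.g e 5 5 (k.err (dn (Nat.mul n k.bd0) 63)) w := by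
  refine hk.err (le_trans ?_ (le_dn _ _))
  have h1 := hk.le0
  rw [abs_of_nonneg h0] at h1
  have e0 : 0 ≤ ε := by
    have : (0 : ℝ) ≤ n := n.cast_nonneg
    nlinarith
  rw [Nat.mul_eq, Nat.cast_mul, ← hn, le_div_iff₀ (by positivity)]
  calc |w - v| * 2 ^ e * 2 ^ 63 ≤ 2 * ε * v * 2 ^ e * 2 ^ 63 := by gcongr
    _ = ε * 2 ^ 64 * (v * 2 ^ e) := by ring
    _ ≤ _ := by gcongr

lemma rH {j : Bool} (h1 : r.eps j ≤ 2 ^ 63) (h2 : (r.Hr j).bd0 ≤ r.hk j) :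
    0 < ‖yj (r.xs π.x) j‖ ∧ Rep π.g 26 5 5 (r.ht j) ‖yj (r.xs π.x) j‖⁻¹ ∧
      Rep π.g 32 5 5 (r.kt j) (‖yj (r.xs π.x) j‖⁻¹ ^ 2) := by
  have a1 : Rep π.g 26 5 5 (r.Hr j) _ := rep0 26 _ _
  have a2 : Rep π.g 26 5 5 (r.H j) _ := (Rep.cst π.g 26 5 5 _).add a1
  have a3 : Rep π.g 32 5 5 (r.kk j) _ := (a2.m2 a2).t5 20
  have a4 : _ ≤ (r.eps j : ℝ) :=
    ((a3.m2 (r.rrho j)).sb (Rep.cs (a := 1) 64 10 10 64 (by norm_num))).bd (by decide)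
  have a5 := a1.le0
  have a6 : ((r.Hr j).bd0 : ℝ) ≤ r.hk j := by exact_mod_cast h2
  have a7 : (r.eps j : ℝ) ≤ 2 ^ 63 := by exact_mod_cast h1
  generalize pl (r.hp j) (r.hm j) 0 π.x / 2 ^ 26 = v at *
  have H0 : 0 ≤ (r.hk j : ℝ) / 2 ^ 26 + v := by
    have := neg_abs_le v
    rw [div_add' _ _ _ (by positivity)]
    exact div_nonneg (by nlinarith) (by positivity)
  obtain ⟨b1, b2, b3⟩ := inv_err (ε := r.eps j / 2 ^ 64) H0 (norm_nonneg _)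
    (by rw [le_div_iff₀ (by positivity)]; exact a4) (by rw [div_le_iff₀ (by positivity)]; linarith)
  exact ⟨b1, err_dn a2 b2 H0 (by ring), err_dn a3 b3 (mul_nonneg H0 H0) (by ring)⟩

/-- The quadratic model of the vector field. -/
def rw' (X e : I6 → ℝ) (g h : ℝ) : I6 → ℝ
  | .i0 => X .i0 * (e .i0 + X .i0 / 2) + 2 * X .i1 * (e .i1 + X .i1 / 2) - 1
  | .i1 => -(X .i1 * (e .i0 + X .i0 / 2) + X .i0 * (e .i1 + X .i1 / 2)) / 2
  | .i2 => e .i4 + X .i4 + X .i1 * (e .i3 + X .i3 / 2) + X .i3 * (e .i1 + X .i1 / 2)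
      - (X .i0 * (e .i2 + X .i2 / 2) + X .i2 * (e .i0 + X .i0 / 2))
  | .i3 => e .i5 + X .i5 - (X .i0 * (e .i3 + X .i3 / 2) + X .i1 * (e .i2 + X .i2 / 2)
      + X .i3 * (e .i0 + X .i0 / 2) + X .i2 * (e .i1 + X .i1 / 2))
  | .i4 => (X .i0 * (e .i4 + X .i4 / 2) + X .i4 * (e .i0 + X .i0 / 2)) / 2
      + (X .i1 * (e .i5 + X .i5 / 2) + X .i5 * (e .i1 + X .i1 / 2))
      + (2 * (g ^ 3 + h ^ 3) - 3 * (g ^ 5 + h ^ 5) * X .i3 ^ 2) * e .i2 / 2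
      + 3 * ((g ^ 5 + h ^ 5) * X .i2 + (g ^ 5 - h ^ 5) / 2) * X .i3 * e .i3 / 2
      - ((g ^ 3 + h ^ 3) * X .i2 + (g ^ 3 - h ^ 3) / 2) / 2
  | .i5 => (X .i0 * (e .i5 + X .i5 / 2) + X .i5 * (e .i0 + X .i0 / 2)) / 2
      - (X .i1 * (e .i4 + X .i4 / 2) + X .i4 * (e .i1 + X .i1 / 2))
      + 3 * ((g ^ 5 + h ^ 5) * X .i2 + (g ^ 5 - h ^ 5) / 2) * X .i3 * e .i2 / 2
      - ((g ^ 3 + h ^ 3 - 3 * (g ^ 5 + h ^ 5) * X .i3 ^ 2) * e .i3 + (g ^ 3 + h ^ 3) * X .i3) / 2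

lemma rrow {h : Bool → ℝ} (h1 : ∀ j, Rep π.g 26 5 5 (r.ht j) (h j))
    (h2 : ∀ j, Rep π.g 32 5 5 (r.kt j) (h j ^ 2)) (l : I6) : Rep π.g 72 10 94 (r.row l)
      (rw' (r.xs π.x) ((r.As π.x).mulVec π.y) (h true) (h false) l) := by
  have xe : ∀ i j, Rep π.g 65 10 94 (r.xe i j) _ := fun i j => (r.rX (π := π) i).mw (r.rEt j)
  have li : ∀ i, Rep π.g 65 10 94 (r.li i) _ := fun i =>
    (((r.rE (π := π) i).add (((r.rX i).up 13).mono le_rfl (by decide))).up 26).mono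
      (by decide) (by decide)
  have aa : ∀ j, Rep π.g 32 5 5 (r.aa j) _ := fun j => ((h2 j).m2 (h1 j)).t5 26
  have bb : ∀ j, Rep π.g 64 10 10 (r.bb j) _ := fun j => (aa j).m2 (h2 j)
  have as : Rep π.g 32 5 5 r.as _ := (aa true).add (aa false)
  have uu : Rep π.g 28 5 5 r.uu _ :=
    ((Rep.t5 (e := 28) 36 ((bb true).add (bb false))).m2 (r.rX .i3)).t5 26
  have ii : Rep π.g 32 5 5 r.ii _ := Rep.t5 22
    (((as.up 22).mono (by decide) (by decide)).sb ((uu.m2 (r.rX .i3)).smul 3))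
  have ri : Rep π.g 32 5 5 r.ri _ := Rep.t5 23 ((((uu.m2 (r.rX .i2)).up 1).add
    (((Rep.t5 (e := 28) 36 ((bb true).sb (bb false))).m2 (r.rX .i3)).scale (f := 55)
      (b := (h true ^ 5 - h false ^ 5) * r.xs π.x .i3 / 2) (by ring))).smul 3)
  have u1 : ∀ {k : TM} {a : ℝ}, Rep π.g 65 10 94 k a → Rep π.g 65 10 94 (k.up 1) (2 * a) :=
    fun h => (h.up 1).scale (by ring)
  have u6 : ∀ {k : TM} {a : ℝ}, Rep π.g 65 10 94 k a → Rep π.g 71 10 94 (k.up 6) a :=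
    fun h => h.up 6
  have lf : ∀ {k : TM} {a : ℝ}, Rep π.g 58 10 10 k a → Rep π.g 71 10 94 (k.up 13) a :=
    fun h => (h.up 13).mono le_rfl (by decide)
  cases l
  · exact ((((xe _ _).add (u1 (xe _ _))).sb (Rep.cs (a := 1) 65 10 94 65 (by norm_num))).up 7).congr
      (by simp only [rw']; ring)
  · exact (u6 ((xe _ _).add (xe _ _))).neg.scale (by simp only [rw']; ring)
  · exact (((((li _).add (xe _ _)).add (xe _ _)).sb ((xe _ _).add (xe _ _))).up 7).congr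
      (by simp only [rw'])
  · exact (((li _).sb ((((xe _ _).add (xe _ _)).add (xe _ _)).add (xe _ _))).up 7).congr
      (by simp only [rw'])
  · exact ((((u6 (((xe _ _).add (xe _ _)).add (u1 ((xe _ _).add (xe _ _))))).add
      ((as.add ii).mw (r.rE _))).add (ri.mw (r.rE _))).sb (lf ((as.m2 (r.rX _)).add
        (((((aa true).sb (aa false)).up 25).scale (f := 58)
          (b := (h true ^ 3 - h false ^ 3) / 2) (by ring)).mono (by decide) (by decide))))).scale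
      (by simp only [rw']; push_cast; ring)
  · exact (((u6 (((xe _ _).add (xe _ _)).sb (u1 ((xe _ _).add (xe _ _))))).add
      (ri.mw (r.rE _))).sb ((ii.mw (r.rE _)).add (lf (as.m2 (r.rX _))))).scale
      (by simp only [rw']; push_cast; ring)

end Raw

end Pool.Agent.Lib.MP_6e7c44_mp.LA
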