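import Pool.Agent.Lib.MP_6e7c44_mp.LA.StepA
import Pool.Agent.Lib.MP_6e7c44_mp.LA.Inv

/-! The pointwise estimates of a step. -/

set_option autoImplicit false

open Finset

noncomputable section

namespace Pool.Agent.Lib.MP_6e7c44_mp.LA

lemma all6_iff {f : I6 → Bool} : all6 f = true ↔ ∀ i, f i = true :=
  ⟨fun h i => by simp only [all6, Bool.and_eq_true] at h; cases i <;> tauto,
    fun h => by simp [all6, h]⟩

lemma le_mx (a b : ℕ) : a ≤ mx a b ∧ b ≤ mx a b := by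
  unfold mx
  cases h : Nat.ble a b
  · have : ¬ a ≤ b := by rw [← Nat.ble_eq, h]; simp
    simp; omega
  · simpa using h

/-- The remainder of the attraction of the two primaries. -/
def rem (X e : I6 → ℝ) (j : Bool) : ℂ :=
  ff (Raw.yj X j + yc e) - ff (Raw.yj X j) - dff (Raw.yj X j) (yc e)

def quad (X e : I6 → ℝ) : I6 → ℝ
  | .i0 => e .i0 * e .i0 / 2 + e .i1 * e .i1
  | .i1 => -(e .i0 * e .i1) / 2
  | .i2 => e .i1 * e .i3 - e .i0 * e .i2
  | .i3 => -(e .i0 * e .i3) - e .i1 * e .i2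
  | .i4 => e .i0 * e .i4 / 2 + e .i1 * e .i5 - ((rem X e true).re + (rem X e false).re) / 2
  | .i5 => e .i0 * e .i5 / 2 - e .i1 * e .i4 - ((rem X e true).im + (rem X e false).im) / 2

lemma yj_add (X e : I6 → ℝ) (j : Bool) : Raw.yj (X + e) j = Raw.yj X j + yc e := by
  cases j <;> apply Complex.ext <;> simp [Raw.yj, yc] <;> ring

lemma tay (X e : I6 → ℝ) (h : ∀ j, 0 < ‖Raw.yj X j‖) (l : I6) :
    f0 (X + e) l - Raw.rw' X e ‖Raw.yj X true‖⁻¹ ‖Raw.yj X false‖⁻¹ l = quad X e l := by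
  have k : ∀ j, ‖Raw.yj X j‖⁻¹ ^ 2 * ‖Raw.yj X j‖ ^ 2 = 1 := fun j => by
    have := (h j).ne'; field_simp
  have k0 := k true
  have k1 := k false
  have e0 : Fs (yc (X + e)) = (ff (Raw.yj X true + yc e) + ff (Raw.yj X false + yc e)) / 2 := by
    rw [← yj_add, ← yj_add]; rfl
  rw [sq_norm' (Raw.yj X _)] at k0 k1
  have a1 : (Raw.yj X true).re = X .i2 + 1 / 2 := by simp [Raw.yj, yc]
  have a2 : (Raw.yj X false).re = X .i2 - 1 / 2 := by simp [Raw.yj, yc]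
  have a3 : ∀ j, (Raw.yj X j).im = X .i3 := fun j => by cases j <;> simp [Raw.yj, yc]
  have a4 : (yc e).re = e .i2 := rfl
  have a5 : (yc e).im = e .i3 := rfl
  have f1 : ∀ y : ℂ, (ff y).re = ‖y‖⁻¹ ^ 3 * y.re ∧ (ff y).im = ‖y‖⁻¹ ^ 3 * y.im := fun y => by
    simp only [ff, Complex.smul_re, Complex.smul_im, smul_eq_mul, inv_pow, and_self]
  have f2 : ∀ y z : ℂ, (dff y z).re = ‖y‖⁻¹ ^ 3 * z.re - 3 * ‖y‖⁻¹ ^ 5 * dot y z * y.re ∧
      (dff y z).im = ‖y‖⁻¹ ^ 3 * z.im - 3 * ‖y‖⁻¹ ^ 5 * dot y z * y.im := fun y z => by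
    simp only [dff, Complex.smul_re, Complex.smul_im, smul_eq_mul, inv_pow, Complex.sub_re,
      Complex.sub_im, and_self]
  simp only [a1, a2, a3] at k0 k1
  cases l <;> simp only [f0, Raw.rw', quad, Pi.add_apply, e0, rem, Complex.sub_re, Complex.sub_im,
    Complex.div_ofNat_re, Complex.div_ofNat_im, Complex.add_re, Complex.add_im, f2,
    f1 (Raw.yj X _), dot, a1, a2, a3, a4, a5]
  · ring
  · ring
  · ring
  · ring
  · linear_combination (3 / 2 * e .i2 * ‖Raw.yj X true‖⁻¹ ^ 3) * k0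
      + (3 / 2 * e .i2 * ‖Raw.yj X false‖⁻¹ ^ 3) * k1
  · ring

lemma key {T : (I6 → ℝ) → I6 → ℝ} (hT : ∀ (c : ℝ) (y : I6 → ℝ), T (c • y) = c • T y)
    {δ g w : I6 → ℝ} {m : ℝ} (h1 : ∀ y : I6 → ℝ, (∀ j, |y j| ≤ 1) → ∀ i, |y i - T y i| ≤ δ i)
    (h2 : ∀ i, δ i ≤ 1 / 2) (h3 : ∀ i, |T w i| ≤ g i) (h4 : ∀ i, g i ≤ m) (i : I6) :
    |w i| ≤ g i + δ i * (2 * m) := by
  obtain ⟨k, -, hk⟩ := exists_max_image univ (fun j => |w j|) ⟨i, mem_univ i⟩
  have d0 : ∀ j, 0 ≤ δ j := fun j => (abs_nonneg _).trans (h1 0 (by simp) j)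
  have g0 : ∀ j, 0 ≤ g j := fun j => (abs_nonneg _).trans (h3 j)
  rcases (abs_nonneg (w k)).eq_or_lt with h0 | h0
  · have := hk i (mem_univ i)
    nlinarith [g0 i, d0 i, h4 i, mul_nonneg (d0 i) ((g0 i).trans (h4 i))]
  have h5 : ∀ j, |w j| ≤ g j + δ j * |w k| := fun j => by
    have h6 := h1 ((|w k|)⁻¹ • w) (fun j => by
      rw [Pi.smul_apply, smul_eq_mul, abs_mul, abs_inv, abs_abs, inv_mul_le_one₀ h0]
      exact hk j (mem_univ j)) j
    rw [hT, Pi.smul_apply, Pi.smul_apply, smul_eq_mul, smul_eq_mul, ← mul_sub, abs_mul, abs_inv,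
      abs_abs, inv_mul_le_iff₀ h0] at h6
    linarith [abs_sub_abs_le_abs_sub (w j) (T w j), h3 j]
  have h7 : |w k| ≤ 2 * m := by nlinarith [h5 k, h2 k, h4 k]
  nlinarith [h5 i, d0 i]

namespace Raw
variable {r : Raw} {π : Pt}

lemma ok_iff (h : r.ok = true) : 0 < r.hn ∧ r.e2 ≤ r.es * r.es ∧
    (∀ j, r.eps j ≤ 2 ^ 63 ∧ (r.Hr j).bd0 ≤ r.hk j ∧ r.hb j * r.es < 2 ^ 65 ∧ r.gq j ≤ 2 ^ 25) ∧
    ∀ i, r.dl i ≤ 2 ^ 19 ∧ 0 < r.R i ∧ r.R i + r.d i < 2 ^ 24 ∧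
      (r.X i).bd0 * 2 ^ 13 + r.eb i ≤ 2 ^ 45 := by
  simp only [ok, okH, Bool.and_eq_true, all6_iff, okI, Nat.ble_eq, Nat.blt_eq, Nat.add_eq,
    Nat.mul_eq, Nat.pow_eq, Nat.shiftLeft_eq', Nat.shiftLeft_eq] at h
  exact ⟨h.1, h.2.1, fun j => by cases j; exacts [h.2.2.2.1, h.2.2.1], h.2.2.2.2⟩

lemma near (h : r.ok = true) (j : Bool) : ‖yc ((r.As π.x).mulVec π.y)‖ ≤ r.es / 2 ^ 39 ∧
    (r.es : ℝ) / 2 ^ 39 < ‖yj (r.xs π.x) j‖ ∧
    (‖yj (r.xs π.x) j‖ - r.es / 2 ^ 39)⁻¹ ≤ (r.gq j / 2 ^ 20 : ℝ) := by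
  obtain ⟨-, h1, h2, -⟩ := ok_iff h
  obtain ⟨a1, a2, a3, -⟩ := h2 j
  obtain ⟨b1, b2, -⟩ := r.rH (π := π) a1 a2
  have b3 : _ ≤ (r.hb j : ℝ) := b2.le0
  have c2 : _ ≤ (r.eb .i2 : ℝ) := (r.rE (π := π) .i2).le0
  have c3 : _ ≤ (r.eb .i3 : ℝ) := (r.rE (π := π) .i3).le0
  have h3 : (r.eb .i2 : ℝ) * r.eb .i2 + r.eb .i3 * r.eb .i3 ≤ r.es * r.es := by exact_mod_cast h1
  have h4 : (r.hb j : ℝ) * r.es < 2 ^ 65 := by exact_mod_cast a3
  have h5 : (r.hb j : ℝ) * 2 ^ 59 < r.gq j * (2 ^ 65 - r.hb j * r.es) := by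
    have := (Nat.div_lt_iff_lt_mul (Nat.sub_pos_of_lt a3)).1
      (Nat.lt_succ_self (r.hb j * 2 ^ 59 / (2 ^ 65 - r.hb j * r.es)))
    have e : r.gq j = (r.hb j * 2 ^ 59 / (2 ^ 65 - r.hb j * r.es)).succ := by
      simp [gq, ndiv, Nat.shiftLeft_eq]
    rw [← e] at this
    have := (Nat.cast_lt (α := ℝ)).2 this
    rw [Nat.cast_mul, Nat.cast_mul, Nat.cast_sub a3.le] at this
    exact_mod_cast this
  rw [abs_of_pos (inv_pos.2 b1), inv_mul_le_iff₀ b1] at b3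
  have e0 : (0 : ℝ) ≤ r.es := Nat.cast_nonneg _
  have g0 : (0 : ℝ) ≤ r.gq j := Nat.cast_nonneg _
  have h0 : (0 : ℝ) ≤ r.hb j := Nat.cast_nonneg _
  clear a1 a2 a3 h1 h2 b2
  generalize ‖yj (r.xs π.x) j‖ = n, (r.es : ℝ) = s, (r.gq j : ℝ) = q, (r.hb j : ℝ) = b,
    (r.eb .i2 : ℝ) = u, (r.eb .i3 : ℝ) = v, (r.As π.x).mulVec π.y = e at *
  have hp : 0 < b := by nlinarith
  have d1 : s / 2 ^ 39 < n := by
    rw [div_lt_iff₀ (by positivity)]; nlinarith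
  refine ⟨?_, d1, ?_⟩
  · refine (abs_le_of_sq_le_sq' ?_ (by positivity)).2
    rw [sq_norm', div_pow, le_div_iff₀ (by positivity)]
    simp only [yc]
    have f2 := mul_self_le_mul_self (by positivity) c2
    have f3 := mul_self_le_mul_self (by positivity) c3
    nlinarith [abs_mul_abs_self (e .i2), abs_mul_abs_self (e .i3)]
  · rw [inv_le_iff_one_le_mul₀ (by linarith)]
    refine le_of_mul_le_mul_left ?_ hp
    nlinarith [mul_le_mul_of_nonneg_left b3 g0]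

lemma safe (h : r.ok = true) : Safe (r.xs π.x + (r.As π.x).mulVec π.y) := by
  have h1 : ∀ j, 1 / 32 ≤ ‖yj (r.xs π.x + (r.As π.x).mulVec π.y) j‖ := fun j => by
    obtain ⟨a1, a2, a3⟩ := near (π := π) h j
    have a4 : (r.gq j : ℝ) ≤ 2 ^ 25 := by exact_mod_cast ((ok_iff h).2.2.1 j).2.2.2
    have a5 : (‖yj (r.xs π.x) j‖ - r.es / 2 ^ 39)⁻¹ ≤ 32 :=
      a3.trans (by rw [div_le_iff₀ (by positivity)]; linarith)
    rw [inv_le_iff_one_le_mul₀ (by linarith)] at a5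
    have := norm_sub_norm_le (yj (r.xs π.x) j) (-yc ((r.As π.x).mulVec π.y))
    rw [norm_neg, sub_neg_eq_add, ← yj_add] at this
    linarith
  refine ⟨fun i => ?_, h1 true, h1 false⟩
  have a1 := (r.rX (π := π) i).le0
  have a2 : _ ≤ (r.eb i : ℝ) := (r.rE (π := π) i).le0
  have a3 : ((r.X i).bd0 : ℝ) * 2 ^ 13 + r.eb i ≤ 2 ^ 45 := by
    exact_mod_cast ((ok_iff h).2.2.2 i).2.2.2
  have := abs_add_le (r.xs π.x i) ((r.As π.x).mulVec π.y i)
  rw [Pi.add_apply]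
  linarith

lemma quad_le (h : r.ok = true) (l : I6) :
    |quad (r.xs π.x) ((r.As π.x).mulVec π.y) l| * 2 ^ 79 ≤ r.nl l := by
  have a : ∀ i, _ ≤ (r.eb i : ℝ) := fun i => (r.rE (π := π) i).le0
  have w : ∀ j, ‖rem (r.xs π.x) ((r.As π.x).mulVec π.y) j‖ * 2 ^ 158
      ≤ 3 * (r.es * r.es) * r.g4 j := fun j => by
    obtain ⟨a1, a2, a3⟩ := near (π := π) h j
    have := ff2 a1 a2
    rw [div_eq_mul_inv, ← inv_pow] at this
    have a4 := pow_le_pow_left₀ (inv_pos.2 (by linarith)).le a3 4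
    have a5 := this.trans (mul_le_mul_of_nonneg_left a4 (mul_nonneg zero_le_three (sq_nonneg _)))
    simp only [g4, Nat.mul_eq, Nat.cast_mul, rem]
    linarith
  have w2 : (‖rem (r.xs π.x) ((r.As π.x).mulVec π.y) true‖
      + ‖rem (r.xs π.x) ((r.As π.x).mulVec π.y) false‖) * 2 ^ 78 ≤ r.w2 := by
    refine le_trans ?_ (le_dn _ _)
    simp only [Nat.mul_eq, Nat.add_eq]
    push_cast
    linarith [w true, w false]
  generalize (r.As π.x).mulVec π.y = e at *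
  have b : ∀ i j, |e i * e j| * 2 ^ 78 ≤ r.ee i j := fun i j => by
    have := mul_le_mul (a i) (a j) (by positivity) (Nat.cast_nonneg _)
    simp only [ee, Nat.mul_eq, Nat.cast_mul, abs_mul]
    linarith
  have c : ∀ i j, -(r.ee i j : ℝ) ≤ e i * e j * 2 ^ 78 ∧ e i * e j * 2 ^ 78 ≤ r.ee i j := fun i j =>
    ⟨by linarith [b i j, neg_abs_le (e i * e j)], by linarith [b i j, le_abs_self (e i * e j)]⟩
  have r1 := fun j => abs_le.1 (Complex.abs_re_le_norm (rem (r.xs π.x) e j))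
  have r2 := fun j => abs_le.1 (Complex.abs_im_le_norm (rem (r.xs π.x) e j))
  rw [← le_div_iff₀ (by positivity), abs_le]
  cases l <;> simp only [quad, nl, Nat.add_eq, Nat.mul_eq] <;> push_cast <;> constructor
  · linarith [c .i0 .i0, c .i1 .i1]
  · linarith [c .i0 .i0, c .i1 .i1]
  · linarith [c .i0 .i1]
  · linarith [c .i0 .i1]
  · linarith [c .i0 .i2, c .i1 .i3]
  · linarith [c .i0 .i2, c .i1 .i3]
  · linarith [c .i0 .i3, c .i1 .i2]
  · linarith [c .i0 .i3, c .i1 .i2]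
  · linarith [c .i0 .i4, c .i1 .i5, r1 true, r1 false]
  · linarith [c .i0 .i4, c .i1 .i5, r1 true, r1 false]
  · linarith [c .i0 .i5, c .i1 .i4, r2 true, r2 false]
  · linarith [c .i0 .i5, c .i1 .i4, r2 true, r2 false]

lemma Bv_smul (x c : ℝ) (v : I6 → ℝ) (i : I6) : r.Bv x (c • v) i = c * r.Bv x v i := by
  simp only [Bv, Pi.smul_apply, smul_eq_mul]; split_ifs <;> ring

/-- The matrix `B` is an approximate inverse of `A`. -/
lemma solve (h : r.ok = true) {x : ℝ} (hx : |x| ≤ 1) {w g : I6 → ℝ} {m : ℝ}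
    (h3 : ∀ i, |r.Bv x ((r.As x).mulVec w) i| * 2 ^ 39 / 2 ^ r.t i ≤ g i) (h4 : ∀ i, g i ≤ m)
    (i : I6) : |w i| ≤ g i + r.dl i / 2 ^ 20 * (2 * m) := by
  refine key (T := fun y i => r.Bv x ((r.As x).mulVec y) i * 2 ^ 39 / 2 ^ r.t i) (w := w)
    (δ := fun i => r.dl i / 2 ^ 20)
    (fun c y => funext fun i => ?_) (fun y hy i => ?_) (fun i => ?_) (fun i => ?_) h4 i
  · simp only [Matrix.mulVec_smul, Bv_smul, Pi.smul_apply, smul_eq_mul]
    ring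
  · have a1 := (((((Rep.mono_y (Pt.g ⟨x, y, hx, hy⟩) i.n).smul (Nat.pow 2 (r.t i))).scale (f := 39)
      (b := y i * 2 ^ r.t i / 2 ^ 39) (by
        simp only [Pt.g, Pt.zn, Nat.pow_eq]; push_cast; ring)).mono (by decide : 0 ≤ 13)
          (by cases i <;> decide : 14 * i.n ≤ 97)).sb (r.rdB (fun l =>
            (r.rE l).mono (by decide) (by decide)) i)).bd (by decide)
    rw [le_div_iff₀ (by positivity)]
    refine le_trans ?_ (le_dn _ _)
    simp only [Nat.shiftLeft_eq', Nat.shiftLeft_eq, Nat.cast_mul, Nat.cast_pow, Nat.cast_ofNat]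
    rw [le_div_iff₀ (by positivity)]
    refine le_trans (le_of_eq ?_) (mul_le_mul_of_nonneg_right a1 (by positivity))
    rw [show y i - r.Bv x ((r.As x).mulVec y) i * 2 ^ 39 / 2 ^ r.t i = (y i * 2 ^ r.t i / 2 ^ 39
      - r.Bv x ((r.As x).mulVec y) i) * (2 ^ 39 / 2 ^ r.t i) by field_simp, abs_mul,
      abs_of_pos (a := (2 : ℝ) ^ 39 / _) (by positivity)]
    field_simp
  · have : (r.dl i : ℝ) ≤ 2 ^ 19 := by exact_mod_cast ((ok_iff h).2.2.2 i).1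
    linarith
  · rw [abs_div, abs_mul, abs_of_pos (a := (2 : ℝ) ^ 39) (by positivity),
      abs_of_pos (a := (2 : ℝ) ^ r.t i) (by positivity)]
    exact h3 i

lemma det_ne (h : r.ok = true) {x : ℝ} (hx : |x| ≤ 1) : (r.As x).det ≠ 0 := fun h0 => by
  obtain ⟨w, h1, h2⟩ := Matrix.exists_mulVec_eq_zero_iff.2 h0
  refine h1 (funext fun i => ?_)
  simpa using solve h hx (w := w) (g := 0) (m := 0) (fun i => by simp [h2, Bv]) (fun _ => le_rfl) i

/-- The bound of the derivative of the coordinates. -/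
lemma drift (h : r.ok = true) {w p : I6 → ℝ} (hp : ∀ l, |p l| ≤ 1 / 2 ^ 36)
    (hw : ∀ l, (r.As π.x).mulVec w l = r.hn / 256 * (f0 (r.xs π.x + (r.As π.x).mulVec π.y) l + p l)
      - ((r.dA π.x).mulVec π.y l + r.dx π.x l)) (i : I6) : 2 * |w i| ≤ r.d i / 2 ^ 24 := by
  have a := fun j => r.rH (π := π) ((ok_iff h).2.2.1 j).1 ((ok_iff h).2.2.1 j).2.1
  have b : ∀ l, Rep π.g 80 10 94 (r.G l) ((r.As π.x).mulVec w l) := fun l => by
    refine ((((r.rrow (h := fun j => ‖yj (r.xs π.x) j‖⁻¹) (fun j => (a j).2.1) (fun j => (a j).2.2)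
      l).smul r.hn).scale (f := 80) (b := r.hn / 256 * rw' (r.xs π.x)
        ((r.As π.x).mulVec π.y) ‖yj (r.xs π.x) true‖⁻¹ ‖yj (r.xs π.x) false‖⁻¹ l) (by ring)).sb (r.rdZ l)).err ?_
    have b1 := tay (r.xs π.x) ((r.As π.x).mulVec π.y) (fun j => (a j).1) l
    have b2 := quad_le (π := π) h l
    have b3 := le_dn (Nat.add (r.nl l) (Nat.pow 2 43)) 7
    have b4 := abs_add_le (quad (r.xs π.x) ((r.As π.x).mulVec π.y) l) (p l)
    rw [hw, sub_sub_sub_cancel_right, ← mul_sub, add_sub_right_comm, b1, abs_mul, Nat.mul_eq,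
      Nat.cast_mul, abs_of_nonneg (by positivity), div_mul_eq_mul_div, mul_div_assoc, mul_assoc]
    refine mul_le_mul_of_nonneg_left (le_trans ?_ b3) (Nat.cast_nonneg _)
    simp only [Nat.add_eq, Nat.pow_eq]
    push_cast
    linarith [hp l]
  have c := solve h π.hx (w := w) (g := fun i => r.gg i / 2 ^ 24) (m := r.gm / 2 ^ 24) (fun i => by
    have c1 := (r.rdB b i).bd (by decide)
    rw [le_div_iff₀ (by positivity)]
    refine le_trans ?_ (le_dn _ _)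
    rw [Nat.add_eq, pow_add, le_div_iff₀ (by positivity)]
    refine le_trans (le_of_eq ?_) c1
    field_simp) (fun i => by
      have : r.gg i ≤ r.gm := by
        have l := fun a b => (le_mx a b).1
        have u := fun a b => (le_mx a b).2
        cases i
        exacts [((l _ _).trans (l _ _)).trans (l _ _), ((u _ _).trans (l _ _)).trans (l _ _),
          ((l _ _).trans (u _ _)).trans (l _ _), ((u _ _).trans (u _ _)).trans (l _ _),
          (l _ _).trans (u _ _), (u _ _).trans (u _ _)]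
      gcongr) i
  have c2 := le_dn (Nat.mul (r.dl i) r.gm) 19
  simp only [d, Nat.mul_eq, Nat.add_eq, Nat.cast_mul, Nat.cast_add, Nat.cast_ofNat] at c2 ⊢
  linarith

end Raw

end Pool.Agent.Lib.MP_6e7c44_mp.LA
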