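import Pool.Agent.Lib.MP_6e7c44_mp.LA.StepB

/-! Soundness of the checker of tubes. -/

set_option autoImplicit false

open Set Filter Topology

noncomputable section

namespace Pool.Agent.Lib.MP_6e7c44_mp.LA

lemma diff_det {M : ℝ → Matrix I6 I6 ℝ} {x : ℝ}
    (h : ∀ i j, DifferentiableAt ℝ (fun s => M s i j) x) :
    DifferentiableAt ℝ (fun s => (M s).det) x := by
  simp only [Matrix.det_apply']
  exact DifferentiableAt.fun_sum fun σ _ =>
    (DifferentiableAt.fun_finsetProd fun i _ => h _ _).const_mul _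

lemma diff_inv {M : ℝ → Matrix I6 I6 ℝ} {x : ℝ}
    (h : ∀ i j, DifferentiableAt ℝ (fun s => M s i j) x) (h0 : (M x).det ≠ 0) (i j : I6) :
    DifferentiableAt ℝ (fun s => (M s)⁻¹ i j) x := by
  simp only [Matrix.inv_def, Ring.inverse_eq_inv', Matrix.smul_apply, smul_eq_mul,
    Matrix.adjugate_apply]
  refine ((diff_det h).inv h0).mul (diff_det fun k l => ?_)
  simp only [Matrix.updateRow_apply]
  split_ifs
  exacts [differentiableAt_const _, h _ _]

lemma boot {y : ℝ → I6 → ℝ} {R d : I6 → ℝ} (hc : ∀ j, ContinuousOn (fun s => y s j) (Icc (-1) 1))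
    (h0 : ∀ j, |y (-1) j| ≤ R j) (h1 : ∀ j, R j + d j < 1) (d0 : ∀ j, 0 ≤ d j)
    (hd : ∀ x ∈ Icc (-1 : ℝ) 1, (∀ j, |y x j| ≤ 1) → ∀ j, ∃ w, 2 * |w| ≤ d j ∧
      HasDerivAt (fun s => y s j) w x) :
    (∀ x ∈ Icc (-1 : ℝ) 1, ∀ j, |y x j| ≤ 1) ∧ ∀ j, |y 1 j - y (-1) j| ≤ d j := by
  have mv : ∀ t ∈ Icc (-1 : ℝ) 1, Icc (-1) t ⊆ {x | ∀ j, |y x j| ≤ 1} →
      ∀ j, |y t j - y (-1) j| ≤ d j := fun t ht hs j => by
    have a : ∀ x ∈ Icc (-1 : ℝ) t, ∃ w, 2 * |w| ≤ d j ∧ HasDerivAt (fun s => y s j) w x :=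
      fun x hx => hd x ⟨hx.1, hx.2.trans ht.2⟩ (hs hx) j
    choose! w w1 w2 using a
    have b := norm_image_sub_le_of_norm_deriv_le_segment' (C := d j / 2)
      (fun x hx => (w2 x hx).hasDerivWithinAt)
      (fun x hx => by rw [Real.norm_eq_abs]; linarith [w1 x (Ico_subset_Icc_self hx)]) t
      ⟨ht.1, le_rfl⟩
    rw [Real.norm_eq_abs] at b
    nlinarith [w1 t ⟨ht.1, le_rfl⟩, abs_nonneg (w t), ht.2]
  have key : Icc (-1 : ℝ) 1 ⊆ {x | ∀ j, |y x j| ≤ 1} := by
    refine IsClosed.Icc_subset_of_forall_mem_nhdsGT_of_Icc_subset ?_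
      (fun j => by linarith [h0 j, h1 j, d0 j]) fun t ht hs => ?_
    · have : Nonempty I6 := ⟨.i0⟩
      rw [inter_comm, ofPred_forall, inter_iInter]
      exact isClosed_iInter fun j => (hc j).abs.preimage_isClosed_of_isClosed isClosed_Icc
        (t := Iic 1) isClosed_Iic
    · refine eventually_all.2 fun j => ?_
      have a : |y t j| < 1 := by
        linarith [mv t (Ico_subset_Icc_self ht) hs j, h0 j, h1 j,
          abs_sub_abs_le_abs_sub (y t j) (y (-1) j)]
      exact ((((hc j).abs t (Ico_subset_Icc_self ht)).mono_of_mem_nhdsWithin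
        (Icc_mem_nhdsGT_of_mem ht)).eventually_lt_const a).mono fun _ h => h.le
  exact ⟨fun x hx => key hx, mv 1 ⟨by norm_num, le_rfl⟩ key⟩

namespace Raw
variable {r r' : Raw}

def yy (r : Raw) (x : ℝ) (z : I6 → ℝ) : I6 → ℝ := (r.As x)⁻¹.mulVec (z - r.xs x)

/-- The step described by the data. -/
def ss (r : Raw) : SS where
  h := r.hn / 128
  yS j z := r.yy (-1) z j
  yE j z := r.yy 1 z j
  R j := r.R j / 2 ^ 24
  d j := r.d j / 2 ^ 24
  out z := Safe z ∧ ∀ i, |z i - r.xs 1 i| ≤ r.eb i / 2 ^ 39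

lemma As_der (x : ℝ) (k j : I6) : HasDerivAt (fun s => r.As s k j) (r.dA x k j) x :=
  ((pl_der _ _ _ x).mul_const _).div_const _

lemma xs_der (x : ℝ) (k : I6) : HasDerivAt (fun s => r.xs s k) (r.dx x k) x :=
  (pl_der _ _ _ x).div_const _

lemma yy_spec {x : ℝ} (h : (r.As x).det ≠ 0) (z : I6 → ℝ) :
    r.xs x + (r.As x).mulVec (r.yy x z) = z := by
  rw [yy, Matrix.mulVec_mulVec, Matrix.mul_nonsing_inv _ (Ne.isUnit h), Matrix.one_mulVec,
    add_sub_cancel]

theorem ss_ok (h : r.ok = true) : r.ss.OK := by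
  obtain ⟨hn, -, -, hi⟩ := ok_iff h
  have hp : (0 : ℝ) < r.hn := by exact_mod_cast hn
  refine ⟨by simp only [ss]; positivity, fun j => ?_, fun j => ?_, fun X hX τ hb => ?_⟩
  · have : (0 : ℝ) < r.R j := by exact_mod_cast (hi j).2.1
    exact div_pos this (by positivity)
  · simp only [ss, yy, Matrix.mulVec, dotProduct, Pi.sub_apply]
    fun_prop
  have dt : ∀ x : ℝ, HasDerivAt (fun s : ℝ => τ + (s + 1) * (r.hn / 256)) (r.hn / 256) x :=
    fun x => by simpa using (((hasDerivAt_id x).add_const 1).mul_const (r.hn / 256 : ℝ)).const_add τ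
  set T := fun s : ℝ => τ + (s + 1) * (r.hn / 256 : ℝ) with hT
  have cT : Continuous T := by fun_prop
  have e0 : T (-1) = τ := by simp [hT]
  have ab : ∀ x ∈ Icc (-1 : ℝ) 1, |x| ≤ 1 := fun x hx => abs_le.2 hx
  have di := fun x hx => diff_inv (fun k j => (r.As_der x k j).differentiableAt)
    (det_ne h (ab x hx))
  have sf : ∀ x ∈ Icc (-1 : ℝ) 1, (∀ j, |r.yy x (X (T x)) j| ≤ 1) → Safe (X (T x)) :=
    fun x hx hy => yy_spec (det_ne h (ab x hx)) (X (T x)) ▸ safe (π := ⟨x, _, ab x hx, hy⟩) h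
  obtain ⟨k1, k2⟩ := boot (y := fun x => r.yy x (X (T x))) (R := r.ss.R) (d := r.ss.d)
    (fun j x hx => by
      simp only [yy, Matrix.mulVec, dotProduct, Pi.sub_apply]
      refine ContinuousAt.continuousWithinAt (tendsto_finsetSum _ fun l _ => ?_)
      exact (di x hx j l).continuousAt.mul ((((continuous_apply l).comp
        (hX.cont.comp cT)).continuousAt).sub (r.xs_der x l).continuousAt))
    (by rw [e0]; exact hb) (fun j => by
      have : (r.R j : ℝ) + r.d j < 2 ^ 24 := by exact_mod_cast (hi j).2.2.1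
      simp only [ss]
      linarith) (fun j => div_nonneg (Nat.cast_nonneg _) (by positivity)) fun x hx hy j => by
    choose p p1 p2 using hX.der _ (sf x hx hy)
    have d1 : ∀ l, HasDerivAt (fun s => X (T s) l) ((f0 (X (T x)) l + p l) * (r.hn / 256)) x :=
      fun l => (p2 l).comp x (dt x)
    have d2 : ∀ j, DifferentiableAt ℝ (fun s => r.yy s (X (T s)) j) x := fun j => by
      simp only [yy, Matrix.mulVec, dotProduct, Pi.sub_apply]
      exact DifferentiableAt.fun_sum fun l _ =>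
        (di x hx j l).mul ((d1 l).sub (r.xs_der x l)).differentiableAt
    refine ⟨_, drift (π := ⟨x, _, ab x hx, hy⟩) (w := fun j => deriv
      (fun s => r.yy s (X (T s)) j) x) h p1 (fun l => ?_) j, (d2 j).hasDerivAt⟩
    have d3 := (r.xs_der x l).add (HasDerivAt.fun_sum (u := Finset.univ) fun j _ =>
      (r.As_der x l j).mul (d2 j).hasDerivAt)
    have ev : ∀ᶠ s in 𝓝 x, (r.As s).det ≠ 0 :=
      (diff_det fun k j => (r.As_der x k j).differentiableAt).continuousAt.eventually_ne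
        (det_ne h (ab x hx))
    have d4 := (d1 l).unique (d3.congr_of_eventuallyEq (ev.mono fun s hs =>
      (congrFun (yy_spec hs (X (T s))) l).symm))
    simp only [yy_spec (det_ne h (ab x hx))]
    simp only [Finset.sum_add_distrib] at d4
    simp only [Matrix.mulVec, dotProduct]
    linarith
  have e1 : T 1 = τ + r.ss.h := by simp only [hT, ss]; ring
  have m1 : (1 : ℝ) ∈ Icc (-1 : ℝ) 1 := ⟨by norm_num, le_rfl⟩
  refine ⟨fun t ht => ?_, by rw [e0, e1] at k2; exact k2, e1 ▸ sf 1 m1 (k1 1 m1), fun i => ?_⟩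
  · have m : (t - τ) / (r.hn / 256) - 1 ∈ Icc (-1 : ℝ) 1 := by
      have := ht.2
      simp only [ss] at this
      constructor
      · linarith [div_nonneg (sub_nonneg.2 ht.1) (show (0 : ℝ) ≤ r.hn / 256 by positivity)]
      · rw [sub_le_iff_le_add, div_le_iff₀ (by positivity)]; linarith
    have := sf _ m (k1 _ m)
    rwa [show T ((t - τ) / (r.hn / 256) - 1) = t by simp only [hT]; field_simp; ring] at this
  · have a : _ ≤ (r.eb i : ℝ) := (r.rE (π := ⟨1, _, ab 1 m1, k1 1 m1⟩) i).le0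
    have b := congrFun (yy_spec (det_ne h (ab 1 m1)) (X (T 1))) i
    rw [← e1, ← b, Pi.add_apply, add_sub_cancel_left, le_div_iff₀ (by positivity)]
    exact a

end Raw

lemma sP_eq (p P : ℕ) : (sP p P : ℝ)
    = ∑ k ∈ Finset.range 14, if cp p k then dg 128 31 P (14 * 0 + k) * 1 ^ k else 0 :=
  (mod_msk cV (m := 7) (by decide) rfl (by decide) (by decide) _ _ P).trans (mv0 _ _ _ _ rfl)

lemma pl_one (P N : ℕ) : pl P N 0 1 = sP 0 P + sP 1 P - (sP 0 N + sP 1 N) := by
  simp [sP_eq, pl, cf', Finset.sum_range_succ, cp]; ring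

lemma pl_neg (P N : ℕ) : pl P N 0 (-1) = sP 0 P + sP 1 N - (sP 0 N + sP 1 P) := by
  simp [sP_eq, pl, cf', Finset.sum_range_succ, cp]; ring

lemma lk_eq {a b P N P' N' : ℕ} (h : lk a b P N P' N' = true) :
    a * pl P N 0 1 = 2 ^ b * pl P' N' 0 (-1) := by
  simp only [lk, Nat.beq_eq, Nat.add_eq, Nat.mul_eq, Nat.shiftLeft_eq', Nat.shiftLeft_eq] at h
  have := congrArg (Nat.cast : ℕ → ℝ) h
  push_cast at this
  rw [pl_one, pl_neg]
  linarith

lemma pl_sl (P N : ℕ) (j : I6) (x : ℝ) : pl (sl P j) (sl N j) 0 x = pl P N j.n x := by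
  simp only [pl, cf', sl, Nat.mul_eq, dg_shift, mul_zero, zero_add]

lemma lkR_ok {c : Bool} {b R d R' : ℕ} (b1 : (0 : ℝ) < b) (h : lkR c b R d R' = true) :
    if c = true then (R' / 2 ^ 24 : ℝ) ≤ 128 / b * (R / 2 ^ 24 - d / 2 ^ 24)
    else (128 / b * (R / 2 ^ 24 + d / 2 ^ 24) : ℝ) ≤ R' / 2 ^ 24 := by
  cases c <;> simp only [lkR, cond_true, cond_false, Nat.ble_eq, Nat.add_eq, Nat.mul_eq] at h <;>
    have h2 := (Nat.cast_le (α := ℝ)).2 h <;> push_cast at h2
  · rw [if_neg (by simp), div_mul_eq_mul_div, div_le_iff₀ b1]; linarith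
  · rw [if_pos rfl, div_mul_eq_mul_div, le_div_iff₀ b1]; linarith

theorem link_ok {w : Bool} {r r' : Raw} (h : link w r r' = true) : r.ss.Link w r'.ss := by
  simp only [link, all6_iff, lkJ, Bool.and_eq_true, Nat.blt_eq, lkC] at h
  have b0 : ∀ j, (0 : ℝ) < r'.be j := fun j => by exact_mod_cast (h j).2.1
  have e1 : r'.xs (-1) = r.xs 1 := funext fun j => by
    have := lk_eq (h j).1
    rw [Nat.cast_one, pow_zero, one_mul, one_mul] at this
    rw [Raw.xs, Raw.xs, this]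
  have e2 : r'.As (-1) = r.As 1 * Matrix.diagonal fun j => (r'.be j / 128 : ℝ) := by
    ext k j
    have := lk_eq ((h j).2.2.2 k)
    simp only [pl_sl, Nat.shiftLeft_eq', Nat.shiftLeft_eq, Nat.add_eq, pow_add] at this
    push_cast at this
    simp only [Matrix.mul_diagonal, Raw.As, Matrix.of_apply]
    linarith
  have e3 : (Matrix.diagonal fun j => (r'.be j / 128 : ℝ))⁻¹
      = Matrix.diagonal fun j => (128 / r'.be j : ℝ) := Matrix.inv_eq_left_inv (by
    rw [Matrix.diagonal_mul_diagonal, ← Matrix.diagonal_one]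
    exact congrArg _ (funext fun j => by have := (b0 j).ne'; field_simp))
  intro j
  refine ⟨128 / r'.be j, div_pos (by norm_num) (b0 j), fun z => ?_, ?_⟩
  · simp only [Raw.ss, Raw.yy, e1, e2, Matrix.mul_inv_rev, e3, ← Matrix.mulVec_mulVec,
      Matrix.mulVec_diagonal]
  have e4 : (w && isU j) = true ↔ w = true ∧ (j = .i0 ∨ j = .i1) := by cases j <;> simp [isU]
  simp only [← e4]
  exact lkR_ok (b0 j) (h j).2.2.1

theorem chain_ok {fin : Raw → Bool} {P : (I6 → ℝ) → Prop}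
    (hf : ∀ r, fin r = true → ∀ z, r.ss.out z → P z) (n D : ℕ) (l : List ℕ)
    (h : chain fin n D l = true) : Chain P n (unpack D).ss (l.map fun D => (unpack D).ss) := by
  induction l generalizing n D with
  | nil =>
    simp only [chain, Bool.and_eq_true] at h
    simp only [List.map_nil, Chain]
    exact ⟨Raw.ss_ok h.1, hf _ h.2⟩
  | cons D' l ih =>
    cases n <;> simp only [chain, Bool.and_eq_true] at h <;>
      exact ⟨Raw.ss_ok h.1, link_ok h.2.1, ih _ _ h.2.2⟩

end Pool.Agent.Lib.MP_6e7c44_mp.LA
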